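import Pool.Agent.P.MP_746f10_nt.P2.PosB

/-! Numbers with two primes in one box, and pointwise bounds. -/

namespace Pool.Agent.P.MP_746f10_nt.P2

open Finset Pool.Agent.P.MP_0ad054_nt.Sun

namespace BadP

lemma cdv_card (A : Finset ℕ) (m : ℕ) : cdv A m = ((A.filter (· ∣ m)).card : ℝ) := by
  rw [cdv, card_filter]; push_cast; rfl

/-- pairs of different primes in one box -/
def W (r R z : ℕ) : Finset (ℕ × ℕ) :=
  (PP R z ×ˢ PP R z).filter fun x => x.1 ≠ x.2 ∧ lb r z x.1 = lb r z x.2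

/-- their products -/
def A (r R z : ℕ) : Finset ℕ := (W r R z).image fun x => x.1 * x.2

lemma sum_A_le (r R z : ℕ) (f : ℕ → ℝ) (hf : ∀ a, 0 ≤ f a) :
    ∑ a ∈ A r R z, f a ≤ ∑ x ∈ W r R z, f (x.1 * x.2) :=
  sum_image_le_of_nonneg fun _ _ => hf _

lemma A_Lv {r R z Z : ℕ} (h : z ^ 2 ≤ Z) : Lv R Z (A r R z) := by
  intro a ha
  obtain ⟨x, hx, rfl⟩ := mem_image.1 ha
  obtain ⟨h1, h2⟩ := mem_product.1 (mem_filter.1 hx).1
  obtain ⟨a1, a2, a3⟩ := mem_PP.1 h1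
  obtain ⟨b1, b2, b3⟩ := mem_PP.1 h2
  refine ⟨Nat.mul_pos a3.pos b3.pos, le_trans ?_ h, fun p hp hd => ?_⟩
  · rw [sq]; exact Nat.mul_le_mul a2 b2
  · rcases (Nat.Prime.dvd_mul hp).1 hd with h | h
    · rwa [(Nat.prime_dvd_prime_iff_eq hp a3).1 h]
    · rwa [(Nat.prime_dvd_prime_iff_eq hp b3).1 h]

lemma ms_A (r R z : ℕ) : ms (A r R z) ≤ ∑ l ∈ PL r R z, gb r R z l ^ 2 := by
  refine (sum_A_le r R z (fun a => 1 / (a : ℝ)) fun a => by positivity).trans ?_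
  have hm : ∀ x ∈ W r R z, lb r z x.1 ∈ PL r R z := fun x hx =>
    mem_image_of_mem _ (mem_product.1 (mem_filter.1 hx).1).1
  rw [← sum_fiberwise_of_maps_to hm]
  refine sum_le_sum fun l _ => ?_
  rw [gb, ms, sq, sum_mul_sum, ← sum_product']
  refine le_trans (le_of_eq (sum_congr rfl fun x _ => ?_))
    (sum_le_sum_of_subset_of_nonneg (fun x hx => ?_) fun x _ _ => by positivity)
  · push_cast; rw [one_div_mul_one_div]
  · obtain ⟨h1, h2⟩ := mem_filter.1 hx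
    obtain ⟨h3, _, h4⟩ := mem_filter.1 h1
    obtain ⟨h5, h6⟩ := mem_product.1 h3
    exact mem_product.2 ⟨mem_filter.2 ⟨h5, h2⟩, mem_filter.2 ⟨h6, h4 ▸ h2⟩⟩

lemma bil_one (B : Finset ℕ) (m : ℕ) : bil B {1} m = cdv B m := by
  simp only [bil, cdv, sum_singleton, mul_one]

lemma one_le_A {r R z m : ℕ} (h : ¬ (∀ l, xb r R z m l = 0 ∨ xb r R z m l = 1)) :
    1 ≤ cdv (A r R z) m := by
  obtain ⟨l, hl⟩ := not_forall.1 h
  rw [xb, cdv_card] at hl
  have h2 : 1 < ((bx r R z l).filter (· ∣ m)).card := by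
    by_contra hc
    apply hl
    rcases Nat.le_one_iff_eq_zero_or_eq_one.1 (not_lt.1 hc) with h | h <;> simp [h]
  obtain ⟨p, hp, q, hq, hne⟩ := one_lt_card.1 h2
  obtain ⟨hp1, hp2⟩ := mem_filter.1 hp
  obtain ⟨hq1, hq2⟩ := mem_filter.1 hq
  obtain ⟨hp3, hp4⟩ := mem_filter.1 hp1
  obtain ⟨hq3, hq4⟩ := mem_filter.1 hq1
  have hm : p * q ∈ (A r R z).filter (· ∣ m) := mem_filter.2
    ⟨mem_image.2 ⟨(p, q), mem_filter.2 ⟨mem_product.2 ⟨hp3, hq3⟩, hne, hp4.trans hq4.symm⟩, rfl⟩,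
      ((Nat.coprime_primes (PP_prime hp3) (PP_prime hq3)).2 hne).mul_dvd_of_dvd_of_dvd hp2 hq2⟩
  rw [cdv_card]
  exact_mod_cast card_pos.2 ⟨_, hm⟩

lemma A_le {r R z m j : ℕ} (hR : 2 ≤ R) (hm : m ≠ 0) (h : m ≤ R ^ j) :
    cdv (A r R z) m ≤ (j : ℝ) ^ 2 := by
  rw [cdv_card]
  have h1 := card_PP_dvd_le (R := z) hm hR h
  have h2 : (A r R z).filter (· ∣ m) ⊆ (((PP R z).filter (· ∣ m)) ×ˢ
      ((PP R z).filter (· ∣ m))).image fun x => x.1 * x.2 := by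
    intro a ha
    obtain ⟨h3, h4⟩ := mem_filter.1 ha
    obtain ⟨x, hx, rfl⟩ := mem_image.1 h3
    obtain ⟨h5, h6⟩ := mem_product.1 (mem_filter.1 hx).1
    exact mem_image_of_mem _ (mem_product.2 ⟨mem_filter.2 ⟨h5, (dvd_mul_right _ _).trans h4⟩,
      mem_filter.2 ⟨h6, (dvd_mul_left _ _).trans h4⟩⟩)
  have h3 := (card_le_card h2).trans card_image_le
  rw [card_product] at h3
  exact_mod_cast h3.trans (by rw [sq]; exact Nat.mul_le_mul h1 h1)

lemma sum_card_le (r R z m : ℕ) (P : Finset ℕ) :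
    ∑ l ∈ P, ((bx r R z l).filter (· ∣ m)).card ≤ ((PP R z).filter (· ∣ m)).card := by
  rw [← card_biUnion]
  · refine card_le_card fun p hp => ?_
    obtain ⟨l, _, hl⟩ := mem_biUnion.1 hp
    obtain ⟨h1, h2⟩ := mem_filter.1 hl
    exact mem_filter.2 ⟨(mem_filter.1 h1).1, h2⟩
  · intro l _ l' _ hne
    refine disjoint_left.2 fun p hp hp' => hne ?_
    exact (mem_filter.1 (mem_filter.1 hp).1).2.symm.trans (mem_filter.1 (mem_filter.1 hp').1).2

lemma Sf_le {r R z m j : ℕ} {P : Finset ℕ} {lam : Finset ℕ → ℝ} (hR : 2 ≤ R)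
    (hl : ∀ T, |lam T| ≤ 1) (hm : m ≠ 0) (h : m ≤ R ^ j) : |Sf P lam (xb r R z m)| ≤ 2 ^ j := by
  have h0 : ∀ l, 0 ≤ xb r R z m l := fun l => cdv_nonneg _ _
  calc |Sf P lam (xb r R z m)| ≤ ∑ T ∈ P.powerset, ∏ l ∈ T, xb r R z m l := by
        refine (abs_sum_le_sum_abs _ _).trans (sum_le_sum fun T _ => ?_)
        have := prod_nonneg fun l (_ : l ∈ T) => h0 l
        rw [abs_mul, abs_of_nonneg this]
        exact mul_le_of_le_one_left this (hl T)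
    _ = ∏ l ∈ P, (1 + xb r R z m l) := (prod_one_add P).symm
    _ ≤ ∏ l ∈ P, (2 : ℝ) ^ ((bx r R z l).filter (· ∣ m)).card := by
        refine prod_le_prod (fun l _ => by linarith [h0 l]) fun l _ => ?_
        rw [xb, cdv_card]
        exact_mod_cast (add_comm 1 _).trans_le Nat.lt_two_pow_self
    _ ≤ 2 ^ j := by
        rw [prod_pow_eq_pow_sum]
        exact pow_le_pow_right₀ one_le_two
          ((sum_card_le r R z m P).trans (card_PP_dvd_le hm hR h))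

end BadP

open BadP in
theorem pBad : S_Bad := by
  refine ⟨fun r R X z hR hX hz => ⟨_, _, Pos.basic (A_Lv (r := r) hz)
    (Lv_one R (Nat.one_le_pow _ _ hX)), ?_, fun m h => ?_, fun m j hm h => ?_⟩,
    fun r R z m j P lam hR hl hm h => Sf_le hR hl hm h, fun r R z m hr => ⟨fun h0 h1 p hp hd => ?_,
    fun h l => ?_⟩⟩
  · rw [ms_one, mul_one]; exact ms_A r R z
  · rw [bil_one]; exact one_le_A h
  · rw [bil_one]; exact A_le hR hm h
  · by_contra hc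
    have hP : p ∈ PP R z := mem_PP.2 ⟨hr p hp hd, not_lt.1 hc, hp⟩
    refine h0 (prod_eq_zero (mem_image_of_mem (lb r z) hP) ?_)
    rcases h1 (lb r z p) with h | h
    · rw [xb, cdv_card, Nat.cast_eq_zero, card_eq_zero] at h
      exact absurd (h ▸ mem_filter.2 ⟨mem_filter.2 ⟨hP, rfl⟩, hd⟩ :
        p ∈ (∅ : Finset ℕ)) (notMem_empty p)
    · rw [h, sub_self]
  · rw [xb, cdv]
    refine sum_eq_zero fun p hp => if_neg fun hd => ?_
    obtain ⟨_, h2, h3⟩ := mem_PP.1 (mem_filter.1 hp).1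
    exact absurd (h p h3 hd) (not_lt.2 h2)

end Pool.Agent.P.MP_746f10_nt.P2
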