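import Pool.Agent.P.MP_746f10_nt.P2.PosB

/-! The detector of numbers with at most two prime factors. -/

namespace Pool.Agent.P.MP_746f10_nt.P2

open Finset Pool.Agent.P.MP_0ad054_nt.Sun

namespace DetP

/-- positive part -/
noncomputable def pp (lam : Finset ℕ → ℝ) (T : Finset ℕ) : ℝ := max (lam T) 0

lemma Sf_split (P : Finset ℕ) (lam : Finset ℕ → ℝ) (w : ℕ → ℝ) :
    Sf P (pp lam) w - Sf P (pp fun T => -lam T) w = Sf P lam w := by
  unfold Sf
  rw [← sum_sub_distrib]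
  refine sum_congr rfl fun T _ => ?_
  rw [← sub_mul]
  congr 1
  unfold pp
  rcases le_total (lam T) 0 with h | h
  · rw [max_eq_right h, max_eq_left (by linarith)]; ring
  · rw [max_eq_left h, max_eq_right (by linarith)]; ring

lemma Sf_abs {P P' : Finset ℕ} (hP : P' ⊆ P) (lam : Finset ℕ → ℝ) (hl : ∀ T, |lam T| ≤ 1)
    (g : ℕ → ℝ) (hg : ∀ l ∈ P, 0 ≤ g l ∧ g l ≤ 1 / 2) :
    Sf P' (pp lam) g + Sf P' (pp fun T => -lam T) g ≤ ∏ l ∈ P, (1 - g l)⁻¹ := by
  have h1 : Sf P' (pp lam) g + Sf P' (pp fun T => -lam T) g ≤ ∏ l ∈ P', (1 + g l) := by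
    unfold Sf
    rw [← sum_add_distrib, prod_one_add]
    refine sum_le_sum fun T hT => ?_
    have h2 : 0 ≤ ∏ l ∈ T, g l := prod_nonneg fun l h => (hg l (hP (mem_powerset.1 hT h))).1
    have h3 : pp lam T + pp (fun T => -lam T) T ≤ 1 := by
      have := abs_le.1 (hl T)
      unfold pp
      rcases le_total (lam T) 0 with h | h
      · rw [max_eq_right h, max_eq_left (by linarith)]; linarith
      · rw [max_eq_left h, max_eq_right (by linarith)]; linarith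
    nlinarith
  have h4 : ∏ l ∈ P', (1 + g l) ≤ ∏ l ∈ P, (1 + g l) :=
    prod_le_prod_of_subset_of_one_le hP (fun l h => by have := (hg l (hP h)).1; linarith)
      fun l h _ => by have := (hg l h).1; linarith
  have h5 : ∏ l ∈ P, (1 + g l) ≤ ∏ l ∈ P, (1 - g l)⁻¹ := by
    refine prod_le_prod (fun l h => by have := (hg l h).1; linarith) fun l h => ?_
    have := hg l h
    rw [← one_div, le_div_iff₀ (by linarith)]
    nlinarith
  linarith

lemma dim_sub {η : ℝ} {P P' : Finset ℕ} {g : ℕ → ℝ} (h : Dim2 η P g) (hP : P' ⊆ P) :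
    Dim2 η P' g := by
  refine ⟨fun l hl => h.1 l (hP hl), fun w z hw hz => le_trans ?_ (h.2 w z hw hz)⟩
  refine prod_le_prod_of_subset_of_one_le (filter_subset_filter _ hP) ?_ ?_
  · intro l hl
    have := (h.1 l (hP (mem_filter.1 hl).1)).2.2
    exact inv_nonneg.2 (by linarith)
  · intro l hl _
    have := h.1 l (mem_filter.1 hl).1
    exact (one_le_inv₀ (by linarith [this.2.2])).2 (by linarith [this.2.1])

lemma dim_mono {η η' : ℝ} {P : Finset ℕ} {g : ℕ → ℝ} (h : Dim2 η P g) (hη : η ≤ η') :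
    Dim2 η' P g := by
  refine ⟨h.1, fun w z hw hz => le_trans (h.2 w z hw hz) ?_⟩
  have h1 : 0 < Real.log w := Real.log_pos hw
  have h2 : 0 < Real.log z := Real.log_pos (by linarith)
  gcongr

lemma V_pos {η : ℝ} {P : Finset ℕ} {g : ℕ → ℝ} (h : Dim2 η P g) : 0 < ∏ l ∈ P, (1 - g l) :=
  prod_pos fun l hl => by have := (h.1 l hl).2.2; linarith

lemma V_le {η : ℝ} {P : Finset ℕ} {g : ℕ → ℝ} (h : Dim2 η P g) (w z : ℝ) (hw : 1 < w)
    (hz : w ≤ z) (hP : ∀ l ∈ P, (l : ℝ) ≤ z) :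
    ∏ l ∈ P.filter (fun l : ℕ => (l : ℝ) ≤ w), (1 - g l) ≤
      (1 + η) * Real.log z / Real.log w * ∏ l ∈ P, (1 - g l) := by
  have h1 := h.2 w z hw hz
  have e1 : P.filter (fun l : ℕ => w < l ∧ (l : ℝ) ≤ z) =
      P.filter (fun l : ℕ => ¬ (l : ℝ) ≤ w) :=
    filter_congr fun l hl => by simp [hP l hl]
  rw [e1, prod_inv_distrib] at h1
  have h2 := V_pos (dim_sub h (filter_subset (fun l : ℕ => ¬ (l : ℝ) ≤ w) P))
  have h3 := V_pos (dim_sub h (filter_subset (fun l : ℕ => (l : ℝ) ≤ w) P))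
  rw [inv_le_iff_one_le_mul₀ h2] at h1
  rw [← prod_filter_mul_prod_filter_not P (fun l : ℕ => (l : ℝ) ≤ w)]
  nlinarith

lemma svp (h3 : S_SvPos) {r R X z top D1 j : ℕ} {P Q : Finset ℕ} {lam : Finset ℕ → ℝ} {N : ℝ}
    (hR : 2 ≤ R) (hz : R ≤ z) (hX : 1 ≤ X) (hD : 1 ≤ D1) (hP : P ⊆ PL r R z)
    (hl : ∀ T, |lam T| ≤ 1) (hQ : Lv z top Q) (ht : top * D1 ≤ X ^ 994)
    (hW : ∀ T ⊆ P, lam T ≠ 0 → WF T ((D1 * X ^ 102 : ℕ) : ℝ)) (hj : D1 * X ^ 102 ≤ R ^ j)
    (hN : (((PL r R z).card : ℝ) + 1) ^ j ≤ N) :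
    Pos R X (fun m => cdv Q m * Sf P (pp lam) (xb r R z m)) (ms Q * Sf P (pp lam) (gb r R z)) N := by
  refine (h3 r R X z top D1 j P Q (pp lam) hR hz hX hD hP (fun T => ⟨le_max_right _ _, ?_⟩) hQ ht
    (fun T hT h0 => hW T hT fun h => h0 (by simp [pp, h])) hj).mono (le_trans ?_ hN)
  · exact max_le (abs_le.1 (hl T)).2 zero_le_one
  · have : (P.card : ℝ) ≤ (PL r R z).card := by exact_mod_cast card_le_card hP
    gcongr

/-- the coefficients -/
noncomputable def cf (i : ℕ) : ℝ := 986 / 957 * (1 - (i : ℝ) / 986)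

lemma cf_bd {i : ℕ} (hi : i ∈ Ico 274 986) : 0 ≤ cf i ∧ cf i ≤ 2 := by
  have h1 : (i : ℝ) ≤ 986 := by exact_mod_cast (mem_Ico.1 hi).2.le
  have h2 : (0 : ℝ) ≤ i := by positivity
  unfold cf
  constructor <;> linarith

lemma sum_cf {f : ℕ → ℝ} {B : ℝ} (hB : 0 ≤ B) (h : ∀ i ∈ Ico 274 986, f i ≤ B) :
    ∑ i ∈ Ico 274 986, cf i * f i ≤ 1424 * B := by
  have : ∑ i ∈ Ico 274 986, cf i * f i ≤ ∑ _i ∈ Ico 274 986, 2 * B :=
    sum_le_sum fun i hi => by
      have h1 := cf_bd hi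
      have h2 := h i hi
      nlinarith
  rw [sum_const, Nat.card_Ico, nsmul_eq_mul] at this
  norm_num at this
  linarith

lemma comb {R X : ℕ} {F : ℕ → ℝ} {κ N : ℝ} (h0 : Pos R X F κ N) {H : ℕ → ℕ → ℝ} {k : ℕ → ℝ}
    (h : ∀ i ∈ Ico 274 986, Pos R X (H i) (k i) N) :
    Pos R X (fun m => F m + ∑ i ∈ Ico 274 986, cf i * H i m)
      (κ + ∑ i ∈ Ico 274 986, cf i * k i) (1425 * N) := by
  refine (h0.add (Pos.sum (Ico 274 986) fun i hi => (h i hi).smul (cf_bd hi).1)).mono ?_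
  have := sum_cf (f := fun _ => N) h0.wt_nonneg fun _ _ => le_rfl
  linarith

lemma mean_low {A V S0 : ℝ} {m S : ℕ → ℝ} (hA : 0 < A) (hV : 0 < V)
    (h0 : (A * Real.log 3 / 4 - A / 8000) * V ≤ S0)
    (hm : ∀ i ∈ Ico 274 986, 0 ≤ m i ∧ m i ≤ 1 / (i : ℝ) + 1 / 7888000)
    (hS : ∀ i ∈ Ico (274 : ℕ) 986,
      S i ≤ (A / 3 + A / 8000) * ((1 + 1 / 8000) * (822 / (1095 - (i : ℝ))) * V))
    (hN : 986 / 957 * ∑ i ∈ Ico (274 : ℕ) 986,
      (1 - (i : ℝ) / 986) * (1 / i) * (274 / (1095 - i)) ≤ Real.log 3 / 4 - 1 / 1000) :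
    A * V / 2000 ≤ S0 - ∑ i ∈ Ico 274 986, cf i * (m i * S i) := by
  have hAV : 0 < A * V := mul_pos hA hV
  have h1 : ∑ i ∈ Ico 274 986, cf i * (m i * S i) ≤ ∑ i ∈ Ico (274 : ℕ) 986,
      A * V * (1 + 6 / 8000) *
        (986 / 957 * ((1 - (i : ℝ) / 986) * (1 / i) * (274 / (1095 - i)))) := by
    refine sum_le_sum fun i hi => ?_
    have a1 : (i : ℝ) ≤ 986 := by exact_mod_cast (mem_Ico.1 hi).2.le
    have a2 : (274 : ℝ) ≤ i := by exact_mod_cast (mem_Ico.1 hi).1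
    have a3 : 0 < 1095 - (i : ℝ) := by linarith
    have a4 : (0 : ℝ) < i := by linarith
    have a5 : m i ≤ (1 + 1 / 8000) * (1 / (i : ℝ)) := by
      have : (1 : ℝ) / 986 ≤ 1 / i := one_div_le_one_div_of_le a4 a1
      have := (hm i hi).2
      linarith
    have a6 : (822 : ℝ) / (1095 - i) = 3 * (274 / (1095 - i)) := by ring
    set u : ℝ := 274 / (1095 - i)
    set v : ℝ := 1 / (i : ℝ)
    have hu : 0 < u := by positivity
    have hv : 0 < v := by positivity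
    have a7 := hS i hi
    rw [a6] at a7
    have a8 : m i * S i ≤ (1 + 1 / 8000) * v *
        ((A / 3 + A / 8000) * ((1 + 1 / 8000) * (3 * u) * V)) :=
      (mul_le_mul_of_nonneg_left a7 (hm i hi).1).trans
        (mul_le_mul_of_nonneg_right a5 (by positivity))
    have a9 : 0 < A * V * (v * u) := by positivity
    have a10 : m i * S i ≤ A * V * (1 + 6 / 8000) * (v * u) := by nlinarith
    have := mul_le_mul_of_nonneg_left a10 (cf_bd hi).1
    refine this.trans (le_of_eq ?_)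
    unfold cf
    ring
  rw [← mul_sum, ← mul_sum] at h1
  have h2 := mul_le_mul_of_nonneg_left hN (show 0 ≤ A * V * (1 + 6 / 8000) by positivity)
  have h3 : Real.log 3 ≤ 2 := by
    have := Real.log_le_sub_one_of_pos (show (0 : ℝ) < 3 by norm_num)
    linarith
  have h4 := mul_le_mul_of_nonneg_left h3 hAV.le
  nlinarith

lemma cdv_le {X i m : ℕ} (hX : 2 ≤ X) (hi : 1 ≤ i) (hm : 1 ≤ m) (h : m ≤ X ^ 2001) (Y : ℕ) :
    cdv (PP (X ^ i) Y) m ≤ 2001 := by
  have h1 : X ≤ X ^ i := Nat.le_self_pow (by omega) X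
  have h2 := card_PP_dvd_le (w := X ^ i) (R := Y) (m := m) (e := 2001) (by omega) (by omega)
    (h.trans (Nat.pow_le_pow_left h1 _))
  unfold cdv
  rw [sum_boole]
  exact_mod_cast h2

lemma wt_small (r a j : ℕ) (c : ℝ) (hc : 0 ≤ c) : ∃ R0 : ℕ, ∀ R : ℕ, R0 ≤ R →
    (c * (((2 ^ (r + 1) * (Nat.log 2 (R ^ a) + 1) : ℕ) : ℝ) + 1) ^ j) ^ 4 ≤ R := by
  set c1 : ℝ := 2 ^ (r + 1) * (2 * a + 1) + 1
  set K : ℝ := c ^ 4 * c1 ^ (j * 4) + 1
  have hK : 0 < K := by positivity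
  have h1 := (Real.isLittleO_pow_log_id_atTop (n := j * 4)).bound (show 0 < 1 / K by positivity)
  obtain ⟨x0, hx0⟩ := Filter.eventually_atTop.1 h1
  refine ⟨max ⌈x0⌉₊ 3, fun R hR => ?_⟩
  have hR3 : (3 : ℝ) ≤ R := by exact_mod_cast le_of_max_le_right hR
  have hRx : x0 ≤ R := (Nat.le_ceil x0).trans (by exact_mod_cast le_of_max_le_left hR)
  have hy : 1 ≤ Real.log R := by
    rw [Real.le_log_iff_exp_le (by linarith)]
    have := Real.exp_one_lt_d9
    linarith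
  have h2 := hx0 R hRx
  rw [Real.norm_of_nonneg (by positivity), id, Real.norm_of_nonneg (by positivity), one_div,
    ← div_eq_inv_mul, le_div_iff₀ hK] at h2
  have h3 : (Nat.log 2 (R ^ a) : ℝ) ≤ 2 * a * Real.log R := by
    have b1 : 2 ^ Nat.log 2 (R ^ a) ≤ R ^ a :=
      Nat.pow_log_le_self 2 (pow_ne_zero _ (by have := le_of_max_le_right hR; omega))
    have b2 : (2 : ℝ) ^ Nat.log 2 (R ^ a) ≤ (R : ℝ) ^ a := by exact_mod_cast b1
    have b3 := Real.log_le_log (by positivity) b2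
    rw [Real.log_pow, Real.log_pow] at b3
    have b4 := Real.log_two_gt_d9
    have b5 : (0 : ℝ) ≤ Nat.log 2 (R ^ a) := by positivity
    nlinarith
  set y := Real.log R
  have h4 : ((2 ^ (r + 1) * (Nat.log 2 (R ^ a) + 1) : ℕ) : ℝ) + 1 ≤ c1 * y := by
    push_cast
    have b1 : (2 : ℝ) ^ (r + 1) * (Nat.log 2 (R ^ a) + 1) ≤ 2 ^ (r + 1) * ((2 * a + 1) * y) :=
      mul_le_mul_of_nonneg_left (by linarith) (by positivity)
    simp only [c1]
    linarith
  calc _ ≤ (c * (c1 * y) ^ j) ^ 4 := by gcongr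
    _ = c ^ 4 * c1 ^ (j * 4) * y ^ (j * 4) := by rw [mul_pow, ← pow_mul, mul_pow, mul_assoc]
    _ ≤ K * y ^ (j * 4) := mul_le_mul_of_nonneg_right (by simp only [K]; linarith) (by positivity)
    _ ≤ R := by linarith

/-- the real levels -/
noncomputable def zz (X i : ℕ) : ℝ := (X : ℝ) ^ ((1095 - (i : ℝ)) / 3)

lemma zz_facts {X i : ℕ} (hX : 2 ≤ X) (hi : i ∈ Ico 274 986) :
    (X : ℝ) ≤ zz X i ∧ zz X i ≤ ((X ^ 274 : ℕ) : ℝ) ∧
    zz X i ^ 3 = ((X ^ (993 - i) * X ^ 102 : ℕ) : ℝ) ∧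
    Real.log ((X ^ 274 : ℕ) : ℝ) / Real.log (zz X i) = 822 / (1095 - (i : ℝ)) := by
  have a1 : (i : ℝ) ≤ 986 := by exact_mod_cast (mem_Ico.1 hi).2.le
  have a2 : (274 : ℝ) ≤ i := by exact_mod_cast (mem_Ico.1 hi).1
  have hX' : (2 : ℝ) ≤ X := by exact_mod_cast hX
  have hX1 : (1 : ℝ) ≤ X := by linarith
  unfold zz
  refine ⟨?_, ?_, ?_, ?_⟩
  · have := Real.rpow_le_rpow_of_exponent_le hX1 (show 1 ≤ (1095 - (i : ℝ)) / 3 by linarith)
    rwa [Real.rpow_one] at this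
  · have := Real.rpow_le_rpow_of_exponent_le hX1
      (show (1095 - (i : ℝ)) / 3 ≤ ((274 : ℕ) : ℝ) by push_cast; linarith)
    rw [Real.rpow_natCast] at this
    exact_mod_cast this
  · rw [← Real.rpow_natCast, ← Real.rpow_mul (by linarith), ← pow_add, Nat.cast_pow,
      ← Real.rpow_natCast]
    congr 1
    have := (mem_Ico.1 hi).2
    rw [Nat.cast_add, Nat.cast_sub (by omega)]
    push_cast
    ring
  · have : 0 < Real.log X := Real.log_pos (by linarith)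
    have a3 : 0 < 1095 - (i : ℝ) := by linarith
    rw [Nat.cast_pow, Real.log_pow, Real.log_rpow (by linarith)]
    push_cast
    field_simp
    norm_num

end DetP

open DetP in
theorem pDet (h1 : S_Lin2) (h2 : S_DimB) (h3 : S_SvPos) (h4 : S_Bad) (h5 : S_Num) : S_Det := by
  obtain ⟨A, hA, hL⟩ := h1
  obtain ⟨η, hη, z0, hL⟩ := hL (A / 8000) (by positivity)
  have hA' : 0 < 2192000 / A := by positivity
  refine ⟨780900 + A + 2192000 / A, by linarith, fun q hq => ?_⟩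
  have hq' : (1 : ℝ) ≤ q := by exact_mod_cast hq
  set L0 : ℝ := 2 ^ (q * 2001) * (1 + 1424 * 2001) with hL0
  have hL0p : 0 < L0 := by positivity
  obtain ⟨r, R1, hD⟩ := h2 (min η (1 / 8000)) (A / (2192000 * q) / L0) (q * 274)
    (lt_min hη (by norm_num)) (by positivity)
  obtain ⟨X0, hX0⟩ := h5.2.1 (1 / 7888000) (by norm_num)
  obtain ⟨R2, hR2⟩ := wt_small r (q * 274) (q * 1096) (1425 + L0) (by positivity)
  refine ⟨L0 + L0 * ((q * 2001 : ℕ) : ℝ) ^ 2, max (max R1 R2) (max (max X0 ⌈z0⌉₊) 2),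
    fun R hR => ?_⟩
  simp only [max_le_iff] at hR
  obtain ⟨⟨hR1, hR2'⟩, ⟨hRX, hRz⟩, hR⟩ := hR
  have hRz' : z0 ≤ R := (Nat.le_ceil z0).trans (by exact_mod_cast hRz)
  have hS4 := hR2 R hR2'
  rw [pow_mul R q 274] at hS4
  have hpow : ∀ e, (R ^ q) ^ e = R ^ (q * e) := fun e => (pow_mul R q e).symm
  have hXR : R ≤ R ^ q := Nat.le_self_pow (by omega) R
  generalize R ^ q = X at hS4 hpow hXR ⊢
  have hX : 2 ≤ X := hR.trans hXR
  have hXR' : (R : ℝ) ≤ X := by exact_mod_cast hXR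
  have hzX : X ≤ X ^ 274 := Nat.le_self_pow (by omega) X
  have hzR : R ≤ X ^ 274 := hXR.trans hzX
  have hzR' : (R : ℝ) ≤ ((X ^ 274 : ℕ) : ℝ) := by exact_mod_cast hzR
  obtain ⟨hdim, hsq, hcard, hlab⟩ := hD R (X ^ 274) hR1 hzR (hpow 274).le
  have hdη := dim_mono hdim (min_le_left _ _)
  have hdτ := dim_mono hdim (min_le_right _ _)
  set P := PL r R (X ^ 274) with hP
  set g := gb r R (X ^ 274) with hg
  have hPz : ∀ l ∈ P, (l : ℝ) ≤ ((X ^ 274 : ℕ) : ℝ) := fun l hl => by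
    exact_mod_cast (hlab l hl).2
  have hV := V_pos hdτ
  have hR1' : (1 : ℝ) < R := by exact_mod_cast (show 1 < R by omega)
  have hinv : ∏ l ∈ P, (1 - g l)⁻¹ ≤ 548 * q := by
    have a1 := hdτ.2 R _ hR1' hzR'
    rw [filter_true_of_mem fun l hl => ⟨by exact_mod_cast (hlab l hl).1, hPz l hl⟩, hpow 274,
      Nat.cast_pow, Real.log_pow] at a1
    have a2 : 0 < Real.log R := Real.log_pos hR1'
    rw [← mul_assoc, mul_div_assoc, div_self a2.ne'] at a1
    push_cast at a1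
    linarith
  obtain ⟨lam0, hl0, hm0⟩ := (hL P g _ (hRz'.trans hzR') hdη hPz).2
  have hex : ∀ i ∈ Ico 274 986, ∃ lam,
      IsW2 1 (P.filter fun l : ℕ => (l : ℝ) ≤ zz X i) lam (zz X i ^ 3) ∧
      Sf (P.filter fun l : ℕ => (l : ℝ) ≤ zz X i) lam g ≤
        (A / 3 + A / 8000) * ∏ l ∈ P.filter fun l : ℕ => (l : ℝ) ≤ zz X i, (1 - g l) :=
    fun i hi => (hL _ g _ (hRz'.trans (hXR'.trans (zz_facts hX hi).1))
      (dim_sub hdη (filter_subset _ _)) fun l hl => (mem_filter.1 hl).2).1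
  choose! lam hl hm using hex
  obtain ⟨Bd, κb, hB1, hB2, hB3, hB4⟩ := h4.1 r R X (X ^ 274) hR (by omega)
    (by rw [← pow_mul]; exact Nat.pow_le_pow_right (by omega) (by norm_num))
  set N : ℝ := (((2 ^ (r + 1) * (Nat.log 2 (X ^ 274) + 1) : ℕ) : ℝ) + 1) ^ (q * 1096) with hN
  have hN1 : 1 ≤ N := one_le_pow₀ (le_add_of_nonneg_left (by positivity))
  have hNc : ((P.card : ℝ) + 1) ^ (q * 1096) ≤ N := by
    have : (P.card : ℝ) ≤ ((2 ^ (r + 1) * (Nat.log 2 (X ^ 274) + 1) : ℕ) : ℝ) := by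
      exact_mod_cast hcard
    exact pow_le_pow_left₀ (by positivity) (by linarith) _
  have hX1 : 1 ≤ X := by omega
  have p0 : ∀ lm : Finset ℕ → ℝ, (∀ T, |lm T| ≤ 1) → (∀ T, lm T ≠ 0 → lam0 T ≠ 0) →
      Pos R X (fun m => Sf P (pp lm) (xb r R (X ^ 274) m)) (Sf P (pp lm) g) N := by
    intro lm a1 a2
    refine (svp h3 (D1 := X ^ 994) (Q := {1}) (top := 1) hR hzR hX1 (Nat.one_le_pow _ _ hX1)
      Subset.rfl a1 (Lv_one _ le_rfl) (by omega) (fun T hT h0 => ?_) ?_ hNc).congr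
      (fun m => by rw [cdv_one, one_mul]) (by rw [ms_one, one_mul])
    · have := hl0.2.1 T hT (a2 T h0)
      rwa [← Nat.cast_pow, ← pow_mul, show 274 * 4 = 994 + 102 by norm_num, pow_add] at this
    · rw [← pow_add, ← hpow]
  have pi : ∀ i ∈ Ico 274 986, ∀ lm : Finset ℕ → ℝ, (∀ T, |lm T| ≤ 1) →
      (∀ T, lm T ≠ 0 → lam i T ≠ 0) →
      Pos R X (fun m => cdv (PP (X ^ i) (X ^ (i + 1))) m *
          Sf (P.filter fun l : ℕ => (l : ℝ) ≤ zz X i) (pp lm) (xb r R (X ^ 274) m))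
        (ms (PP (X ^ i) (X ^ (i + 1))) *
          Sf (P.filter fun l : ℕ => (l : ℝ) ≤ zz X i) (pp lm) g) N := by
    intro i hi lm a1 a2
    have hi' := mem_Ico.1 hi
    refine svp h3 (D1 := X ^ (993 - i)) (top := X ^ (i + 1)) hR hzR hX1 (Nat.one_le_pow _ _ hX1)
      (filter_subset _ _) a1 (fun a ha => ?_) ?_ (fun T hT h0 => ?_) ?_ hNc
    · obtain ⟨b1, b2, b3⟩ := mem_PP.1 ha
      refine ⟨b3.one_le, b2, fun p hp hd => ?_⟩
      rw [(Nat.prime_dvd_prime_iff_eq hp b3).1 hd]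
      exact lt_of_le_of_lt (Nat.pow_le_pow_right hX1 hi'.1) b1
    · rw [← pow_add]; exact Nat.pow_le_pow_right hX1 (by omega)
    · rw [← (zz_facts hX hi).2.2.1]; exact (hl i hi).2.1 T hT (a2 T h0)
    · rw [← pow_add, ← hpow]; exact Nat.pow_le_pow_right hX1 (by omega)
  have q1 := comb (p0 lam0 hl0.1 fun _ h => h) fun i hi =>
    pi i hi (fun T => -lam i T) (fun T => by rw [abs_neg]; exact (hl i hi).1 T)
      fun _ h => neg_ne_zero.1 h
  have q2 := (comb (p0 (fun T => -lam0 T) (fun T => by rw [abs_neg]; exact hl0.1 T)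
    fun _ h => neg_ne_zero.1 h) fun i hi => pi i hi (lam i) (hl i hi).1 fun _ h => h).add
      (hB1.smul hL0p.le)
  have hdiff : ∀ (c : ℕ → ℝ) (w : ℕ → ℝ) (b : ℝ),
      (Sf P (pp lam0) w + ∑ i ∈ Ico 274 986, cf i * (c i *
        Sf (P.filter fun l : ℕ => (l : ℝ) ≤ zz X i) (pp fun T => -lam i T) w)) -
      (Sf P (pp fun T => -lam0 T) w + ∑ i ∈ Ico 274 986, cf i * (c i *
        Sf (P.filter fun l : ℕ => (l : ℝ) ≤ zz X i) (pp (lam i)) w) + b) =
      Sf P lam0 w - ∑ i ∈ Ico 274 986, cf i * (c i *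
        Sf (P.filter fun l : ℕ => (l : ℝ) ≤ zz X i) (lam i) w) - b := by
    intro c w b
    rw [← Sf_split P lam0 w]
    simp only [← Sf_split _ (lam _) w, mul_sub, sum_sub_distrib]
    ring
  have hms : ∀ i ∈ Ico (274 : ℕ) 986, 0 ≤ ms (PP (X ^ i) (X ^ (i + 1))) ∧
      ms (PP (X ^ i) (X ^ (i + 1))) ≤ 1 / (i : ℝ) + 1 / 7888000 := fun i hi =>
    ⟨ms_nonneg _, hX0 X i (hRX.trans hXR) (by have := (mem_Ico.1 hi).1; omega)⟩
  have hκb : L0 * κb ≤ A / (2192000 * q) := by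
    have := hB2.trans hsq
    rw [le_div_iff₀ hL0p] at this
    linarith
  have hDm : ∀ m, 1 ≤ m → m ≤ X ^ 2001 →
      |Sf P lam0 (xb r R (X ^ 274) m) - ∑ i ∈ Ico 274 986, cf i * (cdv (PP (X ^ i) (X ^ (i + 1))) m *
        Sf (P.filter fun l : ℕ => (l : ℝ) ≤ zz X i) (lam i) (xb r R (X ^ 274) m))| ≤ L0 := by
    intro m hm1 hm2
    have a0 : m ≤ R ^ (q * 2001) := by rwa [← hpow]
    have a1 := abs_le.1 (h4.2.1 r R (X ^ 274) m _ P lam0 hR hl0.1 (by omega) a0)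
    have a2 : ∀ i ∈ Ico 274 986, |cdv (PP (X ^ i) (X ^ (i + 1))) m *
        Sf (P.filter fun l : ℕ => (l : ℝ) ≤ zz X i) (lam i) (xb r R (X ^ 274) m)| ≤
        2001 * 2 ^ (q * 2001) := fun i hi => by
      rw [abs_mul, abs_of_nonneg (cdv_nonneg _ _)]
      exact mul_le_mul (cdv_le hX (by have := (mem_Ico.1 hi).1; omega) hm1 hm2 _)
        (h4.2.1 r R (X ^ 274) m _ _ _ hR (hl i hi).1 (by omega) a0) (abs_nonneg _) (by norm_num)
    have a3 := sum_cf (by positivity) fun i hi => (abs_le.1 (a2 i hi)).2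
    have a4 := sum_cf (by positivity) fun i hi => neg_le.1 (abs_le.1 (a2 i hi)).1
    simp only [mul_neg, sum_neg_distrib] at a4
    rw [abs_le]
    constructor <;> linarith
  refine ⟨_, _, _, _, (1425 + L0) * N, q1.mono (by nlinarith), q2.mono (by nlinarith), hS4, ?_, ?_,
    fun m hm1 hm2 => ?_, fun m hm1 hm2 hr hs hlt => ?_⟩
  · have hgb : ∀ l ∈ P, 0 ≤ g l ∧ g l ≤ 1 / 2 := fun l hl => (hdτ.1 l hl).2
    have a1 := (Sf_abs Subset.rfl lam0 hl0.1 g hgb).trans hinv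
    have a2 := sum_cf (B := 548 * q) (f := fun i => ms (PP (X ^ i) (X ^ (i + 1))) *
        Sf (P.filter fun l : ℕ => (l : ℝ) ≤ zz X i) (pp (lam i)) g +
        ms (PP (X ^ i) (X ^ (i + 1))) *
        Sf (P.filter fun l : ℕ => (l : ℝ) ≤ zz X i) (pp fun T => -lam i T) g) (by positivity)
      fun i hi => by
        have b1 := (Sf_abs (filter_subset (fun l : ℕ => (l : ℝ) ≤ zz X i) P) (lam i) (hl i hi).1 g
          hgb).trans hinv
        have b2 := hms i hi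
        have b3 : (274 : ℝ) ≤ i := by exact_mod_cast (mem_Ico.1 hi).1
        have b4 : 1 / (i : ℝ) ≤ 1 / 274 := one_div_le_one_div_of_le (by norm_num) b3
        have b5 := mul_le_mul_of_nonneg_left b1 b2.1
        have b6 : ms (PP (X ^ i) (X ^ (i + 1))) * (548 * q) ≤ 1 * (548 * q) :=
          mul_le_mul_of_nonneg_right (by linarith [b2.2]) (by positivity)
        linarith
    simp only [mul_add, sum_add_distrib] at a2
    have a3 : A / (2192000 * q) ≤ A * q := by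
      rw [div_le_iff₀ (by positivity)]
      have : 1 ≤ q * (2192000 * q : ℝ) := by nlinarith
      nlinarith
    have a4 : 0 ≤ 2192000 / A * q := by positivity
    linarith
  · rw [hdiff]
    have a1 := mean_low hA hV hm0 hms (fun i hi => (hm i hi).trans (by
      have b1 := zz_facts hX hi
      have b2 := V_le hdτ (zz X i) _ (lt_of_lt_of_le (by linarith) b1.1) b1.2.1 hPz
      rw [mul_div_assoc, b1.2.2.2] at b2
      exact mul_le_mul_of_nonneg_left b2 (by positivity))) h5.1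
    rw [prod_inv_distrib, inv_le_iff_one_le_mul₀ hV] at hinv
    have a2 : A / (2192000 * q) * 2 ≤ A * (∏ l ∈ P, (1 - g l)) / 2000 := by
      rw [div_mul_eq_mul_div, div_le_div_iff₀ (by positivity) (by norm_num)]
      nlinarith
    have a3 : 1 / ((780900 + A + 2192000 / A) * q) ≤ A / (2192000 * q) := by
      rw [div_le_div_iff₀ (by positivity) (by positivity)]
      have : A * (2192000 / A) = 2192000 := by field_simp
      have b1 : 0 ≤ A * ((780900 + A) * q) := by positivity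
      nlinarith
    linarith
  · rw [hdiff]
    have a1 := abs_le.1 (hDm m hm1 hm2)
    have a2 := mul_le_mul_of_nonneg_left (hB4 m (q * 2001) (by omega) (by rwa [← hpow])) hL0p.le
    have a3 := mul_nonneg hL0p.le (hB1.nonneg m)
    rw [abs_le]
    constructor <;> linarith
  · have a0 := sub_pos.2 hlt
    rw [hdiff] at a0
    have a1 := (abs_le.1 (hDm m hm1 hm2)).2
    have a3 := mul_nonneg hL0p.le (hB1.nonneg m)
    have a4 : ∀ l, xb r R (X ^ 274) m l = 0 ∨ xb r R (X ^ 274) m l = 1 := by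
      by_contra h
      have := mul_le_mul_of_nonneg_left (hB3 m h) hL0p.le
      linarith
    have a5 := hl0.2.2 _ a4
    have a6 : ∀ i ∈ Ico 274 986,
        ∏ l ∈ P.filter fun l : ℕ => (l : ℝ) ≤ zz X i, (1 - xb r R (X ^ 274) m l) ≤
        Sf (P.filter fun l : ℕ => (l : ℝ) ≤ zz X i) (lam i) (xb r R (X ^ 274) m) := fun i hi => by
      have := (hl i hi).2.2 _ a4
      linarith
    have a7 : 0 ≤ ∑ i ∈ Ico 274 986, cf i * (cdv (PP (X ^ i) (X ^ (i + 1))) m *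
        Sf (P.filter fun l : ℕ => (l : ℝ) ≤ zz X i) (lam i) (xb r R (X ^ 274) m)) :=
      sum_nonneg fun i hi => mul_nonneg (cf_bd hi).1 (mul_nonneg (cdv_nonneg _ _)
        (le_trans (prod_nonneg fun l _ => by rcases a4 l with h | h <;> simp [h]) (a6 i hi)))
    have a8 := (h4.2.2 r R (X ^ 274) m hr).1 (ne_of_gt (by linarith)) a4
    have a9 := (h4.2.2 r R (X ^ 274) m hr).2 a8
    simp only [a9, sub_zero, prod_const_one] at a5 a6
    refine h5.2.2 X m hX hm1 hm2 a8 hs ?_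
    have a10 : ∑ i ∈ Ico 274 986, cf i * cdv (PP (X ^ i) (X ^ (i + 1))) m ≤
        ∑ i ∈ Ico 274 986, cf i * (cdv (PP (X ^ i) (X ^ (i + 1))) m *
          Sf (P.filter fun l : ℕ => (l : ℝ) ≤ zz X i) (lam i) (xb r R (X ^ 274) m)) :=
      sum_le_sum fun i hi => mul_le_mul_of_nonneg_left
        (le_mul_of_one_le_right (cdv_nonneg _ _) (a6 i hi)) (cf_bd hi).1
    rw [mul_sum]
    simp only [← mul_assoc]
    change ∑ i ∈ Ico 274 986, cf i * cdv (PP (X ^ i) (X ^ (i + 1))) m < 1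
    linarith

end Pool.Agent.P.MP_746f10_nt.P2
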