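import Pool.Agent.P.MP_746f10_nt.P2.Defs
import Pool.Agent.P.MP_0ad054_nt.Chen.Dim

/-! Boxes of primes form a system of dimension one. -/

namespace Pool.Agent.P.MP_746f10_nt.P2

open Finset Pool.Agent.P.MP_a14ce1_nt.Ch Pool.Agent.P.MP_0ad054_nt.Chen

namespace DimBP

theorem le_lb (h : S_Bx) (r : ℕ) {z p : ℕ} (hp : p ≤ z) : p ≤ lb r z p :=
  le_min hp (h.1 r p).2.1

theorem lb_le (h : S_Bx) (r z p : ℕ) : lb r z p ≤ p + p / 2 ^ r :=
  (min_le_right _ _).trans
    (Nat.add_le_add (h.1 r p).1 (Nat.div_le_div_right (h.1 r p).1))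

theorem lb_le2 (h : S_Bx) (r z p : ℕ) : lb r z p ≤ 2 * p := by
  have h1 := lb_le h r z p
  have h2 : p / 2 ^ r ≤ p := Nat.div_le_self _ _
  omega

theorem lab (h : S_Bx) {r R z l : ℕ} (hl : l ∈ PL r R z) : R < l ∧ l ≤ z := by
  obtain ⟨p, hp, rfl⟩ := mem_image.1 hl
  have hp' := mem_PP.1 hp
  exact ⟨hp'.1.trans_le (le_lb h r hp'.2.1), min_le_left _ _⟩

theorem gb_nonneg (r R z l : ℕ) : 0 ≤ gb r R z l := by
  unfold gb ms
  exact sum_nonneg fun _ _ => by positivity

theorem gb_le (h : S_Bx) {r R z l : ℕ} (hR : 1 ≤ R) (hl : R < l) :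
    gb r R z l ≤ 2 / 2 ^ r + 2 / R := by
  have hl0 : (0 : ℝ) < l := by exact_mod_cast (by omega : 0 < l)
  have hR0 : (0 : ℝ) < R := by exact_mod_cast (by omega : 0 < R)
  have hsub : bx r R z l ⊆ Icc (l - l / 2 ^ r) l := by
    intro p hp
    obtain ⟨hp1, hp2⟩ := mem_filter.1 hp
    have h1 := le_lb h r (mem_PP.1 hp1).2.1
    have h2 := lb_le h r z p
    rw [hp2] at h1 h2
    have h3 : p / 2 ^ r ≤ l / 2 ^ r := Nat.div_le_div_right h1
    rw [mem_Icc]
    omega
  have hcard : ((bx r R z l).card : ℝ) ≤ (l : ℝ) / 2 ^ r + 1 := by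
    have h1 := card_le_card hsub
    rw [Nat.card_Icc] at h1
    have h2 : l / 2 ^ r ≤ l := Nat.div_le_self _ _
    have h3 : (bx r R z l).card ≤ l / 2 ^ r + 1 := by
      generalize l / 2 ^ r = u at h1 h2
      omega
    have h4 : ((l / 2 ^ r : ℕ) : ℝ) ≤ (l : ℝ) / 2 ^ r := by
      have := @Nat.cast_div_le ℝ _ _ _ l (2 ^ r)
      simpa using this
    have h5 : ((bx r R z l).card : ℝ) ≤ ((l / 2 ^ r : ℕ) : ℝ) + 1 := by exact_mod_cast h3
    linarith
  have hterm : ∀ p ∈ bx r R z l, 1 / (p : ℝ) ≤ 2 / l := by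
    intro p hp
    obtain ⟨hp1, hp2⟩ := mem_filter.1 hp
    have h2 := lb_le2 h r z p
    rw [hp2] at h2
    have hp0 : (0 : ℝ) < p := by linarith [PP_two hp1]
    have h3 : (l : ℝ) ≤ 2 * p := by exact_mod_cast h2
    rw [div_le_div_iff₀ hp0 hl0]
    linarith
  have h1 : gb r R z l ≤ (bx r R z l).card • (2 / (l : ℝ)) := sum_le_card_nsmul _ _ _ hterm
  rw [nsmul_eq_mul] at h1
  have h2 : ((bx r R z l).card : ℝ) * (2 / l) ≤ ((l : ℝ) / 2 ^ r + 1) * (2 / l) := by gcongr
  have h3 : ((l : ℝ) / 2 ^ r + 1) * (2 / l) = 2 / 2 ^ r + 2 / l := by field_simp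
  have h4 : (2 : ℝ) / l ≤ 2 / R := by
    have : (R : ℝ) ≤ l := by exact_mod_cast hl.le
    gcongr
  linarith

/-- the boxes with labels in `T` only contain primes of `(a, b]` -/
theorem sum_gb_le {r R z a b : ℕ} (T : Finset ℕ)
    (hT : ∀ p ∈ PP R z, lb r z p ∈ T → a < p ∧ p ≤ b) :
    ∑ l ∈ T, gb r R z l ≤ Mertens.S a b := by
  have h1 : ∑ l ∈ T, gb r R z l =
      ∑ p ∈ (PP R z).filter (fun p => lb r z p ∈ T), 1 / (p : ℝ) := by
    rw [← sum_fiberwise_of_maps_to (s := (PP R z).filter fun p => lb r z p ∈ T) (t := T)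
      (g := lb r z) (fun p hp => (mem_filter.1 hp).2)]
    refine sum_congr rfl fun l hl => ?_
    unfold gb ms bx
    refine sum_congr ?_ fun _ _ => rfl
    ext p
    simp only [mem_filter]
    constructor
    · rintro ⟨h1, h2⟩
      exact ⟨⟨h1, h2 ▸ hl⟩, h2⟩
    · rintro ⟨⟨h1, _⟩, h2⟩
      exact ⟨h1, h2⟩
  rw [h1, Mertens.S]
  refine sum_le_sum_of_subset_of_nonneg ?_ fun _ _ _ => by positivity
  intro p hp
  obtain ⟨hp1, hp2⟩ := mem_filter.1 hp
  have := hT p hp1 hp2
  exact mem_filter.2 ⟨mem_Ioc.2 this, PP_prime hp1⟩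

theorem inv_le_exp {g : ℝ} (h1 : g ≤ 1 / 2) :
    (1 - g)⁻¹ ≤ Real.exp (g + 2 * g ^ 2) := by
  have h2 := Real.add_one_le_exp (g + 2 * g ^ 2)
  have h3 : 0 < 1 - g := by linarith
  refine le_trans ?_ h2
  rw [inv_eq_one_div, div_le_iff₀ h3]
  have h4 : 0 ≤ g ^ 2 * (1 - 2 * g) := mul_nonneg (sq_nonneg g) (by linarith)
  nlinarith

theorem card_le (h : S_Bx) (r R z : ℕ) :
    (PL r R z).card ≤ 2 ^ (r + 1) * (Nat.log 2 z + 1) := by
  have h1 : PL r R z = ((PP R z).image (phi r)).image (fun f => min z (f + f / 2 ^ r)) := by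
    rw [image_image]
    rfl
  rw [h1]
  refine card_image_le.trans (le_trans (card_le_card (image_subset_image ?_)) (h.2 r z))
  intro p hp
  have := mem_PP.1 hp
  rw [mem_Icc]
  omega

/-- the total mass -/
theorem total {K : ℝ} (hS : ∀ a b : ℕ, 2 ≤ a → a ≤ b →
      |Mertens.S a b - (Real.log (Real.log b) - Real.log (Real.log a))| ≤ K / Real.log a)
    {r R z j : ℕ} (hR : 2 ≤ R) (hRz : R ≤ z) (hz : z ≤ R ^ j) (hK : K ≤ Real.log R) :
    ∑ l ∈ PL r R z, gb r R z l ≤ j + 1 := by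
  have h1 : ∑ l ∈ PL r R z, gb r R z l ≤ Mertens.S R z :=
    sum_gb_le _ fun p hp _ => ⟨(mem_PP.1 hp).1, (mem_PP.1 hp).2.1⟩
  have h2 := (abs_le.1 (hS R z hR hRz)).2
  have hR1 : (1 : ℝ) < R := by exact_mod_cast (by omega : 1 < R)
  have hlR : 0 < Real.log R := Real.log_pos hR1
  have hz1 : (1 : ℝ) < z := by exact_mod_cast (by omega : 1 < z)
  have hlz : 0 < Real.log z := Real.log_pos hz1
  have h3 : K / Real.log R ≤ 1 := (div_le_one hlR).2 hK
  have h4 : Real.log z ≤ j * Real.log R := by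
    rw [← Real.log_pow]
    exact Real.log_le_log (by linarith) (by exact_mod_cast hz)
  have h5 : Real.log (Real.log z) - Real.log (Real.log R) ≤ j := by
    rw [← Real.log_div hlz.ne' hlR.ne']
    have h6 := Real.log_le_sub_one_of_pos (div_pos hlz hlR)
    have h7 : Real.log z / Real.log R ≤ j := (div_le_iff₀ hlR).2 h4
    linarith
  linarith

/-- the mass of the boxes with labels in a range -/
theorem range_le (h : S_Bx) {K : ℝ} (hK : 0 < K) (hS : ∀ a b : ℕ, 2 ≤ a → a ≤ b →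
      |Mertens.S a b - (Real.log (Real.log b) - Real.log (Real.log a))| ≤ K / Real.log a)
    {r R z : ℕ} (hR : 2 ≤ R) {w y : ℝ} (hw : 1 < w) (hwy : w ≤ y) :
    ∑ l ∈ (PL r R z).filter (fun l : ℕ => w < l ∧ (l : ℝ) ≤ y), gb r R z l ≤
      Real.log (Real.log y / Real.log w) + (K + 2) / Real.log R := by
  have hR1 : (1 : ℝ) < R := by exact_mod_cast (by omega : 1 < R)
  have hlR : 0 < Real.log R := Real.log_pos hR1
  have hlw : 0 < Real.log w := Real.log_pos hw
  have hlwy : Real.log w ≤ Real.log y := Real.log_le_log (by linarith) hwy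
  have hly : 0 < Real.log y := hlw.trans_le hlwy
  set a : ℕ := max R ⌊w / 2⌋₊ with ha
  set b : ℕ := ⌊y⌋₊ with hb
  have h1 : ∑ l ∈ (PL r R z).filter (fun l : ℕ => w < l ∧ (l : ℝ) ≤ y), gb r R z l ≤
      Mertens.S a b := by
    refine sum_gb_le _ fun p hp hl => ?_
    obtain ⟨_, hl1, hl2⟩ := mem_filter.1 hl
    have hp' := mem_PP.1 hp
    have e1 : (p : ℝ) ≤ lb r z p := by exact_mod_cast le_lb h r hp'.2.1
    have e2 : (lb r z p : ℝ) ≤ 2 * p := by exact_mod_cast lb_le2 h r z p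
    refine ⟨max_lt hp'.1 ?_, Nat.le_floor (e1.trans hl2)⟩
    rw [Nat.floor_lt (by linarith)]
    linarith
  refine h1.trans ?_
  rcases le_or_gt a b with hab | hab
  · have ha2 : 2 ≤ a := hR.trans (le_max_left _ _)
    have h2 := (abs_le.1 (hS a b ha2 hab)).2
    have hRa : (R : ℝ) ≤ a := by exact_mod_cast le_max_left _ _
    have hla : Real.log R ≤ Real.log a := Real.log_le_log (by linarith) hRa
    have hla0 : 0 < Real.log a := hlR.trans_le hla
    have hb1 : (1 : ℝ) < b := by exact_mod_cast (by omega : 1 < b)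
    have hlb0 : 0 < Real.log b := Real.log_pos hb1
    have hby : Real.log b ≤ Real.log y :=
      Real.log_le_log (by linarith) (Nat.floor_le (by linarith))
    have h3 : Real.log (Real.log b) ≤ Real.log (Real.log y) := Real.log_le_log hlb0 hby
    have h4 : w ≤ 4 * a := by
      have e1 := Nat.lt_floor_add_one (w / 2)
      have e2 : (⌊w / 2⌋₊ : ℝ) ≤ a := by exact_mod_cast le_max_right _ _
      linarith
    have h5 : Real.log w ≤ Real.log a + 2 := by
      have e1 := Real.log_le_log (by linarith) h4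
      rw [Real.log_mul (by norm_num) (by linarith)] at e1
      have e2 : Real.log 4 ≤ 2 := by
        have e3 : Real.log 4 = 2 * Real.log 2 := by
          rw [show (4 : ℝ) = 2 ^ 2 by norm_num, Real.log_pow]
          norm_num
        have := Real.log_le_sub_one_of_pos (show (0 : ℝ) < 2 by norm_num)
        linarith
      linarith
    have h6 : Real.log (Real.log w) - Real.log (Real.log a) ≤ 2 / Real.log a := by
      rw [← Real.log_div hlw.ne' hla0.ne']
      have e1 := Real.log_le_sub_one_of_pos (div_pos hlw hla0)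
      have e2 : Real.log w / Real.log a ≤ 1 + 2 / Real.log a := by
        rw [div_le_iff₀ hla0, add_mul, div_mul_cancel₀ _ hla0.ne']
        linarith
      linarith
    have h7 : K / Real.log a + 2 / Real.log a ≤ (K + 2) / Real.log R := by
      rw [← add_div]
      gcongr
    rw [Real.log_div hly.ne' hlw.ne']
    linarith
  · have h2 : Mertens.S a b = 0 := by
      rw [Mertens.S, Ioc_eq_empty (by omega)]
      simp
    have h3 : 0 ≤ Real.log (Real.log y / Real.log w) :=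
      Real.log_nonneg ((one_le_div hlw).2 hlwy)
    have h4 : 0 ≤ (K + 2) / Real.log R := by positivity
    linarith

end DimBP

open DimBP in
theorem pDimB (h : S_Bx) : S_DimB := by
  obtain ⟨K, hK, hS⟩ := DimP.S_close
  intro η δ j hη hδ
  have hL : 0 < Real.log (1 + η) := Real.log_pos (by linarith)
  set L := Real.log (1 + η) with hLd
  set d : ℝ := min δ (L / 4) with hd
  have hd0 : 0 < d := lt_min hδ (by linarith)
  have hj : (0 : ℝ) < j + 1 := by positivity
  set ε : ℝ := min (1 / 4) (d / (2 * (j + 1))) with hε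
  have hε0 : 0 < ε := lt_min (by norm_num) (by positivity)
  obtain ⟨r, hr⟩ := exists_nat_gt (2 / ε)
  obtain ⟨R0, hR0⟩ := exists_nat_gt (max (2 / ε) (Real.exp (K + 2 * (K + 2) / L)))
  refine ⟨r, R0 + 2, fun R z hR hRz hz => ?_⟩
  have hR2 : 2 ≤ R := by omega
  have hRR : (R0 : ℝ) ≤ R := by exact_mod_cast (by omega : R0 ≤ R)
  have hR1 : (1 : ℝ) < R := by exact_mod_cast (by omega : 1 < R)
  have hlR : 0 < Real.log R := Real.log_pos hR1
  have hlog : K + 2 * (K + 2) / L ≤ Real.log R := by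
    rw [Real.le_log_iff_exp_le (by linarith)]
    linarith [le_max_right (2 / ε) (Real.exp (K + 2 * (K + 2) / L))]
  have hq : 0 < 2 * (K + 2) / L := by positivity
  have e1 : (2 : ℝ) / 2 ^ r ≤ ε := by
    have h1 : (r : ℝ) ≤ 2 ^ r := by exact_mod_cast (Nat.lt_two_pow_self).le
    rw [div_le_iff₀ (by positivity)]
    rw [div_lt_iff₀ hε0] at hr
    nlinarith
  have e2 : (2 : ℝ) / R ≤ ε := by
    have h1 : 2 / ε < R := by linarith [le_max_left (2 / ε) (Real.exp (K + 2 * (K + 2) / L))]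
    rw [div_le_iff₀ (by linarith)]
    rw [div_lt_iff₀ hε0] at h1
    linarith
  have hg : ∀ l ∈ PL r R z, gb r R z l ≤ 2 * ε := fun l hl => by
    linarith [gb_le h (r := r) (z := z) (by omega : 1 ≤ R) (lab h hl).1]
  have hg2 : ∀ l ∈ PL r R z, gb r R z l ≤ 1 / 2 := fun l hl => by
    linarith [hg l hl, min_le_left (1 / 4 : ℝ) (d / (2 * (j + 1)))]
  have hsq : ∑ l ∈ PL r R z, gb r R z l ^ 2 ≤ d := by
    have h1 : ∑ l ∈ PL r R z, gb r R z l ^ 2 ≤ ∑ l ∈ PL r R z, 2 * ε * gb r R z l :=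
      sum_le_sum fun l hl => by
        rw [sq]
        exact mul_le_mul_of_nonneg_right (hg l hl) (gb_nonneg _ _ _ _)
    rw [← mul_sum] at h1
    have h2 := total hS (r := r) hR2 hRz hz (by linarith)
    have h3 : ε ≤ d / (2 * (j + 1)) := min_le_right _ _
    rw [le_div_iff₀ (by positivity)] at h3
    have h4 : 2 * ε * ∑ l ∈ PL r R z, gb r R z l ≤ 2 * ε * (j + 1) := by gcongr
    linarith
  refine ⟨⟨fun l hl => ⟨by have := (lab h hl).1; omega, gb_nonneg _ _ _ _, hg2 l hl⟩,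
    fun w y hw hwy => ?_⟩, hsq.trans (min_le_left _ _), card_le h r R z, fun l hl => lab h hl⟩
  have hlw : 0 < Real.log w := Real.log_pos hw
  have hly : 0 < Real.log y := Real.log_pos (hw.trans_le hwy)
  set T := (PL r R z).filter (fun l : ℕ => w < l ∧ (l : ℝ) ≤ y) with hT
  have h1 : ∏ l ∈ T, (1 - gb r R z l)⁻¹ ≤
      ∏ l ∈ T, Real.exp (gb r R z l + 2 * gb r R z l ^ 2) := by
    refine prod_le_prod (fun l hl => ?_) fun l hl =>
      inv_le_exp (hg2 l (mem_filter.1 hl).1)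
    have := hg2 l (mem_filter.1 hl).1
    exact inv_nonneg.2 (by linarith)
  rw [← Real.exp_sum, sum_add_distrib, ← mul_sum] at h1
  have h2 := range_le h hK hS (r := r) (z := z) hR2 hw hwy
  have h3 : ∑ l ∈ T, gb r R z l ^ 2 ≤ L / 4 :=
    (sum_le_sum_of_subset_of_nonneg (filter_subset _ _) fun _ _ _ => sq_nonneg _).trans
      (hsq.trans (min_le_right _ _))
  have h4 : (K + 2) / Real.log R ≤ L / 2 := by
    rw [div_le_iff₀ hlR]
    have h5 : 2 * (K + 2) / L ≤ Real.log R := by linarith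
    rw [div_le_iff₀ hL] at h5
    linarith
  refine h1.trans ?_
  have h5 : Real.exp (∑ l ∈ T, gb r R z l + 2 * ∑ l ∈ T, gb r R z l ^ 2) ≤
      Real.exp (L + Real.log (Real.log y / Real.log w)) := Real.exp_le_exp.2 (by linarith)
  rw [Real.exp_add L, hLd, Real.exp_log (by linarith), Real.exp_log (div_pos hly hlw),
    ← mul_div_assoc] at h5
  exact h5

end Pool.Agent.P.MP_746f10_nt.P2
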