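import Pool.Agent.P.MP_746f10_nt.P2.Defs
import Pool.Agent.P.MP_0ad054_nt.Chen.FL

/-! The fundamental lemma of the sieve with well factorable support. -/

namespace Pool.Agent.P.MP_0ad054_nt.Chen.FL2P

open Finset Pool.Agent.P.MP_0ad054_nt.Sun Pool.Agent.Lib.H9 Pool.Agent.P.MP_0ad054_nt.Sun.WeightsP
open Pool.Agent.P.MP_0ad054_nt.Chen.FLP (tt exp_sub_one_le)
open Pool.Agent.P.MP_746f10_nt.P2 (WF IsW2 Dim2 S_FL2)

theorem one_add_sum_le (s : Finset ℕ) (g : ℕ → ℝ) (hg : ∀ i ∈ s, 0 ≤ g i ∧ g i ≤ 1 / 2) :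
    1 + ∑ i ∈ s, g i ≤ ∏ i ∈ s, (1 - g i)⁻¹ := by
  classical
  induction s using Finset.induction_on with
  | empty => simp
  | insert a s ha ih =>
    rw [sum_insert ha, prod_insert ha]
    have h1 := ih fun i hi => hg i (mem_insert_of_mem hi)
    have h2 := hg a (mem_insert_self a s)
    have h3 : 0 ≤ ∑ i ∈ s, g i := sum_nonneg fun i hi => (hg i (mem_insert_of_mem hi)).1
    have h4 : 1 + g a ≤ (1 - g a)⁻¹ := by
      rw [← one_div, le_div_iff₀ (by linarith [h2.2])]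
      nlinarith [sq_nonneg (g a)]
    calc 1 + (g a + ∑ i ∈ s, g i) ≤ (1 + g a) * (1 + ∑ i ∈ s, g i) := by
          nlinarith [mul_nonneg h2.1 h3]
      _ ≤ _ := mul_le_mul h4 h1 (by linarith) (by linarith [h2.1])

theorem block_le {z : ℕ} {P : Finset ℕ} {g : ℕ → ℝ} (hD : Dim2 1 P g) (hP : ∀ p ∈ P, p ≤ z)
    (j : Fin z) : ∑ i ∈ blk z P j, g i ≤ 12 := by
  have hBP : blk z P j ⊆ P := filter_subset _ _
  rcases (blk z P j).eq_empty_or_nonempty with h | h
  · rw [h]; simp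
  set p := (blk z P j).min' h with hp0
  have hp : p ∈ blk z P j := min'_mem _ h
  have hp2 : 2 ≤ p := (hD.1 p (hBP hp)).1
  have hp1 : (1 : ℝ) < p := by exact_mod_cast hp2
  have hsub : blk z P j ⊆
      insert p (P.filter fun l : ℕ => (p : ℝ) < l ∧ (l : ℝ) ≤ (p : ℝ) ^ 2) := by
    intro q hq
    rcases (min'_le _ q hq).eq_or_lt with h1 | h1
    · rw [← h1]; exact mem_insert_self _ _
    · refine mem_insert_of_mem (mem_filter.2 ⟨hBP hq, by exact_mod_cast h1, ?_⟩)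
      have hp' := bidx_spec hp2 (hP p (hBP hp))
      have hq' := bidx_spec (hD.1 q (hBP hq)).1 (hP q (hBP hq))
      rw [(mem_filter.1 hp).2] at hp'
      rw [(mem_filter.1 hq).2] at hq'
      have : q ^ 2 ^ (j : ℕ) < (p ^ 2) ^ 2 ^ (j : ℕ) := by
        rw [← pow_mul, ← pow_succ']; omega
      exact_mod_cast (lt_of_pow_lt_pow_left₀ _ (Nat.zero_le _) this).le
  have h1 := hD.2 p ((p : ℝ) ^ 2) hp1 (by nlinarith)
  have hl : 0 < Real.log p := Real.log_pos hp1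
  have h2 : (1 + 1) * Real.log ((p : ℝ) ^ 2) / Real.log p = 4 := by
    rw [Real.log_pow]; field_simp; norm_num
  rw [h2] at h1
  have h3 := one_add_sum_le (P.filter fun l : ℕ => (p : ℝ) < l ∧ (l : ℝ) ≤ (p : ℝ) ^ 2) g
    fun i hi => (hD.1 i (mem_filter.1 hi).1).2
  have h4 : ∑ i ∈ blk z P j, g i ≤
      ∑ i ∈ insert p (P.filter fun l : ℕ => (p : ℝ) < l ∧ (l : ℝ) ≤ (p : ℝ) ^ 2), g i := by
    refine sum_le_sum_of_subset_of_nonneg hsub fun i hi _ => ?_
    rcases mem_insert.1 hi with rfl | hi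
    · exact (hD.1 _ (hBP hp)).2.1
    · exact (hD.1 i (mem_filter.1 hi).1).2.1
  rw [sum_insert (by simp)] at h4
  linarith [(hD.1 p (hBP hp)).2.2]

theorem wf_of_prod {T : Finset ℕ} {z D : ℝ} (hT : ∀ p ∈ T, 1 ≤ p ∧ (p : ℝ) ≤ z)
    (h : ((∏ l ∈ T, l : ℕ) : ℝ) ≤ D) : WF T (D * z) := by
  intro p hp
  have h1 : (∏ q ∈ T.filter (fun q => p < q), q) * p ≤ ∏ l ∈ T, l := by
    rw [mul_comm, ← prod_insert (f := fun q => q) (by simp)]
    refine prod_le_prod_of_subset_of_one_le' ?_ fun i hi _ => (hT i hi).1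
    exact insert_subset hp (filter_subset _ _)
  have h2 : (∏ q ∈ T.filter (fun q => p < q), (q : ℝ)) * p ≤ D := by
    refine le_trans ?_ h
    rw [← Nat.cast_prod, ← Nat.cast_mul]
    exact Nat.cast_le.2 h1
  have h3 : (0 : ℝ) ≤ p := Nat.cast_nonneg p
  have h4 : 0 ≤ D := le_trans (Nat.cast_nonneg _) h
  calc _ = (∏ q ∈ T.filter (fun q => p < q), (q : ℝ)) * p * p := by ring
    _ ≤ D * z := mul_le_mul h2 (hT p hp).2 h3 h4

theorem level2 {k0 z : ℕ} {T : Finset ℕ} (hz : 2 ≤ z) (hT : ∀ p ∈ T, 2 ≤ p ∧ p ≤ z)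
    (hc : ∀ j : Fin z, (blk z T j).card ≤ 2 * (k0 + j) + 1) : ∏ p ∈ T, p ≤ z ^ (4 * k0 + 6) := by
  have hb : ∀ p ∈ T, bidx z p < z := fun p hp => (bidx_spec (hT p hp).1 (hT p hp).2).2.2
  have hz0 : (0 : ℝ) < z := by positivity
  have hlz : 0 ≤ Real.log z := Real.log_natCast_nonneg z
  have hpos : (0 : ℝ) < ∏ p ∈ T, (p : ℝ) :=
    prod_pos fun p hp => by exact_mod_cast (show 0 < p from lt_of_lt_of_le two_pos (hT p hp).1)
  have hlog : Real.log (∏ p ∈ T, (p : ℝ)) ≤ Real.log ((z : ℝ) ^ (4 * k0 + 6)) := by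
    rw [Real.log_prod (fun p hp => by exact_mod_cast (lt_of_lt_of_le two_pos (hT p hp).1).ne'), Real.log_pow]
    have e : ∑ p ∈ T, Real.log p = ∑ j, ∑ p ∈ blk z T j, Real.log p := by
      rw [← sum_biUnion (fun i _ j _ hij => blk_disj z T hij), biUnion_blk hb]
    rw [e]
    have h1 : ∀ j : Fin z, ∑ p ∈ blk z T j, Real.log p ≤
        ((2 * k0 + 1 : ℝ) + 2 * (j : ℕ)) / 2 ^ (j : ℕ) * Real.log z := by
      intro j
      have h2 : ∀ p ∈ blk z T j, Real.log p ≤ Real.log z / 2 ^ (j : ℕ) := by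
        intro p hp
        have hpT := (mem_filter.1 hp).1
        have hp' := (bidx_spec (hT p hpT).1 (hT p hpT).2).1
        rw [(mem_filter.1 hp).2] at hp'
        have hp0 : (0 : ℝ) < p := by exact_mod_cast (show 0 < p from lt_of_lt_of_le two_pos (hT p hpT).1)
        have h3 : Real.log ((p : ℝ) ^ 2 ^ (j : ℕ)) ≤ Real.log z :=
          Real.log_le_log (by positivity) (by exact_mod_cast hp')
        rw [Real.log_pow] at h3
        rw [le_div_iff₀ (by positivity)]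
        push_cast at h3
        linarith
      have h4 := sum_le_card_nsmul _ _ _ h2
      rw [nsmul_eq_mul] at h4
      have h5 : ((blk z T j).card : ℝ) ≤ (2 * k0 + 1 : ℝ) + 2 * (j : ℕ) := by
        have h6 : ((blk z T j).card : ℝ) ≤ ((2 * (k0 + j) + 1 : ℕ) : ℝ) := by exact_mod_cast hc j
        push_cast at h6; linarith
      calc _ ≤ _ := h4
        _ ≤ ((2 * k0 + 1 : ℝ) + 2 * (j : ℕ)) * (Real.log z / 2 ^ (j : ℕ)) := by gcongr
        _ = _ := by ring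
    refine (sum_le_sum fun j _ => h1 j).trans ?_
    rw [← sum_mul, Fin.sum_univ_eq_sum_range
      (fun j => ((2 * k0 + 1 : ℝ) + 2 * (j : ℕ)) / 2 ^ j) z, sum_lin_div_two_pow]
    refine mul_le_mul_of_nonneg_right ?_ hlz
    have : 0 ≤ (2 * (2 * (k0 : ℝ) + 1) + 4 * z + 4) / 2 ^ z := by positivity
    push_cast; linarith
  have := (Real.log_le_log_iff hpos (by positivity)).1 hlog
  rw [← Nat.cast_prod] at this
  exact_mod_cast this

theorem tail2 {k z : ℕ} {P : Finset ℕ} {g : ℕ → ℝ}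
    (hblock : ∀ j, ∑ i ∈ blk z P j, g i ≤ 12) (hg : ∀ p ∈ P, 0 ≤ g p ∧ g p ≤ 1 / 2) :
    ∑ j : Fin z, tt k z P g j ≤ Real.exp 48 / 2 ^ k := by
  have hBP : ∀ j, blk z P j ⊆ P := fun j => filter_subset _ _
  have h1 : ∀ j : Fin z, tt k z P g j ≤ Real.exp 48 / 2 ^ k / 2 * (1 / 2) ^ (j : ℕ) := by
    intro j
    unfold tt
    have hs0 : 0 ≤ ∑ i ∈ blk z P j, g i := sum_nonneg fun i hi => (hg i (hBP j hi)).1
    have hV := exp_neg_le_prod (blk z P j) g (η := 1 / 2) (by norm_num)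
      (fun i hi => ⟨(hg i (hBP j hi)).1, by linarith [(hg i (hBP j hi)).2]⟩)
    have hV2 : Real.exp (-24) ≤ ∏ i ∈ blk z P j, (1 - g i) := by
      refine le_trans (Real.exp_le_exp.2 ?_) hV
      have := hblock j
      linarith
    set m := 2 * (k + j) + 1 with hm
    have h2 : (∑ i ∈ blk z P j, g i) ^ m / (m.factorial : ℝ) ≤ Real.exp 24 / 2 ^ m := by
      calc (∑ i ∈ blk z P j, g i) ^ m / (m.factorial : ℝ) ≤ 12 ^ m / m.factorial := by
            gcongr; exact hblock j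
        _ = (2 * 12) ^ m / m.factorial / 2 ^ m := by rw [mul_pow 2 12]; field_simp
        _ ≤ _ := by
          gcongr
          have := Real.pow_div_factorial_le_exp (2 * 12) (by norm_num) m
          norm_num at this ⊢
          exact this
    have h3 : (2 : ℝ) ^ k * 2 * 2 ^ (j : ℕ) ≤ 2 ^ m := by
      rw [← pow_succ, ← pow_add]
      exact pow_le_pow_right₀ (by norm_num) (by omega)
    calc _ ≤ Real.exp 24 / 2 ^ m / Real.exp (-24) := by gcongr
      _ = Real.exp 48 / 2 ^ m := by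
        rw [Real.exp_neg, show (48 : ℝ) = 24 + 24 by norm_num, Real.exp_add]; field_simp
      _ ≤ Real.exp 48 / (2 ^ k * 2 * 2 ^ (j : ℕ)) := by gcongr
      _ = _ := by rw [one_div_pow]; field_simp
  refine (sum_le_sum fun j _ => h1 j).trans ?_
  rw [← mul_sum, Fin.sum_univ_eq_sum_range (fun j => (1 / 2 : ℝ) ^ j) z]
  have h2 := sum_geometric_two_le z
  have h3 : 0 ≤ Real.exp 48 / 2 ^ k := by positivity
  nlinarith

section

variable {k z : ℕ} {P : Finset ℕ} {g : ℕ → ℝ}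

theorem V_pos (hg : ∀ p ∈ P, 0 ≤ g p ∧ g p ≤ 1 / 2) (j : Fin z) :
    0 < ∏ i ∈ blk z P j, (1 - g i) :=
  prod_pos fun i hi => by linarith [(hg i (mem_filter.1 hi).1).2]

theorem g01 (hg : ∀ p ∈ P, 0 ≤ g p ∧ g p ≤ 1 / 2) (j : Fin z) :
    ∀ i ∈ blk z P j, 0 ≤ g i ∧ g i ≤ 1 := fun i hi =>
  ⟨(hg i (mem_filter.1 hi).1).1, by linarith [(hg i (mem_filter.1 hi).1).2]⟩

theorem tt_nonneg (hg : ∀ p ∈ P, 0 ≤ g p ∧ g p ≤ 1 / 2) (j : Fin z) :
    0 ≤ tt k z P g j := by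
  have h1 := V_pos hg j
  have h2 : 0 ≤ ∑ i ∈ blk z P j, g i := sum_nonneg fun i hi => (g01 hg j i hi).1
  unfold tt
  positivity

theorem Z_le (hg : ∀ p ∈ P, 0 ≤ g p ∧ g p ≤ 1 / 2) (j : Fin z) :
    sform (blk z P j) (cZ (2 * (k + j) + 1)) g ≤ (∏ i ∈ blk z P j, (1 - g i)) * tt k z P g j := by
  have h1 := V_pos hg j
  refine (sform_cZ_le _ g (fun i hi => (g01 hg j i hi).1) _).trans (le_of_eq ?_)
  unfold tt
  field_simp

theorem Y_le (hP : ∀ p ∈ P, 2 ≤ p ∧ p ≤ z) (hblock : ∀ j, ∑ i ∈ blk z P j, g i ≤ 12)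
    (hg : ∀ p ∈ P, 0 ≤ g p ∧ g p ≤ 1 / 2) :
    ∏ j, sform (blk z P j) (cy k z j) g ≤
      (∏ l ∈ P, (1 - g l)) * Real.exp (Real.exp 48 / 2 ^ k) := by
  have hb : ∀ p ∈ P, bidx z p < z := fun p hp => (bidx_spec (hP p hp).1 (hP p hp).2).2.2
  have h1 : ∀ j, sform (blk z P j) (cy k z j) g ≤
      (∏ i ∈ blk z P j, (1 - g i)) * Real.exp (tt k z P g j) := by
    intro j
    have a1 := sform_cY_sub_le _ _ (g01 hg j) (k + j)
    have a2 := Z_le (k := k) hg j
    have a3 := Real.add_one_le_exp (tt k z P g j)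
    have a4 := V_pos hg j
    unfold cy
    nlinarith
  calc _ ≤ ∏ j, (∏ i ∈ blk z P j, (1 - g i)) * Real.exp (tt k z P g j) :=
        prod_le_prod (fun j _ => (V_pos hg j).le.trans (prod_le_sform_cY _ _ (g01 hg j) _))
          fun j _ => h1 j
    _ = (∏ l ∈ P, (1 - g l)) * Real.exp (∑ j, tt k z P g j) := by
        rw [prod_mul_distrib, prod_blk hb, Real.exp_sum]
    _ ≤ _ := by
        have : 0 ≤ ∏ l ∈ P, (1 - g l) :=
          prod_nonneg fun i hi => by linarith [(hg i hi).2]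
        gcongr
        exact tail2 hblock hg

theorem corr_le (hg : ∀ p ∈ P, 0 ≤ g p ∧ g p ≤ 1 / 2) :
    ∑ l, ∏ j, sform (blk z P j) (cz k z l j) g ≤
      (∏ j, sform (blk z P j) (cy k z j) g) * ∑ j, tt k z P g j := by
  have hVy : ∀ j, ∏ i ∈ blk z P j, (1 - g i) ≤ sform (blk z P j) (cy k z j) g :=
    fun j => prod_le_sform_cY _ _ (g01 hg j) _
  rw [mul_sum]
  refine sum_le_sum fun l _ => ?_
  rw [hsplit, ← mul_prod_erase univ (fun j => sform (blk z P j) (cy k z j) g) (mem_univ l)]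
  have hP : 0 ≤ ∏ j ∈ univ.erase l, sform (blk z P j) (cy k z j) g :=
    prod_nonneg fun j _ => (V_pos hg j).le.trans (hVy j)
  rw [mul_right_comm]
  refine mul_le_mul_of_nonneg_right ?_ hP
  exact (Z_le hg l).trans (mul_le_mul_of_nonneg_right (hVy l) (tt_nonneg hg l))

end

theorem fl2 : S_FL2 := by
  set E := Real.exp 48 with hE
  have hE0 : 0 < E := Real.exp_pos _
  refine ⟨E * Real.exp E, by positivity, fun σ k P g z hσ hz hA hPz => ?_⟩
  by_cases hz2 : z < 2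
  · have hP : P = ∅ := by
      refine eq_empty_of_forall_notMem fun l hl => ?_
      have h1 : (2 : ℝ) ≤ l := by exact_mod_cast (hA.1 l hl).1
      linarith [hPz l hl]
    subst hP
    refine ⟨fun _ => 1, ⟨fun _ => by simp, fun T hT _ => ?_, fun w _ => by simp [Sf]⟩, ?_⟩
    · rw [subset_empty.1 hT]
      intro p hp
      simp at hp
    · simp only [Sf, powerset_empty, sum_singleton, prod_empty, mul_one, sub_self, mul_zero]
      positivity
  push Not at hz2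
  set Z := ⌊z⌋₊ with hZ
  have hZ2 : 2 ≤ Z := Nat.le_floor (by exact_mod_cast hz2)
  have hP : ∀ p ∈ P, 2 ≤ p ∧ p ≤ Z := fun p hp => ⟨(hA.1 p hp).1, Nat.le_floor (hPz p hp)⟩
  have hg : ∀ p ∈ P, 0 ≤ g p ∧ g p ≤ 1 / 2 := fun p hp => (hA.1 p hp).2
  have hblock := block_le hA fun p hp => (hP p hp).2
  have hb : ∀ p ∈ P, bidx Z p < Z := fun p hp => (bidx_spec (hP p hp).1 (hP p hp).2).2.2
  have hlev : ∀ T ⊆ P, (∀ j : Fin Z, (blk Z T j).card ≤ 2 * (k + j) + 1) →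
      WF T (z ^ (4 * k + 7)) := by
    intro T hT hc
    rw [show 4 * k + 7 = 4 * k + 6 + 1 from rfl, pow_succ]
    refine wf_of_prod (fun p hp => ⟨by linarith [(hP p (hT hp)).1], hPz p (hT hp)⟩) ?_
    have h1 := level2 hZ2 (fun p hp => hP p (hT hp)) hc
    have h2 : (Z : ℝ) ≤ z := Nat.floor_le (by linarith)
    calc ((∏ l ∈ T, l : ℕ) : ℝ) ≤ ((Z ^ (4 * k + 6) : ℕ) : ℝ) := by exact_mod_cast h1
      _ = (Z : ℝ) ^ (4 * k + 6) := by push_cast; rfl
      _ ≤ _ := by gcongr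
  have hV : 0 ≤ ∏ l ∈ P, (1 - g l) := prod_nonneg fun i hi => by linarith [(hg i hi).2]
  have hx : E / 2 ^ k ≤ E := div_le_self hE0.le (one_le_pow₀ one_le_two)
  have hx0 : 0 ≤ E / 2 ^ k := by positivity
  have hex : Real.exp (E / 2 ^ k) ≤ Real.exp E := Real.exp_le_exp.2 hx
  have hY := Y_le (k := k) hP hblock hg
  have hw01 : ∀ w : ℕ → ℝ, (∀ l, w l = 0 ∨ w l = 1) → ∀ i, 0 ≤ w i ∧ w i ≤ 1 := by
    intro w hw i
    rcases hw i with h | h <;> rw [h] <;> norm_num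
  rcases hσ with rfl | rfl
  · have hS : ∀ w, Sf P (FLP.up k Z) w = ∏ j, sform (blk Z P j) (cy k Z j) w := fun w =>
      sum_pow_eq hb _ w
    refine ⟨FLP.up k Z,
      ⟨fun T => ?_, fun T hT h => hlev T hT fun j => ?_, fun w hw => ?_⟩, ?_⟩
    · unfold FLP.up
      rw [abs_prod]
      exact prod_le_one (fun _ _ => abs_nonneg _) (fun j _ => abs_cY _ _)
    · by_contra hc
      refine h (prod_eq_zero (mem_univ j) ?_)
      simp only [cy, cY]
      rw [if_neg (by omega)]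
    · rw [one_mul, hS, ← prod_blk hb, sub_nonneg]
      exact prod_le_prod (fun j _ => prod_nonneg fun i _ => by linarith [(hw01 w hw i).2])
        fun j _ => prod_le_sform_cY _ _ (fun i _ => hw01 w hw i) _
    · rw [one_mul, hS]
      have h1 := exp_sub_one_le (x := E / 2 ^ k)
      have h2 : Real.exp (E / 2 ^ k) - 1 ≤ E * Real.exp E / 2 ^ k := by
        calc _ ≤ E / 2 ^ k * Real.exp (E / 2 ^ k) := h1
          _ ≤ E / 2 ^ k * Real.exp E := by gcongr
          _ = _ := by ring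
      nlinarith [mul_le_mul_of_nonneg_left h2 hV]
  · refine ⟨lam k Z, ⟨abs_lam k Z, fun T hT h => hlev T hT (card_le_of_lam h), fun w hw => ?_⟩, ?_⟩
    · have := upper hb k w (hw01 w hw)
      linarith
    · rw [Sf_eq hb]
      have h1 := corr_le (k := k) (z := Z) hg
      have h2 : ∏ l ∈ P, (1 - g l) ≤ ∏ j, sform (blk Z P j) (cy k Z j) g := by
        rw [← prod_blk hb]
        exact prod_le_prod (fun j _ => (V_pos hg j).le)
          fun j _ => prod_le_sform_cY _ _ (g01 hg j) _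
      have h3 := tail2 (k := k) hblock hg
      have h4 : 0 ≤ ∑ j, tt k Z P g j := sum_nonneg fun j _ => tt_nonneg hg j
      have h5 : (∏ j, sform (blk Z P j) (cy k Z j) g) * ∑ j, tt k Z P g j ≤
          (∏ l ∈ P, (1 - g l)) * Real.exp E * (E / 2 ^ k) := by
        refine mul_le_mul (hY.trans ?_) h3 h4 (by positivity)
        gcongr
      have h6 : (∏ l ∈ P, (1 - g l)) * Real.exp E * (E / 2 ^ k) =
          E * Real.exp E / 2 ^ k * ∏ l ∈ P, (1 - g l) := by ring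
      linarith

end Pool.Agent.P.MP_0ad054_nt.Chen.FL2P

namespace Pool.Agent.P.MP_746f10_nt.P2

theorem pFL2 : S_FL2 := Pool.Agent.P.MP_0ad054_nt.Chen.FL2P.fl2

end Pool.Agent.P.MP_746f10_nt.P2
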