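import Pool.Agent.P.MP_746f10_nt.P2.Defs
import Pool.Agent.P.MP_79de8b_nt.Basic

/-! Binary rounding, and the finite Fourier expansion of an interval in a residue class. -/

namespace Pool.Agent.P.MP_746f10_nt.P2

open Finset Pool.Agent.P.MP_0ad054_nt.Sun
open scoped Real

namespace FouP

lemma phi_le (r a : ℕ) : phi r a ≤ a := Nat.div_mul_le_self _ _

lemma lt_phi_add (r a : ℕ) : a < phi r a + 2 ^ (Nat.log 2 a - r) := by
  unfold phi
  have h : 0 < 2 ^ (Nat.log 2 a - r) := by positivity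
  have := Nat.div_add_mod' a (2 ^ (Nat.log 2 a - r))
  have := Nat.mod_lt a h
  omega

lemma pow_le_div (r a : ℕ) (h : r < Nat.log 2 a) : 2 ^ r ≤ a / 2 ^ (Nat.log 2 a - r) := by
  have ha : a ≠ 0 := by
    rintro rfl
    simp at h
  rw [Nat.le_div_iff_mul_le (by positivity), ← pow_add,
    show r + (Nat.log 2 a - r) = Nat.log 2 a by omega]
  exact Nat.pow_log_le_self 2 ha

lemma phi_eq (r a : ℕ) (h : Nat.log 2 a ≤ r) : phi r a = a := by
  unfold phi
  rw [show Nat.log 2 a - r = 0 by omega]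
  simp

lemma le_phi (r a : ℕ) : a ≤ phi r a + phi r a / 2 ^ r := by
  rcases le_or_gt (Nat.log 2 a) r with h | h
  · rw [phi_eq r a h]; exact Nat.le_add_right _ _
  · have h1 := lt_phi_add r a
    have h2 := pow_le_div r a h
    have h3 : 2 ^ (Nat.log 2 a - r) ≤ phi r a / 2 ^ r := by
      rw [Nat.le_div_iff_mul_le (by positivity), mul_comm]
      exact Nat.mul_le_mul_right _ h2
    omega

lemma one_le_phi (r a : ℕ) (ha : 1 ≤ a) : 1 ≤ phi r a := by
  rcases le_or_gt (Nat.log 2 a) r with h | h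
  · rw [phi_eq r a h]; exact ha
  · have h2 := pow_le_div r a h
    have h3 : 1 ≤ 2 ^ r := Nat.one_le_two_pow
    exact Nat.mul_pos (by omega) (by positivity)

lemma div_lt (r a : ℕ) : a / 2 ^ (Nat.log 2 a - r) < 2 ^ (r + 1) := by
  rw [Nat.div_lt_iff_lt_mul (by positivity), ← pow_add]
  exact (Nat.lt_pow_succ_log_self (by norm_num) a).trans_le
    (Nat.pow_le_pow_right (by norm_num) (by omega))

lemma four_le (t : ℝ) (ht : |t| ≤ 1 / 2) : 4 * |t| ≤ ‖MR.ex t - 1‖ := by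
  have h3 : MR.ex t = Complex.exp (Complex.I * (2 * π * t : ℝ)) := by
    rw [MR.ex_eq, mul_comm]
  rw [h3, Complex.norm_exp_I_mul_ofReal_sub_one, Real.norm_eq_abs]
  have h4 : 2 * π * t / 2 = π * t := by ring
  rw [h4, abs_mul, abs_two]
  have h5 : |π * t| ≤ π / 2 := by
    rw [abs_mul, abs_of_pos Real.pi_pos]; nlinarith [Real.pi_pos]
  have h6 := Real.mul_abs_le_abs_sin h5
  have h7 : 2 / π * |π * t| = 2 * |t| := by
    rw [abs_mul, abs_of_pos Real.pi_pos]; field_simp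
  linarith

lemma geom (t : ℝ) (x1 x2 : ℕ) :
    ‖∑ x ∈ Ico x1 x2, MR.ex (x * t)‖ * ‖MR.ex t - 1‖ ≤ 2 := by
  rcases le_or_gt x1 x2 with h | h
  · have e : (∑ x ∈ Ico x1 x2, MR.ex (x * t)) * (MR.ex t - 1) =
        MR.ex (x2 * t) - MR.ex (x1 * t) := by
      induction x2, h using Nat.le_induction with
      | base => simp
      | succ n hn ih =>
        rw [sum_Ico_succ_top hn, add_mul, ih]
        have : MR.ex (((n + 1 : ℕ) : ℝ) * t) = MR.ex (n * t) * MR.ex t := by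
          rw [← MR.ex_add]; congr 1; push_cast; ring
        rw [this]; ring
    rw [← norm_mul, e]
    refine (norm_sub_le _ _).trans ?_
    rw [MR.norm_ex, MR.norm_ex]; norm_num
  · rw [Ico_eq_empty (by omega)]; simp

lemma orth {q : ℕ} (hq : 0 < q) (m : ℕ) (k : ℤ) :
    ∑ h ∈ Ico (-(m : ℤ)) (q - m), MR.ex (((h * k : ℤ) : ℝ) / q) =
      if (q : ℤ) ∣ k then (q : ℂ) else 0 := by
  have e1 : ∑ h ∈ Ico (-(m : ℤ)) (q - m), MR.ex (((h * k : ℤ) : ℝ) / q) =
      MR.ex (((-(m : ℤ) * k : ℤ) : ℝ) / q) * ∑ j ∈ range q, MR.ex (((k * j : ℤ) : ℝ) / q) := by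
    rw [Int.Ico_eq_finset_map, sum_map, mul_sum,
      show ((q : ℤ) - m - -(m : ℤ)).toNat = q by simp]
    refine sum_congr rfl fun i _ => ?_
    rw [← MR.ex_add]; congr 1; simp; ring
  rw [e1, MR.sum_ex_range hq]
  split_ifs with hd
  · rw [(MR.ex_div_eq_one_iff hq _).2 (hd.mul_left _), one_mul]
  · simp

end FouP

open FouP

theorem pBx : S_Bx := by
  refine ⟨fun r a => ⟨phi_le r a, le_phi r a, one_le_phi r a⟩, fun r Y => ?_⟩
  have hsub : (Icc 1 Y).image (phi r) ⊆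
      (range (2 ^ (r + 1)) ×ˢ range (Nat.log 2 Y + 1)).image fun p => p.1 * 2 ^ p.2 := by
    intro y hy
    obtain ⟨a, ha, rfl⟩ := mem_image.1 hy
    refine mem_image.2 ⟨(a / 2 ^ (Nat.log 2 a - r), Nat.log 2 a - r), ?_, rfl⟩
    have h1 : Nat.log 2 a ≤ Nat.log 2 Y := Nat.log_mono_right (mem_Icc.1 ha).2
    rw [mem_product, mem_range, mem_range]
    exact ⟨div_lt r a, by omega⟩
  refine (card_le_card hsub).trans (card_image_le.trans ?_)
  simp

theorem pFou : S_Fou := by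
  intro q x1 x2 hq
  have hq' : (0 : ℝ) < q := by exact_mod_cast hq
  set J : Finset ℤ := Ico (-((q / 2 : ℕ) : ℤ)) (q - (q / 2 : ℕ)) with hJ
  set g : ℤ → ℂ := fun h => (∑ x ∈ Ico x1 x2, MR.ex (x * (-(h : ℝ) / q))) / q with hg
  have hgn : ∀ h, ‖g h‖ = ‖∑ x ∈ Ico x1 x2, MR.ex (x * (-(h : ℝ) / q))‖ / q := fun h => by
    simp only [hg, norm_div, Complex.norm_natCast]
  refine ⟨fun h => if h ∈ J.erase 0 then g h else 0, fun h => ?_, fun h => ?_, fun H ξ hH => ?_⟩
  · dsimp only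
    split_ifs with hh
    · obtain ⟨h0, hh⟩ := mem_erase.1 hh
      rw [hJ, mem_Ico] at hh
      have h1 : 2 * |h| ≤ q := by
        rcases abs_cases h with h2 | h2 <;> omega
      have h1' : 2 * |(h : ℝ)| ≤ q := by exact_mod_cast h1
      have h2 : (0 : ℝ) < |(h : ℝ)| := abs_pos.2 (by exact_mod_cast h0)
      have h3 : |-(h : ℝ) / q| = |(h : ℝ)| / q := by rw [abs_div, abs_neg, abs_of_pos hq']
      have h4 := four_le (-(h : ℝ) / q) (by rw [h3, div_le_iff₀ hq']; linarith)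
      have h5 := geom (-(h : ℝ) / q) x1 x2
      rw [h3] at h4
      have h6 : ‖∑ x ∈ Ico x1 x2, MR.ex (x * (-(h : ℝ) / q))‖ * (4 * (|(h : ℝ)| / q)) ≤ 2 :=
        (mul_le_mul_of_nonneg_left h4 (norm_nonneg _)).trans h5
      rw [hgn, le_div_iff₀ h2]
      have h7 : ‖∑ x ∈ Ico x1 x2, MR.ex (x * (-(h : ℝ) / q))‖ / q * |(h : ℝ)| =
          ‖∑ x ∈ Ico x1 x2, MR.ex (x * (-(h : ℝ) / q))‖ * (4 * (|(h : ℝ)| / q)) / 4 := by ring
      rw [h7]; linarith
    · rw [norm_zero]; positivity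
  · dsimp only
    split_ifs with hh
    · rw [hgn]
      gcongr
      refine (norm_sum_le _ _).trans ?_
      simp
    · rw [norm_zero]; positivity
  · have hsub : J.erase 0 ⊆ Icc (-(H : ℤ)) H := by
      intro h hh
      have := mem_of_mem_erase hh
      rw [hJ, mem_Ico] at this
      rw [mem_Icc]; omega
    have h0 : (0 : ℤ) ∈ J := by rw [hJ, mem_Ico]; omega
    have e1 : ∑ h ∈ Icc (-(H : ℤ)) H, (if h ∈ J.erase 0 then g h else 0) *
        MR.ex (((h * ξ : ℤ) : ℝ) / q) = ∑ h ∈ J.erase 0, g h * MR.ex (((h * ξ : ℤ) : ℝ) / q) := by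
      simp_rw [ite_mul, zero_mul]
      rw [sum_ite_mem, inter_eq_right.2 hsub]
    have e2 : ∑ h ∈ J, g h * MR.ex (((h * ξ : ℤ) : ℝ) / q) =
        (((Ico x1 x2).filter fun x : ℕ => (x : ℤ) ≡ ξ [ZMOD q]).card : ℂ) := by
      have e3 : ∀ h ∈ J, g h * MR.ex (((h * ξ : ℤ) : ℝ) / q) =
          ∑ x ∈ Ico x1 x2, MR.ex (((h * (ξ - x) : ℤ) : ℝ) / q) / q := fun h _ => by
        simp only [hg]
        rw [div_mul_eq_mul_div, sum_mul, sum_div]
        refine sum_congr rfl fun x _ => ?_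
        rw [← MR.ex_add]; congr 2; push_cast; ring
      rw [sum_congr rfl e3, sum_comm, card_filter]
      push_cast
      refine sum_congr rfl fun x _ => ?_
      rw [← sum_div]
      have := orth hq (q / 2) (ξ - x)
      push_cast at this
      rw [hJ]
      push_cast
      rw [this]
      have hqc : (q : ℂ) ≠ 0 := by exact_mod_cast hq.ne'
      by_cases hd : (q : ℤ) ∣ ξ - x
      · rw [if_pos hd, if_pos (Int.modEq_iff_dvd.2 hd), div_self hqc]
      · rw [if_neg hd, if_neg (fun h => hd (Int.modEq_iff_dvd.1 h)), zero_div]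
    dsimp only
    rw [e1, ← e2, ← add_sum_erase J _ h0]
    simp [hg]

end Pool.Agent.P.MP_746f10_nt.P2
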