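import Pool.Agent.P.MP_746f10_nt.P2.PosB

/-! One form in a residue class; squares of large primes. -/

namespace Pool.Agent.P.MP_746f10_nt.P2

open Finset

namespace HC1P

lemma root {m a : ℕ} (b : ℕ) (hm : 0 < m) (h : a.Coprime m) :
    ∃ r : ℕ, ∀ n : ℕ, m ∣ a * n + b ↔ n ≡ r [MOD m] := by
  have : NeZero m := ⟨hm.ne'⟩
  let u := ZMod.unitOfCoprime a h
  have hu : (u : ZMod m) = a := ZMod.coe_unitOfCoprime a h
  refine ⟨(-(b : ZMod m) * (u⁻¹ : (ZMod m)ˣ)).val, fun n => ?_⟩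
  rw [← ZMod.natCast_eq_zero_iff, ← ZMod.natCast_eq_natCast_iff, ZMod.natCast_zmod_val]
  push_cast
  rw [← hu]
  have h1 : (u : ZMod m) * (u⁻¹ : (ZMod m)ˣ) = 1 := u.mul_inv
  constructor
  · intro h2
    linear_combination (u⁻¹ : (ZMod m)ˣ) * h2 - (n : ZMod m) * h1
  · intro h2
    rw [h2]
    linear_combination -(b : ZMod m) * h1

lemma cls {m a q : ℕ} (b c : ℕ) (hm : 0 < m) (h : a.Coprime m) (hq : m.Coprime q) :
    ∃ r : ℕ, ∀ n : ℕ, (m ∣ a * n + b ∧ n ≡ c [MOD q]) ↔ n ≡ r [MOD m * q] := by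
  obtain ⟨r, hr⟩ := root b hm h
  obtain ⟨s, h1, h2⟩ := Nat.chineseRemainder hq r c
  refine ⟨s, fun n => ?_⟩
  rw [← Nat.modEq_and_modEq_iff_modEq_mul hq, hr]
  exact ⟨fun h => ⟨h.1.trans h1.symm, h.2.trans h2.symm⟩, fun h => ⟨h.1.trans h1, h.2.trans h2⟩⟩

lemma cop {R m a : ℕ} (hm : rough R m) (h : ∀ p : ℕ, p.Prime → R < p → ¬ p ∣ a) :
    m.Coprime a :=
  Nat.coprime_of_dvd fun p hp h1 => h p hp (hm p hp h1)

lemma rough_mul' {R x y : ℕ} (hx : rough R x) (hy : rough R y) : rough R (x * y) :=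
  fun p hp h => ((Nat.Prime.dvd_mul hp).1 h).elim (hx p hp) (hy p hp)

lemma one {R a q m N1 N2 : ℕ} (b c : ℕ) (hm : 0 < m) (hr : rough R m) (hN : N1 ≤ N2) (hq : 0 < q)
    (h : ∀ p : ℕ, p.Prime → R < p → ¬ p ∣ a ∧ ¬ p ∣ q) :
    |∑ n ∈ Ico N1 N2, (if m ∣ a * n + b then (1 : ℝ) else 0) * (if n ≡ c [MOD q] then 1 else 0) -
      ((N2 : ℝ) - N1) * (1 / m) / q| ≤ 1 := by
  obtain ⟨r, hr'⟩ := cls b c hm (cop hr fun p hp h1 => (h p hp h1).1).symm
    (cop hr fun p hp h1 => (h p hp h1).2)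
  have h1 := count_class (Nat.mul_pos hm hq) r hN
  have e1 : ∑ n ∈ Ico N1 N2, (if m ∣ a * n + b then (1 : ℝ) else 0) *
      (if n ≡ c [MOD q] then 1 else 0) =
      ∑ n ∈ Ico N1 N2, (if n ≡ r [MOD m * q] then (1 : ℝ) else 0) := by
    refine sum_congr rfl fun n _ => ?_
    have h2 := hr' n
    by_cases h3 : m ∣ a * n + b <;> by_cases h4 : n ≡ c [MOD q] <;> simp_all
  have e2 : ((N2 : ℝ) - N1) * (1 / m) / q = ((N2 : ℝ) - N1) / ((m * q : ℕ) : ℝ) := by
    push_cast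
    rw [mul_one_div, div_div]
  rw [e1, e2]
  exact h1

lemma bil_one {R X a q N1 N2 : ℕ} (b c : ℕ) {A B : Finset ℕ} (hA : Lv R (X ^ 994) A)
    (hB : Lv R (X ^ 102) B) (hN : N1 ≤ N2) (hq : 0 < q)
    (h : ∀ p : ℕ, p.Prime → R < p → ¬ p ∣ a ∧ ¬ p ∣ q) :
    |∑ n ∈ Ico N1 N2, bil A B (a * n + b) * (if n ≡ c [MOD q] then 1 else 0) -
      ((N2 : ℝ) - N1) * (ms A * ms B) / q| ≤ (X : ℝ) ^ 1096 := by
  have e : ∑ n ∈ Ico N1 N2, bil A B (a * n + b) * (if n ≡ c [MOD q] then 1 else 0) -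
      ((N2 : ℝ) - N1) * (ms A * ms B) / q = ∑ x ∈ A, ∑ y ∈ B,
      (∑ n ∈ Ico N1 N2, (if x * y ∣ a * n + b then (1 : ℝ) else 0) *
        (if n ≡ c [MOD q] then 1 else 0) - ((N2 : ℝ) - N1) * (1 / ((x * y : ℕ) : ℝ)) / q) := by
    simp only [sum_sub_distrib]
    congr 1
    · simp only [bil, sum_mul]
      rw [sum_comm]
      exact sum_congr rfl fun x _ => sum_comm
    · simp only [ms]
      rw [sum_mul_sum, mul_sum, sum_div]
      refine sum_congr rfl fun x _ => ?_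
      rw [mul_sum, sum_div]
      refine sum_congr rfl fun y _ => ?_
      push_cast
      rw [one_div_mul_one_div]
  rw [e]
  calc _ ≤ ∑ x ∈ A, ∑ y ∈ B, (1 : ℝ) := by
        refine (abs_sum_le_sum_abs _ _).trans (sum_le_sum fun x hx => ?_)
        refine (abs_sum_le_sum_abs _ _).trans (sum_le_sum fun y hy => ?_)
        exact one b c (Nat.mul_pos (hA x hx).1 (hB y hy).1)
          (rough_mul' (hA x hx).2.2 (hB y hy).2.2) hN hq h
    _ = (A.card : ℝ) * B.card := by simp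
    _ ≤ ((X ^ 994 : ℕ) : ℝ) * ((X ^ 102 : ℕ) : ℝ) := by
        gcongr
        · exact hA.card_le
        · exact hB.card_le
    _ = (X : ℝ) ^ 1096 := by push_cast; ring

end HC1P

open HC1P in
theorem pHC1 : S_HC1 := by
  classical
  refine ⟨?_, ?_⟩
  · rintro R X a b q c N1 N2 G κ S ⟨T, s, w, A, B, h1, h2, h3, h4⟩ hN hq h
    have e : ∑ n ∈ Ico N1 N2, G (a * n + b) * (if n ≡ c [MOD q] then 1 else 0) -
        ((N2 : ℝ) - N1) * κ / q = ∑ t ∈ s, w t *
        (∑ n ∈ Ico N1 N2, bil (A t) (B t) (a * n + b) * (if n ≡ c [MOD q] then 1 else 0) -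
          ((N2 : ℝ) - N1) * (ms (A t) * ms (B t)) / q) := by
      simp only [mul_sub (w _), sum_sub_distrib]
      congr 1
      · simp only [h3, sum_mul, mul_sum]
        rw [sum_comm]
        exact sum_congr rfl fun t _ => sum_congr rfl fun n _ => by ring
      · rw [h4, mul_sum, sum_div]
        exact sum_congr rfl fun t _ => by ring
    rw [e]
    calc _ ≤ ∑ t ∈ s, w t * (X : ℝ) ^ 1096 := by
          refine (abs_sum_le_sum_abs _ _).trans (sum_le_sum fun t ht => ?_)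
          rw [abs_mul, abs_of_nonneg (h1 t ht).1]
          exact mul_le_mul_of_nonneg_left (bil_one b c (h1 t ht).2.1 (h1 t ht).2.2 hN hq h)
            (h1 t ht).1
      _ ≤ S * (X : ℝ) ^ 1096 := by
          rw [← sum_mul]
          exact mul_le_mul_of_nonneg_right h2 (by positivity)
  · intro a b N z y hz h
    have hsub : ((Ico N (2 * N)).filter fun n =>
        ∃ p : ℕ, p.Prime ∧ z < p ∧ p ≤ y ∧ p ^ 2 ∣ a * n + b) ⊆
        (PP z y).biUnion fun p => (Ico N (2 * N)).filter fun n => p ^ 2 ∣ a * n + b := by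
      intro n hn
      obtain ⟨hn1, p, hp, h1, h2, h3⟩ := mem_filter.1 hn
      exact mem_biUnion.2 ⟨p, mem_PP.2 ⟨h1, h2, hp⟩, mem_filter.2 ⟨hn1, h3⟩⟩
    have hc := (card_le_card hsub).trans card_biUnion_le
    have hp : ∀ p ∈ PP z y, (((Ico N (2 * N)).filter fun n => p ^ 2 ∣ a * n + b).card : ℝ) ≤
        N * (1 / (p : ℝ) ^ 2) + 1 := by
      intro p hp
      obtain ⟨h1, _, h3⟩ := mem_PP.1 hp
      have hco : a.Coprime (p ^ 2) :=
        Nat.Coprime.pow_right 2 ((Nat.Prime.coprime_iff_not_dvd h3).2 (h p h3 h1)).symm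
      have hpos : 0 < p ^ 2 := pow_pos h3.pos 2
      obtain ⟨r, hr⟩ := root b hpos hco
      have h4 := count_class hpos r (A := N) (B := 2 * N) (by omega)
      rw [sum_boole] at h4
      have e : ((Ico N (2 * N)).filter fun n => p ^ 2 ∣ a * n + b) =
          (Ico N (2 * N)).filter fun n => n ≡ r [MOD p ^ 2] := filter_congr fun n _ => hr n
      rw [e]
      have h5 := (abs_le.1 h4).2
      have e2 : (((2 * N : ℕ) : ℝ) - N) / ((p ^ 2 : ℕ) : ℝ) = N * (1 / (p : ℝ) ^ 2) := by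
        push_cast; ring
      rw [e2] at h5
      linarith
    have hcard : ((PP z y).card : ℝ) ≤ y := by
      have : (PP z y).card ≤ y := (card_filter_le _ _).trans (by simp)
      exact_mod_cast this
    calc _ ≤ ((∑ p ∈ PP z y, ((Ico N (2 * N)).filter fun n => p ^ 2 ∣ a * n + b).card : ℕ) : ℝ) := by
          exact_mod_cast hc
      _ ≤ ∑ p ∈ PP z y, ((N : ℝ) * (1 / (p : ℝ) ^ 2) + 1) := by
          push_cast
          exact sum_le_sum hp
      _ = N * ∑ p ∈ PP z y, 1 / (p : ℝ) ^ 2 + (PP z y).card := by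
          rw [sum_add_distrib, mul_sum]; simp
      _ ≤ N * (1 / (z : ℝ)) + y := by
          gcongr
          exact sum_PP_inv_sq_le z y hz
      _ = (N : ℝ) / z + y := by ring

end Pool.Agent.P.MP_746f10_nt.P2
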