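import Pool.Agent.P.MP_746f10_nt.P2.PosB

/-! Two forms in a residue class. -/

namespace Pool.Agent.P.MP_746f10_nt.P2

open Finset

namespace HC2P

/-- the mass of the multiples of `p` -/
noncomputable def md (p : ℕ) (A : Finset ℕ) : ℝ := ∑ a ∈ A, if p ∣ a then 1 / (a : ℝ) else 0

lemma md_nonneg (p : ℕ) (A : Finset ℕ) : 0 ≤ md p A :=
  sum_nonneg fun _ _ => by split_ifs <;> positivity

lemma md_le {R Z p : ℕ} {A : Finset ℕ} (h : Lv R Z A) (hp : 0 < p) :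
    md p A ≤ 1 / p * (1 + Real.log Z) := by
  have hp0 : (0 : ℝ) < p := by exact_mod_cast hp
  have h1 : md p A ≤ ∑ a ∈ (Ioc 0 Z).image (fun k => p * k), 1 / (a : ℝ) := by
    rw [md, ← sum_filter]
    refine sum_le_sum_of_subset_of_nonneg (fun a ha => ?_) fun _ _ _ => by positivity
    obtain ⟨ha, k, rfl⟩ := mem_filter.1 ha
    obtain ⟨h2, h3, -⟩ := h _ ha
    refine mem_image.2 ⟨k, mem_Ioc.2 ⟨Nat.pos_of_mul_pos_left h2, ?_⟩, rfl⟩
    exact (Nat.le_mul_of_pos_left k hp).trans h3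
  rw [sum_image (fun a _ b _ hab => Nat.eq_of_mul_eq_mul_left hp hab)] at h1
  refine h1.trans ?_
  have h2 : ∑ k ∈ Ioc 0 Z, 1 / ((p * k : ℕ) : ℝ) = 1 / p * ∑ k ∈ Ioc 0 Z, (k : ℝ)⁻¹ := by
    rw [mul_sum]
    refine sum_congr rfl fun k _ => ?_
    push_cast
    rw [one_div, one_div, mul_inv]
  rw [h2]
  exact mul_le_mul_of_nonneg_left (sum_inv_le_log Z) (by positivity)

/-- the mass of the pairs whose product is a multiple of `p` -/
noncomputable def m2 (p : ℕ) (A B : Finset ℕ) : ℝ :=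
  ∑ a ∈ A, ∑ b ∈ B, if p ∣ a * b then 1 / ((a : ℝ) * b) else 0

lemma m2_nonneg (p : ℕ) (A B : Finset ℕ) : 0 ≤ m2 p A B :=
  sum_nonneg fun _ _ => sum_nonneg fun _ _ => by split_ifs <;> positivity

lemma m2_le {R Z p : ℕ} {A B : Finset ℕ} (hA : Lv R Z A) (hB : Lv R Z B) (hp : p.Prime) :
    m2 p A B ≤ 2 / p * (1 + Real.log Z) ^ 2 := by
  have h1 : m2 p A B ≤ md p A * ms B + ms A * md p B := by
    rw [md, md, ms, ms, sum_mul_sum, sum_mul_sum, ← sum_add_distrib]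
    refine sum_le_sum fun a _ => ?_
    rw [← sum_add_distrib]
    refine sum_le_sum fun b _ => ?_
    have h0 : 1 / ((a : ℝ) * b) = 1 / (a : ℝ) * (1 / (b : ℝ)) := by rw [one_div_mul_one_div]
    have h2 : (0 : ℝ) ≤ 1 / (a : ℝ) * (1 / (b : ℝ)) := by positivity
    by_cases ha : p ∣ a
    · rw [if_pos (ha.mul_right b), if_pos ha, h0]
      split_ifs <;> linarith
    · by_cases hb : p ∣ b
      · rw [if_pos (hb.mul_left a), if_neg ha, if_pos hb, h0]; linarith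
      · rw [if_neg (fun h => ((Nat.Prime.dvd_mul hp).1 h).elim ha hb), if_neg ha, if_neg hb]
        simp
  have h2 := md_le hA hp.pos
  have h3 := md_le hB hp.pos
  have h4 := hA.ms_le
  have h5 := hB.ms_le
  have h6 : 0 ≤ 1 + Real.log Z := (ms_nonneg A).trans h4
  have h7 := mul_le_mul h2 h5 (ms_nonneg B) (by positivity)
  have h8 := mul_le_mul h4 h3 (md_nonneg p B) h6
  calc _ ≤ _ := h1
    _ ≤ 1 / p * (1 + Real.log Z) * (1 + Real.log Z) +
        (1 + Real.log Z) * (1 / p * (1 + Real.log Z)) := add_le_add h7 h8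
    _ = _ := by ring

lemma mul4 (A B C D : Finset ℕ) (f g : ℕ → ℕ → ℝ) :
    (∑ a ∈ A, ∑ b ∈ B, f a b) * (∑ c ∈ C, ∑ d ∈ D, g c d) =
      ∑ a ∈ A, ∑ b ∈ B, ∑ c ∈ C, ∑ d ∈ D, f a b * g c d := by
  rw [sum_mul]
  refine sum_congr rfl fun a _ => ?_
  rw [sum_mul]
  refine sum_congr rfl fun b _ => ?_
  rw [mul_sum]
  exact sum_congr rfl fun c _ => mul_sum _ _ _

lemma ms4 (A B C D : Finset ℕ) : ms A * ms B * (ms C * ms D) =
    ∑ a ∈ A, ∑ b ∈ B, ∑ c ∈ C, ∑ d ∈ D, 1 / ((a : ℝ) * b * c * d) := by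
  rw [ms, ms, ms, ms, sum_mul_sum, sum_mul_sum, mul4]
  refine sum_congr rfl fun a _ => sum_congr rfl fun b _ => sum_congr rfl fun c _ =>
    sum_congr rfl fun d _ => ?_
  simp only [one_div, mul_inv]
  ring

lemma cm_nonneg (A B C D : Finset ℕ) : 0 ≤ cm A B C D :=
  sum_nonneg fun _ _ => sum_nonneg fun _ _ => sum_nonneg fun _ _ => sum_nonneg fun _ _ => by
    split_ifs <;> positivity

lemma cm_le (A B C D : Finset ℕ) : cm A B C D ≤ ms A * ms B * (ms C * ms D) := by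
  rw [ms4]
  refine sum_le_sum fun a _ => sum_le_sum fun b _ => sum_le_sum fun c _ => sum_le_sum fun d _ => ?_
  split_ifs
  · exact le_rfl
  · positivity

lemma cm_ge {R Z : ℕ} {A B C D : Finset ℕ} (hR : 1 ≤ R) (hA : Lv R Z A) (hB : Lv R Z B)
    (hC : Lv R Z C) (hD : Lv R Z D) :
    ms A * ms B * (ms C * ms D) - cm A B C D ≤ 4 * (1 + Real.log Z) ^ 4 / R := by
  have h1 : ms A * ms B * (ms C * ms D) - cm A B C D ≤ ∑ p ∈ PP R Z, m2 p A B * m2 p C D := by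
    simp only [m2, mul4]
    rw [ms4, cm, ← sum_sub_distrib, sum_comm (s := PP R Z)]
    refine sum_le_sum fun a ha => ?_
    rw [← sum_sub_distrib, sum_comm (s := PP R Z)]
    refine sum_le_sum fun b hb => ?_
    rw [← sum_sub_distrib, sum_comm (s := PP R Z)]
    refine sum_le_sum fun c _ => ?_
    rw [← sum_sub_distrib, sum_comm (s := PP R Z)]
    refine sum_le_sum fun d _ => ?_
    have h0 : ∀ p ∈ PP R Z, 0 ≤ (if p ∣ a * b then 1 / ((a : ℝ) * b) else 0) *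
        (if p ∣ c * d then 1 / ((c : ℝ) * d) else 0) := fun p _ => by
      split_ifs <;> positivity
    by_cases hc : (a * b).Coprime (c * d)
    · rw [if_pos hc, sub_self]
      exact sum_nonneg h0
    · rw [if_neg hc, sub_zero]
      obtain ⟨p, hp, h2, h3⟩ := Nat.Prime.not_coprime_iff_dvd.1 hc
      have h4 : p ∈ PP R Z := by
        rcases (Nat.Prime.dvd_mul hp).1 h2 with h | h
        · exact mem_PP.2 ⟨(hA a ha).2.2 p hp h, (Nat.le_of_dvd (hA a ha).1 h).trans (hA a ha).2.1, hp⟩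
        · exact mem_PP.2 ⟨(hB b hb).2.2 p hp h, (Nat.le_of_dvd (hB b hb).1 h).trans (hB b hb).2.1, hp⟩
      refine le_trans (le_of_eq ?_) (single_le_sum h0 h4)
      rw [if_pos h2, if_pos h3]
      simp only [one_div, mul_inv]
      ring
  refine h1.trans ?_
  have h6 : 0 ≤ 1 + Real.log Z := (ms_nonneg A).trans hA.ms_le
  calc _ ≤ ∑ p ∈ PP R Z, 4 * (1 + Real.log Z) ^ 4 * (1 / (p : ℝ) ^ 2) := by
        refine sum_le_sum fun p hp => ?_
        refine (mul_le_mul (m2_le hA hB (PP_prime hp)) (m2_le hC hD (PP_prime hp))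
          (m2_nonneg _ _ _) (by positivity)).trans (le_of_eq ?_)
        ring
    _ = 4 * (1 + Real.log Z) ^ 4 * ∑ p ∈ PP R Z, 1 / (p : ℝ) ^ 2 := by rw [mul_sum]
    _ ≤ 4 * (1 + Real.log Z) ^ 4 * (1 / (R : ℝ)) :=
        mul_le_mul_of_nonneg_left (sum_PP_inv_sq_le R Z hR) (by positivity)
    _ = _ := by ring

lemma up_le_iff {m q x : ℕ} (hq : 0 < q) : up m q ≤ x ↔ m ≤ q * x := by
  unfold up
  rw [← Nat.lt_succ_iff, Nat.div_lt_iff_lt_mul hq, Nat.succ_mul, mul_comm x q]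
  omega

lemma reindex {q N1 N2 c : ℕ} (hq : 0 < q) (F : ℕ → ℝ) :
    ∑ n ∈ Ico N1 N2, F n * (if n ≡ c [MOD q] then 1 else 0) =
      ∑ k ∈ Ico (up (N1 - c % q) q) (up (N2 - c % q) q), F (q * k + c % q) := by
  simp only [mul_ite, mul_one, mul_zero]
  rw [← sum_filter]
  refine (sum_bij (fun k _ => q * k + c % q) ?_ ?_ ?_ (fun _ _ => rfl)).symm
  · intro k hk
    rw [mem_Ico, up_le_iff hq, ← not_le, up_le_iff hq] at hk
    rw [mem_filter, mem_Ico]
    refine ⟨⟨by omega, by omega⟩, ?_⟩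
    unfold Nat.ModEq
    rw [Nat.mul_add_mod, Nat.mod_mod]
  · intro k _ k' _ h
    exact Nat.eq_of_mul_eq_mul_left hq (by omega)
  · intro n hn
    rw [mem_filter, mem_Ico] at hn
    have h1 : q * (n / q) + c % q = n := by
      rw [← show n % q = c % q from hn.2]; exact Nat.div_add_mod n q
    refine ⟨n / q, ?_, h1⟩
    rw [mem_Ico, up_le_iff hq, ← not_le, up_le_iff hq]
    omega

lemma Lv_mono {R Z Z' : ℕ} {A : Finset ℕ} (h : Lv R Z A) (hZ : Z ≤ Z') : Lv R Z' A :=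
  fun a ha => ⟨(h a ha).1, (h a ha).2.1.trans hZ, (h a ha).2.2⟩

lemma dsum_le {T U : Type} (s : Finset T) (u : Finset U) (c : T → ℝ) (e : U → ℝ) (f : T → U → ℝ)
    (S K : ℝ) (hc : ∀ t ∈ s, 0 ≤ c t) (he : ∀ t ∈ u, 0 ≤ e t) (h1 : ∑ t ∈ s, c t ≤ S)
    (h2 : ∑ t ∈ u, e t ≤ S) (hK : 0 ≤ K) (hf : ∀ t ∈ s, ∀ v ∈ u, f t v ≤ K) :
    ∑ t ∈ s, ∑ v ∈ u, c t * e v * f t v ≤ S ^ 2 * K := by
  calc _ ≤ ∑ t ∈ s, ∑ v ∈ u, c t * e v * K :=
        sum_le_sum fun t ht => sum_le_sum fun v hv =>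
          mul_le_mul_of_nonneg_left (hf t ht v hv) (mul_nonneg (hc t ht) (he v hv))
    _ = (∑ t ∈ s, c t) * (∑ v ∈ u, e v) * K := by
        rw [sum_mul_sum, sum_mul]
        exact sum_congr rfl fun t _ => (sum_mul _ _ _).symm
    _ ≤ S * S * K := mul_le_mul_of_nonneg_right
        (mul_le_mul h1 h2 (sum_nonneg he) ((sum_nonneg hc).trans h1)) hK
    _ = _ := by ring

end HC2P

open HC2P in
theorem pHC2 (h : S_KLm) : S_HC2 := by
  obtain ⟨C, h⟩ := h
  refine ⟨|C| + 4 * 994 ^ 4, by positivity, fun R X G1 G2 κ1 κ2 S hX hR hG1 hG2 => ?_⟩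
  obtain ⟨T, s, c, A, B, h1, h2, h3, h4⟩ := hG1
  obtain ⟨U, u, e, A', B', h1', h2', h3', h4'⟩ := hG2
  have hc : ∀ t ∈ s, 0 ≤ c t := fun t ht => (h1 t ht).1
  have he : ∀ t ∈ u, 0 ≤ e t := fun t ht => (h1' t ht).1
  have hX1 : (1 : ℝ) ≤ X := by exact_mod_cast (show 1 ≤ X by omega)
  have hR0 : (0 : ℝ) < R := by exact_mod_cast hR
  have hl0 : 0 ≤ Real.log X := Real.log_nonneg hX1
  have hle : X ^ 102 ≤ X ^ 994 := Nat.pow_le_pow_right (by omega) (by norm_num)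
  have hM : 1 + Real.log ((X ^ 994 : ℕ) : ℝ) ≤ 994 * (1 + Real.log X) := by
    rw [Nat.cast_pow, Real.log_pow]; push_cast; linarith
  have hM0 : 0 ≤ 1 + Real.log ((X ^ 994 : ℕ) : ℝ) := by
    rw [Nat.cast_pow, Real.log_pow]; positivity
  have hM4 : (1 + Real.log ((X ^ 994 : ℕ) : ℝ)) ^ 4 ≤ 994 ^ 4 * (1 + Real.log X) ^ 4 := by
    rw [← mul_pow]; exact pow_le_pow_left₀ hM0 hM 4
  have hk : κ1 * κ2 = ∑ t ∈ s, ∑ v ∈ u, c t * e v * (ms (A t) * ms (B t) * (ms (A' v) * ms (B' v))) := by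
    rw [h4, h4', sum_mul_sum]
    exact sum_congr rfl fun t _ => sum_congr rfl fun v _ => by ring
  refine ⟨∑ t ∈ s, ∑ v ∈ u, c t * e v * cm (A t) (B t) (A' v) (B' v), ?_, ?_, ?_, ?_⟩
  · exact sum_nonneg fun t ht => sum_nonneg fun v hv =>
      mul_nonneg (mul_nonneg (hc t ht) (he v hv)) (cm_nonneg _ _ _ _)
  · rw [hk]
    exact sum_le_sum fun t ht => sum_le_sum fun v hv =>
      mul_le_mul_of_nonneg_left (cm_le _ _ _ _) (mul_nonneg (hc t ht) (he v hv))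
  · rw [hk, ← sum_sub_distrib]
    simp only [← sum_sub_distrib, ← mul_sub]
    refine (dsum_le s u c e _ S (4 * (994 ^ 4 * (1 + Real.log X) ^ 4) / R) hc he h2 h2'
      (by positivity) fun t ht v hv => ?_).trans ?_
    · refine (cm_ge hR (h1 t ht).2.1 (Lv_mono (h1 t ht).2.2 hle) (h1' v hv).2.1
        (Lv_mono (h1' v hv).2.2 hle)).trans ?_
      gcongr
    · have h5 : S ^ 2 * (4 * (994 ^ 4 * (1 + Real.log X) ^ 4) / R) =
          (0 + 4 * 994 ^ 4) * S ^ 2 * (1 + Real.log X) ^ 4 / R := by ring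
      rw [h5]
      gcongr
      exact abs_nonneg C
  · intro a1 b1 a2 b2 q c0 N hS hb1 hb2 hq ha1 ha2 hqR hqN hN
    have hr : c0 % q < q := Nat.mod_lt _ hq
    rw [reindex hq (fun n => G1 (a1 * n + b1) * G2 (a2 * n + b2))]
    have hlen := count_class hq c0 (show N ≤ 2 * N by omega)
    have hre := reindex (N1 := N) (N2 := 2 * N) (c := c0) hq (fun _ => 1)
    simp only [one_mul] at hre
    rw [hre] at hlen
    set N1 := up (N - c0 % q) q with hN1
    set N2 := up (2 * N - c0 % q) q with hN2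
    have hN10 : 1 ≤ N1 := by
      by_contra h0
      have := (up_le_iff (m := N - c0 % q) (x := 0) hq).1 (by omega)
      omega
    have hN12 : N1 ≤ N2 := by
      have := (up_le_iff (m := 2 * N - c0 % q) (x := N2) hq).1 le_rfl
      exact (up_le_iff hq).2 (by omega)
    have hN22 : N2 ≤ 2 * X ^ 2000 := by
      refine (up_le_iff hq).2 ?_
      have := Nat.le_mul_of_pos_left (2 * X ^ 2000) hq
      omega
    rw [sum_const, Nat.card_Ico, nsmul_eq_mul, mul_one, Nat.cast_sub hN12] at hlen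
    have hlen' : |((N2 : ℝ) - N1) - N / q| ≤ 1 := by
      convert hlen using 3
      push_cast; ring
    have hb : ∀ a b : ℕ, b < a → a * q ≤ X → 1 ≤ a * q ∧ a * (c0 % q) + b ≤ X := by
      intro a b hab haq
      have h5 : a * (c0 % q + 1) ≤ a * q := Nat.mul_le_mul_left a hr
      rw [mul_add, mul_one] at h5
      exact ⟨Nat.mul_pos (by omega) hq, by omega⟩
    have hf : ∀ a b k : ℕ, a * (q * k + c0 % q) + b = a * q * k + (a * (c0 % q) + b) :=
      fun a b k => by ring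
    have hS' : Sep R (a1 * q) (a1 * (c0 % q) + b1) (a2 * q) (a2 * (c0 % q) + b2) := by
      intro p hp hRp
      obtain ⟨h5, h6, h7⟩ := hS p hp hRp
      have h8 : ¬ p ∣ q := fun h9 => absurd (hqR p hp h9) (by omega)
      refine ⟨fun h9 => ((Nat.Prime.dvd_mul hp).1 h9).elim h5 h8,
        fun h9 => ((Nat.Prime.dvd_mul hp).1 h9).elim h6 h8, fun n => ?_⟩
      rw [← hf, ← hf]
      exact h7 _
    set κ := ∑ t ∈ s, ∑ v ∈ u, c t * e v * cm (A t) (B t) (A' v) (B' v) with hκ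
    have e1 : ∑ k ∈ Ico N1 N2, G1 (a1 * (q * k + c0 % q) + b1) * G2 (a2 * (q * k + c0 % q) + b2) -
        ((N2 : ℝ) - N1) * κ = ∑ t ∈ s, ∑ v ∈ u, c t * e v *
          (∑ k ∈ Ico N1 N2, bil (A t) (B t) (a1 * q * k + (a1 * (c0 % q) + b1)) *
            bil (A' v) (B' v) (a2 * q * k + (a2 * (c0 % q) + b2)) -
          ((N2 : ℝ) - N1) * cm (A t) (B t) (A' v) (B' v)) := by
      simp only [hf, h3, h3', sum_mul_sum, hκ]
      rw [sum_comm, mul_sum, ← sum_sub_distrib]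
      refine sum_congr rfl fun t _ => ?_
      rw [sum_comm, mul_sum, ← sum_sub_distrib]
      refine sum_congr rfl fun v _ => ?_
      rw [mul_sub, mul_sum]
      congr 1
      · exact sum_congr rfl fun k _ => by ring
      · ring
    have e2 : |∑ k ∈ Ico N1 N2, G1 (a1 * (q * k + c0 % q) + b1) * G2 (a2 * (q * k + c0 % q) + b2) -
        ((N2 : ℝ) - N1) * κ| ≤ S ^ 2 * (|C| * (X : ℝ) ^ 1999) := by
      rw [e1]
      refine (abs_sum_le_sum_abs _ _).trans ?_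
      refine le_trans (sum_le_sum fun t ht => (abs_sum_le_sum_abs _ _).trans
        (le_of_eq (sum_congr rfl fun v hv => by
          rw [abs_mul, abs_of_nonneg (mul_nonneg (hc t ht) (he v hv))]))) ?_
      refine dsum_le s u c e _ S _ hc he h2 h2' (by positivity) fun t ht v hv => ?_
      refine (h X R _ _ _ _ N1 N2 _ _ _ _ hX (hb a1 b1 hb1 ha1).1 ha1 (hb a1 b1 hb1 ha1).2
        (hb a2 b2 hb2 ha2).1 ha2 (hb a2 b2 hb2 ha2).2 hN10 hN12 hN22 hS' (h1 t ht).2.1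
        (h1 t ht).2.2 (h1' v hv).2.1 (h1' v hv).2.2).trans ?_
      exact mul_le_mul_of_nonneg_right (le_abs_self C) (by positivity)
    have e3 : 0 ≤ κ := sum_nonneg fun t ht => sum_nonneg fun v hv =>
      mul_nonneg (mul_nonneg (hc t ht) (he v hv)) (cm_nonneg _ _ _ _)
    have e4 : κ ≤ S ^ 2 * (994 ^ 4 * (X : ℝ) ^ 1999) := by
      refine dsum_le s u c e _ S _ hc he h2 h2' (by positivity) fun t ht v hv => ?_
      have i1 := (h1 t ht).2.1.ms_le
      have i2 := (Lv_mono (h1 t ht).2.2 hle).ms_le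
      have i3 := (h1' v hv).2.1.ms_le
      have i4 := (Lv_mono (h1' v hv).2.2 hle).ms_le
      have i5 : 1 + Real.log X ≤ X := by
        have := Real.log_le_sub_one_of_pos (show (0 : ℝ) < X by linarith)
        linarith
      have i6 : (1 + Real.log X) ^ 4 ≤ (X : ℝ) ^ 1999 :=
        (pow_le_pow_left₀ (by positivity) i5 4).trans (pow_le_pow_right₀ hX1 (by norm_num))
      calc _ ≤ ms (A t) * ms (B t) * (ms (A' v) * ms (B' v)) := cm_le _ _ _ _
        _ ≤ (1 + Real.log ((X ^ 994 : ℕ) : ℝ)) * (1 + Real.log ((X ^ 994 : ℕ) : ℝ)) *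
            ((1 + Real.log ((X ^ 994 : ℕ) : ℝ)) * (1 + Real.log ((X ^ 994 : ℕ) : ℝ))) :=
          mul_le_mul (mul_le_mul i1 i2 (ms_nonneg _) hM0) (mul_le_mul i3 i4 (ms_nonneg _) hM0)
            (mul_nonneg (ms_nonneg _) (ms_nonneg _)) (mul_nonneg hM0 hM0)
        _ = (1 + Real.log ((X ^ 994 : ℕ) : ℝ)) ^ 4 := by ring
        _ ≤ 994 ^ 4 * (1 + Real.log X) ^ 4 := hM4
        _ ≤ _ := mul_le_mul_of_nonneg_left i6 (by positivity)
    have e5 : |((N2 : ℝ) - N1) * κ - N * κ / q| ≤ κ := by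
      rw [show ((N2 : ℝ) - N1) * κ - N * κ / q = (((N2 : ℝ) - N1) - N / q) * κ by ring, abs_mul,
        abs_of_nonneg e3]
      exact mul_le_of_le_one_left e3 hlen'
    have e6 : 0 ≤ S ^ 2 * (994 ^ 4 * (X : ℝ) ^ 1999) := by positivity
    calc _ ≤ _ := abs_sub_le _ (((N2 : ℝ) - N1) * κ) _
      _ ≤ S ^ 2 * (|C| * (X : ℝ) ^ 1999) + 4 * (S ^ 2 * (994 ^ 4 * (X : ℝ) ^ 1999)) :=
        add_le_add e2 (e5.trans (by linarith))
      _ = _ := by ring

end Pool.Agent.P.MP_746f10_nt.P2
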