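import Pool.Agent.P.MP_746f10_nt.P2.Defs
import Pool.Agent.P.MP_79de8b_nt.Basic

/-! Incomplete Kloosterman sums. -/

namespace Pool.Agent.P.MP_746f10_nt.P2

open Finset

namespace IKP

lemma sum_even (H : ℕ) (F : ℕ → ℝ) (h0 : ∀ n, 0 ≤ F n) (hz : F 0 = 0) :
    ∑ h ∈ Icc (-(H : ℤ)) H, F h.natAbs ≤ 2 * ∑ n ∈ Icc 1 H, F n := by
  have h1 : Icc (-(H : ℤ)) H ⊆ insert 0 ((Icc 1 H).image (fun n : ℕ => (n : ℤ)) ∪
      (Icc 1 H).image fun n : ℕ => -(n : ℤ)) := by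
    intro h hh
    simp only [mem_Icc, mem_insert, mem_union, mem_image] at hh ⊢
    rcases lt_trichotomy h 0 with hc | hc | hc
    · exact Or.inr (Or.inr ⟨h.natAbs, by omega, by omega⟩)
    · exact Or.inl hc
    · exact Or.inr (Or.inl ⟨h.natAbs, by omega, by omega⟩)
  refine (sum_le_sum_of_subset_of_nonneg h1 fun _ _ _ => h0 _).trans ?_
  rw [sum_insert_of_eq_zero_if_notMem fun _ => by simpa using hz]
  have h2 := sum_union_inter (s₁ := (Icc 1 H).image (fun n : ℕ => (n : ℤ)))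
    (s₂ := (Icc 1 H).image fun n : ℕ => -(n : ℤ)) (f := fun h => F h.natAbs)
  rw [sum_image fun a _ b _ h => by exact_mod_cast h,
    sum_image fun a _ b _ h => by simpa using h] at h2
  have h3 : 0 ≤ ∑ h ∈ (Icc 1 H).image (fun n : ℕ => (n : ℤ)) ∩
      (Icc 1 H).image fun n : ℕ => -(n : ℤ), F h.natAbs := sum_nonneg fun _ _ => h0 _
  simp only [Int.natAbs_natCast, Int.natAbs_neg] at h2
  linarith

lemma sum_gcd (Q : ℕ) (hQ : 0 < Q) :
    ∑ n ∈ Icc 1 Q, ((n.gcd Q : ℕ) : ℝ) / n ≤ MR.tau Q * (1 + Real.log Q) := by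
  have h1 : ∀ n ∈ Icc 1 Q, ((n.gcd Q : ℕ) : ℝ) / n ≤
      ∑ d ∈ Q.divisors, if d ∣ n then (d : ℝ) / n else 0 := by
    intro n _
    have := single_le_sum (f := fun d : ℕ => if d ∣ n then (d : ℝ) / n else 0)
      (fun d _ => by split_ifs <;> positivity)
      (Nat.mem_divisors.2 ⟨Nat.gcd_dvd_right n Q, hQ.ne'⟩)
    simpa [Nat.gcd_dvd_left] using this
  refine (sum_le_sum h1).trans ?_
  rw [sum_comm, MR.tau, ← nsmul_eq_mul]
  refine sum_le_card_nsmul _ _ _ fun d hd => le_trans ?_ (MR.sum_inv_le_log Q)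
  have hd0 : 0 < d := Nat.pos_of_mem_divisors hd
  rw [← sum_filter]
  have h2 : (Icc 1 Q).filter (fun n => d ∣ n) ⊆ (Icc 1 Q).image fun m => d * m := by
    intro n hn
    obtain ⟨hn, m, rfl⟩ := mem_filter.1 hn
    rw [mem_Icc] at hn
    refine mem_image.2 ⟨m, mem_Icc.2 ⟨Nat.pos_of_mul_pos_left hn.1, ?_⟩, rfl⟩
    exact (Nat.le_mul_of_pos_left m hd0).trans hn.2
  refine (sum_le_sum_of_subset_of_nonneg h2 fun _ _ _ => by positivity).trans ?_
  rw [sum_image fun a _ b _ h => Nat.eq_of_mul_eq_mul_left hd0 h]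
  refine sum_le_sum fun m _ => le_of_eq ?_
  have : (d : ℝ) ≠ 0 := by positivity
  push_cast
  rw [div_mul_cancel_left₀ this]

lemma fibre (Q x1 x2 : ℕ) (r : ℤ) (hQ : 0 < Q) :
    ∑ a ∈ (Ico x1 x2).filter (fun a => a.Coprime Q), MR.ex (((r * MR.iv a Q : ℤ) : ℝ) / Q) =
      ∑ t ∈ MR.un Q, (((Ico x1 x2).filter fun x : ℕ => (x : ℤ) ≡ (t : ℤ) [ZMOD Q]).card : ℂ) *
        MR.ex (((r * MR.iv t Q : ℤ) : ℝ) / Q) := by
  rw [← sum_fiberwise_of_maps_to (g := fun a => a % Q) (t := MR.un Q) fun a ha =>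
    MR.mem_un.2 ⟨Nat.mod_lt _ hQ, by
      have := (mem_filter.1 ha).2
      rwa [Nat.Coprime, ← Nat.gcd_rec, Nat.gcd_comm]⟩]
  refine sum_congr rfl fun t ht => ?_
  obtain ⟨ht1, ht2⟩ := MR.mem_un.1 ht
  have e : ((Ico x1 x2).filter (fun a => a.Coprime Q)).filter (fun a => a % Q = t) =
      (Ico x1 x2).filter fun x : ℕ => (x : ℤ) ≡ (t : ℤ) [ZMOD Q] := by
    rw [filter_filter]
    refine filter_congr fun a _ => ?_
    rw [Int.natCast_modEq_iff, Nat.ModEq, Nat.mod_eq_of_lt ht1, and_iff_right_iff_imp]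
    intro h
    rw [Nat.Coprime, Nat.gcd_comm, Nat.gcd_rec, h]
    exact ht2
  rw [e, ← nsmul_eq_mul, ← sum_const]
  refine sum_congr rfl fun a ha => ?_
  rw [MR.iv_congr (Int.natCast_modEq_iff.1 (mem_filter.1 ha).2)]

end IKP

theorem pIK (h1 : S_Fou) (h2 : MR.S_KL) : S_IK := by
  intro Q x1 x2 r hQ
  obtain ⟨γ, g1, -, g3⟩ := h1 Q x1 x2 hQ
  have e : ∑ a ∈ (Ico x1 x2).filter (fun a => a.Coprime Q),
      MR.ex (((r * MR.iv a Q : ℤ) : ℝ) / Q) =
      ((x2 - x1 : ℕ) : ℂ) / Q * MR.kl (MR.cls 0 1) 0 r Q +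
        ∑ h ∈ Icc (-(Q : ℤ)) Q, γ h * MR.kl (MR.cls 0 1) h r Q := by
    rw [IKP.fibre Q x1 x2 r hQ, MR.cls_one]
    simp only [MR.kl, mul_sum, one_mul, zero_mul, zero_add]
    rw [sum_comm, ← sum_add_distrib]
    refine sum_congr rfl fun t _ => ?_
    rw [eq_add_of_sub_eq' (g3 Q t le_rfl), add_mul, sum_mul]
    congr 1
    refine sum_congr rfl fun h _ => ?_
    rw [mul_assoc, ← MR.ex_add]
    congr 2
    push_cast
    ring
  have hQ' : (0 : ℝ) < Q := by exact_mod_cast hQ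
  have t0 := MR.tau_nonneg Q
  rw [e, mul_add]
  refine (norm_add_le _ _).trans (add_le_add ?_ ?_)
  · have a1 := h2 Q 1 0 0 r hQ (one_dvd _)
    have a2 : ((0 : ℤ).gcd r).gcd Q = r.gcd Q := by simp [Int.gcd]
    rw [a2] at a1
    rw [norm_mul, norm_div, Complex.norm_natCast, Complex.norm_natCast]
    refine (mul_le_mul_of_nonneg_left a1 (by positivity)).trans (le_of_eq ?_)
    have a3 : Real.sqrt ((Q : ℝ) * (r.gcd Q : ℕ)) = Q * Real.sqrt ((r.gcd Q : ℕ) / (Q : ℝ)) := by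
      rw [← Real.sqrt_sq hQ'.le, ← Real.sqrt_mul (by positivity), Real.sqrt_sq hQ'.le]
      congr 1
      field_simp
    rw [a3]
    field_simp
  · have b1 : ∀ h ∈ Icc (-(Q : ℤ)) Q, ‖γ h * MR.kl (MR.cls 0 1) h r Q‖ ≤
        4 * MR.tau Q * Real.sqrt Q * (((h.natAbs.gcd Q : ℕ) : ℝ) / h.natAbs) := by
      intro h _
      have a1 := h2 Q 1 0 h r hQ (one_dvd _)
      have a2 : (h.gcd r).gcd Q ≤ h.natAbs.gcd Q :=
        Nat.le_of_dvd (Nat.gcd_pos_of_pos_right _ hQ)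
          (Nat.gcd_dvd_gcd_of_dvd_left _ (Nat.gcd_dvd_left _ _))
      have a3 : (1 : ℝ) ≤ (h.natAbs.gcd Q : ℕ) := by
        exact_mod_cast Nat.gcd_pos_of_pos_right _ hQ
      have a4 : Real.sqrt (((h.gcd r).gcd Q : ℕ) : ℝ) ≤ (h.natAbs.gcd Q : ℕ) := by
        refine Real.sqrt_le_iff.2 ⟨by linarith, ?_⟩
        have : (((h.gcd r).gcd Q : ℕ) : ℝ) ≤ (h.natAbs.gcd Q : ℕ) := by exact_mod_cast a2
        nlinarith
      rw [Real.sqrt_mul hQ'.le] at a1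
      have a5 := g1 h
      rw [← Int.cast_abs, ← Int.natCast_natAbs, Int.cast_natCast] at a5
      rw [norm_mul]
      refine (mul_le_mul a5 (a1.trans (mul_le_mul_of_nonneg_left
        (mul_le_mul_of_nonneg_left a4 (by positivity)) (by positivity))) (norm_nonneg _)
        (by positivity)).trans (le_of_eq ?_)
      ring
    refine (norm_sum_le _ _).trans ((sum_le_sum b1).trans ?_)
    rw [← mul_sum]
    have b2 := IKP.sum_even Q (fun n => ((n.gcd Q : ℕ) : ℝ) / n) (fun _ => by positivity) (by simp)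
    have b3 := IKP.sum_gcd Q hQ
    have b4 : 0 ≤ 4 * MR.tau Q * Real.sqrt Q := by positivity
    refine (mul_le_mul_of_nonneg_left (b2.trans (mul_le_mul_of_nonneg_left b3 zero_le_two))
      b4).trans (le_of_eq ?_)
    ring

end Pool.Agent.P.MP_746f10_nt.P2
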