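import Pool.Agent.P.MP_746f10_nt.P2.PosB

/-! The sum of the bounds in the dispersion estimate. -/

namespace Pool.Agent.P.MP_746f10_nt.P2

open Finset

namespace KB2P

/-- one quantity bounding divisor functions and logarithms -/
lemma exT : ∃ K : ℝ, 1 ≤ K ∧ ∀ X : ℕ, 1 ≤ X → ∃ T : ℝ, 1 ≤ T ∧ T ^ 8 = K * X ∧
    ∀ n : ℕ, n ≠ 0 → n ≤ 2 * X ^ 1301 → MR.tau n ≤ T ∧ 1 + Real.log n ≤ T := by
  obtain ⟨C, hC1, hC⟩ := exists_tau_le 8 1301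
  refine ⟨2 * max C (10409 ^ 8), ?_, fun X hX => ?_⟩
  · have := le_max_left C (10409 ^ 8); linarith
  have hX' : (1 : ℝ) ≤ X := by exact_mod_cast hX
  have hm1 := le_max_left C (10409 ^ 8)
  have hm2 := le_max_right C (10409 ^ 8)
  set M := max C (10409 ^ 8) with hM
  have hM1 : 1 ≤ M := hC1.trans hm1
  have hpos : 0 ≤ 2 * M * X := by positivity
  have h8 : ((2 * M * X) ^ ((8 : ℕ) : ℝ)⁻¹) ^ 8 = 2 * M * X :=
    Real.rpow_inv_natCast_pow hpos (by norm_num)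
  have hT0 : 0 ≤ (2 * M * X) ^ ((8 : ℕ) : ℝ)⁻¹ := Real.rpow_nonneg hpos _
  have hy8 : ((2 * X : ℝ) ^ ((8 : ℕ) : ℝ)⁻¹) ^ 8 = 2 * X :=
    Real.rpow_inv_natCast_pow (by positivity) (by norm_num)
  have hy1 : 1 ≤ (2 * X : ℝ) ^ ((8 : ℕ) : ℝ)⁻¹ := Real.one_le_rpow (by linarith) (by positivity)
  set y := (2 * X : ℝ) ^ ((8 : ℕ) : ℝ)⁻¹ with hy
  set T := (2 * M * X) ^ ((8 : ℕ) : ℝ)⁻¹ with hT
  have hyT : 10409 * y ≤ T := by
    refine le_of_pow_le_pow_left₀ (n := 8) (by norm_num) hT0 ?_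
    rw [mul_pow, hy8, h8]
    nlinarith
  refine ⟨T, by linarith, h8, fun n hn hle => ?_⟩
  have hle' : (n : ℝ) ≤ (2 * X) ^ 1301 := by
    have h1 : (n : ℝ) ≤ 2 * (X : ℝ) ^ 1301 := by exact_mod_cast hle
    have h2 : (2 : ℝ) ≤ 2 ^ 1301 := le_self_pow₀ (by norm_num) (by norm_num)
    rw [mul_pow]
    exact h1.trans (mul_le_mul_of_nonneg_right h2 (by positivity))
  constructor
  · refine le_of_pow_le_pow_left₀ (n := 8) (by norm_num) hT0 ?_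
    rw [h8]
    have := hC n (2 * X) hn (by linarith) hle'
    unfold MR.tau
    nlinarith
  · have hn' : (0 : ℝ) < n := by exact_mod_cast Nat.pos_of_ne_zero hn
    have h1 : Real.log n ≤ 1301 * Real.log (2 * X) := by
      have := Real.log_le_log hn' hle'
      rwa [Real.log_pow] at this
    have h2 : Real.log (2 * X) = 8 * Real.log y := by
      rw [← hy8, Real.log_pow]; norm_num
    have h3 : Real.log y ≤ y - 1 := Real.log_le_sub_one_of_pos (by linarith)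
    linarith

lemma sum_ih (H : ℕ) :
    ∑ h ∈ Icc (-(H : ℤ)) H, 1 / |(h : ℝ)| = 2 * ∑ n ∈ Ioc 0 H, (n : ℝ)⁻¹ := by
  induction H with
  | zero => simp
  | succ H ih =>
    have e : Icc (-((H + 1 : ℕ) : ℤ)) ((H + 1 : ℕ) : ℤ) =
        insert (-((H + 1 : ℕ) : ℤ)) (insert ((H + 1 : ℕ) : ℤ) (Icc (-(H : ℤ)) H)) := by
      ext x; simp only [mem_Icc, mem_insert]; omega
    rw [e, sum_insert, sum_insert, ih, sum_Ioc_succ_top (Nat.zero_le H)]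
    · have : (0 : ℝ) ≤ (H : ℝ) + 1 := by positivity
      push_cast
      rw [abs_neg, abs_of_nonneg this, one_div]
      ring
    · simp only [mem_Icc]; omega
    · simp only [mem_Icc, mem_insert]; omega

lemma sum_ih_le (H : ℕ) : ∑ h ∈ Icc (-(H : ℤ)) H, 1 / |(h : ℝ)| ≤ 2 * (1 + Real.log H) := by
  rw [sum_ih]; linarith [sum_inv_le_log H]

lemma sum_one_div_le {Z : ℕ} {A : Finset ℕ} (h : A ⊆ Icc 1 Z) :
    ∑ a ∈ A, 1 / (a : ℝ) ≤ 1 + Real.log Z := by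
  refine le_trans ?_ (sum_inv_le_log Z)
  simp only [one_div]
  exact sum_le_sum_of_subset_of_nonneg (fun a ha => mem_Ioc.2 (mem_Icc.1 (h ha)))
    fun _ _ _ => by positivity

lemma card_le' {Z : ℕ} {A : Finset ℕ} (h : A ⊆ Icc 1 Z) : (A.card : ℝ) ≤ Z := by
  have : A.card ≤ Z := by simpa using card_le_card h
  exact_mod_cast this

lemma sum_dvd_le (A : Finset ℕ) {m : ℕ} (hm : m ≠ 0) :
    ∑ a ∈ A, (if a ∣ m then (1 : ℝ) else 0) ≤ MR.tau m := by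
  rw [sum_boole]
  unfold MR.tau
  exact_mod_cast card_le_card fun a ha => Nat.mem_divisors.2 ⟨(mem_filter.1 ha).2, hm⟩

lemma sum_mult_le {Z d : ℕ} {A : Finset ℕ} (h : A ⊆ Icc 1 Z) (hd : 1 ≤ d) :
    ∑ c ∈ A, (if d ∣ c then (d : ℝ) / c else 0) ≤ 1 + Real.log Z := by
  rw [← sum_filter]
  have e : ∑ c ∈ A.filter (fun c => d ∣ c), (d : ℝ) / c =
      ∑ n ∈ (A.filter fun c => d ∣ c).image (fun c => c / d), 1 / (n : ℝ) := by
    rw [sum_image]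
    · refine sum_congr rfl fun c hc => ?_
      obtain ⟨k, rfl⟩ := (mem_filter.1 hc).2
      have hd' : (d : ℝ) ≠ 0 := by positivity
      rw [Nat.mul_div_cancel_left _ hd]
      push_cast
      rw [div_mul_cancel_left₀ hd', one_div]
    · intro a ha b hb hab
      obtain ⟨k, rfl⟩ := (mem_filter.1 (mem_coe.1 ha)).2
      obtain ⟨l, rfl⟩ := (mem_filter.1 (mem_coe.1 hb)).2
      simp only [Nat.mul_div_cancel_left _ hd] at hab
      rw [hab]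
  rw [e]
  refine sum_one_div_le fun n hn => ?_
  obtain ⟨c, hc, rfl⟩ := mem_image.1 hn
  obtain ⟨hc1, k, rfl⟩ := mem_filter.1 hc
  have := mem_Icc.1 (h hc1)
  rw [Nat.mul_div_cancel_left _ hd, mem_Icc]
  constructor
  · rcases Nat.eq_zero_or_pos k with rfl | hk
    · omega
    · exact hk
  · exact (Nat.le_mul_of_pos_left k hd).trans this.2

lemma sum_gcd_le {Z : ℕ} {A : Finset ℕ} (h : A ⊆ Icc 1 Z) {t : ℤ} (ht : t ≠ 0) :
    ∑ c ∈ A, ((t.gcd c : ℕ) : ℝ) / c ≤ MR.tau t.natAbs * (1 + Real.log Z) := by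
  have hm : t.natAbs ≠ 0 := Int.natAbs_ne_zero.2 ht
  calc _ ≤ ∑ c ∈ A, ∑ d ∈ t.natAbs.divisors, (if d ∣ c then (d : ℝ) / c else 0) := by
        refine sum_le_sum fun c _ => ?_
        have h1 : t.gcd c ∈ t.natAbs.divisors :=
          Nat.mem_divisors.2 ⟨Nat.gcd_dvd_left _ _, hm⟩
        have h2 : t.gcd c ∣ c := Nat.gcd_dvd_right t.natAbs c
        refine le_trans ?_ (single_le_sum (f := fun d => if d ∣ c then (d : ℝ) / c else 0)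
          (fun d _ => by split_ifs <;> positivity) h1)
        simp only [if_pos h2, le_refl]
    _ = ∑ d ∈ t.natAbs.divisors, ∑ c ∈ A, (if d ∣ c then (d : ℝ) / c else 0) := sum_comm
    _ ≤ ∑ _d ∈ t.natAbs.divisors, (1 + Real.log Z) :=
        sum_le_sum fun d hd => sum_mult_le h (Nat.pos_of_mem_divisors hd)
    _ = _ := by rw [sum_const, nsmul_eq_mul]; rfl

lemma sqrt_le_am {x l : ℝ} (hx : 0 ≤ x) (hl : 0 < l) : Real.sqrt x ≤ (l * x + 1 / l) / 2 := by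
  have h1 : Real.sqrt x * Real.sqrt x = x := Real.mul_self_sqrt hx
  have h2 : 0 ≤ (l * Real.sqrt x - 1) ^ 2 / l := by positivity
  have h3 : (l * Real.sqrt x - 1) ^ 2 / l =
      l * (Real.sqrt x * Real.sqrt x) + 1 / l - 2 * Real.sqrt x := by field_simp; ring
  rw [h3, h1] at h2
  linarith

lemma sum_sqrt_le {Y : ℕ} (hY : 1 ≤ Y) {A : Finset ℕ} (h : A ⊆ Icc 1 (Y ^ 2)) {t : ℤ}
    (ht : t ≠ 0) {T : ℝ} (hT : 1 ≤ T) (h1 : MR.tau t.natAbs ≤ T)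
    (h2 : 1 + Real.log (Y ^ 2 : ℕ) ≤ T) :
    ∑ c ∈ A, Real.sqrt ((t.gcd c : ℕ) / (c : ℝ)) ≤ Y * T ^ 2 := by
  have hY' : (0 : ℝ) < Y := by exact_mod_cast hY
  have h3 := sum_gcd_le h ht
  have h4 := card_le' h
  have h0 : 0 ≤ 1 + Real.log (Y ^ 2 : ℕ) := by positivity
  have h5 : MR.tau t.natAbs * (1 + Real.log (Y ^ 2 : ℕ)) ≤ T ^ 2 := by
    rw [sq T]; exact mul_le_mul h1 h2 h0 (by linarith)
  calc _ ≤ ∑ c ∈ A, ((Y : ℝ) * ((t.gcd c : ℕ) / (c : ℝ)) + 1 / Y) / 2 :=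
        sum_le_sum fun c _ => sqrt_le_am (by positivity) hY'
    _ = (Y * ∑ c ∈ A, ((t.gcd c : ℕ) : ℝ) / c + A.card * (1 / Y)) / 2 := by
        rw [← sum_div, sum_add_distrib, ← mul_sum, sum_const, nsmul_eq_mul]
    _ ≤ (Y * T ^ 2 + ((Y ^ 2 : ℕ) : ℝ) * (1 / Y)) / 2 := by
        gcongr
        exact h3.trans h5
    _ = (Y * T ^ 2 + Y) / 2 := by push_cast; field_simp
    _ ≤ _ := by
        have : 1 ≤ T ^ 2 := one_le_pow₀ hT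
        nlinarith

lemma sum_h_le (I : Finset ℤ) (n : ℤ) {b d : ℕ} (hb : 1 ≤ b) (hd : 1 ≤ d) :
    ∑ h ∈ I, (if n - h * b * d = 0 then (1 : ℝ) else 0) ≤
      (if b ∣ n.natAbs then 1 else 0) * (if d ∣ n.natAbs then 1 else 0) := by
  by_cases hx : ∃ h ∈ I, n - h * b * d = 0
  · obtain ⟨h, -, hh⟩ := hx
    have e : n = h * b * d := by linarith
    have e1 : b ∣ n.natAbs := Int.natCast_dvd.1 ⟨h * d, by rw [e]; ring⟩
    have e2 : d ∣ n.natAbs := Int.natCast_dvd.1 ⟨h * b, by rw [e]; ring⟩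
    rw [if_pos e1, if_pos e2, one_mul, sum_boole]
    have : (I.filter fun h : ℤ => n - h * b * d = 0).card ≤ 1 := by
      refine card_le_one.2 fun x hx y hy => ?_
      have h1 := (mem_filter.1 hx).2
      have h2 := (mem_filter.1 hy).2
      have h3 : (0 : ℤ) < (b : ℤ) * d := by positivity
      have h4 : x * ((b : ℤ) * d) = y * (b * d) := by linarith
      exact mul_right_cancel₀ h3.ne' h4
    exact_mod_cast this
  · rw [sum_eq_zero fun h hh => if_neg fun e => hx ⟨h, hh, e⟩]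
    split_ifs <;> norm_num

lemma count_le {B D : Finset ℕ} (hB : ∀ b ∈ B, 1 ≤ b) (hD : ∀ d ∈ D, 1 ≤ d) (I : Finset ℤ)
    {n : ℤ} (hn : n ≠ 0) :
    ∑ b ∈ B, ∑ d ∈ D, ∑ h ∈ I, (if n - h * b * d = 0 then (1 : ℝ) else 0) ≤
      MR.tau n.natAbs ^ 2 := by
  have hm : n.natAbs ≠ 0 := Int.natAbs_ne_zero.2 hn
  calc _ ≤ ∑ b ∈ B, ∑ d ∈ D, (if b ∣ n.natAbs then (1 : ℝ) else 0) *
          (if d ∣ n.natAbs then 1 else 0) :=
        sum_le_sum fun b hb => sum_le_sum fun d hd => sum_h_le I n (hB b hb) (hD d hd)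
    _ = (∑ b ∈ B, if b ∣ n.natAbs then (1 : ℝ) else 0) *
          ∑ d ∈ D, if d ∣ n.natAbs then (1 : ℝ) else 0 := (sum_mul_sum _ _ _ _).symm
    _ ≤ _ := by
        rw [sq]
        exact mul_le_mul (sum_dvd_le B hm) (sum_dvd_le D hm)
          (sum_nonneg fun _ _ => by split_ifs <;> norm_num) (by unfold MR.tau; positivity)

lemma reorder (B D : Finset ℕ) (I : Finset ℤ) (f : ℕ → ℕ → ℤ → ℕ → ℕ → ℤ → ℝ) :
    ∑ u ∈ B ×ˢ D ×ˢ I, ∑ v ∈ B ×ˢ D ×ˢ I, f u.1 u.2.1 u.2.2 v.1 v.2.1 v.2.2 =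
      ∑ h1 ∈ I, ∑ b2 ∈ B, ∑ d2 ∈ D, ∑ b1 ∈ B, ∑ d1 ∈ D, ∑ h2 ∈ I, f b1 d1 h1 b2 d2 h2 := by
  simp only [sum_product]
  calc _ = ∑ b1 ∈ B, ∑ h1 ∈ I, ∑ d1 ∈ D, ∑ b2 ∈ B, ∑ d2 ∈ D, ∑ h2 ∈ I, f b1 d1 h1 b2 d2 h2 :=
        sum_congr rfl fun _ _ => sum_comm
    _ = ∑ h1 ∈ I, ∑ b1 ∈ B, ∑ d1 ∈ D, ∑ b2 ∈ B, ∑ d2 ∈ D, ∑ h2 ∈ I, f b1 d1 h1 b2 d2 h2 :=
        sum_comm
    _ = ∑ h1 ∈ I, ∑ b1 ∈ B, ∑ b2 ∈ B, ∑ d1 ∈ D, ∑ d2 ∈ D, ∑ h2 ∈ I, f b1 d1 h1 b2 d2 h2 :=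
        sum_congr rfl fun _ _ => sum_congr rfl fun _ _ => sum_comm
    _ = ∑ h1 ∈ I, ∑ b2 ∈ B, ∑ b1 ∈ B, ∑ d1 ∈ D, ∑ d2 ∈ D, ∑ h2 ∈ I, f b1 d1 h1 b2 d2 h2 :=
        sum_congr rfl fun _ _ => sum_comm
    _ = ∑ h1 ∈ I, ∑ b2 ∈ B, ∑ b1 ∈ B, ∑ d2 ∈ D, ∑ d1 ∈ D, ∑ h2 ∈ I, f b1 d1 h1 b2 d2 h2 :=
        sum_congr rfl fun _ _ => sum_congr rfl fun _ _ => sum_congr rfl fun _ _ => sum_comm
    _ = _ := sum_congr rfl fun _ _ => sum_congr rfl fun _ _ => sum_comm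

lemma sum_u_le {B D : Finset ℕ} {Z H : ℕ} (hB : B ⊆ Icc 1 Z) (hD : D ⊆ Icc 1 Z) {T : ℝ}
    (hT : 1 + Real.log H ≤ T) :
    ∑ u ∈ B ×ˢ D ×ˢ Icc (-(H : ℤ)) H, 1 / |((u.2.2 : ℤ) : ℝ)| ≤ (Z : ℝ) ^ 2 * (2 * T) := by
  simp only [sum_product, sum_const, nsmul_eq_mul]
  have h1 := card_le' hB
  have h2 := card_le' hD
  have h3 := sum_ih_le H
  have h0 : 0 ≤ ∑ h ∈ Icc (-(H : ℤ)) H, 1 / |(h : ℝ)| := sum_nonneg fun _ _ => by positivity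
  rw [sq, mul_assoc]
  gcongr
  linarith

/-- the diagonal terms -/
lemma diagS {X len Lx : ℕ} {B Cc D : Finset ℕ} (hX : 1 ≤ X) (hlen : len ≤ X ^ 994)
    (hL : len * Lx ≤ X ^ 2002) (hB : B ⊆ Icc 1 (X ^ 102)) (hC : Cc ⊆ Icc 1 (X ^ 994))
    (hD : D ⊆ Icc 1 (X ^ 102)) {T : ℝ} (hT1 : 1 ≤ T)
    (hT : ∀ n : ℕ, n ≠ 0 → n ≤ 2 * X ^ 1301 → MR.tau n ≤ T ∧ 1 + Real.log n ≤ T) :
    ∑ c ∈ Cc, ∑ u ∈ B ×ˢ D ×ˢ Icc (-((X ^ 1097 : ℕ) : ℤ)) (X ^ 1097 : ℕ),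
      ∑ v ∈ B ×ˢ D ×ˢ Icc (-((X ^ 1097 : ℕ) : ℤ)) (X ^ 1097 : ℕ),
      1 / |((u.2.2 : ℤ) : ℝ)| * (((Lx : ℝ) / v.1 + 1) / (c * v.2.1)) * len *
        (if u.2.2 * v.1 * v.2.1 - v.2.2 * u.1 * u.2.1 = 0 then (1 : ℝ) else 0) ≤
      4 * T ^ 6 * (X : ℝ) ^ 2002 := by
  have hpw : ∀ e, e ≤ 1301 → 1 + Real.log (X ^ e : ℕ) ≤ T := fun e he =>
    (hT _ (by positivity) ((Nat.pow_le_pow_right hX he).trans (by omega))).2
  have hX' : (1 : ℝ) ≤ X := by exact_mod_cast hX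
  set I := Icc (-((X ^ 1097 : ℕ) : ℤ)) (X ^ 1097 : ℕ) with hI
  have step : ∀ c ∈ Cc, ∑ u ∈ B ×ˢ D ×ˢ I, ∑ v ∈ B ×ˢ D ×ˢ I,
      1 / |((u.2.2 : ℤ) : ℝ)| * (((Lx : ℝ) / v.1 + 1) / (c * v.2.1)) * len *
        (if u.2.2 * v.1 * v.2.1 - v.2.2 * u.1 * u.2.1 = 0 then (1 : ℝ) else 0) ≤
      1 / (c : ℝ) * ((∑ h ∈ I, 1 / |(h : ℝ)|) * ((∑ b ∈ B, ((Lx : ℝ) * (1 / b) + 1)) *
        ((∑ d ∈ D, 1 / (d : ℝ)) * (len * T ^ 2)))) := by
    intro c _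
    rw [reorder B D I fun b1 d1 h1 b2 d2 h2 => 1 / |(h1 : ℝ)| *
      (((Lx : ℝ) / b2 + 1) / (c * d2)) * len *
        (if h1 * b2 * d2 - h2 * b1 * d1 = 0 then (1 : ℝ) else 0)]
    rw [sum_mul, mul_sum]
    refine sum_le_sum fun h1 hh => ?_
    rw [sum_mul, mul_sum, mul_sum]
    refine sum_le_sum fun b hb => ?_
    rw [sum_mul, mul_sum, mul_sum, mul_sum]
    refine sum_le_sum fun d hd => ?_
    simp only [← mul_sum]
    by_cases h0 : h1 = 0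
    · simp [h0]
    have hb' := mem_Icc.1 (hB hb)
    have hd' := mem_Icc.1 (hD hd)
    have hn : h1 * b * d ≠ 0 := by
      have : (0 : ℤ) < (b : ℤ) * d := by have := hb'.1; have := hd'.1; positivity
      rw [mul_assoc]; exact mul_ne_zero h0 this.ne'
    have hc := count_le (fun b hb => (mem_Icc.1 (hB hb)).1) (fun d hd => (mem_Icc.1 (hD hd)).1)
      I hn
    have hh' : h1.natAbs ≤ X ^ 1097 := by
      have := mem_Icc.1 hh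
      omega
    have hle : (h1 * b * d).natAbs ≤ 2 * X ^ 1301 := by
      rw [Int.natAbs_mul, Int.natAbs_mul, Int.natAbs_natCast, Int.natAbs_natCast]
      calc _ ≤ X ^ 1097 * X ^ 102 * X ^ 102 := Nat.mul_le_mul (Nat.mul_le_mul hh' hb'.2) hd'.2
        _ = X ^ 1301 := by rw [← pow_add, ← pow_add]
        _ ≤ _ := by omega
    have ht := (hT _ (Int.natAbs_ne_zero.2 hn) hle).1
    have ht2 : MR.tau (h1 * b * d).natAbs ^ 2 ≤ T ^ 2 :=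
      pow_le_pow_left₀ (by unfold MR.tau; positivity) ht 2
    calc _ ≤ 1 / |(h1 : ℝ)| * (((Lx : ℝ) / b + 1) / (c * d)) * len * T ^ 2 :=
          mul_le_mul_of_nonneg_left (hc.trans ht2) (by positivity)
      _ = _ := by ring
  have s1 : ∑ h ∈ I, 1 / |(h : ℝ)| ≤ 2 * T := by
    have := sum_ih_le (X ^ 1097); have := hpw 1097 (by norm_num); linarith
  have s2 : ∑ b ∈ B, ((Lx : ℝ) * (1 / b) + 1) ≤ Lx * T + (X : ℝ) ^ 102 := by
    rw [sum_add_distrib, ← mul_sum, sum_const, nsmul_eq_mul, mul_one]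
    have h1 := (sum_one_div_le hB).trans (hpw 102 (by norm_num))
    have h2 := card_le' hB
    push_cast at h2
    gcongr
  have s3 : ∑ d ∈ D, 1 / (d : ℝ) ≤ T := (sum_one_div_le hD).trans (hpw 102 (by norm_num))
  have s4 : ∑ c ∈ Cc, 1 / (c : ℝ) ≤ T := (sum_one_div_le hC).trans (hpw 994 (by norm_num))
  have e1 : (len : ℝ) * Lx ≤ (X : ℝ) ^ 2002 := by exact_mod_cast hL
  have e2 : (len : ℝ) * (X : ℝ) ^ 102 ≤ (X : ℝ) ^ 2002 := by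
    have : (len : ℝ) ≤ (X : ℝ) ^ 994 := by exact_mod_cast hlen
    calc _ ≤ (X : ℝ) ^ 994 * (X : ℝ) ^ 102 := by gcongr
      _ = (X : ℝ) ^ 1096 := by rw [← pow_add]
      _ ≤ _ := pow_le_pow_right₀ hX' (by norm_num)
  have hT0 : 0 ≤ T := by linarith
  refine (sum_le_sum step).trans ?_
  rw [← sum_mul]
  calc _ ≤ T * (2 * T * ((Lx * T + (X : ℝ) ^ 102) * (T * (len * T ^ 2)))) := by
        gcongr
    _ = 2 * T ^ 5 * (T * (len * Lx) + len * (X : ℝ) ^ 102) := by ring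
    _ ≤ 2 * T ^ 5 * (T * (X : ℝ) ^ 2002 + T * (X : ℝ) ^ 2002) := by
        have : (X : ℝ) ^ 2002 ≤ T * (X : ℝ) ^ 2002 := le_mul_of_one_le_left (by positivity) hT1
        exact mul_le_mul_of_nonneg_left
          (add_le_add (mul_le_mul_of_nonneg_left e1 hT0) (e2.trans this)) (by positivity)
    _ = _ := by ring

end KB2P

open KB2P

theorem pKB2 : S_KB2 := by
  obtain ⟨K, hK1, hK⟩ := exT
  refine ⟨52 * K, fun X a1 len Lx B Cc D γ hX ha1 ha2 hlen hL hB hC hD hγ => ?_⟩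
  obtain ⟨T, hT1, hT8, hT⟩ := hK X hX
  have hpw : ∀ e, e ≤ 1301 → 1 + Real.log (X ^ e : ℕ) ≤ T := fun e he =>
    (hT _ (by positivity) ((Nat.pow_le_pow_right hX he).trans (by omega))).2
  have hX' : (1 : ℝ) ≤ X := by exact_mod_cast hX
  have hT0 : 0 ≤ T := by linarith
  have hdiag := diagS hX hlen hL hB hC hD hT1 hT
  have hU := sum_u_le (H := X ^ 1097) hB hD (hpw 1097 (by norm_num))
  set U := B ×ˢ D ×ˢ Icc (-((X ^ 1097 : ℕ) : ℤ)) (X ^ 1097 : ℕ) with hUdef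
  have hmem : ∀ u ∈ U, u.1 ∈ B ∧ u.2.1 ∈ D ∧ u.2.2.natAbs ≤ X ^ 1097 := fun u hu => by
    have h1 := mem_product.1 hu
    have h2 := mem_product.1 h1.2
    have h3 := mem_Icc.1 h2.2
    exact ⟨h1.1, h2.1, by omega⟩
  have hlen' : (len : ℝ) ≤ (X : ℝ) ^ 994 := by exact_mod_cast hlen
  have term : ∀ c ∈ Cc, ∀ u ∈ U, ∀ v ∈ U,
      ‖γ c u.1 u.2.1 u.2.2‖ * ‖γ c v.1 v.2.1 v.2.2‖ *
        kb (a1 * c * u.2.1 * v.2.1) c len (u.2.2 * v.1 * v.2.1 - v.2.2 * u.1 * u.2.1) ≤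
      1 / |((u.2.2 : ℤ) : ℝ)| * (((Lx : ℝ) / v.1 + 1) / (c * v.2.1)) * len *
        (if u.2.2 * v.1 * v.2.1 - v.2.2 * u.1 * u.2.1 = 0 then (1 : ℝ) else 0) +
      1 / |((u.2.2 : ℤ) : ℝ)| * (1 / |((v.2.2 : ℤ) : ℝ)|) * (4 * T * ((X : ℝ) ^ 994 *
        (if u.2.2 * v.1 * v.2.1 - v.2.2 * u.1 * u.2.1 = 0 then 0 else
          Real.sqrt (((u.2.2 * v.1 * v.2.1 - v.2.2 * u.1 * u.2.1).gcd c : ℕ) / (c : ℝ))) +
        2 * (X : ℝ) ^ 600 * T * T)) := by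
    intro c hc u hu v hv
    obtain ⟨u1, u2, -⟩ := hmem u hu
    obtain ⟨v1, v2, -⟩ := hmem v hv
    have g1 := (hγ c hc _ u1 _ u2 u.2.2).1
    have g2 := hγ c hc _ v1 _ v2 v.2.2
    unfold kb
    split_ifs with ht
    · have : 0 ≤ 1 / |((u.2.2 : ℤ) : ℝ)| * (1 / |((v.2.2 : ℤ) : ℝ)|) *
          (4 * T * ((X : ℝ) ^ 994 * 0 + 2 * (X : ℝ) ^ 600 * T * T)) := by
        rw [mul_zero, zero_add]; positivity
      have h2 : ‖γ c u.1 u.2.1 u.2.2‖ * ‖γ c v.1 v.2.1 v.2.2‖ * len ≤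
          1 / |((u.2.2 : ℤ) : ℝ)| * (((Lx : ℝ) / v.1 + 1) / (c * v.2.1)) * len := by
        gcongr
        exact g2.2
      linarith
    · rw [mul_zero, zero_add]
      have c' := mem_Icc.1 (hC hc)
      have d1 := mem_Icc.1 (hD u2)
      have d2 := mem_Icc.1 (hD v2)
      have hQ0 : a1 * c * u.2.1 * v.2.1 ≠ 0 := by
        have := c'.1; have := d1.1; have := d2.1; positivity
      have hQ : a1 * c * u.2.1 * v.2.1 ≤ X ^ 1200 :=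
        calc _ ≤ X ^ 1 * X ^ 994 * X ^ 102 * X ^ 102 :=
              Nat.mul_le_mul (Nat.mul_le_mul (Nat.mul_le_mul (by simpa using ha2) c'.2) d1.2) d2.2
          _ = X ^ 1199 := by rw [← pow_add, ← pow_add, ← pow_add]
          _ ≤ _ := Nat.pow_le_pow_right hX (by norm_num)
      obtain ⟨t1, t2⟩ := hT _ hQ0
        (hQ.trans ((Nat.pow_le_pow_right hX (by norm_num : 1200 ≤ 1301)).trans (by omega)))
      have t3 : Real.sqrt (a1 * c * u.2.1 * v.2.1 : ℕ) ≤ (X : ℝ) ^ 600 := by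
        refine Real.sqrt_le_iff.2 ⟨by positivity, ?_⟩
        rw [← pow_mul]
        exact_mod_cast hQ
      have t0 : 0 ≤ MR.tau (a1 * c * u.2.1 * v.2.1) := by unfold MR.tau; positivity
      gcongr
      exact g2.1
  have hoff : ∀ u ∈ U, ∀ v ∈ U, ∑ c ∈ Cc,
      1 / |((u.2.2 : ℤ) : ℝ)| * (1 / |((v.2.2 : ℤ) : ℝ)|) * (4 * T * ((X : ℝ) ^ 994 *
        (if u.2.2 * v.1 * v.2.1 - v.2.2 * u.1 * u.2.1 = 0 then 0 else
          Real.sqrt (((u.2.2 * v.1 * v.2.1 - v.2.2 * u.1 * u.2.1).gcd c : ℕ) / (c : ℝ))) +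
        2 * (X : ℝ) ^ 600 * T * T)) ≤
      1 / |((u.2.2 : ℤ) : ℝ)| * (1 / |((v.2.2 : ℤ) : ℝ)|) * (12 * T ^ 3 * (X : ℝ) ^ 1594) := by
    intro u hu v hv
    obtain ⟨u1, u2, u3⟩ := hmem u hu
    obtain ⟨v1, v2, v3⟩ := hmem v hv
    rw [← mul_sum, ← mul_sum, sum_add_distrib, ← mul_sum, sum_const, nsmul_eq_mul]
    have hc := card_le' hC
    push_cast at hc
    have hs : ∑ c ∈ Cc, (if u.2.2 * v.1 * v.2.1 - v.2.2 * u.1 * u.2.1 = 0 then 0 else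
          Real.sqrt (((u.2.2 * v.1 * v.2.1 - v.2.2 * u.1 * u.2.1).gcd c : ℕ) / (c : ℝ))) ≤
        (X : ℝ) ^ 600 * T ^ 2 := by
      split_ifs with ht
      · rw [sum_const_zero]; positivity
      have bd : ∀ (h : ℤ) (b d : ℕ), h.natAbs ≤ X ^ 1097 → b ∈ B → d ∈ D →
          (h * b * d).natAbs ≤ X ^ 1301 := fun h b d h1 h2 h3 => by
        rw [Int.natAbs_mul, Int.natAbs_mul, Int.natAbs_natCast, Int.natAbs_natCast]
        calc _ ≤ X ^ 1097 * X ^ 102 * X ^ 102 :=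
              Nat.mul_le_mul (Nat.mul_le_mul h1 (mem_Icc.1 (hB h2)).2) (mem_Icc.1 (hD h3)).2
          _ = X ^ 1301 := by rw [← pow_add, ← pow_add]
      have hle : (u.2.2 * v.1 * v.2.1 - v.2.2 * u.1 * u.2.1).natAbs ≤ 2 * X ^ 1301 := by
        have h1 := bd _ _ _ u3 v1 v2
        have h2 := bd _ _ _ v3 u1 u2
        exact (Int.natAbs_sub_le _ _).trans (by omega)
      have e : X ^ 994 = (X ^ 497) ^ 2 := by rw [← pow_mul]
      have h3 := sum_sqrt_le (Y := X ^ 497) (Nat.one_le_pow _ _ hX) (e ▸ hC) ht hT1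
        (hT _ (Int.natAbs_ne_zero.2 ht) hle).1 (e ▸ hpw 994 (by norm_num))
      push_cast at h3
      refine h3.trans ?_
      gcongr
      norm_num
    refine mul_le_mul_of_nonneg_left ?_ (by positivity)
    calc _ ≤ 4 * T * ((X : ℝ) ^ 994 * ((X : ℝ) ^ 600 * T ^ 2) +
          (X : ℝ) ^ 994 * (2 * (X : ℝ) ^ 600 * T * T)) := by gcongr
      _ = 12 * T ^ 3 * ((X : ℝ) ^ 994 * (X : ℝ) ^ 600) := by ring
      _ = _ := by rw [← pow_add]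
  have hU0 : 0 ≤ ∑ u ∈ U, 1 / |((u.2.2 : ℤ) : ℝ)| := sum_nonneg fun _ _ => by positivity
  have hoff2 : ∑ u ∈ U, ∑ v ∈ U,
      1 / |((u.2.2 : ℤ) : ℝ)| * (1 / |((v.2.2 : ℤ) : ℝ)|) * (12 * T ^ 3 * (X : ℝ) ^ 1594) ≤
      48 * T ^ 5 * (X : ℝ) ^ 2002 := by
    simp only [← sum_mul, ← mul_sum]
    push_cast at hU
    calc _ ≤ ((X : ℝ) ^ 102) ^ 2 * (2 * T) * (((X : ℝ) ^ 102) ^ 2 * (2 * T)) *
          (12 * T ^ 3 * (X : ℝ) ^ 1594) := by gcongr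
      _ = 48 * T ^ 5 * (((X : ℝ) ^ 102) ^ 4 * (X : ℝ) ^ 1594) := by
          generalize (X : ℝ) ^ 102 = y
          generalize (X : ℝ) ^ 1594 = z
          ring
      _ = _ := by rw [← pow_mul, ← pow_add]
  refine (sum_le_sum fun c hc => sum_le_sum fun u hu => sum_le_sum fun v hv =>
    term c hc u hu v hv).trans ?_
  simp only [sum_add_distrib]
  have hsw := (sum_le_sum fun u hu => sum_le_sum fun v hv => hoff u hu v hv).trans hoff2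
  have p5 : T ^ 5 ≤ K * X := hT8 ▸ pow_le_pow_right₀ hT1 (by norm_num)
  have p6 : T ^ 6 ≤ K * X := hT8 ▸ pow_le_pow_right₀ hT1 (by norm_num)
  have q : (X : ℝ) * (X : ℝ) ^ 2002 ≤ (X : ℝ) ^ 2004 := by
    rw [← pow_succ']; exact pow_le_pow_right₀ hX' (by norm_num)
  refine (add_le_add hdiag (le_of_eq_of_le ?_ hsw)).trans ?_
  · rw [sum_comm]
    exact sum_congr rfl fun _ _ => sum_comm
  · calc _ ≤ 4 * (K * X) * (X : ℝ) ^ 2002 + 48 * (K * X) * (X : ℝ) ^ 2002 := by gcongr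
      _ = 52 * K * (X * (X : ℝ) ^ 2002) := by
          generalize (X : ℝ) ^ 2002 = y
          ring
      _ ≤ _ := by gcongr

end Pool.Agent.P.MP_746f10_nt.P2
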