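import Pool.Agent.P.MP_746f10_nt.P2.Defs
import Pool.Agent.P.MP_79de8b_nt.Basic

/-! The dispersion estimate for one box, from the Fourier expansion and the two halves of the
dispersion bound. -/

namespace Pool.Agent.P.MP_746f10_nt.P2

open Finset Pool.Agent.P.MP_0ad054_nt.Sun

namespace KBoxP

lemma cong_iff {m q κ x : ℕ} (hq : 0 < q) (h : m.Coprime q) :
    m * x ≡ κ [MOD q] ↔ (x : ℤ) ≡ (κ : ℤ) * MR.iv m q [ZMOD q] := by
  have h1 := MR.mul_iv hq h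
  rw [← Nat.cast_mul, Int.natCast_modEq_iff]
  constructor
  · intro hx
    calc x = 1 * x := (one_mul x).symm
      _ ≡ (m * MR.iv m q) * x [MOD q] := h1.symm.mul_right _
      _ = (m * x) * MR.iv m q := by ring
      _ ≡ κ * MR.iv m q [MOD q] := hx.mul_right _
  · intro hx
    calc m * x ≡ m * (κ * MR.iv m q) [MOD q] := hx.mul_left _
      _ = κ * (m * MR.iv m q) := by ring
      _ ≡ κ * 1 [MOD q] := h1.mul_left _
      _ = κ := mul_one _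

/-- Cauchy-Schwarz in two variables -/
lemma cs2 (Cc A : Finset ℕ) (f : ℕ → ℕ → ℝ) :
    (∑ c ∈ Cc, ∑ a ∈ A, f c a) ^ 2 ≤ (Cc.card : ℝ) * (A.card * ∑ c ∈ Cc, ∑ a ∈ A, f c a ^ 2) := by
  refine sq_sum_le_card_mul_sum_sq.trans ?_
  rw [mul_sum Cc]
  rw [mul_sum Cc, mul_sum Cc]
  refine sum_le_sum fun c _ => ?_
  exact mul_le_mul_of_nonneg_left sq_sum_le_card_mul_sum_sq (Nat.cast_nonneg _)

lemma coef_le {a1 b c d L Lx : ℕ} (ha : 1 ≤ a1) (hb : 1 ≤ b) (hc : 1 ≤ c) (hd : 1 ≤ d)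
    (h : b * L ≤ Lx + b) : (L : ℝ) / (a1 * c * d : ℕ) ≤ ((Lx : ℝ) / b + 1) / (c * d) := by
  have hb' : (0 : ℝ) < b := by exact_mod_cast hb
  have hcd : (0 : ℝ) < c * d := by
    have : 0 < c * d := Nat.mul_pos hc hd
    exact_mod_cast this
  have ha' : (1 : ℝ) ≤ a1 := by exact_mod_cast ha
  have h' : (b : ℝ) * L ≤ Lx + b := by exact_mod_cast h
  have hL : (L : ℝ) ≤ (Lx : ℝ) / b + 1 := by
    rw [div_add_one hb'.ne', le_div_iff₀ hb']; linarith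
  refine div_le_div₀ (by positivity) hL hcd ?_
  push_cast
  nlinarith

end KBoxP

open KBoxP

theorem pKBox (h1 : S_Fou) (h2 : S_KB1) (h3 : S_KB2) : S_KBox := by
  obtain ⟨C, hC⟩ := h3
  have h1' : ∀ q x1 x2 : ℕ, ∃ γ : ℤ → ℂ, 0 < q → (∀ h : ℤ, ‖γ h‖ ≤ 1 / |(h : ℝ)|) ∧
      (∀ h : ℤ, ‖γ h‖ ≤ ((x2 - x1 : ℕ) : ℝ) / q) ∧ ∀ (H : ℕ) (ξ : ℤ), q ≤ H →
      ((((Ico x1 x2).filter fun x : ℕ => (x : ℤ) ≡ ξ [ZMOD q]).card : ℂ) -
        ((x2 - x1 : ℕ) : ℂ) / q =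
          ∑ h ∈ Icc (-(H : ℤ)) H, γ h * MR.ex (((h * ξ : ℤ) : ℝ) / q)) := by
    intro q x1 x2
    by_cases hq : 0 < q
    · obtain ⟨γ, hγ⟩ := h1 q x1 x2 hq
      exact ⟨γ, fun _ => hγ⟩
    · exact ⟨0, fun h => absurd h hq⟩
  choose G hG using h1'
  refine ⟨max C 1, ?_⟩
  intro X a1 x1 x2 Lx A B Cc D y1 y2 κ hX ha1 ha1X hlen hLx hA hB hCc hD hAc hBc hκ
  have hb1 : ∀ b ∈ B, 1 ≤ b := fun b hb => (mem_Icc.1 (hB hb)).1
  have hc1 : ∀ c ∈ Cc, 1 ≤ c := fun c hc => (mem_Icc.1 (hCc hc)).1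
  have hd1 : ∀ d ∈ D, 1 ≤ d := fun d hd => (mem_Icc.1 (hD hd)).1
  have hq : ∀ c ∈ Cc, ∀ d ∈ D, 0 < a1 * c * d := fun c hc d hd =>
    Nat.mul_pos (Nat.mul_pos ha1 (hc1 c hc)) (hd1 d hd)
  have hqH : ∀ c ∈ Cc, ∀ d ∈ D, a1 * c * d ≤ X ^ 1097 := fun c hc d hd => by
    calc a1 * c * d ≤ X * X ^ 994 * X ^ 102 :=
          Nat.mul_le_mul (Nat.mul_le_mul ha1X (mem_Icc.1 (hCc hc)).2) (mem_Icc.1 (hD hd)).2
      _ = X ^ 1097 := by ring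
  set γ : ℕ → ℕ → ℕ → ℤ → ℂ := fun c b d => G (a1 * c * d) (y1 b) (y2 b) with hγ
  have hK2 := hC X a1 (x2 - x1) Lx B Cc D γ hX ha1 ha1X hlen hLx hB hCc hD
    fun c hc b hb d hd h => ⟨(hG _ _ _ (hq c hc d hd)).1 h,
      ((hG _ _ _ (hq c hc d hd)).2.1 h).trans
        (coef_le ha1 (hb1 b hb) (hc1 c hc) (hd1 d hd) (hBc b hb).2)⟩
  have hK1 := fun c (hc : c ∈ Cc) => h2 a1 c x1 x2 (X ^ 1097) B D (γ c) (κ c) ha1 (hc1 c hc)
    (fun b hb => (hBc b hb).1) fun d hd => ⟨hd1 d hd, (hκ c hc d hd).1, (hκ c hc d hd).2⟩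
  have hK := (sum_le_sum hK1).trans hK2
  clear hK1 hK2
  set F : ℕ → ℕ → ℂ := fun c a => ∑ b ∈ B, ∑ d ∈ D, if (a * b).Coprime (c * d) then
    ∑ h ∈ Icc (-((X ^ 1097 : ℕ) : ℤ)) (X ^ 1097 : ℕ), γ c b d h *
      MR.ex (((h * ((κ c d : ℤ) * MR.iv (a * b) (a1 * c * d)) : ℤ) : ℝ) / (a1 * c * d : ℕ))
      else 0 with hF
  have hK' : ∑ c ∈ Cc, ∑ a ∈ A, ‖F c a‖ ^ 2 ≤ C * (X : ℝ) ^ 2004 := by
    refine le_trans (sum_le_sum fun c _ => ?_) hK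
    exact sum_le_sum_of_subset_of_nonneg (fun a ha => mem_filter.2 ⟨hA ha, hAc a ha⟩)
      fun a _ _ => sq_nonneg _
  have hE : ∀ c ∈ Cc, ∀ a ∈ A, |∑ b ∈ B, ∑ d ∈ D, if (a * b).Coprime (c * d) then
      ((((Ico (y1 b) (y2 b)).filter fun x => a * b * x ≡ κ c d [MOD a1 * c * d]).card : ℝ) -
        ((y2 b - y1 b : ℕ) : ℝ) / (a1 * c * d : ℕ)) else 0| = ‖F c a‖ := by
    intro c hc a ha
    rw [← Real.norm_eq_abs, ← Complex.norm_real]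
    congr 1
    rw [Complex.ofReal_sum]
    refine sum_congr rfl fun b hb => ?_
    rw [Complex.ofReal_sum]
    refine sum_congr rfl fun d hd => ?_
    split_ifs with hcop
    · have hco : (a * b).Coprime (a1 * c * d) := by
        rw [mul_assoc]
        exact Nat.Coprime.mul_right (Nat.Coprime.mul_left (hAc a ha) (hBc b hb).1) hcop
      rw [← (hG _ (y1 b) (y2 b) (hq c hc d hd)).2.2 _ _ (hqH c hc d hd),
        filter_congr fun x _ => cong_iff (κ := κ c d) (x := x) (hq c hc d hd) hco]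
      simp only [Complex.ofReal_sub, Complex.ofReal_div, Complex.ofReal_natCast]
    · exact Complex.ofReal_zero
  rw [sum_congr rfl fun c hc => sum_congr rfl fun a ha => hE c hc a ha]
  have hX0 : (0 : ℝ) ≤ X := Nat.cast_nonneg _
  have hcC : (Cc.card : ℝ) ≤ (X : ℝ) ^ 994 := by
    have := card_le_card hCc
    rw [Nat.card_Icc, Nat.add_sub_cancel] at this
    exact_mod_cast this
  have hcA : (A.card : ℝ) ≤ (X : ℝ) ^ 994 := by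
    have := card_le_card hA
    rw [Nat.card_Ico] at this
    exact_mod_cast this.trans hlen
  have hM : (1 : ℝ) ≤ max C 1 := le_max_right _ _
  have hS : (0 : ℝ) ≤ ∑ c ∈ Cc, ∑ a ∈ A, ‖F c a‖ ^ 2 :=
    sum_nonneg fun c _ => sum_nonneg fun a _ => sq_nonneg _
  refine (pow_le_pow_iff_left₀ (sum_nonneg fun c _ => sum_nonneg fun a _ => norm_nonneg _)
    (mul_nonneg (zero_le_one.trans hM) (pow_nonneg hX0 _)) two_ne_zero).1 ?_
  refine (cs2 Cc A fun c a => ‖F c a‖).trans ?_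
  have hCM : C ≤ max C 1 ^ 2 := (le_max_left C 1).trans (le_self_pow₀ hM two_ne_zero)
  calc (Cc.card : ℝ) * (A.card * ∑ c ∈ Cc, ∑ a ∈ A, ‖F c a‖ ^ 2)
      ≤ (X : ℝ) ^ 994 * ((X : ℝ) ^ 994 * (max C 1 ^ 2 * (X : ℝ) ^ 2004)) :=
        mul_le_mul hcC (mul_le_mul hcA
          (hK'.trans (mul_le_mul_of_nonneg_right hCM (pow_nonneg hX0 _))) hS (pow_nonneg hX0 _))
          (mul_nonneg (Nat.cast_nonneg _) hS) (pow_nonneg hX0 _)
    _ = (max C 1 * (X : ℝ) ^ 1996) ^ 2 := by ring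

end Pool.Agent.P.MP_746f10_nt.P2
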