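import Pool.Agent.P.MP_746f10_nt.P2.Defs

/-! Freezing the first variable in the pair correlation of two divisor conditions. -/

namespace Pool.Agent.P.MP_746f10_nt.P2

open Finset

namespace KL1P

lemma up_le {m q x : ℕ} (hq : 0 < q) : up m q ≤ x ↔ m ≤ q * x := by
  rw [up, Nat.div_le_iff_le_mul_add_pred hq]
  omega

lemma rough_mul {R a b : ℕ} (ha : rough R a) (hb : rough R b) : rough R (a * b) :=
  fun p hp h => ((Nat.Prime.dvd_mul hp).1 h).elim (ha p hp) (hb p hp)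

lemma exists_root {r a b : ℕ} (hr : 0 < r) (h : a.Coprime r) : ∃ n, r ∣ a * n + b := by
  obtain ⟨n, -, e⟩ := Nat.exists_mul_mod_eq_of_coprime ((r - 1) * b) h hr.ne'
  refine ⟨n, (Nat.modEq_zero_iff_dvd).1 (((show a * n ≡ (r - 1) * b [MOD r] from e).add_right
    b).trans ?_)⟩
  rw [← Nat.succ_mul, Nat.succ_eq_add_one, Nat.sub_add_cancel hr]
  exact (dvd_mul_right r b).modEq_zero_nat

lemma modEq_of_dvd {r a b n n' : ℕ} (h : a.Coprime r) (h1 : r ∣ a * n + b) (h2 : r ∣ a * n' + b) :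
    n ≡ n' [MOD r] :=
  Nat.ModEq.cancel_left_of_coprime h.symm
    (Nat.ModEq.add_right_cancel' b (h1.modEq_zero_nat.trans h2.zero_modEq_nat))

lemma sum_eq (s : Finset ℕ) (P Q : ℕ → Prop) [DecidablePred P] [DecidablePred Q] :
    ∑ n ∈ s, (if P n then (1 : ℝ) else 0) * (if Q n then 1 else 0) =
      ((s.filter fun n => P n ∧ Q n).card : ℝ) := by
  simp only [ite_zero_mul_ite_zero, mul_one, sum_boole]

end KL1P

open KL1P

theorem pKL1 : S_KL1 := by
  intro R a1 b1 a2 b2 h1 hS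
  have hc : ∀ r, rough R r → a2.Coprime r := fun r hr =>
    Nat.coprime_of_dvd fun p hp h h' => (hS p hp (hr p hp h')).2.1 h
  have hex : ∀ r, ∃ n, 0 < r → rough R r → r ∣ a2 * n + b2 := fun r => by
    by_cases h : 0 < r ∧ rough R r
    · exact (exists_root h.1 (hc r h.2)).imp fun n e _ _ => e
    · exact ⟨0, fun e e' => absurd ⟨e, e'⟩ h⟩
  choose n0 hn0 using hex
  refine ⟨fun c d => a1 * n0 (c * d) + b1, fun c d d' hc1 hd hd' rc rd rd' => ?_, ?_⟩
  · have e := (dvd_mul_right c d).trans (hn0 _ (Nat.mul_pos hc1 hd) (rough_mul rc rd))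
    have e' := (dvd_mul_right c d').trans (hn0 _ (Nat.mul_pos hc1 hd') (rough_mul rc rd'))
    exact ⟨Nat.coprime_of_dvd fun p hp h h' => (hS p hp (rc p hp h')).2.2 _ ⟨h, h'.trans e⟩,
      ((modEq_of_dvd (hc c rc) e e').mul_left a1).add_right b1⟩
  intro a b c d a0 N1 N2 M1 M2 hb hc1 hd ra rb rc rd ha0 ha hN hM1 hM2
  have rr := rough_mul rc rd
  have e0 := hn0 _ (Nat.mul_pos hc1 hd) rr
  have hq : 0 < a * b := Nat.mul_pos (by omega) hb
  have hq0 : 0 < a0 * b := Nat.mul_pos ha0 hb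
  have lin : ∀ {x y}, a0 * (a1 * x + b1) < a0 * (a1 * y + b1) → x < y := fun h =>
    Nat.lt_of_mul_lt_mul_left (Nat.lt_of_add_lt_add_right (Nat.lt_of_mul_lt_mul_left h))
  simp only [sum_eq, mul_assoc a1 c d]
  generalize c * d = r at *
  split_ifs with hcop
  swap
  · rw [filter_false_of_mem fun n _ h => hcop (Nat.coprime_of_dvd fun p hp h2 h3 =>
      (hS p hp (rr p hp h3)).2.2 n ⟨h2.trans h.1, h3.trans h.2⟩)]
    simp only [card_empty, Nat.cast_zero, sub_zero, abs_zero]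
    positivity
  have key : ∀ x y, a * b * x = y → a * (a0 * b * x) = a0 * y := fun x y e => by rw [← e]; ring
  set T := fun n => a * b ∣ a1 * n + b1 ∧ r ∣ a2 * n + b2
  set S := (Ico (up (a1 * N1 + b1) (a0 * b)) (up (a1 * N2 + b1) (a0 * b))).filter
    fun x => a * b * x ≡ a1 * n0 r + b1 [MOD a1 * r]
  have hmem : ∀ x, x ∈ S ↔ (a1 * N1 + b1 ≤ a0 * b * x ∧ a0 * b * x < a1 * N2 + b1) ∧
      a * b * x ≡ a1 * n0 r + b1 [MOD a1 * r] := fun x => by
    rw [mem_filter, mem_Ico, up_le hq0, ← not_le, up_le hq0, not_le]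
  have h2 : ((Ico N1 N2).filter T).card ≤ S.card + ((Ico N1 M1).filter T).card := by
    refine le_trans card_le_card_sdiff_add_card (Nat.add_le_add_right
      (card_le_card_of_injOn (fun n => (a1 * n + b1) / (a * b)) (fun n hn => ?_)
        fun n hn n' hn' e => ?_) _)
    · obtain ⟨h3, h4⟩ := mem_sdiff.1 (mem_coe.1 hn)
      obtain ⟨h5, h6⟩ := mem_filter.1 h3
      rw [mem_Ico] at h5
      have h7 : M1 ≤ n := not_lt.1 fun h => h4 (mem_filter.2 ⟨mem_Ico.2 ⟨h5.1, h⟩, h6⟩)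
      have e := Nat.mul_div_cancel' h6.1
      have e' := key _ _ e
      refine mem_coe.2 ((hmem _).2 ⟨⟨Nat.le_of_mul_le_mul_left (c := a) ?_ (by omega),
        Nat.lt_of_mul_lt_mul_left (a := a) ?_⟩, ?_⟩)
      · rw [e']
        exact hM1.trans (by gcongr)
      · rw [e']
        exact (Nat.mul_le_mul_right _ ha).trans_lt (by gcongr; omega; exact h5.2)
      · rw [e]
        exact ((modEq_of_dvd (hc r rr) h6.2 e0).mul_left' a1).add_right b1
    · have h3 := Nat.mul_div_cancel' (mem_filter.1 (mem_sdiff.1 (mem_coe.1 hn)).1).2.1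
      have h4 := Nat.mul_div_cancel' (mem_filter.1 (mem_sdiff.1 (mem_coe.1 hn')).1).2.1
      simp only at e
      rw [e, h4] at h3
      exact (Nat.eq_of_mul_eq_mul_left h1 (Nat.add_right_cancel h3)).symm
  have h3 : S.card ≤ ((Ico N1 N2).filter T).card + ((Ico N2 M2).filter T).card := by
    refine le_trans (card_le_card_of_surjOn (fun n => (a1 * n + b1) / (a * b)) fun x hx => ?_)
      (card_union_le _ _)
    obtain ⟨⟨h4, h5⟩, h6⟩ := (hmem x).1 (mem_coe.1 hx)
    have h7 : a0 * b * x ≤ a * b * x := by gcongr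
    obtain ⟨y, hy⟩ : ∃ y, a * b * x = y + b1 := ⟨a * b * x - b1, by omega⟩
    rw [hy] at h6
    have h8 := Nat.ModEq.add_right_cancel' b1 h6
    obtain ⟨n, rfl⟩ : a1 ∣ y :=
      ((h8.of_mul_right r).dvd_iff dvd_rfl).2 (dvd_mul_right _ _)
    have h9 : T n := ⟨⟨x, hy.symm⟩, (Nat.modEq_zero_iff_dvd).1
      ((((h8.mul_left_cancel' (by omega)).mul_left a2).add_right b2).trans e0.modEq_zero_nat)⟩
    have h10 : N1 ≤ n := Nat.le_of_mul_le_mul_left (by omega) h1
    have h11 : n < M2 := lin (by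
      rw [← key _ _ hy]
      exact lt_of_lt_of_le (by gcongr; omega) hM2)
    refine ⟨n, mem_coe.2 (mem_union.2 ?_), by simp only; rw [← hy, Nat.mul_div_cancel_left _ hq]⟩
    rcases lt_or_ge n N2 with h | h
    · exact Or.inl (mem_filter.2 ⟨mem_Ico.2 ⟨h10, h⟩, h9⟩)
    · exact Or.inr (mem_filter.2 ⟨mem_Ico.2 ⟨h, h11⟩, h9⟩)
  have h4 := (Nat.cast_le (α := ℝ)).2 h2
  have h5 := (Nat.cast_le (α := ℝ)).2 h3
  push_cast at h4 h5
  rw [abs_le]
  constructor
  · linarith [Nat.cast_nonneg (α := ℝ) ((Ico N1 M1).filter T).card]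
  · linarith [Nat.cast_nonneg (α := ℝ) ((Ico N2 M2).filter T).card]

end Pool.Agent.P.MP_746f10_nt.P2
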