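import Pool.Agent.P.MP_746f10_nt.P2.PosB

/-! The pair correlation of two bilinear divisor sums. -/

namespace Pool.Agent.P.MP_746f10_nt.P2

open Finset

namespace KLmP

/-- a fourfold sum -/
noncomputable def S4 (A B C D : Finset ℕ) (f : ℕ → ℕ → ℕ → ℕ → ℝ) : ℝ :=
  ∑ a ∈ A, ∑ b ∈ B, ∑ c ∈ C, ∑ d ∈ D, f a b c d

variable {A B C D : Finset ℕ}

lemma S4_add (f g : ℕ → ℕ → ℕ → ℕ → ℝ) :
    S4 A B C D (fun a b c d => f a b c d + g a b c d) = S4 A B C D f + S4 A B C D g := by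
  simp only [S4, sum_add_distrib]

lemma S4_sub (f g : ℕ → ℕ → ℕ → ℕ → ℝ) :
    S4 A B C D (fun a b c d => f a b c d - g a b c d) = S4 A B C D f - S4 A B C D g := by
  simp only [S4, sum_sub_distrib]

lemma S4_abs {f g : ℕ → ℕ → ℕ → ℕ → ℝ}
    (h : ∀ a ∈ A, ∀ b ∈ B, ∀ c ∈ C, ∀ d ∈ D, |f a b c d| ≤ g a b c d) :
    |S4 A B C D f| ≤ S4 A B C D g :=
  (abs_sum_le_sum_abs _ _).trans <| sum_le_sum fun a ha =>
    (abs_sum_le_sum_abs _ _).trans <| sum_le_sum fun b hb =>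
      (abs_sum_le_sum_abs _ _).trans <| sum_le_sum fun c hc =>
        (abs_sum_le_sum_abs _ _).trans <| sum_le_sum fun d hd => h a ha b hb c hc d hd

lemma S4_prod (f g h k : ℕ → ℝ) :
    S4 A B C D (fun a b c d => f a * g b * h c * k d) =
      (∑ a ∈ A, f a) * (∑ b ∈ B, g b) * (∑ c ∈ C, h c) * ∑ d ∈ D, k d := by
  simp only [S4, ← mul_sum, ← sum_mul]

lemma S4_bil (s : Finset ℕ) (u v : ℕ → ℕ) :
    ∑ n ∈ s, bil A B (u n) * bil C D (v n) = S4 A B C D fun a b c d =>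
      ∑ n ∈ s, (if a * b ∣ u n then (1 : ℝ) else 0) * (if c * d ∣ v n then 1 else 0) := by
  unfold S4 bil
  simp only [sum_mul]
  simp only [mul_sum]
  rw [sum_comm]
  refine sum_congr rfl fun a _ => ?_
  rw [sum_comm]
  refine sum_congr rfl fun b _ => ?_
  rw [sum_comm]
  refine sum_congr rfl fun c _ => ?_
  rw [sum_comm]

lemma S4_box (f : ℕ → ℕ → ℕ → ℕ → ℝ) :
    |S4 A B C D f| ≤ ∑ a ∈ A, ∑ c ∈ C, |∑ b ∈ B, ∑ d ∈ D, f a b c d| := by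
  refine (abs_sum_le_sum_abs _ _).trans (sum_le_sum fun a _ => ?_)
  rw [sum_comm]
  exact abs_sum_le_sum_abs _ _

lemma cdv_le (A : Finset ℕ) {m : ℕ} (hm : m ≠ 0) : cdv A m ≤ m.divisors.card := by
  rw [cdv, sum_boole]
  exact_mod_cast card_le_card fun a ha => Nat.mem_divisors.2 ⟨(mem_filter.1 ha).2, hm⟩

lemma bil_le (A B : Finset ℕ) {m : ℕ} (hm : m ≠ 0) : bil A B m ≤ (m.divisors.card : ℝ) ^ 2 := by
  refine le_trans ?_ (mul_le_mul (cdv_le A hm) (cdv_le B hm) (cdv_nonneg _ _) (Nat.cast_nonneg _)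
    |>.trans_eq (sq _).symm)
  rw [bil, cdv, cdv, sum_mul_sum]
  refine sum_le_sum fun a _ => sum_le_sum fun b _ => ?_
  by_cases h : a * b ∣ m
  · rw [if_pos h, if_pos (dvd_of_mul_right_dvd h), if_pos (dvd_of_mul_left_dvd h), one_mul]
  · rw [if_neg h]; split_ifs <;> norm_num

lemma zone : ∃ K : ℝ, 0 ≤ K ∧ ∀ (X a1 b1 a2 b2 N : ℕ) (A B C D : Finset ℕ), 6 ≤ X → 1 ≤ a1 →
    a1 ≤ X → b1 ≤ X → 1 ≤ a2 → a2 ≤ X → b2 ≤ X → 1 ≤ N → N ≤ 2 * X ^ 2000 →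
    ∑ n ∈ Ico N (N + 3 * X ^ 1998), bil A B (a1 * n + b1) * bil C D (a2 * n + b2) ≤
      K * (X : ℝ) ^ 1999 := by
  obtain ⟨K, hK1, hK⟩ := exists_tau_le 4 2002
  refine ⟨3 * K, by positivity, fun X a1 b1 a2 b2 N A B C D hX h1 h2 h3 h4 h5 h6 hN hN' => ?_⟩
  have hX1 : (1 : ℝ) ≤ X := by exact_mod_cast (by omega : 1 ≤ X)
  have key : ∀ a b n : ℕ, 1 ≤ a → a ≤ X → b ≤ X → n ∈ Ico N (N + 3 * X ^ 1998) →
      a * n + b ≠ 0 ∧ (((a * n + b).divisors.card : ℝ)) ^ 4 ≤ K * X := fun a b n ha ha' hb hn => by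
    obtain ⟨n1, n2⟩ := mem_Ico.1 hn
    have h0 : a * n + b ≠ 0 := by have := Nat.mul_pos ha (hN.trans n1); omega
    refine ⟨h0, hK _ _ h0 hX1 ?_⟩
    have e1 : X ^ 1998 ≤ X ^ 2000 := Nat.pow_le_pow_right (by omega) (by norm_num)
    have e2 : 1 ≤ X ^ 2000 := Nat.one_le_pow _ _ (by omega)
    have e3 : X ^ 2002 = X * (X * X ^ 2000) := by ring
    have e4 : a * n ≤ X * (5 * X ^ 2000) := Nat.mul_le_mul ha' (by omega)
    have e5 : X * (5 * X ^ 2000 + 1) ≤ X * (X * X ^ 2000) :=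
      Nat.mul_le_mul_left _ (by nlinarith)
    have : a * n + b ≤ X ^ 2002 := by rw [e3]; nlinarith
    exact_mod_cast this
  calc _ ≤ ∑ n ∈ Ico N (N + 3 * X ^ 1998), K * X := by
        refine sum_le_sum fun n hn => ?_
        obtain ⟨p1, q1⟩ := key a1 b1 n h1 h2 h3 hn
        obtain ⟨p2, q2⟩ := key a2 b2 n h4 h5 h6 hn
        refine (mul_le_mul (bil_le A B p1) (bil_le C D p2) (bil_nonneg _ _ _) (by positivity)).trans ?_
        nlinarith [sq_nonneg (((a1 * n + b1).divisors.card : ℝ) ^ 2 -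
          ((a2 * n + b2).divisors.card : ℝ) ^ 2)]
    _ = _ := by
        rw [sum_const, Nat.card_Ico, Nat.add_sub_cancel_left, nsmul_eq_mul]
        push_cast
        ring

lemma up_spec (m : ℕ) {q : ℕ} (hq : 1 ≤ q) : m ≤ q * up m q ∧ q * up m q < m + q := by
  have h1 := Nat.div_add_mod (m + q - 1) q
  have h2 := Nat.mod_lt (m + q - 1) hq
  unfold up
  omega

lemma up_diff {m1 m2 q : ℕ} (hq : 1 ≤ q) (h : m1 ≤ m2) :
    |((up m2 q - up m1 q : ℕ) : ℝ) - ((m2 : ℝ) - m1) / q| ≤ 1 := by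
  have hm : up m1 q ≤ up m2 q := Nat.div_le_div_right (by omega)
  have hq' : (0 : ℝ) < q := by exact_mod_cast hq
  obtain ⟨a1, a2⟩ := up_spec m1 hq
  obtain ⟨b1, b2⟩ := up_spec m2 hq
  have a1' : (m1 : ℝ) ≤ q * up m1 q := by exact_mod_cast a1
  have a2' : (q : ℝ) * up m1 q < m1 + q := by exact_mod_cast a2
  have b1' : (m2 : ℝ) ≤ q * up m2 q := by exact_mod_cast b1
  have b2' : (q : ℝ) * up m2 q < m2 + q := by exact_mod_cast b2
  rw [Nat.cast_sub hm, abs_le]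
  constructor
  · rw [le_sub_comm, div_le_iff₀ hq']; nlinarith
  · rw [sub_le_comm, le_div_iff₀ hq']; nlinarith

lemma up_mul {m k b : ℕ} (hk : 1 ≤ k) (hb : 1 ≤ b) (y : ℕ) : b * (up m (k * b) - y) ≤ m / k + b := by
  have h := (up_spec m (Nat.mul_pos hk hb)).2
  rcases Nat.eq_zero_or_pos (up m (k * b)) with h0 | h0
  · rw [h0]; simp
  obtain ⟨t, ht⟩ : ∃ t, up m (k * b) = t + 1 := ⟨_, (Nat.succ_pred_eq_of_pos h0).symm⟩
  rw [ht] at h ⊢
  have : b * t ≤ m / k := (Nat.le_div_iff_mul_le hk).2 (by nlinarith)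
  calc b * (t + 1 - y) ≤ b * (t + 1) := Nat.mul_le_mul_left _ (by omega)
    _ ≤ _ := by rw [mul_add, mul_one]; omega

lemma copr {R a a1 : ℕ} (ha : rough R a) (h : ∀ p : ℕ, p.Prime → R < p → ¬ p ∣ a1) :
    a.Coprime a1 :=
  Nat.coprime_of_dvd fun p hp hd => h p hp (ha p hp hd)

lemma shift {X T a k a1 b1 N : ℕ} (hX : 1 ≤ X) (hT : X ^ 2 ≤ T) (ha : a ≤ k + k / T) (h1 : 1 ≤ a1)
    (hb : b1 ≤ X) (hN : N ≤ 2 * X ^ 2000) :
    a * (a1 * N + b1) ≤ k * (a1 * (N + 3 * X ^ 1998) + b1) := by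
  have e1 : X ≤ X ^ 2000 := Nat.le_self_pow (by norm_num) X
  have e2 : a1 * N + b1 ≤ a1 * (3 * X ^ 2000) := by nlinarith
  have e3 : k / T * X ^ 2 ≤ k := (Nat.mul_le_mul_left _ hT).trans (Nat.div_mul_le_self _ _)
  have e4 : k / T * (a1 * N + b1) ≤ k * (a1 * (3 * X ^ 1998)) :=
    calc k / T * (a1 * N + b1) ≤ k / T * (a1 * (3 * X ^ 2000)) := Nat.mul_le_mul_left _ e2
      _ = k / T * X ^ 2 * (a1 * (3 * X ^ 1998)) := by ring
      _ ≤ _ := Nat.mul_le_mul_right _ e3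
  calc a * (a1 * N + b1) ≤ (k + k / T) * (a1 * N + b1) := Nat.mul_le_mul_right _ ha
    _ ≤ _ := by nlinarith

lemma size {X T k m : ℕ} (hX : 6 ≤ X) (hT : 2 ≤ T) (hk : k ≤ X ^ 994) (hm : m ≤ 3 * X ^ 2001) :
    k / T + 1 ≤ X ^ 994 ∧ (k / T + 1) * (m / k) ≤ X ^ 2002 := by
  have e1 : 1 ≤ X ^ 994 := Nat.one_le_pow _ _ (by omega)
  have e2 : k / T * T ≤ k := Nat.div_mul_le_self _ _
  have e3 : k / T * 2 ≤ k := (Nat.mul_le_mul_left _ hT).trans e2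
  refine ⟨by omega, ?_⟩
  have e4 : m / k * k ≤ m := Nat.div_mul_le_self _ _
  have e5 : m / k ≤ m := Nat.div_le_self _ _
  have e6 : k / T * (m / k) ≤ m :=
    (Nat.mul_le_mul_right _ (by omega : k / T ≤ k)).trans (by rw [mul_comm]; exact e4)
  have e7 : 6 * X ^ 2001 ≤ X ^ 2002 := by
    rw [pow_succ' X 2001]; exact Nat.mul_le_mul_right _ hX
  rw [add_mul, one_mul]
  omega

lemma term {X T a k b c d a1 b1 N1 N2 : ℕ} (hX : 1 ≤ X) (hT : X ^ 2 ≤ T) (hk : 1 ≤ k) (hka : k ≤ a)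
    (ha : a ≤ k + k / T) (hb : 1 ≤ b) (hc : 1 ≤ c) (hd : 1 ≤ d) (h1 : 1 ≤ a1) (hN : N1 ≤ N2)
    (hN2 : N2 ≤ 2 * X ^ 2000) :
    |((up (a1 * N2 + b1) (k * b) - up (a1 * N1 + b1) (k * b) : ℕ) : ℝ) / (a1 * c * d : ℕ) -
      ((N2 : ℝ) - N1) * (1 / ((a : ℝ) * b * c * d))| ≤
      1 * 1 * (1 / (c : ℝ)) * (1 / (d : ℝ)) +
        2 * (X : ℝ) ^ 1998 * (1 / (a : ℝ)) * (1 / (b : ℝ)) * (1 / (c : ℝ)) * (1 / (d : ℝ)) := by
  have hu := up_diff (Nat.mul_pos hk hb) (Nat.add_le_add_right (Nat.mul_le_mul_left a1 hN) b1)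
  set y : ℝ := ((up (a1 * N2 + b1) (k * b) - up (a1 * N1 + b1) (k * b) : ℕ) : ℝ)
  have k0 : (0 : ℝ) < k := by exact_mod_cast hk
  have ka : (k : ℝ) ≤ a := by exact_mod_cast hka
  have a0 : (0 : ℝ) < a := k0.trans_le ka
  have b0 : (0 : ℝ) < b := by exact_mod_cast hb
  have c0 : (0 : ℝ) < c := by exact_mod_cast hc
  have d0 : (0 : ℝ) < d := by exact_mod_cast hd
  have a10 : (1 : ℝ) ≤ a1 := by exact_mod_cast h1
  have N0 : (0 : ℝ) ≤ (N2 : ℝ) - N1 := sub_nonneg.2 (by exact_mod_cast hN)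
  have N3 : (N2 : ℝ) - N1 ≤ 2 * (X : ℝ) ^ 2000 :=
    (sub_le_self _ (Nat.cast_nonneg _)).trans (by exact_mod_cast hN2)
  have e3 : ((a : ℝ) - k) * (X : ℝ) ^ 2 ≤ k := by
    have : (a - k) * X ^ 2 ≤ k := (Nat.mul_le_mul (by omega) hT).trans (Nat.div_mul_le_self k T)
    rw [← Nat.cast_sub hka]
    exact_mod_cast this
  have e4 : ((N2 : ℝ) - N1) * ((a - k) / k) ≤ 2 * (X : ℝ) ^ 1998 := by
    rw [← mul_div_assoc, div_le_iff₀ k0]
    calc _ ≤ 2 * (X : ℝ) ^ 2000 * (a - k) := mul_le_mul_of_nonneg_right N3 (sub_nonneg.2 ka)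
      _ = 2 * (X : ℝ) ^ 1998 * ((a - k) * (X : ℝ) ^ 2) := by ring
      _ ≤ _ := mul_le_mul_of_nonneg_left e3 (by positivity)
  have e : y / (a1 * c * d : ℕ) - ((N2 : ℝ) - N1) * (1 / ((a : ℝ) * b * c * d)) =
      (y - (((a1 * N2 + b1 : ℕ) : ℝ) - (a1 * N1 + b1 : ℕ)) / (k * b : ℕ)) * (1 / (a1 * c * d)) +
        ((N2 : ℝ) - N1) * ((a - k) / k) * (1 / (a * b * c * d)) := by
    push_cast
    field_simp
    ring
  rw [e]
  refine (abs_add_le _ _).trans (add_le_add ?_ ?_)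
  · rw [abs_mul, abs_of_pos (by positivity : (0 : ℝ) < 1 / (a1 * c * d))]
    refine (mul_le_of_le_one_left (by positivity) hu).trans ?_
    rw [one_mul, one_mul, one_div_mul_one_div, mul_assoc]
    exact one_div_le_one_div_of_le (by positivity) (le_mul_of_one_le_left (by positivity) a10)
  · rw [abs_of_nonneg (mul_nonneg (mul_nonneg N0 (div_nonneg (sub_nonneg.2 ka) k0.le))
      (by positivity))]
    refine (mul_le_mul_of_nonneg_right e4 (by positivity)).trans_eq ?_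
    field_simp

lemma log4 {X : ℕ} (hX : 1 ≤ X) : (1 + Real.log (X ^ 994 : ℕ)) ^ 4 ≤ 3977 ^ 4 * (X : ℝ) := by
  have hX1 : (1 : ℝ) ≤ X := by exact_mod_cast hX
  have hs : ((X : ℝ) ^ (1 / 4 : ℝ)) ^ 4 = X := by
    rw [← Real.rpow_natCast, ← Real.rpow_mul (by positivity)]; norm_num
  have h1 : 1 ≤ (X : ℝ) ^ (1 / 4 : ℝ) := Real.one_le_rpow hX1 (by norm_num)
  have h2 : Real.log X ≤ (X : ℝ) ^ (1 / 4 : ℝ) / (1 / 4) :=
    Real.log_le_rpow_div (by positivity) (by norm_num)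
  have h3 := Real.log_nonneg hX1
  rw [Nat.cast_pow, Real.log_pow]
  calc _ ≤ (3977 * (X : ℝ) ^ (1 / 4 : ℝ)) ^ 4 :=
        pow_le_pow_left₀ (by positivity) (by push_cast; linarith) 4
    _ = _ := by rw [mul_pow, hs]

lemma fibres {X r : ℕ} (hX : 1 ≤ X) (hr : 2 ^ r ≤ 2 * X ^ 2) :
    2 ^ (r + 1) * (Nat.log 2 (X ^ 994) + 1) ≤ 3976 * X ^ 3 := by
  have h1 : Nat.log 2 (X ^ 994) < X * 994 :=
    Nat.log_lt_of_lt_pow (by positivity)
      (by rw [pow_mul]; exact Nat.pow_lt_pow_left Nat.lt_two_pow_self (by norm_num))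
  calc _ ≤ (4 * X ^ 2) * (X * 994) := Nat.mul_le_mul (by rw [pow_succ]; omega) h1
    _ = _ := by ring

end KLmP

open KLmP in
theorem pKLm (h1 : S_Bx) (h2 : S_KBox) (h3 : S_KL1) : S_KLm := by
  obtain ⟨K, hK0, hK⟩ := zone
  obtain ⟨C, hC⟩ := h2
  refine ⟨2 * K + 3976 * |C| + 3 * 3977 ^ 4, ?_⟩
  intro X R a1 b1 a2 b2 N1 N2 A B Cc D hX ha1 ha1' hb1 ha2 ha2' hb2 hN1 hN hN2 hS hA hB hCc hD
  have hX1 : 1 ≤ X := by omega
  have hXr : (1 : ℝ) ≤ X := by exact_mod_cast hX1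
  obtain ⟨κ, hκ, hL⟩ := h3 R a1 b1 a2 b2 ha1 hS
  set r := Nat.log 2 (X ^ 2) + 1 with hr
  have r1 : X ^ 2 ≤ 2 ^ r := (Nat.lt_pow_succ_log_self (by norm_num) _).le
  have r2 : 2 ^ r ≤ 2 * X ^ 2 := by
    rw [hr, pow_succ']; exact Nat.mul_le_mul_left _ (Nat.pow_log_le_self 2 (by positivity))
  have r3 : 2 ≤ 2 ^ r := le_trans (by nlinarith) r1
  have hp : ∀ p : ℕ, p.Prime → R < p → ¬ p ∣ a1 := fun p h h' => (hS p h h').1
  set y : ℕ → ℕ → ℕ → ℕ := fun N k b => up (a1 * N + b1) (k * b) with hy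
  set cnt : ℕ → ℕ → ℕ → ℕ → ℝ := fun a b c d => if (a * b).Coprime (c * d) then
    (((Ico (y N1 (phi r a) b) (y N2 (phi r a) b)).filter
      fun x => a * b * x ≡ κ c d [MOD a1 * c * d]).card : ℝ) else 0 with hcnt
  set mn : ℕ → ℕ → ℕ → ℕ → ℝ := fun a b c d => if (a * b).Coprime (c * d) then
    ((y N2 (phi r a) b - y N1 (phi r a) b : ℕ) : ℝ) / (a1 * c * d : ℕ) else 0 with hmn
  have E1 : |∑ n ∈ Ico N1 N2, bil A B (a1 * n + b1) * bil Cc D (a2 * n + b2) - S4 A B Cc D cnt| ≤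
      2 * K * (X : ℝ) ^ 1999 := by
    have z1 := hK X a1 b1 a2 b2 N1 A B Cc D hX ha1 ha1' hb1 ha2 ha2' hb2 hN1 (hN.trans hN2)
    have z2 := hK X a1 b1 a2 b2 N2 A B Cc D hX ha1 ha1' hb1 ha2 ha2' hb2 (hN1.trans hN) hN2
    rw [S4_bil] at z1 z2
    rw [S4_bil, ← S4_sub]
    refine (S4_abs fun a ha b hb c hc d hd => hL a b c d (phi r a) N1 N2 _ _ (hB b hb).1
      (hCc c hc).1 (hD d hd).1 (hA a ha).2.2 (hB b hb).2.2 (hCc c hc).2.2 (hD d hd).2.2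
      ((h1.1 r a).2.2 (hA a ha).1) (h1.1 r a).1 hN
      (shift hX1 r1 (h1.1 r a).2.1 ha1 hb1 (hN.trans hN2))
      (shift hX1 r1 (h1.1 r a).2.1 ha1 hb1 hN2)).trans ?_
    rw [S4_add]
    linarith
  have E2 : |S4 A B Cc D cnt - S4 A B Cc D mn| ≤ 3976 * |C| * (X : ℝ) ^ 1999 := by
    rw [← S4_sub]
    refine (S4_box _).trans ?_
    rw [← sum_fiberwise_of_maps_to (t := (Icc 1 (X ^ 994)).image (phi r)) (g := phi r)
      fun a ha => mem_image_of_mem _ (mem_Icc.2 ⟨(hA a ha).1, (hA a ha).2.1⟩)]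
    refine (sum_le_card_nsmul _ _ (|C| * (X : ℝ) ^ 1996) fun k hk => ?_).trans ?_
    · obtain ⟨a', ha', rfl⟩ := mem_image.1 hk
      have k1 : 1 ≤ phi r a' := (h1.1 r a').2.2 (mem_Icc.1 ha').1
      have k2 : phi r a' ≤ X ^ 994 := (h1.1 r a').1.trans (mem_Icc.1 ha').2
      generalize phi r a' = k at k1 k2
      have m2 : a1 * N2 + b1 ≤ 3 * X ^ 2001 := by
        have e1 : X ≤ X ^ 2001 := Nat.le_self_pow (by norm_num) X
        have e2 : a1 * N2 ≤ X * (2 * X ^ 2000) := Nat.mul_le_mul ha1' hN2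
        have e3 : X * (2 * X ^ 2000) = 2 * X ^ 2001 := by ring
        omega
      obtain ⟨s1, s2⟩ := size hX r3 k2 m2
      have e : k + (k / 2 ^ r + 1) - k = k / 2 ^ r + 1 := Nat.add_sub_cancel_left _ _
      have t := hC X a1 k (k + (k / 2 ^ r + 1)) ((a1 * N2 + b1) / k) (A.filter fun a => phi r a = k)
        B Cc D (y N1 k) (y N2 k) κ hX1 ha1 ha1' (by rw [e]; exact s1) (by rw [e]; exact s2)
        (fun a ha => by
          obtain ⟨-, rfl⟩ := mem_filter.1 ha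
          exact mem_Ico.2 ⟨(h1.1 r a).1, Nat.lt_succ_of_le (h1.1 r a).2.1⟩)
        (fun b hb => mem_Icc.2 ⟨(hB b hb).1, (hB b hb).2.1⟩)
        (fun c hc => mem_Icc.2 ⟨(hCc c hc).1, (hCc c hc).2.1⟩)
        (fun d hd => mem_Icc.2 ⟨(hD d hd).1, (hD d hd).2.1⟩)
        (fun a ha => copr (hA a (mem_filter.1 ha).1).2.2 hp)
        (fun b hb => ⟨copr (hB b hb).2.2 hp, up_mul k1 (hB b hb).1 _⟩)
        (fun c hc d hd => ⟨(hκ c d d (hCc c hc).1 (hD d hd).1 (hD d hd).1 (hCc c hc).2.2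
          (hD d hd).2.2 (hD d hd).2.2).1, fun d' hd' => (hκ c d d' (hCc c hc).1 (hD d hd).1
          (hD d' hd').1 (hCc c hc).2.2 (hD d hd).2.2 (hD d' hd').2.2).2⟩)
      rw [sum_comm] at t
      refine le_trans (le_of_eq ?_) (t.trans
        (mul_le_mul_of_nonneg_right (le_abs_self C) (by positivity)))
      refine sum_congr rfl fun a ha => sum_congr rfl fun c _ => congrArg _ ?_
      refine sum_congr rfl fun b _ => sum_congr rfl fun d _ => ?_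
      simp only [hcnt, hmn, (mem_filter.1 ha).2]
      split_ifs
      · rfl
      · exact sub_self _
    · have f : (((Icc 1 (X ^ 994)).image (phi r)).card : ℝ) ≤ 3976 * (X : ℝ) ^ 3 := by
        exact_mod_cast (h1.2 r _).trans (fibres hX1 r2)
      rw [nsmul_eq_mul]
      refine (mul_le_mul_of_nonneg_right f (by positivity)).trans_eq (by ring)
  have E3 : |S4 A B Cc D mn - ((N2 : ℝ) - N1) * cm A B Cc D| ≤ 3 * 3977 ^ 4 * (X : ℝ) ^ 1999 := by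
    have e : ((N2 : ℝ) - N1) * cm A B Cc D = S4 A B Cc D fun a b c d => ((N2 : ℝ) - N1) *
        if (a * b).Coprime (c * d) then 1 / ((a : ℝ) * b * c * d) else 0 := by
      simp only [cm, S4, mul_sum]
    rw [e, ← S4_sub]
    refine (S4_abs (g := fun a b c d => 1 * 1 * (1 / (c : ℝ)) * (1 / (d : ℝ)) +
      2 * (X : ℝ) ^ 1998 * (1 / (a : ℝ)) * (1 / (b : ℝ)) * (1 / (c : ℝ)) * (1 / (d : ℝ)))
      fun a ha b hb c hc d hd => ?_).trans ?_
    · simp only [hmn]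
      split_ifs
      · exact term hX1 r1 ((h1.1 r a).2.2 (hA a ha).1) (h1.1 r a).1 (h1.1 r a).2.1 (hB b hb).1
          (hCc c hc).1 (hD d hd).1 ha1 hN hN2
      · rw [mul_zero, sub_self, abs_zero]; positivity
    rw [S4_add, S4_prod, S4_prod (fun a => 2 * (X : ℝ) ^ 1998 * (1 / (a : ℝ))), ← mul_sum,
      sum_const, sum_const, nsmul_eq_mul, nsmul_eq_mul, mul_one, mul_one]
    have hl := log4 hX1
    set L := 1 + Real.log (X ^ 994 : ℕ) with hLd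
    have L1 : 1 ≤ L := le_add_of_nonneg_right (Real.log_natCast_nonneg _)
    have lo : 1 + Real.log (X ^ 102 : ℕ) ≤ L := add_le_add_right (Real.log_le_log (by positivity)
      (by exact_mod_cast Nat.pow_le_pow_right hX1 (by norm_num))) _
    have mA : ms A ≤ L := hA.ms_le
    have mB : ms B ≤ L := hB.ms_le.trans lo
    have mC : ms Cc ≤ L := hCc.ms_le
    have mD : ms D ≤ L := hD.ms_le.trans lo
    have cA : (A.card : ℝ) ≤ (X : ℝ) ^ 994 := by exact_mod_cast hA.card_le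
    have cB : (B.card : ℝ) ≤ (X : ℝ) ^ 102 := by exact_mod_cast hB.card_le
    have nA := ms_nonneg A
    have nB := ms_nonneg B
    have nC := ms_nonneg Cc
    have nD := ms_nonneg D
    have p1 : (X : ℝ) ^ 994 * (X : ℝ) ^ 102 ≤ (X : ℝ) ^ 1998 := by
      rw [← pow_add]; exact pow_le_pow_right₀ hXr (by norm_num)
    have p2 : L * L ≤ L ^ 4 := by rw [← sq]; exact pow_le_pow_right₀ L1 (by norm_num)
    calc (A.card : ℝ) * B.card * ms Cc * ms D + 2 * (X : ℝ) ^ 1998 * ms A * ms B * ms Cc * ms D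
        ≤ (X : ℝ) ^ 994 * (X : ℝ) ^ 102 * L * L + 2 * (X : ℝ) ^ 1998 * L * L * L * L := by gcongr
      _ ≤ (X : ℝ) ^ 1998 * L ^ 4 + 2 * (X : ℝ) ^ 1998 * L ^ 4 := by
          refine add_le_add ?_ (le_of_eq (by ring))
          rw [mul_assoc _ L]
          exact mul_le_mul p1 p2 (by positivity) (by positivity)
      _ = 3 * (X : ℝ) ^ 1998 * L ^ 4 := by ring
      _ ≤ 3 * (X : ℝ) ^ 1998 * (3977 ^ 4 * (X : ℝ)) := by gcongr
      _ = _ := by ring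
  have t := abs_sub_le (∑ n ∈ Ico N1 N2, bil A B (a1 * n + b1) * bil Cc D (a2 * n + b2))
    (S4 A B Cc D cnt) (((N2 : ℝ) - N1) * cm A B Cc D)
  have t' := abs_sub_le (S4 A B Cc D cnt) (S4 A B Cc D mn) (((N2 : ℝ) - N1) * cm A B Cc D)
  linarith

end Pool.Agent.P.MP_746f10_nt.P2
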