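import Pool.Agent.P.MP_746f10_nt.P2.Defs
import Pool.Agent.P.MP_0ad054_nt.Chen.Lin

/-! The linear sieve with well factorable support. -/

namespace Pool.Agent.P.MP_746f10_nt.P2

open Finset Pool.Agent.P.MP_0ad054_nt.Sun
open Pool.Agent.P.MP_0ad054_nt.Chen.LinP (glue Sf_glue err_glue tele abel lp decay)

namespace Lin2P

export Pool.Agent.P.MP_0ad054_nt.Chen.LinP (VV)

lemma wf_mono {T : Finset ℕ} {D D' : ℝ} (h : WF T D) (hD : D ≤ D') : WF T D' :=
  fun p hp => (h p hp).trans hD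

lemma isW_glue (σ D : ℝ) (P : Finset ℕ) (p : ℕ) (hp : ∀ l ∈ P, l < p) (hp0 : 0 < p)
    (hp2 : (p : ℝ) ^ 2 ≤ D) (a b : Finset ℕ → ℝ) (ha : IsW2 σ P a D)
    (hb : IsW2 (-σ) P b (D / p)) : IsW2 σ (insert p P) (glue p a b) D := by
  have hpP : p ∉ P := fun h => lt_irrefl _ (hp p h)
  refine ⟨fun T => ?_, fun T hT h0 => ?_, fun w hw => ?_⟩
  · unfold glue
    split_ifs
    · rw [abs_neg]; exact hb.1 _
    · exact ha.1 _
  · unfold glue at h0
    split_ifs at h0 with h
    · have h1 : T.erase p ⊆ P := by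
        intro x hx
        have := hT (mem_of_mem_erase hx)
        rcases mem_insert.1 this with h2 | h2
        · exact absurd h2 (ne_of_mem_erase hx)
        · exact h2
      have h2 := hb.2.1 _ h1 (by simpa using h0)
      have hp' : (0 : ℝ) < p := by exact_mod_cast hp0
      intro q hq
      by_cases hqp : q = p
      · have e : T.filter (fun r => q < r) = ∅ := by
          refine filter_false_of_mem fun r hr => ?_
          rcases mem_insert.1 (hT hr) with h3 | h3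
          · rw [h3, hqp]; exact lt_irrefl _
          · rw [hqp]; exact not_lt.2 (hp r h3).le
        rw [e, prod_empty, one_mul, hqp]
        exact hp2
      · have hq' : q ∈ T.erase p := mem_erase.2 ⟨hqp, hq⟩
        have h3 := h2 q hq'
        have e : T.filter (fun r => q < r) = insert p ((T.erase p).filter (fun r => q < r)) := by
          ext r
          simp only [mem_filter, mem_insert, mem_erase]
          constructor
          · rintro ⟨h4, h5⟩
            by_cases h6 : r = p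
            · exact Or.inl h6
            · exact Or.inr ⟨⟨h6, h4⟩, h5⟩
          · rintro (h4 | ⟨⟨_, h4⟩, h5⟩)
            · rw [h4]; exact ⟨h, hp q (h1 hq')⟩
            · exact ⟨h4, h5⟩
        rw [e, prod_insert (fun h4 => notMem_erase p T (mem_filter.1 h4).1)]
        rw [le_div_iff₀ hp'] at h3
        linarith
    · exact ha.2.1 T ((subset_insert_iff_of_notMem h).1 hT) h0
  · have := err_glue σ P p hpP a b w
    unfold VV at this
    rw [this]
    have h1 := ha.2.2 w hw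
    have h2 := hb.2.2 w hw
    have h3 : 0 ≤ w p := by rcases hw p with h | h <;> simp [h]
    exact add_nonneg h1 (mul_nonneg h3 h2)

lemma buch (σ D a E0 : ℝ) (g uu : ℕ → ℝ) (P : Finset ℕ) :
    (∀ l ∈ P, 0 < l ∧ 0 ≤ g l) →
    (∃ lam, IsW2 σ (P.filter (fun l : ℕ => (l : ℝ) ≤ a)) lam D ∧
      σ * (Sf (P.filter (fun l : ℕ => (l : ℝ) ≤ a)) lam g -
        VV (P.filter (fun l : ℕ => (l : ℝ) ≤ a)) g) ≤ E0) →
    (∀ p ∈ P, a < p → (p : ℝ) ^ 2 ≤ D ∧ ∃ lam, IsW2 (-σ) (P.filter (· < p)) lam (D / p) ∧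
      -σ * (Sf (P.filter (· < p)) lam g - VV (P.filter (· < p)) g) ≤
        uu p * VV (P.filter (· < p)) g) →
    ∃ lam, IsW2 σ P lam D ∧ σ * (Sf P lam g - VV P g) ≤
      E0 + ∑ p ∈ P.filter (fun l : ℕ => a < l), uu p * (g p * VV (P.filter (· < p)) g) := by
  induction P using Finset.induction_on_max with
  | empty => intro _ h0 _; simpa using h0
  | insert p P hp ih =>
    intro hg h0 h1
    have hpP : p ∉ P := fun h => lt_irrefl _ (hp p h)
    by_cases hpa : (p : ℝ) ≤ a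
    · have e1 : (insert p P).filter (fun l : ℕ => (l : ℝ) ≤ a) = insert p P := by
        refine filter_true_of_mem fun l hl => ?_
        rcases mem_insert.1 hl with h | h
        · rw [h]; exact hpa
        · exact le_trans (by exact_mod_cast (hp l h).le) hpa
      have e2 : (insert p P).filter (fun l : ℕ => a < l) = ∅ := by
        refine filter_false_of_mem fun l hl => ?_
        rw [← e1] at hl
        exact not_lt.2 (mem_filter.1 hl).2
      rw [e1] at h0
      rw [e2]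
      simpa using h0
    · have e1 : (insert p P).filter (fun l : ℕ => (l : ℝ) ≤ a) =
          P.filter (fun l : ℕ => (l : ℝ) ≤ a) := by
        rw [filter_insert, if_neg hpa]
      have e2 : (insert p P).filter (fun l : ℕ => a < l) =
          insert p (P.filter (fun l : ℕ => a < l)) := by
        rw [filter_insert, if_pos (not_le.1 hpa)]
      have e3 : (insert p P).filter (· < p) = P := by
        rw [filter_insert, if_neg (lt_irrefl _)]
        exact filter_true_of_mem hp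
      have e4 : ∀ q ∈ P, (insert p P).filter (· < q) = P.filter (· < q) := by
        intro q hq
        rw [filter_insert, if_neg (not_lt.2 (hp q hq).le)]
      rw [e1] at h0
      obtain ⟨la, hla, hla2⟩ := ih (fun l hl => hg l (mem_insert_of_mem hl)) h0 (by
        intro q hq hq2
        have := h1 q (mem_insert_of_mem hq) hq2
        rwa [e4 q hq] at this)
      obtain ⟨hp2, lb, hlb, hlb2⟩ := h1 p (mem_insert_self _ _) (not_le.1 hpa)
      rw [e3] at hlb hlb2
      have hgp := hg p (mem_insert_self _ _)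
      refine ⟨glue p la lb, isW_glue σ D P p hp hgp.1 hp2 la lb hla hlb, ?_⟩
      rw [err_glue σ P p hpP, e2, sum_insert (fun h => hpP (mem_filter.1 h).1), e3]
      have e5 : ∑ q ∈ P.filter (fun l : ℕ => a < l),
          uu q * (g q * VV ((insert p P).filter (· < q)) g) =
          ∑ q ∈ P.filter (fun l : ℕ => a < l), uu q * (g q * VV (P.filter (· < q)) g) :=
        sum_congr rfl fun q hq => by rw [e4 q (mem_filter.1 hq).1]
      rw [e5]
      have := mul_le_mul_of_nonneg_left hlb2 hgp.2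
      nlinarith

/-- admissible densities -/
def Ad (P : Finset ℕ) (g : ℕ → ℝ) : Prop := ∀ l ∈ P, 2 ≤ l ∧ 0 ≤ g l ∧ g l ≤ 1 / 2

lemma Ad.mono {P P' : Finset ℕ} {g : ℕ → ℝ} (h : Ad P g) (hP : P' ⊆ P) : Ad P' g :=
  fun l hl => h l (hP hl)

lemma VV_pos {P : Finset ℕ} {g : ℕ → ℝ} (h : Ad P g) : 0 < VV P g :=
  prod_pos fun l hl => by have := (h l hl).2.2; linarith

lemma dim_sub {η : ℝ} {P P' : Finset ℕ} {g : ℕ → ℝ} (h : Dim2 η P g) (hP : P' ⊆ P) :
    Dim2 η P' g := by
  refine ⟨fun l hl => h.1 l (hP hl), fun w z hw hz => le_trans ?_ (h.2 w z hw hz)⟩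
  refine prod_le_prod_of_subset_of_one_le (filter_subset_filter _ hP) ?_ ?_
  · intro l hl
    have := (h.1 l (hP (mem_filter.1 hl).1)).2.2
    exact inv_nonneg.2 (by linarith)
  · intro l hl _
    have := h.1 l (mem_filter.1 hl).1
    exact (one_le_inv₀ (by linarith [this.2.2])).2 (by linarith [this.2.1])

lemma dim_mono {η η' : ℝ} {P : Finset ℕ} {g : ℕ → ℝ} (h : Dim2 η P g) (hη : η ≤ η') :
    Dim2 η' P g := by
  refine ⟨h.1, fun w z hw hz => le_trans (h.2 w z hw hz) ?_⟩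
  have h1 : 0 < Real.log w := Real.log_pos hw
  have h2 : 0 < Real.log z := Real.log_pos (by linarith)
  gcongr

/-- the product over the small primes -/
lemma VV_le {η : ℝ} {P : Finset ℕ} {g : ℕ → ℝ} (h : Dim2 η P g) (w z : ℝ) (hw : 1 < w)
    (hz : w ≤ z) (hP : ∀ l ∈ P, (l : ℝ) ≤ z) :
    VV (P.filter (fun l : ℕ => (l : ℝ) ≤ w)) g ≤ (1 + η) * Real.log z / Real.log w * VV P g := by
  have h1 := h.2 w z hw hz
  have e1 : P.filter (fun l : ℕ => w < l ∧ (l : ℝ) ≤ z) =
      P.filter (fun l : ℕ => ¬ (l : ℝ) ≤ w) :=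
    filter_congr fun l hl => by simp [hP l hl]
  rw [e1, prod_inv_distrib] at h1
  have e2 : VV P g = VV (P.filter (fun l : ℕ => (l : ℝ) ≤ w)) g *
      VV (P.filter (fun l : ℕ => ¬ (l : ℝ) ≤ w)) g := by
    unfold VV; rw [prod_filter_mul_prod_filter_not]
  have h2 := VV_pos (Ad.mono h.1 (filter_subset (fun l : ℕ => ¬ (l : ℝ) ≤ w) P))
  have h3 := VV_pos (Ad.mono h.1 (filter_subset (fun l : ℕ => (l : ℝ) ≤ w) P))
  have h4 : (VV (P.filter (fun l : ℕ => ¬ (l : ℝ) ≤ w)) g)⁻¹ ≤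
    (1 + η) * Real.log z / Real.log w := h1
  rw [inv_le_iff_one_le_mul₀ h2] at h4
  rw [e2]
  nlinarith

def Val (σ s c η z0 : ℝ) : Prop :=
  ∀ (P : Finset ℕ) (g : ℕ → ℝ) (z : ℝ), z0 ≤ z → Dim2 η P g → (∀ l ∈ P, (l : ℝ) ≤ z) →
    ∃ lam, IsW2 σ P lam (z ^ s) ∧ σ * (Sf P lam g - VV P g) ≤ c * VV P g

def Valid (σ s c : ℝ) : Prop := ∀ ε : ℝ, 0 < ε → ∃ η : ℝ, 0 < η ∧ ∃ z0 : ℝ, Val σ s (c + ε) η z0

lemma isW_mono {σ D D' : ℝ} {P : Finset ℕ} {lam : Finset ℕ → ℝ} (h : IsW2 σ P lam D)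
    (hD : D ≤ D') : IsW2 σ P lam D' :=
  ⟨h.1, fun T hT h0 => wf_mono (h.2.1 T hT h0) hD, h.2.2⟩

lemma val_mono {σ s c η z0 η' z0' : ℝ} (h : Val σ s c η z0) (hη : η' ≤ η) (hz : z0 ≤ z0') :
    Val σ s c η' z0' :=
  fun P g z h1 h2 h3 => h P g z (hz.trans h1) (dim_mono h2 hη) h3

lemma valid_mono {σ s c s' c' : ℝ} (h : Valid σ s c) (hs : s ≤ s') (hc : c ≤ c') :
    Valid σ s' c' := by
  intro ε hε
  obtain ⟨η, hη, z0, h1⟩ := h ε hε
  refine ⟨η, hη, max z0 1, fun P g z hz hD hP => ?_⟩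
  obtain ⟨lam, h2, h3⟩ := h1 P g z ((le_max_left _ _).trans hz) hD hP
  refine ⟨lam, isW_mono h2 (Real.rpow_le_rpow_of_exponent_le ((le_max_right _ _).trans hz) hs),
    h3.trans ?_⟩
  have := VV_pos hD.1
  gcongr

lemma valid_low (s : ℝ) : Valid (-1) s 1 := by
  intro ε hε
  refine ⟨1, one_pos, 0, fun P g z _ hD _ => ⟨fun _ => 0, ⟨by simp, by simp, ?_⟩, ?_⟩⟩
  · intro w hw
    have : 0 ≤ ∏ l ∈ P, (1 - w l) := prod_nonneg fun l _ => by rcases hw l with h | h <;> simp [h]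
    simpa [Sf] using this
  · have := VV_pos hD.1
    simp only [Sf, zero_mul, sum_const_zero]
    nlinarith

lemma valid_closed {σ s c : ℝ} (h : ∀ ε : ℝ, 0 < ε → Valid σ s (c + ε)) : Valid σ s c := by
  intro ε hε
  have := h (ε / 2) (by linarith) (ε / 2) (by linarith)
  rwa [add_assoc, add_halves] at this

lemma valid_fin (σ ε : ℝ) (hε : 0 < ε) (t u : ℕ → ℝ) (m : ℕ)
    (h : ∀ i ∈ range m, Valid σ (t i) (u i)) :
    ∃ η : ℝ, 0 < η ∧ ∃ z0 : ℝ, ∀ i ∈ range m, Val σ (t i) (u i + ε) η z0 := by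
  induction m with
  | zero => exact ⟨1, one_pos, 0, by simp⟩
  | succ m ih =>
    obtain ⟨η, hη, z0, h1⟩ := ih fun i hi => h i (mem_range.2 (by have := mem_range.1 hi; omega))
    obtain ⟨η', hη', z0', h2⟩ := h m (self_mem_range_succ m) ε hε
    refine ⟨min η η', lt_min hη hη', max z0 z0', fun i hi => ?_⟩
    rcases Nat.lt_succ_iff_lt_or_eq.1 (mem_range.1 hi) with h3 | h3
    · exact val_mono (h1 i (mem_range.2 h3)) (min_le_left _ _) (le_max_left _ _)
    · rw [h3]; exact val_mono h2 (min_le_right _ _) (le_max_right _ _)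

lemma VV_pow {η : ℝ} {P : Finset ℕ} {g : ℕ → ℝ} (h : Dim2 η P g) (z s τ : ℝ) (hz : 1 < z)
    (hs : 0 < s) (hτ : s ≤ τ) (hP : ∀ l ∈ P, (l : ℝ) ≤ z) :
    VV (P.filter (fun l : ℕ => (l : ℝ) ≤ z ^ (s / τ))) g ≤ (1 + η) * (τ / s) * VV P g := by
  have hτ0 : 0 < τ := lt_of_lt_of_le hs hτ
  have h1 : 1 < z ^ (s / τ) := Real.one_lt_rpow hz (by positivity)
  have h2 : z ^ (s / τ) ≤ z := by
    calc z ^ (s / τ) ≤ z ^ (1 : ℝ) :=
          Real.rpow_le_rpow_of_exponent_le hz.le ((div_le_one hτ0).2 hτ)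
      _ = z := Real.rpow_one z
  have h3 := VV_le h _ z h1 h2 hP
  rw [Real.log_rpow (by linarith)] at h3
  have h4 : 0 < Real.log z := Real.log_pos hz
  refine h3.trans (le_of_eq ?_)
  field_simp

theorem buchV (σ s T b c : ℝ) (m n : ℕ) (t u τ d : ℕ → ℝ) (hs : 0 < s) (hT : s ≤ T)
    (hb : 0 ≤ b) (hc : 0 ≤ c) (hd : ∀ j ∈ range n, 0 ≤ d j ∧ s ≤ τ j)
    (hI : ∀ i ∈ range m, Valid (-σ) (t i) (u i)) (hI2 : ∀ i ∈ range m, 1 ≤ t i)
    (hcov : ∀ x : ℝ, s ≤ x → x < T → ∃ i ∈ range m, t i + 1 ≤ x ∧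
      u i ≤ b + ∑ j ∈ range n, if x < τ j then d j else 0)
    (hV : Valid σ T c) :
    Valid σ s (∑ j ∈ range n, d j * (τ j / s - 1) + b * (T / s - 1) + c * (T / s)) := by
  intro ε hε
  have hT0 : 0 < T := lt_of_lt_of_le hs hT
  set S1 : ℝ := ∑ j ∈ range n, d j * (τ j / s) with hS1
  have hS10 : 0 ≤ S1 := sum_nonneg fun j hj =>
    mul_nonneg (hd j hj).1 (div_nonneg (hs.le.trans (hd j hj).2) hs.le)
  set R : ℝ := T / s with hR
  have hR1 : 1 ≤ R := (one_le_div hs).2 hT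
  set K : ℝ := (c + b + 4) * R + S1 with hK
  have hK0 : 0 < K := by positivity
  set ε1 : ℝ := min 1 (ε / K) with hε1
  have hε10 : 0 < ε1 := lt_min one_pos (by positivity)
  have hε11 : ε1 ≤ 1 := min_le_left _ _
  have hε12 : ε1 * K ≤ ε := by
    have : ε1 ≤ ε / K := min_le_right _ _
    rwa [le_div_iff₀ hK0] at this
  obtain ⟨η1, hη1, z1, h1⟩ := valid_fin (-σ) ε1 hε10 t u m hI
  obtain ⟨η2, hη2, z2, h2⟩ := hV ε1 hε10
  set η : ℝ := min ε1 (min η1 η2) with hη
  have hη0 : 0 < η := lt_min hε10 (lt_min hη1 hη2)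
  have hηa : η ≤ ε1 := min_le_left _ _
  have hηb : η ≤ η1 := (min_le_right _ _).trans (min_le_left _ _)
  have hηc : η ≤ η2 := (min_le_right _ _).trans (min_le_right _ _)
  set z3 : ℝ := max 2 (max z1 z2) with hz3
  have hz32 : 2 ≤ z3 := le_max_left _ _
  refine ⟨η, hη0, z3 ^ R, fun P g z hz hD hP => ?_⟩
  have hz1 : 1 < z := lt_of_lt_of_le (Real.one_lt_rpow (by linarith) (by linarith)) hz
  have hz0 : 0 < z := by linarith
  have hL : 0 < Real.log z := Real.log_pos hz1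
  set a : ℝ := z ^ (s / T) with ha
  have ha3 : z3 ≤ a := by
    have : (z3 ^ R) ^ (s / T) ≤ a := Real.rpow_le_rpow (by positivity) hz (by positivity)
    rwa [← Real.rpow_mul (by linarith), hR, show T / s * (s / T) = 1 by field_simp,
      Real.rpow_one] at this
  have haT : a ^ T = z ^ s := by
    rw [ha, ← Real.rpow_mul hz0.le]; congr 1; field_simp
  have hV0 := VV_pos hD.1
  obtain ⟨lam, hl1, hl2⟩ := buch σ (z ^ s) a
    ((c + ε1) * VV (P.filter (fun l : ℕ => (l : ℝ) ≤ a)) g) g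
    (fun p => ε1 + b + ∑ j ∈ range n, if z ^ (s / τ j) < (p : ℝ) then d j else 0) P
    (fun l hl => ⟨by have := (hD.1 l hl).1; omega, (hD.1 l hl).2.1⟩)
    (by
      rw [← haT]
      exact h2 _ g a (((le_max_right _ _).trans (le_max_right _ _)).trans ha3)
        (dim_mono (dim_sub hD (filter_subset _ _)) hηc) (fun l hl => (mem_filter.1 hl).2))
    (by
      intro p hp hap
      have hp1 : (1 : ℝ) < p := by linarith
      have hp0 : (0 : ℝ) < p := by linarith
      have hLp : 0 < Real.log p := Real.log_pos hp1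
      have hx1 : s ≤ s * Real.log z / Real.log p := by
        rw [le_div_iff₀ hLp]
        exact mul_le_mul_of_nonneg_left (Real.log_le_log hp0 (hP p hp)) hs.le
      have key : ∀ y : ℝ, 0 < y → (z ^ (s / y) < p ↔ s * Real.log z / Real.log p < y) := by
        intro y hy
        rw [← Real.log_lt_log_iff (by positivity) hp0, Real.log_rpow hz0, div_lt_iff₀ hLp,
          div_mul_eq_mul_div, div_lt_iff₀ hy, mul_comm y]
      obtain ⟨i, hi, hi1, hi2⟩ := hcov _ hx1 ((key T hT0).1 hap)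
      have hti1 := hI2 i hi
      have hti : 0 < t i + 1 := by linarith
      have hpw : (p : ℝ) ≤ z ^ (s / (t i + 1)) := by
        by_contra hcon
        exact absurd ((key _ hti).1 (not_le.1 hcon)) (not_lt.2 hi1)
      set w : ℝ := z ^ (s / (t i + 1)) with hw
      have hw0 : 0 < w := by positivity
      obtain ⟨lam, h3, h4⟩ := h1 i hi (P.filter (· < p)) g w
        ((((le_max_left _ _).trans (le_max_right _ _)).trans ha3).trans (hap.le.trans hpw))
        (dim_mono (dim_sub hD (filter_subset _ _)) hηb)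
        (fun l hl => le_trans (by exact_mod_cast (mem_filter.1 hl).2.le) hpw)
      have e1 : w ^ t i * w = z ^ s := by
        rw [← Real.rpow_add_one hw0.ne', hw, ← Real.rpow_mul hz0.le]
        congr 1; field_simp
      refine ⟨?_, lam, isW_mono h3 ?_, h4.trans ?_⟩
      · have hw1 : w ≤ w ^ t i := by
          calc w = w ^ (1 : ℝ) := (Real.rpow_one w).symm
            _ ≤ w ^ t i := Real.rpow_le_rpow_of_exponent_le (hp1.le.trans hpw) hti1
        rw [← e1, sq]
        exact mul_le_mul (hpw.trans hw1) hpw hp0.le (by positivity)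
      · rw [le_div_iff₀ hp0, ← e1]
        exact mul_le_mul_of_nonneg_left hpw (by positivity)
      · refine mul_le_mul_of_nonneg_right ?_
          (VV_pos (Ad.mono hD.1 (filter_subset _ _))).le
        have : (∑ j ∈ range n, if s * Real.log z / Real.log p < τ j then d j else 0) =
            ∑ j ∈ range n, if z ^ (s / τ j) < (p : ℝ) then d j else 0 :=
          sum_congr rfl fun j hj => by
            simp only [key _ (lt_of_lt_of_le hs (hd j hj).2)]
        rw [this] at hi2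
        linarith)
  refine ⟨lam, hl1, hl2.trans ?_⟩
  have hnn : ∀ p ∈ P, 0 ≤ g p * VV (P.filter (· < p)) g := fun p hp =>
    mul_nonneg (hD.1 p hp).2.1 (VV_pos (Ad.mono hD.1 (filter_subset _ _))).le
  have e1 : ∑ p ∈ P.filter (fun l : ℕ => a < l),
      (ε1 + b + ∑ j ∈ range n, if z ^ (s / τ j) < (p : ℝ) then d j else 0) *
        (g p * VV (P.filter (· < p)) g) ≤
      (ε1 + b) * (VV (P.filter (fun l : ℕ => (l : ℝ) ≤ a)) g - VV P g) +
      ∑ j ∈ range n, d j * ((1 + η) * (τ j / s) * VV P g - VV P g) := by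
    simp only [add_mul (ε1 + b), sum_add_distrib, sum_mul]
    rw [← mul_sum, tele, sum_comm]
    refine add_le_add le_rfl (sum_le_sum fun j hj => ?_)
    have h5 := VV_pow hD z s (τ j) hz1 hs (hd j hj).2 hP
    calc _ ≤ ∑ p ∈ P, (if z ^ (s / τ j) < (p : ℝ) then d j else 0) *
          (g p * VV (P.filter (· < p)) g) :=
          sum_le_sum_of_subset_of_nonneg (filter_subset _ _) fun p hp _ =>
            mul_nonneg (by split_ifs; exacts [(hd j hj).1, le_rfl]) (hnn p hp)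
      _ = d j * ∑ p ∈ P.filter (fun l : ℕ => z ^ (s / τ j) < l),
          g p * VV (P.filter (· < p)) g := by
          rw [sum_filter, mul_sum]
          exact sum_congr rfl fun p _ => by split_ifs <;> simp
      _ ≤ _ := by
          rw [tele]
          exact mul_le_mul_of_nonneg_left (by linarith) (hd j hj).1
  have h6 : VV (P.filter (fun l : ℕ => (l : ℝ) ≤ a)) g ≤ (1 + η) * R * VV P g :=
    VV_pow hD z s T hz1 hs hT hP
  have e2 : ∑ j ∈ range n, d j * ((1 + η) * (τ j / s) * VV P g - VV P g) =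
      (∑ j ∈ range n, d j * (τ j / s - 1) + η * S1) * VV P g := by
    rw [hS1, mul_sum, ← sum_add_distrib, sum_mul]
    exact sum_congr rfl fun j _ => by ring
  rw [e2] at e1
  set Va := VV (P.filter (fun l : ℕ => (l : ℝ) ≤ a)) g
  set V := VV P g
  set S0 := ∑ j ∈ range n, d j * (τ j / s - 1)
  have h7 : (c + ε1 + (ε1 + b)) * Va ≤ (c + ε1 + (ε1 + b)) * ((1 + η) * R * V) :=
    mul_le_mul_of_nonneg_left h6 (by positivity)
  have h8 : (c + ε1 + (ε1 + b)) * ((1 + η) * R) - (ε1 + b) + η * S1 ≤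
      b * (R - 1) + c * R + ε := by
    have a1 : η * S1 ≤ ε1 * S1 := mul_le_mul_of_nonneg_right hηa hS10
    have a2 : η * ((c + b) * R) ≤ ε1 * ((c + b) * R) :=
      mul_le_mul_of_nonneg_right hηa (by positivity)
    have a3 : η * (ε1 * R) ≤ 1 * (ε1 * R) :=
      mul_le_mul_of_nonneg_right (hηa.trans hε11) (by positivity)
    rw [hK] at hε12
    nlinarith
  have h9 := mul_le_mul_of_nonneg_right h8 hV0.le
  nlinarith

lemma Sf_ext {P P' : Finset ℕ} (hP : P' ⊆ P) (lam : Finset ℕ → ℝ) (w : ℕ → ℝ) :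
    Sf P (fun T => if T ⊆ P' then lam T else 0) w = Sf P' lam w := by
  unfold Sf
  symm
  refine sum_subset_zero_on_sdiff (powerset_mono.2 hP) (fun T hT => ?_) fun T hT => ?_
  · have := (mem_sdiff.1 hT).2
    rw [mem_powerset] at this
    simp [this]
  · simp [mem_powerset.1 hT]

lemma isW_ext {P P' : Finset ℕ} (hP : P' ⊆ P) {lam : Finset ℕ → ℝ} {D : ℝ}
    (h : IsW2 1 P' lam D) : IsW2 1 P (fun T => if T ⊆ P' then lam T else 0) D := by
  refine ⟨fun T => ?_, fun T _ h0 => ?_, fun w hw => ?_⟩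
  · dsimp only
    split_ifs
    · exact h.1 T
    · simp
  · dsimp only at h0
    split_ifs at h0 with h1
    · exact h.2.1 T h1 h0
    · exact absurd rfl h0
  · rw [Sf_ext hP]
    have h1 := h.2.2 w hw
    have h2 : ∏ l ∈ P, (1 - w l) ≤ ∏ l ∈ P', (1 - w l) := by
      refine prod_le_prod_of_subset_of_le_one hP (fun l _ => ?_) fun l _ _ => ?_
      · rcases hw l with h | h <;> simp [h]
      · rcases hw l with h | h <;> simp [h]
    linarith

lemma restrict {s T c : ℝ} (h : Valid 1 T c) (hc : 0 ≤ c) (hs : 0 < s) (hT : s ≤ T) :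
    Valid 1 s ((1 + c) * T / s - 1) := by
  intro ε hε
  have hT0 : 0 < T := lt_of_lt_of_le hs hT
  set R : ℝ := T / s with hR
  have hR1 : 1 ≤ R := (one_le_div hs).2 hT
  set K : ℝ := (c + 3) * R with hK
  have hK0 : 0 < K := by positivity
  set ε1 : ℝ := min 1 (ε / K) with hε1
  have hε10 : 0 < ε1 := lt_min one_pos (by positivity)
  have hε11 : ε1 ≤ 1 := min_le_left _ _
  have hε12 : ε1 * K ≤ ε := by
    have : ε1 ≤ ε / K := min_le_right _ _
    rwa [le_div_iff₀ hK0] at this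
  obtain ⟨η2, hη2, z2, h2⟩ := h ε1 hε10
  set η : ℝ := min ε1 η2 with hη
  have hη0 : 0 < η := lt_min hε10 hη2
  have hηa : η ≤ ε1 := min_le_left _ _
  have hηc : η ≤ η2 := min_le_right _ _
  set z3 : ℝ := max 2 z2 with hz3
  have hz32 : 2 ≤ z3 := le_max_left _ _
  refine ⟨η, hη0, z3 ^ R, fun P g z hz hD hP => ?_⟩
  have hz1 : 1 < z := lt_of_lt_of_le (Real.one_lt_rpow (by linarith) (by linarith)) hz
  have hz0 : 0 < z := by linarith
  set a : ℝ := z ^ (s / T) with ha
  have ha3 : z3 ≤ a := by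
    have : (z3 ^ R) ^ (s / T) ≤ a := Real.rpow_le_rpow (by positivity) hz (by positivity)
    rwa [← Real.rpow_mul (by linarith), hR, show T / s * (s / T) = 1 by field_simp,
      Real.rpow_one] at this
  have haT : a ^ T = z ^ s := by
    rw [ha, ← Real.rpow_mul hz0.le]; congr 1; field_simp
  have hV0 := VV_pos hD.1
  obtain ⟨lam, h3, h4⟩ := h2 (P.filter (fun l : ℕ => (l : ℝ) ≤ a)) g a
    ((le_max_right _ _).trans ha3) (dim_mono (dim_sub hD (filter_subset _ _)) hηc)
    (fun l hl => (mem_filter.1 hl).2)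
  rw [haT] at h3
  refine ⟨_, isW_ext (filter_subset _ _) h3, ?_⟩
  rw [Sf_ext (filter_subset _ _)]
  have h6 : VV (P.filter (fun l : ℕ => (l : ℝ) ≤ a)) g ≤ (1 + η) * R * VV P g :=
    VV_pow hD z s T hz1 hs hT hP
  set Va := VV (P.filter (fun l : ℕ => (l : ℝ) ≤ a)) g
  set V := VV P g
  have h7 : (1 + c + ε1) * Va ≤ (1 + c + ε1) * ((1 + η) * R * V) :=
    mul_le_mul_of_nonneg_left h6 (by positivity)
  have h8 : (1 + c + ε1) * ((1 + η) * R) ≤ (1 + c) * R + ε := by
    have a2 : η * ((1 + c) * R) ≤ ε1 * ((1 + c) * R) :=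
      mul_le_mul_of_nonneg_right hηa (by positivity)
    have a3 : η * (ε1 * R) ≤ 1 * (ε1 * R) :=
      mul_le_mul_of_nonneg_right (hηa.trans hε11) (by positivity)
    rw [hK] at hε12
    nlinarith
  have h9 := mul_le_mul_of_nonneg_right h8 hV0.le
  rw [mul_div_assoc, ← hR]
  nlinarith

lemma disc (σ c : ℝ) (M m R : ℕ) (hM : 0 < M) (hMm : M ≤ m) (G : ℕ → ℝ)
    (hG : ∀ i, m ≤ i → Valid (-σ) ((i : ℝ) / M) (G i)) (hG0 : ∀ i, 0 ≤ G i)
    (hG1 : ∀ i, m ≤ i → G (i + 1) ≤ G i) (hc : 0 ≤ c)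
    (hV : Valid σ (((m + R + M : ℕ) : ℝ) / M) c) :
    Valid σ (((m + M : ℕ) : ℝ) / M)
      ((∑ i ∈ Ico m (m + R), G i + ((m + R + M : ℕ) : ℝ) * c) / ((m + M : ℕ) : ℝ)) := by
  have hM' : (0 : ℝ) < M := by exact_mod_cast hM
  have hj : (0 : ℝ) < ((m + M : ℕ) : ℝ) := by push_cast; positivity
  have := buchV σ (((m + M : ℕ) : ℝ) / M) (((m + R + M : ℕ) : ℝ) / M) (G (m + R)) c R R
    (fun r => ((m + r : ℕ) : ℝ) / M) (fun r => G (m + r))
    (fun r => ((m + M + r + 1 : ℕ) : ℝ) / M) (fun r => G (m + r) - G (m + r + 1))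
    (by positivity)
    (div_le_div_of_nonneg_right (by exact_mod_cast (by omega)) hM'.le) (hG0 _) hc
    (fun r _ => ⟨by linarith [hG1 (m + r) (by omega)],
      div_le_div_of_nonneg_right (by exact_mod_cast (by omega)) hM'.le⟩)
    (fun r _ => hG _ (by omega))
    (fun r _ => (one_le_div hM').2 (by exact_mod_cast (by omega)))
    (by
      intro x hx1 hx2
      rw [div_le_iff₀ hM'] at hx1
      rw [lt_div_iff₀ hM'] at hx2
      have hx0 : 0 ≤ x * M := hj.le.trans hx1
      have h1 : m + M ≤ ⌊x * M⌋₊ := Nat.le_floor hx1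
      have h2 : ⌊x * M⌋₊ < m + R + M := (Nat.floor_lt hx0).2 hx2
      obtain ⟨r, hr⟩ := Nat.exists_eq_add_of_le h1
      have hrR : r < R := by omega
      have h3 : ((m + M + r : ℕ) : ℝ) ≤ x * M := by rw [← hr]; exact Nat.floor_le hx0
      have h4 : x * M < ((m + M + r : ℕ) : ℝ) + 1 := by rw [← hr]; exact Nat.lt_floor_add_one _
      refine ⟨r, mem_range.2 hrR, ?_, ?_⟩
      · rw [div_add_one hM'.ne', div_le_iff₀ hM']
        push_cast at h3 ⊢; linarith
      · have e1 : ∑ j ∈ Ico r R, (G (m + j) - G (m + j + 1)) = G (m + r) - G (m + R) := by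
          have := sum_Ico_sub (fun j => -G (m + j)) hrR.le
          simp only [neg_sub_neg] at this
          rw [← this]
          exact sum_congr rfl fun j _ => by rw [add_assoc]
        have e2 : ∑ j ∈ Ico r R, (G (m + j) - G (m + j + 1)) ≤ ∑ j ∈ range R,
            if x < ((m + M + j + 1 : ℕ) : ℝ) / M then G (m + j) - G (m + j + 1) else 0 := by
          rw [← sum_filter]
          refine sum_le_sum_of_subset_of_nonneg (fun j hj => ?_) fun j _ _ => by
            linarith [hG1 (m + j) (by omega)]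
          have := mem_Ico.1 hj
          refine mem_filter.2 ⟨mem_range.2 this.2, ?_⟩
          rw [lt_div_iff₀ hM']
          have h5 : (r : ℝ) ≤ j := by exact_mod_cast this.1
          push_cast at h4 ⊢; linarith
        linarith)
    hV
  refine valid_mono this le_rfl (le_of_eq ?_)
  rw [sum_Ico_eq_sum_range, Nat.add_sub_cancel_left, ← abel (fun r => G (m + r)) R,
    eq_div_iff hj.ne', add_mul, add_mul, sum_mul]
  congr 1
  · congr 1
    · refine sum_congr rfl fun r _ => ?_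
      rw [add_assoc m r 1]
      field_simp
      push_cast; ring
    · field_simp
      push_cast; ring
  · field_simp

noncomputable def Fs (σ s : ℝ) : ℝ := sInf {c | 0 ≤ c ∧ Valid σ s c}

lemma Fs_nonneg (σ s : ℝ) : 0 ≤ Fs σ s := Real.sInf_nonneg fun _ h => h.1

lemma Fs_le {σ s c : ℝ} (hc : 0 ≤ c) (h : Valid σ s c) : Fs σ s ≤ c :=
  csInf_le ⟨0, fun _ h => h.1⟩ ⟨hc, h⟩

lemma Fs_valid {σ s : ℝ} (h : ∃ c, 0 ≤ c ∧ Valid σ s c) : Valid σ s (Fs σ s) := by
  refine valid_closed fun ε hε => ?_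
  obtain ⟨c, hc, hc2⟩ := Real.lt_sInf_add_pos (s := {c | 0 ≤ c ∧ Valid σ s c}) h hε
  exact valid_mono hc.2 le_rfl hc2.le

lemma decay7 (C : ℝ) (hC : 0 ≤ C) (M : ℕ) (δ : ℝ) (hδ : 0 < δ) :
    ∃ k : ℕ, ((M * (4 * k + 7) : ℕ) : ℝ) ^ 2 * (C / 2 ^ k) ≤ δ := by
  obtain ⟨k, hk⟩ := decay C (2 * M) δ hδ
  refine ⟨k, le_trans ?_ hk⟩
  have : M * (4 * k + 7) ≤ 2 * M * (4 * k + 6) := by nlinarith
  gcongr

theorem lin2 (h : S_FL2) : S_Lin2 := by
  obtain ⟨C, hC, h⟩ := h
  have hFL : ∀ σ : ℝ, σ = 1 ∨ σ = -1 → ∀ k : ℕ, Valid σ ((4 * k + 7 : ℕ) : ℝ) (C / 2 ^ k) := by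
    intro σ hσ k ε hε
    refine ⟨1, one_pos, 1, fun P g z hz hD hP => ?_⟩
    obtain ⟨lam, h1, h2⟩ := h σ k P g z hσ hz hD hP
    refine ⟨lam, by rwa [Real.rpow_natCast], h2.trans ?_⟩
    have := VV_pos hD.1
    unfold VV at this ⊢
    nlinarith
  have hu : ∀ s : ℝ, 0 < s → Valid 1 s (Fs 1 s) := by
    intro s hs
    refine Fs_valid ?_
    have h1 := hFL 1 (Or.inl rfl) 0
    norm_num at h1
    rcases le_total s 7 with h6 | h6
    · refine ⟨_, ?_, restrict h1 hC.le hs h6⟩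
      rw [sub_nonneg, one_le_div hs]; nlinarith
    · exact ⟨C, hC.le, valid_mono h1 h6 le_rfl⟩
  have hv : ∀ s : ℝ, Valid (-1) s (Fs (-1) s) := fun s => Fs_valid ⟨1, zero_le_one, valid_low s⟩
  set A : ℝ := (1 + Fs 1 3) * 3 with hA
  have hA3 : 3 ≤ A := by have := Fs_nonneg 1 3; linarith
  have key : 4 * Fs (-1) 4 ≤ 4 - A * Real.log 3 := by
    refine le_of_forall_pos_le_add fun δ hδ => ?_
    obtain ⟨M0, hM0⟩ := exists_nat_ge (2 * A / δ)
    set M := M0 + 2 with hM
    have hM2 : 2 ≤ M := by omega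
    have hM' : (0 : ℝ) < M := by exact_mod_cast (by omega : 0 < M)
    obtain ⟨k, hk⟩ := decay7 C hC.le M (δ / 6) (by positivity)
    set n := M * (4 * k + 6) with hn
    have hnM : n + M = M * (4 * k + 7) := by rw [hn]; ring
    have hT : ((n + M : ℕ) : ℝ) / M = ((4 * k + 7 : ℕ) : ℝ) := by
      rw [hnM]; push_cast; field_simp
    have h5 : 5 * M ≤ n := by rw [hn]; nlinarith
    set u : ℕ → ℝ := fun i => if i ≤ 3 * M then max 0 (A * M / i - 1) else Fs 1 (i / M) with hu'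
    set v : ℕ → ℝ := fun i => Fs (-1) (i / M) with hv'
    have u3 : ∀ i : ℕ, 1 ≤ i → i ≤ 3 * M → u i = A * M / i - 1 := by
      intro i h1 h2
      have h3 : (0 : ℝ) < i := by exact_mod_cast h1
      have h4 : (i : ℝ) ≤ 3 * M := by exact_mod_cast h2
      simp only [hu', if_pos h2]
      refine max_eq_right ?_
      rw [sub_nonneg, one_le_div h3]; nlinarith
    have u4 : ∀ i : ℕ, 3 * M ≤ i → u i = Fs 1 (i / M) := by
      intro i h1
      rcases h1.eq_or_lt with h2 | h2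
      · rw [u3 i (by omega) h2.ge, ← h2, hA]
        push_cast
        rw [mul_div_cancel_right₀ _ hM'.ne']
        field_simp
        ring
      · simp only [hu', if_neg (not_le.2 h2)]
    have u0 : ∀ i, 0 ≤ u i := fun i => by
      simp only [hu']; split_ifs; exacts [le_max_left _ _, Fs_nonneg _ _]
    have v0 : ∀ i, 0 ≤ v i := fun i => Fs_nonneg _ _
    have uV : ∀ i : ℕ, 1 ≤ i → Valid 1 ((i : ℝ) / M) (u i) := by
      intro i h1
      have h3 : (0 : ℝ) < i := by exact_mod_cast h1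
      rcases le_total i (3 * M) with h2 | h2
      · have h4 : (i : ℝ) ≤ 3 * M := by exact_mod_cast h2
        have := restrict (hu 3 (by norm_num)) (Fs_nonneg _ _) (s := (i : ℝ) / M) (by positivity)
          ((div_le_iff₀ hM').2 h4)
        rw [u3 i h1 h2]
        refine valid_mono this le_rfl (le_of_eq ?_)
        rw [← hA]; field_simp
      · rw [u4 i h2]; exact hu _ (by positivity)
    have cs : ∀ i : ℕ, (i : ℝ) / M ≤ ((i + 1 : ℕ) : ℝ) / M := fun i => by gcongr; omega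
    have uA : ∀ i : ℕ, 1 ≤ i → u (i + 1) ≤ u i := by
      intro i h1
      have h3 : (0 : ℝ) < i := by exact_mod_cast h1
      rcases lt_or_ge i (3 * M) with h2 | h2
      · rw [u3 i h1 h2.le, u3 (i + 1) (by omega) h2]
        have : 0 ≤ A * M := by positivity
        gcongr; omega
      · rw [u4 (i + 1) (by omega)]
        exact Fs_le (u0 i) (valid_mono (uV i h1) (cs i) le_rfl)
    have vA : ∀ i : ℕ, v (i + 1) ≤ v i := fun i =>
      Fs_le (v0 i) (valid_mono (hv _) (cs i) le_rfl)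
    have hc0 : 0 ≤ C / 2 ^ k := by positivity
    have gen : ∀ (σ : ℝ) (G : ℕ → ℝ) (j : ℕ), σ = 1 ∨ σ = -1 → 2 * M ≤ j → j ≤ n →
        (∀ i : ℕ, 1 ≤ i → Valid (-σ) ((i : ℝ) / M) (G i)) → (∀ i, 0 ≤ G i) →
        (∀ i, 1 ≤ i → G (i + 1) ≤ G i) →
        j * Fs σ (j / M) ≤ ∑ i ∈ Ico (j - M) n, G i + ((n + M : ℕ) : ℝ) * (C / 2 ^ k) := by
      intro σ G j hσ h1 h2 g1 g2 g3
      have e1 : j - M + (n - (j - M)) = n := by omega
      have e2 : j - M + M = j := by omega
      have hj : (0 : ℝ) < j := by exact_mod_cast (by omega : 0 < j)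
      have e0 : 1 ≤ j - M := by omega
      have := disc σ (C / 2 ^ k) M (j - M) (n - (j - M)) (by omega) (by omega) G
        (fun i hi => g1 i (e0.trans hi)) g2 (fun i hi => g3 i (e0.trans hi)) hc0
        (by rw [e1, hT]; exact hFL σ hσ k)
      rw [e1, e2] at this
      have h3 := Fs_le (div_nonneg (add_nonneg (sum_nonneg fun i _ => g2 i) (by positivity))
        hj.le) this
      rwa [le_div_iff₀ hj, mul_comm] at h3
    have hlp := lp M n hM2 (by omega) A (((n + M : ℕ) : ℝ) * (C / 2 ^ k)) (by linarith) u v u0 v0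
      (by positivity)
      (fun j h1 h2 => gen (-1) u j (Or.inr rfl) h1 h2 (by simpa using uV) u0 uA)
      (fun j h1 h2 => by
        rw [u4 j h1]
        exact gen 1 v j (Or.inl rfl) (by omega) h2 (fun i _ => hv _) v0 (fun i _ => vA i))
      (fun i h1 h2 => u3 i (by omega) h2)
    have e3 : v (4 * M) = Fs (-1) 4 := by
      simp only [hv']; push_cast; rw [mul_div_cancel_right₀ _ hM'.ne']
    rw [e3] at hlp
    rw [← hnM] at hk
    have a1 : A / (M - 1) ≤ δ / 2 := by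
      have : (M : ℝ) - 1 = M0 + 1 := by rw [hM]; push_cast; ring
      rw [this, div_le_iff₀ (by positivity)]
      rw [div_le_iff₀ hδ] at hM0
      nlinarith
    have a2 : (n : ℝ) * (((n + M : ℕ) : ℝ) * (C / 2 ^ k)) ≤
        ((n + M : ℕ) : ℝ) * (((n + M : ℕ) : ℝ) * (C / 2 ^ k)) := by
      gcongr; omega
    nlinarith
  refine ⟨A, by linarith, fun ε hε => ?_⟩
  obtain ⟨η1, hη1, z1, h1⟩ := hu 3 (by norm_num) ε hε
  obtain ⟨η2, hη2, z2, h2⟩ := hv 4 ε hε
  refine ⟨min η1 η2, lt_min hη1 hη2, max z1 z2, fun P g z hz hD hP => ⟨?_, ?_⟩⟩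
  · obtain ⟨lam, a1, a2⟩ := h1 P g z ((le_max_left _ _).trans hz) (dim_mono hD (min_le_left _ _)) hP
    refine ⟨lam, by rw [← Real.rpow_natCast]; exact_mod_cast a1, ?_⟩
    unfold VV at a2
    rw [hA]; linarith
  · obtain ⟨lam, a1, a2⟩ := h2 P g z ((le_max_right _ _).trans hz)
      (dim_mono hD (min_le_right _ _)) hP
    refine ⟨lam, by rw [← Real.rpow_natCast]; exact_mod_cast a1, ?_⟩
    have := VV_pos hD.1
    unfold VV at a2 this
    nlinarith

end Lin2P

theorem pLin2 (h : S_FL2) : S_Lin2 := Lin2P.lin2 h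

end Pool.Agent.P.MP_746f10_nt.P2
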