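import Pool.Agent.P.MP_746f10_nt.P2.Defs
import Pool.Agent.P.MP_0ad054_nt.Chen.Dim

/-! The numerical inequality, Mertens sums in short ranges and Richert weights. -/

namespace Pool.Agent.P.MP_746f10_nt.P2

open Finset

namespace NumP

/-- integer upper bound for a term -/
def ft (i : ℕ) : ℕ := (986 - i) * 274 * 10 ^ 9 / (957 * i * (1095 - i)) + 1

lemma ft_sum : ∑ i ∈ Ico 274 986, ft i ≤ 273100000 := by decide +kernel

lemma term_le {i : ℕ} (h1 : 274 ≤ i) (h2 : i < 986) :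
    986 / 957 * ((1 - (i : ℝ) / 986) * (1 / i) * (274 / (1095 - i))) ≤ (ft i : ℝ) / 10 ^ 9 := by
  have hi : (274 : ℝ) ≤ i := by exact_mod_cast h1
  have hi2 : (i : ℝ) < 986 := by exact_mod_cast h2
  have hd : 0 < 957 * i * (1095 - i) := by
    have : 0 < 1095 - i := by omega
    have : 0 < i := by omega
    positivity
  have h3 : (986 - i) * 274 * 10 ^ 9 < (957 * i * (1095 - i)) * ft i := by
    unfold ft
    exact Nat.lt_mul_div_succ _ hd
  have h4 : ((986 : ℝ) - i) * 274 * 10 ^ 9 < (957 * i * (1095 - i)) * ft i := by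
    have h5 : (((986 - i) * 274 * 10 ^ 9 : ℕ) : ℝ) < ((957 * i * (1095 - i)) * ft i : ℕ) := by
      exact_mod_cast h3
    push_cast [Nat.cast_sub (by omega : i ≤ 986), Nat.cast_sub (by omega : i ≤ 1095)] at h5
    linarith
  have h6 : (0 : ℝ) < 1095 - i := by linarith
  have h7 : (0 : ℝ) < i := by linarith
  have h8 : 986 / 957 * ((1 - (i : ℝ) / 986) * (1 / i) * (274 / (1095 - i))) =
      ((986 - i) * 274) / (957 * i * (1095 - i)) := by
    field_simp
  rw [h8, div_le_div_iff₀ (by positivity) (by positivity)]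
  linarith

lemma log_three : (19 / 12 : ℝ) * Real.log 2 ≤ Real.log 3 := by
  have h : Real.log ((2 : ℝ) ^ 19) ≤ Real.log ((3 : ℝ) ^ 12) :=
    Real.log_le_log (by norm_num) (by norm_num)
  rw [Real.log_pow, Real.log_pow] at h
  push_cast at h
  linarith

lemma part1 :
    986 / 957 * ∑ i ∈ Ico (274 : ℕ) 986, (1 - (i : ℝ) / 986) * (1 / i) * (274 / (1095 - i)) ≤
      Real.log 3 / 4 - 1 / 1000 := by
  rw [mul_sum]
  have h1 : ∑ i ∈ Ico (274 : ℕ) 986,
      986 / 957 * ((1 - (i : ℝ) / 986) * (1 / i) * (274 / (1095 - i))) ≤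
      ∑ i ∈ Ico (274 : ℕ) 986, (ft i : ℝ) / 10 ^ 9 :=
    sum_le_sum fun i hi => term_le (mem_Ico.1 hi).1 (mem_Ico.1 hi).2
  have h2 : ((∑ i ∈ Ico 274 986, ft i : ℕ) : ℝ) ≤ (273100000 : ℕ) := by exact_mod_cast ft_sum
  rw [← sum_div] at h1
  push_cast at h2
  have h3 := log_three
  have h4 := Real.log_two_gt_d9
  have h5 : (∑ i ∈ Ico (274 : ℕ) 986, (ft i : ℝ)) / 10 ^ 9 ≤ 273100000 / 10 ^ 9 := by gcongr
  norm_num at h5 h4
  linarith

lemma part2 (δ : ℝ) (hδ : 0 < δ) : ∃ X0 : ℕ, ∀ X i : ℕ, X0 ≤ X → 1 ≤ i →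
    ms (PP (X ^ i) (X ^ (i + 1))) ≤ 1 / i + δ := by
  obtain ⟨K, hK, hS⟩ := Pool.Agent.P.MP_0ad054_nt.Chen.DimP.S_close
  refine ⟨⌈Real.exp (K / δ)⌉₊ + 2, fun X i hX hi => ?_⟩
  have hX2 : 2 ≤ X := by omega
  have hXr : (2 : ℝ) ≤ X := by exact_mod_cast hX2
  have hXe : Real.exp (K / δ) ≤ X := by
    have h1 := Nat.le_ceil (Real.exp (K / δ))
    have h2 : ((⌈Real.exp (K / δ)⌉₊ : ℕ) : ℝ) ≤ X := by exact_mod_cast (by omega)
    linarith
  have hlX : K / δ ≤ Real.log X := (Real.le_log_iff_exp_le (by linarith)).2 hXe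
  have hl0 : 0 < Real.log X := Real.log_pos (by linarith)
  have ha : 2 ≤ X ^ i := hX2.trans (Nat.le_self_pow (by omega) X)
  have hab : X ^ i ≤ X ^ (i + 1) := Nat.pow_le_pow_right (by omega) (by omega)
  have h := (abs_le.1 (hS _ _ ha hab)).2
  have hi1 : (1 : ℝ) ≤ i := by exact_mod_cast hi
  have e1 : Real.log ((X ^ i : ℕ) : ℝ) = i * Real.log X := by
    push_cast; rw [Real.log_pow]
  have e2 : Real.log ((X ^ (i + 1) : ℕ) : ℝ) = (i + 1) * Real.log X := by
    push_cast; rw [Real.log_pow]; push_cast; ring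
  rw [e1, e2] at h
  have e3 : Real.log ((i + 1) * Real.log X) - Real.log (i * Real.log X) ≤ 1 / i := by
    rw [← Real.log_div (by positivity) (by positivity)]
    have h1 := Real.log_le_sub_one_of_pos
      (x := ((i + 1) * Real.log X) / (i * Real.log X)) (by positivity)
    have h2 : ((i + 1) * Real.log X) / (i * Real.log X) - 1 = 1 / (i : ℝ) := by
      field_simp; ring
    linarith
  have e4 : K / (i * Real.log X) ≤ δ := by
    rw [div_le_iff₀ (by positivity)]
    rw [div_le_iff₀ hδ] at hlX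
    nlinarith [mul_pos hl0 hδ]
  have e5 : ms (PP (X ^ i) (X ^ (i + 1))) =
      Pool.Agent.P.MP_a14ce1_nt.Ch.Mertens.S (X ^ i) (X ^ (i + 1)) := rfl
  rw [e5]
  linarith

/-- the weight of a prime -/
noncomputable def wt (X p : ℕ) : ℝ :=
  ∑ i ∈ Ico (274 : ℕ) 986, (1 - (i : ℝ) / 986) * if p ∈ PP (X ^ i) (X ^ (i + 1)) then 1 else 0

lemma coef_nonneg {i : ℕ} (hi : i ∈ Ico (274 : ℕ) 986) : (0 : ℝ) ≤ 1 - (i : ℝ) / 986 := by
  have : (i : ℝ) < 986 := by exact_mod_cast (mem_Ico.1 hi).2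
  linarith

lemma wt_term_nonneg (X p : ℕ) {i : ℕ} (hi : i ∈ Ico (274 : ℕ) 986) :
    (0 : ℝ) ≤ (1 - (i : ℝ) / 986) * if p ∈ PP (X ^ i) (X ^ (i + 1)) then 1 else 0 :=
  mul_nonneg (coef_nonneg hi) (by split_ifs <;> norm_num)

lemma wt_nonneg (X p : ℕ) : 0 ≤ wt X p := sum_nonneg fun _ hi => wt_term_nonneg X p hi

lemma exists_level {X p : ℕ} (a : ℕ) (h1 : X ^ a < p) :
    ∀ b : ℕ, p ≤ X ^ b → a ≤ b → ∃ i, a ≤ i ∧ i < b ∧ X ^ i < p ∧ p ≤ X ^ (i + 1) := by
  intro b
  induction b with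
  | zero =>
    intro h2 h3
    obtain rfl : a = 0 := by omega
    omega
  | succ b ih =>
    intro h2 h3
    rcases Nat.eq_or_lt_of_le h3 with h | h
    · subst h; omega
    · by_cases h4 : p ≤ X ^ b
      · obtain ⟨i, a1, a2, a3, a4⟩ := ih h4 (by omega)
        exact ⟨i, a1, by omega, a3, a4⟩
      · exact ⟨b, by omega, by omega, by omega, h2⟩

lemma wt_ge {X p : ℕ} (hX : 2 ≤ X) (hp : p.Prime) (h1 : X ^ 274 < p) (h2 : p ≤ X ^ 986) :
    1 ≤ Real.log p / (986 * Real.log X) + wt X p := by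
  obtain ⟨i, a1, a2, a3, a4⟩ := exists_level 274 h1 986 h2 (by norm_num)
  have hi : i ∈ Ico (274 : ℕ) 986 := mem_Ico.2 ⟨a1, a2⟩
  have hXr : (2 : ℝ) ≤ X := by exact_mod_cast hX
  have hl0 : 0 < Real.log X := Real.log_pos (by linarith)
  have h3 : (1 - (i : ℝ) / 986) * (if p ∈ PP (X ^ i) (X ^ (i + 1)) then 1 else 0) ≤ wt X p :=
    single_le_sum (f := fun i : ℕ =>
      (1 - (i : ℝ) / 986) * if p ∈ PP (X ^ i) (X ^ (i + 1)) then 1 else 0)
      (fun _ hj => wt_term_nonneg X p hj) hi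
  rw [if_pos (mem_PP.2 ⟨a3, a4, hp⟩), mul_one] at h3
  have h4 : (i : ℝ) * Real.log X ≤ Real.log p := by
    rw [← Real.log_pow]
    exact Real.log_le_log (by positivity) (by exact_mod_cast a3.le)
  have h5 : (i : ℝ) / 986 ≤ Real.log p / (986 * Real.log X) := by
    rw [div_le_div_iff₀ (by norm_num) (by positivity)]
    nlinarith
  linarith

lemma sum_wt (X m : ℕ) : ∑ p ∈ m.primeFactors, wt X p ≤
    ∑ i ∈ Ico (274 : ℕ) 986, (1 - (i : ℝ) / 986) * cdv (PP (X ^ i) (X ^ (i + 1))) m := by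
  unfold wt
  rw [sum_comm]
  refine sum_le_sum fun i hi => ?_
  rw [← mul_sum]
  refine mul_le_mul_of_nonneg_left ?_ (coef_nonneg hi)
  unfold cdv
  rw [← sum_filter, ← sum_filter]
  refine sum_le_sum_of_subset_of_nonneg (fun p hp => ?_) (fun _ _ _ => by norm_num)
  rw [mem_filter] at hp ⊢
  exact ⟨hp.2, Nat.dvd_of_mem_primeFactors hp.1⟩

lemma part3 (X m : ℕ) (hX : 2 ≤ X) (hm : 1 ≤ m) (hm2 : m ≤ X ^ 2001) (hr : rough (X ^ 274) m)
    (hsq : ∀ p : ℕ, p.Prime → X ^ 274 < p → p ≤ X ^ 986 → ¬ p ^ 2 ∣ m)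
    (hw : 986 / 957 * ∑ i ∈ Ico (274 : ℕ) 986,
      (1 - (i : ℝ) / 986) * cdv (PP (X ^ i) (X ^ (i + 1))) m < 1) :
    m.primeFactorsList.length ≤ 2 := by
  have hXr : (2 : ℝ) ≤ X := by exact_mod_cast hX
  have hl0 : 0 < Real.log X := Real.log_pos (by linarith)
  have e1 : (m.primeFactorsList.length : ℝ) = ∑ p ∈ m.primeFactors, (m.factorization p : ℝ) := by
    rw [← ArithmeticFunction.cardFactors_apply, ArithmeticFunction.cardFactors_eq_sum_factorization]
    simp [Finsupp.sum]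
  have e2 : Real.log m = ∑ p ∈ m.primeFactors, (m.factorization p : ℝ) * Real.log p := by
    rw [Real.log_nat_eq_sum_factorization]
    simp [Finsupp.sum]
  have e3 : ∀ p ∈ m.primeFactors, (m.factorization p : ℝ) ≤
      (m.factorization p : ℝ) * Real.log p / (986 * Real.log X) + wt X p := by
    intro p hp
    have hpp := Nat.prime_of_mem_primeFactors hp
    have hpd := Nat.dvd_of_mem_primeFactors hp
    have h1 := hr p hpp hpd
    by_cases h2 : p ≤ X ^ 986
    · have h3 : m.factorization p ≤ 1 := by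
        by_contra h4
        exact hsq p hpp h1 h2 ((hpp.pow_dvd_iff_le_factorization (by omega)).2 (by omega))
      have h4 : 1 ≤ m.factorization p :=
        (hpp.pow_dvd_iff_le_factorization (by omega)).1 (by simpa using hpd)
      have h5 : m.factorization p = 1 := by omega
      rw [h5]
      simpa using wt_ge hX hpp h1 h2
    · have h3 : 986 * Real.log X ≤ Real.log p := by
        have : Real.log ((X : ℝ) ^ 986) ≤ Real.log p :=
          Real.log_le_log (by positivity) (by exact_mod_cast (not_le.1 h2).le)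
        rw [Real.log_pow] at this
        exact_mod_cast this
      have h4 : (m.factorization p : ℝ) ≤
          (m.factorization p : ℝ) * Real.log p / (986 * Real.log X) := by
        rw [le_div_iff₀ (by positivity)]
        exact mul_le_mul_of_nonneg_left h3 (by positivity)
      linarith [wt_nonneg X p]
  have e4 := sum_le_sum e3
  rw [sum_add_distrib, ← sum_div, ← e1, ← e2] at e4
  have e5 := sum_wt X m
  have e6 : Real.log m ≤ 2001 * Real.log X := by
    have : Real.log m ≤ Real.log ((X : ℝ) ^ 2001) :=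
      Real.log_le_log (by exact_mod_cast hm) (by exact_mod_cast hm2)
    rw [Real.log_pow] at this
    exact_mod_cast this
  have e7 : Real.log m / (986 * Real.log X) ≤ 2001 / 986 := by
    rw [div_le_div_iff₀ (by positivity) (by norm_num)]
    nlinarith
  have e8 : (m.primeFactorsList.length : ℝ) < 3 := by linarith
  have e9 : m.primeFactorsList.length < 3 := by exact_mod_cast e8
  omega

end NumP

theorem pNum : S_Num := ⟨NumP.part1, NumP.part2, NumP.part3⟩

end Pool.Agent.P.MP_746f10_nt.P2
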