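import Pool.Agent.P.MP_746f10_nt.P2.Defs
import Pool.Agent.P.MP_746f10_nt.Cel.Red

/-! The reduction to boxes and the uniform theorem from the cell theorem. -/

namespace Pool.Agent.P.MP_746f10_nt.P2

open Finset

theorem pRedG (h : Cel.S_Box) : S_RedG := by
  classical
  intro k K0 hK0
  obtain ⟨C, c, hC, hc, hbox⟩ := h k K0
  set W : ℕ := (k * K0).factorial with hW
  have hWpos : 0 < W := Nat.factorial_pos _
  refine ⟨((W * W : ℕ) : ℝ) ^ k * C, c, by positivity, hc, ?_⟩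
  intro good K F hK hF hgood
  set bad : (Fin k → ℕ × ℕ) → Prop := fun t =>
    (∀ p : ℕ, p.Prime → ∃ n : ℕ, ∀ i, ¬ p ∣ (t i).1 * n + (t i).2) ∧ ¬ good t with hbad
  set E : Finset (Fin k → ℕ × ℕ) := (Fintype.piFinset F).filter bad with hE
  have hset : {t : Fin k → ℕ × ℕ | (∀ i, t i ∈ F i) ∧ bad t} = (E : Set _) := by
    ext t
    simp only [hE, Set.mem_ofPred_eq, coe_filter, Fintype.mem_piFinset]
  change (Set.ncard {t : Fin k → ℕ × ℕ | (∀ i, t i ∈ F i) ∧ bad t} : ℝ) ≤ _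
  rw [hset, Set.ncard_coe_finset]
  by_contra hlt
  rw [not_le] at hlt
  set f : (Fin k → ℕ × ℕ) → Fin k → ℕ × ℕ := fun t i => ((t i).1 % W, (t i).2 % W) with hf
  set T : Finset (Fin k → ℕ × ℕ) := Fintype.piFinset fun _ => range W ×ˢ range W with hT
  have hmap : ∀ t ∈ E, f t ∈ T := by
    intro t _
    simp only [hT, hf, Fintype.mem_piFinset, mem_product, mem_range]
    exact fun i => ⟨Nat.mod_lt _ hWpos, Nat.mod_lt _ hWpos⟩
  have hTc : T.card = (W * W) ^ k := by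
    simp [hT, Fintype.card_piFinset]
  have hlt2 : T.card • (C * (K : ℝ) ^ (-c) * ∏ i, ((F i).card : ℝ)) < (E.card : ℝ) := by
    rw [hTc, nsmul_eq_mul]
    refine lt_of_eq_of_lt ?_ hlt
    push_cast
    ring
  obtain ⟨y, -, hy⟩ := exists_lt_card_fiber_of_nsmul_lt_card_of_maps_to hmap hlt2
  obtain ⟨x, hx, hσ⟩ := hbox (ℕ × ℕ) F (E.filter fun t => f t = y) K hK hF
    (fun t ht i => Fintype.mem_piFinset.1 (mem_filter.1 (mem_filter.1 ht).1).1 i) hy
  have hxF : ∀ σ : Fin k → Fin K0, ∀ i, x (i, σ i) ∈ F i := fun σ i =>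
    Fintype.mem_piFinset.1 (mem_filter.1 (mem_filter.1 (hσ σ)).1).1 i
  have hxb : ∀ σ : Fin k → Fin K0, bad fun i => x (i, σ i) := fun σ =>
    (mem_filter.1 (mem_filter.1 (hσ σ)).1).2
  have hxy : ∀ i s, ((x (i, s)).1 % W, (x (i, s)).2 % W) = y i := fun i s =>
    congrFun (mem_filter.1 (hσ fun _ => s)).2 i
  have hadm : Cel.Adm (fun l => (x l).1) fun l => (x l).2 := by
    intro p hp
    by_cases hpr : p ≤ k * K0
    · have hpW : p ∣ W := Nat.dvd_factorial hp.pos hpr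
      obtain ⟨n, hn⟩ := (hxb fun _ => ⟨0, hK0⟩).1 p hp
      refine ⟨n, fun l hl => hn l.1 ?_⟩
      have e := (hxy l.1 l.2).trans (hxy l.1 ⟨0, hK0⟩).symm
      have e1 : (x l).1 ≡ (x (l.1, ⟨0, hK0⟩)).1 [MOD p] :=
        Nat.ModEq.of_dvd hpW (congrArg Prod.fst e)
      have e2 : (x l).2 ≡ (x (l.1, ⟨0, hK0⟩)).2 [MOD p] :=
        Nat.ModEq.of_dvd hpW (congrArg Prod.snd e)
      exact (((e1.mul_right n).add e2).dvd_iff dvd_rfl).1 hl
    · refine Cel.Red.adm_large _ _ hp (by simpa using hpr) fun l => ?_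
      obtain ⟨n, hn⟩ := (hxb fun _ => l.2).1 p hp
      exact ⟨n, hn l.1⟩
  obtain ⟨σ, hs⟩ := hgood x hx (fun l => hxF (fun _ => l.2) l.1) hadm
  exact (hxb σ).2 hs

theorem pMainU (h1 : S_Norm2) (h2 : S_RedG) (h3 : S_CellU) : S_MainU := by
  intro k
  obtain ⟨K1, K0, u, w0, hK1, hu, hcell⟩ := h3 k
  obtain ⟨A, hA⟩ := h1 (k * K1) K0
  obtain ⟨C, c, hC, hc, hred⟩ := h2 k K1 hK1
  refine ⟨A + 1 + (w0 + A + 1) * u, C, c, hC, hc, fun H K F hH hK hF hb => ?_⟩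
  refine hred (fun t => ∃ n : ℕ, H ≤ n ∧ n ≤ H ^ (A + 1 + (w0 + A + 1) * u) ∧
    ∀ i, ((t i).1 * n + (t i).2).primeFactorsList.length ≤ 2) K F hK hF fun x hx hxF hadm => ?_
  obtain ⟨Δ, n0, v, hΔ, hn0, hΔA, hv, hN⟩ := hA (Fin k × Fin K1) (fun l => (x l).1)
    (fun l => (x l).2) H (by simp) hH (fun l => hb l.1 _ (hxF l)) hadm hx
  obtain ⟨n, hn1, hn2, hP⟩ := hcell _ _ v (max w0 (max (2 * v) H)) hN
    (le_max_of_le_right (le_max_left _ _)) (le_max_left _ _)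
  choose σ hσ using hP
  have hpow : ∀ {i j : ℕ}, i ≤ j → H ^ i ≤ H ^ j := fun h => Nat.pow_le_pow_right (by omega) h
  have hw : max w0 (max (2 * v) H) ≤ H ^ (w0 + A + 1) := by
    refine max_le ?_ (max_le ?_ ?_)
    · exact (Nat.lt_pow_self (by omega : 1 < H)).le.trans (hpow (by omega))
    · refine le_trans ?_ (hpow (by omega : A + 1 ≤ _))
      rw [pow_succ']
      exact Nat.mul_le_mul hH hv
    · exact (pow_one H).symm.le.trans (hpow (by omega))
  refine ⟨σ, Δ * n + n0, ?_, ?_, fun i => ?_⟩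
  · have h4 : H ≤ max w0 (max (2 * v) H) := le_max_of_le_right (le_max_right _ _)
    have h5 := (Nat.le_self_pow (by omega : u ≠ 0) (max w0 (max (2 * v) H))).trans hn1
    have h6 := Nat.le_mul_of_pos_left n hΔ
    omega
  · have h4 : n + 1 ≤ H * H ^ ((w0 + A + 1) * u) := by
      rw [pow_mul]
      exact le_trans hn2 (Nat.mul_le_mul hH (Nat.pow_le_pow_left hw u))
    calc Δ * n + n0 ≤ Δ * (n + 1) := by rw [mul_add, mul_one]; omega
      _ ≤ H ^ A * (H * H ^ ((w0 + A + 1) * u)) := Nat.mul_le_mul hΔA h4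
      _ = _ := by rw [pow_add, pow_add, pow_one, mul_assoc]
  · have h4 := hσ i
    have e : (x (i, σ i)).1 * (Δ * n + n0) + (x (i, σ i)).2 =
        (x (i, σ i)).1 * Δ * n + ((x (i, σ i)).1 * n0 + (x (i, σ i)).2) := by ring
    beta_reduce
    rw [e]
    exact h4

end Pool.Agent.P.MP_746f10_nt.P2
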