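import Pool.Agent.P.MP_746f10_nt.P2.PosB

/-! A box sieve with well factorable support is a nonnegative combination of bilinear divisor
sums. -/

namespace Pool.Agent.P.MP_746f10_nt.P2

open Finset Pool.Agent.P.MP_0ad054_nt.Sun

namespace SvPosP

/-- a well factorable set splits into two parts with prescribed bounds -/
lemma split (D1 D2 : ℕ) (h1 : 1 ≤ D1) (h2 : 1 ≤ D2) (T : Finset ℕ) :
    (∀ p ∈ T, (∏ q ∈ T.filter (fun q => p < q), q) * p ^ 2 ≤ D1 * D2) →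
      ∃ T1 T2 : Finset ℕ, Disjoint T1 T2 ∧ T1 ∪ T2 = T ∧ ∏ q ∈ T1, q ≤ D1 ∧ ∏ q ∈ T2, q ≤ D2 := by
  induction T using Finset.induction_on_min with
  | empty => exact fun _ => ⟨∅, ∅, by simp, by simp, by simpa using h1, by simpa using h2⟩
  | insert p T hp ih =>
    intro h
    have hpT : p ∉ T := fun hh => lt_irrefl _ (hp p hh)
    obtain ⟨T1, T2, hd, hu, hT1, hT2⟩ := ih fun q hq => by
      have := h q (mem_insert_of_mem hq)
      rwa [filter_insert, if_neg (not_lt.2 (hp q hq).le)] at this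
    have h3 := h p (mem_insert_self _ _)
    rw [filter_insert, if_neg (lt_irrefl p), filter_true_of_mem hp, ← hu, prod_union hd] at h3
    have hp1 : p ∉ T1 := fun hh => hpT (hu ▸ mem_union_left _ hh)
    have hp2 : p ∉ T2 := fun hh => hpT (hu ▸ mem_union_right _ hh)
    by_cases h4 : p * ∏ q ∈ T1, q ≤ D1
    · refine ⟨insert p T1, T2, disjoint_insert_left.2 ⟨hp2, hd⟩, by rw [insert_union, hu], ?_, hT2⟩
      rwa [prod_insert hp1]
    · refine ⟨T1, insert p T2, disjoint_insert_right.2 ⟨hp1, hd⟩, by rw [union_insert, hu], hT1, ?_⟩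
      rw [prod_insert hp2]
      by_contra h5
      have h6 : D1 * D2 < (p * ∏ q ∈ T1, q) * (p * ∏ q ∈ T2, q) :=
        Nat.mul_lt_mul'' (not_le.1 h4) (not_le.1 h5)
      have h7 : (p * ∏ q ∈ T1, q) * (p * ∏ q ∈ T2, q) =
          (∏ q ∈ T1, q) * (∏ q ∈ T2, q) * p ^ 2 := by ring
      omega

/-- the number of small subsets -/
lemma card_small (P : Finset ℕ) (j : ℕ) :
    (P.powerset.filter fun T => T.card ≤ j).card ≤ (P.card + 1) ^ j := by
  induction j with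
  | zero =>
    rw [pow_zero, card_le_one]
    intro a ha b hb
    rw [card_eq_zero.1 (Nat.le_zero.1 (mem_filter.1 ha).2),
      card_eq_zero.1 (Nat.le_zero.1 (mem_filter.1 hb).2)]
  | succ j ih =>
    have hs : (P.powerset.filter fun T => T.card ≤ j + 1) ⊆
        (P.powerset.filter fun T => T.card ≤ j) ∪
          image₂ insert P (P.powerset.filter fun T => T.card ≤ j) := by
      intro T hT
      obtain ⟨h1, h2⟩ := mem_filter.1 hT
      rcases T.eq_empty_or_nonempty with rfl | ⟨a, ha⟩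
      · exact mem_union_left _ (mem_filter.2 ⟨h1, by simp⟩)
      · refine mem_union_right _ (mem_image₂.2 ⟨a, mem_powerset.1 h1 ha, T.erase a,
          mem_filter.2 ⟨mem_powerset.2 ((erase_subset _ _).trans (mem_powerset.1 h1)), ?_⟩,
          insert_erase ha⟩)
        rw [card_erase_of_mem ha]; omega
    calc _ ≤ _ := card_le_card hs
      _ ≤ _ := card_union_le _ _
      _ ≤ (P.card + 1) ^ j + P.card * (P.card + 1) ^ j :=
        add_le_add ih ((card_image₂_le _ _ _).trans (Nat.mul_le_mul_left _ ih))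
      _ = (P.card + 1) ^ (j + 1) := by ring

/-- sums over a product set -/
lemma sum_mulset {U V : Finset ℕ} (hU : ∀ u ∈ U, 1 ≤ u) (hc : ∀ u ∈ U, ∀ v ∈ V, u.Coprime v)
    (f : ℕ → ℝ) : ∑ w ∈ image₂ (fun u v => u * v) U V, f w = ∑ u ∈ U, ∑ v ∈ V, f (u * v) := by
  rw [← image_uncurry_product, sum_image, sum_product]
  · rfl
  · rintro ⟨u, v⟩ h1 ⟨u', v'⟩ h2 h3
    obtain ⟨hu, hv⟩ := mem_product.1 (mem_coe.1 h1)
    obtain ⟨hu', hv'⟩ := mem_product.1 (mem_coe.1 h2)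
    have h4 : u * v = u' * v' := h3
    have h5 : u = u' := Nat.dvd_antisymm
      ((hc u hu v' hv').dvd_of_dvd_mul_right (h4 ▸ dvd_mul_right u v))
      ((hc u' hu' v hv).dvd_of_dvd_mul_right (h4 ▸ dvd_mul_right u' v'))
    subst h5
    rw [Nat.eq_of_mul_eq_mul_left (hU u hu) h4]

lemma bil_eq {U V : Finset ℕ} (hc : ∀ u ∈ U, ∀ v ∈ V, u.Coprime v) (m : ℕ) :
    bil U V m = cdv U m * cdv V m := by
  rw [bil, cdv, cdv, sum_mul_sum]
  refine sum_congr rfl fun u hu => sum_congr rfl fun v hv => ?_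
  by_cases h1 : u ∣ m
  · by_cases h2 : v ∣ m
    · rw [if_pos h1, if_pos h2, if_pos ((hc u hu v hv).mul_dvd_of_dvd_of_dvd h1 h2), mul_one]
    · rw [if_neg h2, if_neg fun h => h2 (dvd_of_mul_left_dvd h), mul_zero]
  · rw [if_neg h1, if_neg fun h => h1 (dvd_of_mul_right_dvd h), zero_mul]

lemma cdv_mulset {U V : Finset ℕ} (hU : ∀ u ∈ U, 1 ≤ u) (hc : ∀ u ∈ U, ∀ v ∈ V, u.Coprime v)
    (m : ℕ) : cdv (image₂ (fun u v => u * v) U V) m = cdv U m * cdv V m := by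
  rw [← bil_eq hc, cdv, sum_mulset hU hc, bil]

lemma ms_mulset {U V : Finset ℕ} (hU : ∀ u ∈ U, 1 ≤ u) (hc : ∀ u ∈ U, ∀ v ∈ V, u.Coprime v) :
    ms (image₂ (fun u v => u * v) U V) = ms U * ms V := by
  rw [ms, sum_mulset hU hc, ms, ms, sum_mul_sum]
  refine sum_congr rfl fun u _ => sum_congr rfl fun v _ => ?_
  rw [Nat.cast_mul, one_div_mul_one_div]

lemma le_lb (h : S_Bx) {r z p : ℕ} (hp : p ≤ z) : p ≤ lb r z p := le_min hp (h.1 r p).2.1

/-- the products of one prime from each box with label in `T` -/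
lemma prods (h : S_Bx) (r R z : ℕ) (T : Finset ℕ) : ∃ W : Finset ℕ,
    (∀ w ∈ W, 1 ≤ w ∧ w ≤ ∏ l ∈ T, l ∧ ∀ p : ℕ, p.Prime → p ∣ w → R < p ∧ p ≤ z ∧ lb r z p ∈ T) ∧
    (∀ m, cdv W m = ∏ l ∈ T, xb r R z m l) ∧ ms W = ∏ l ∈ T, gb r R z l := by
  induction T using Finset.induction_on with
  | empty =>
    refine ⟨{1}, fun w hw => ?_, fun m => by rw [cdv_one, prod_empty], by rw [ms_one, prod_empty]⟩
    rw [mem_singleton.1 hw]
    exact ⟨le_rfl, by simp, fun p hp hd => absurd (Nat.dvd_one.1 hd) hp.one_lt.ne'⟩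
  | insert l T hl ih =>
    obtain ⟨W, h1, h2, h3⟩ := ih
    have hb : ∀ u ∈ bx r R z l, R < u ∧ u ≤ z ∧ u.Prime ∧ lb r z u = l := fun u hu => by
      obtain ⟨h4, h5⟩ := mem_filter.1 hu
      obtain ⟨h6, h7, h8⟩ := mem_PP.1 h4
      exact ⟨h6, h7, h8, h5⟩
    have hU : ∀ u ∈ bx r R z l, 1 ≤ u := fun u hu => (hb u hu).2.2.1.pos
    have hc : ∀ u ∈ bx r R z l, ∀ v ∈ W, u.Coprime v := fun u hu v hv =>
      (Nat.Prime.coprime_iff_not_dvd (hb u hu).2.2.1).2 fun hd =>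
        hl ((hb u hu).2.2.2 ▸ ((h1 v hv).2.2 u (hb u hu).2.2.1 hd).2.2)
    refine ⟨image₂ (fun u v => u * v) (bx r R z l) W, fun w hw => ?_, fun m => ?_, ?_⟩
    · obtain ⟨u, hu, v, hv, rfl⟩ := mem_image₂.1 hw
      obtain ⟨h4, h5, h6, h7⟩ := hb u hu
      refine ⟨Nat.mul_pos h6.pos (h1 v hv).1, ?_, fun p hp hd => ?_⟩
      · rw [prod_insert hl]
        exact Nat.mul_le_mul (h7 ▸ le_lb h h5) (h1 v hv).2.1
      · rcases hp.dvd_mul.1 hd with h8 | h8
        · rw [(Nat.prime_dvd_prime_iff_eq hp h6).1 h8]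
          exact ⟨h4, h5, h7 ▸ mem_insert_self _ _⟩
        · obtain ⟨h9, h10, h11⟩ := (h1 v hv).2.2 p hp h8
          exact ⟨h9, h10, mem_insert_of_mem h11⟩
    · rw [cdv_mulset hU hc, prod_insert hl, h2, xb]
    · rw [ms_mulset hU hc, prod_insert hl, h3, gb]

/-- one term of the sieve -/
lemma term (h : S_Bx) {r R X z top D1 : ℕ} {Q T1 T2 : Finset ℕ} (hRz : R ≤ z) (hQ : Lv z top Q)
    (htop : top * D1 ≤ X ^ 994) (hd : Disjoint T1 T2) (h1 : ∏ q ∈ T1, q ≤ D1)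
    (h2 : ∏ q ∈ T2, q ≤ X ^ 102) :
    Pos R X (fun m => cdv Q m * ∏ l ∈ T1 ∪ T2, xb r R z m l)
      (ms Q * ∏ l ∈ T1 ∪ T2, gb r R z l) 1 := by
  obtain ⟨W1, a1, a2, a3⟩ := prods h r R z T1
  obtain ⟨W2, b1, b2, b3⟩ := prods h r R z T2
  have hU : ∀ u ∈ Q, 1 ≤ u := fun u hu => (hQ u hu).1
  have hc : ∀ u ∈ Q, ∀ v ∈ W1, u.Coprime v := fun u hu v hv =>
    Nat.coprime_of_dvd fun p hp c1 c2 =>
      absurd ((a1 v hv).2.2 p hp c2).2.1 (not_le.2 ((hQ u hu).2.2 p hp c1))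
  have hc' : ∀ u ∈ image₂ (fun u v => u * v) Q W1, ∀ v ∈ W2, u.Coprime v := fun w hw v' hv' => by
    obtain ⟨u, hu, v, hv, rfl⟩ := mem_image₂.1 hw
    refine Nat.coprime_of_dvd fun p hp c1 c2 => ?_
    obtain ⟨-, c3, c4⟩ := (b1 v' hv').2.2 p hp c2
    rcases hp.dvd_mul.1 c1 with c5 | c5
    · exact absurd c3 (not_le.2 ((hQ u hu).2.2 p hp c5))
    · exact disjoint_left.1 hd ((a1 v hv).2.2 p hp c5).2.2 c4
  have hA : Lv R (X ^ 994) (image₂ (fun u v => u * v) Q W1) := fun w hw => by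
    obtain ⟨u, hu, v, hv, rfl⟩ := mem_image₂.1 hw
    refine ⟨Nat.mul_pos (hU u hu) (a1 v hv).1,
      (Nat.mul_le_mul (hQ u hu).2.1 ((a1 v hv).2.1.trans h1)).trans htop, fun p hp c1 => ?_⟩
    rcases hp.dvd_mul.1 c1 with c5 | c5
    · exact hRz.trans_lt ((hQ u hu).2.2 p hp c5)
    · exact ((a1 v hv).2.2 p hp c5).1
  have hB : Lv R (X ^ 102) W2 := fun w hw =>
    ⟨(b1 w hw).1, (b1 w hw).2.1.trans h2, fun p hp c1 => ((b1 w hw).2.2 p hp c1).1⟩
  refine (Pos.basic hA hB).congr (fun m => ?_) ?_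
  · rw [bil_eq hc', cdv_mulset hU hc, a2, b2, prod_union hd, mul_assoc]
  · rw [ms_mulset hU hc, a3, b3, prod_union hd, mul_assoc]

end SvPosP

open SvPosP in
theorem pSvPos (h : S_Bx) : S_SvPos := by
  intro r R X z top D1 j P Q lam hR hRz hX hD1 hP hlam hQ htop hWF hj
  have key : ∀ T ∈ P.powerset.filter (fun T => lam T ≠ 0), T.card ≤ j ∧
      Pos R X (fun m => lam T * (cdv Q m * ∏ l ∈ T, xb r R z m l))
        (lam T * (ms Q * ∏ l ∈ T, gb r R z l)) 1 := by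
    intro T hT
    obtain ⟨h1, h2⟩ := mem_filter.1 hT
    have h3 := mem_powerset.1 h1
    obtain ⟨T1, T2, hd, hu, c1, c2⟩ := split D1 (X ^ 102) hD1 (Nat.one_le_pow _ _ hX) T
      fun p hp => by
        have c0 := hWF T h3 h2 p hp
        rw [← Nat.cast_prod, ← Nat.cast_pow, ← Nat.cast_mul] at c0
        exact Nat.cast_le.1 c0
    constructor
    · have c3 : R ^ T.card ≤ ∏ l ∈ T, l := pow_card_le_prod _ _ _ fun l hl => by
        obtain ⟨p, hp, rfl⟩ := mem_image.1 (hP (h3 hl))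
        obtain ⟨c4, c5, -⟩ := mem_PP.1 hp
        exact c4.le.trans (le_lb h c5)
      have c4 : ∏ l ∈ T, l ≤ D1 * X ^ 102 := by
        rw [← hu, prod_union hd]; exact Nat.mul_le_mul c1 c2
      exact (Nat.pow_le_pow_iff_right (by omega)).1 (c3.trans (c4.trans hj))
    · subst hu
      exact ((term h hRz hQ htop hd c1 c2).smul (hlam _).1).mono (by rw [mul_one]; exact (hlam _).2)
  refine ((Pos.sum _ fun T hT => (key T hT).2).congr (fun m => ?_) ?_).mono ?_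
  · rw [Sf, mul_sum, sum_filter_of_ne fun T _ hT => left_ne_zero_of_mul hT]
    exact sum_congr rfl fun T _ => by ring
  · rw [Sf, mul_sum, sum_filter_of_ne fun T _ hT => left_ne_zero_of_mul hT]
    exact sum_congr rfl fun T _ => by ring
  · rw [sum_const, nsmul_eq_mul, mul_one]
    have c1 : (P.powerset.filter fun T => lam T ≠ 0).card ≤ (P.card + 1) ^ j :=
      (card_le_card fun T hT => mem_filter.2 ⟨(mem_filter.1 hT).1, (key T hT).1⟩).trans
        (card_small P j)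
    exact_mod_cast c1

end Pool.Agent.P.MP_746f10_nt.P2
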