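import Pool.Agent.P.MP_746f10_nt.P2.Fin
import Pool.Agent.P.MP_746f10_nt.P2.Det
import Pool.Agent.P.MP_746f10_nt.P2.Lin2
import Pool.Agent.P.MP_746f10_nt.P2.FL2
import Pool.Agent.P.MP_746f10_nt.P2.DimB
import Pool.Agent.P.MP_746f10_nt.P2.SvPos
import Pool.Agent.P.MP_746f10_nt.P2.Bad
import Pool.Agent.P.MP_746f10_nt.P2.Num
import Pool.Agent.P.MP_746f10_nt.P2.Fou
import Pool.Agent.P.MP_746f10_nt.P2.IK
import Pool.Agent.P.MP_746f10_nt.P2.KB1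
import Pool.Agent.P.MP_746f10_nt.P2.KB2
import Pool.Agent.P.MP_746f10_nt.P2.KBox
import Pool.Agent.P.MP_746f10_nt.P2.KL1
import Pool.Agent.P.MP_746f10_nt.P2.KLm
import Pool.Agent.P.MP_746f10_nt.P2.HC1
import Pool.Agent.P.MP_746f10_nt.P2.HC2
import Pool.Agent.P.MP_746f10_nt.P2.Norm2
import Pool.Agent.P.MP_746f10_nt.P2.Red2
import Pool.Agent.P.MP_746f10_nt.Cel.Box
import Pool.Agent.P.MP_746f10_nt.Cel.JJP
import Pool.Agent.P.MP_79de8b_nt.KL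
import Pool.Agent.P.MP_79de8b_nt.Weil
import Pool.Agent.P.MP_79de8b_nt.W1
import Pool.Agent.P.MP_79de8b_nt.W2
import Pool.Agent.P.MP_79de8b_nt.W3
import Pool.Agent.P.MP_79de8b_nt.PP0
import Pool.Agent.P.MP_79de8b_nt.KM

/-! Assembly. -/

namespace Pool.Agent.P.MP_746f10_nt.P2

theorem det_all : S_Det := pDet (pLin2 pFL2) (pDimB pBx) (pSvPos pBx) pBad pNum

theorem hc2_all : S_HC2 :=
  pHC2 (pKLm pBx (pKBox pFou (pKB1 (pIK pFou
    (MR.kL (MR.weil MR.w1 (MR.w3 MR.w2)) MR.pp0 MR.km))) pKB2) pKL1)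

theorem mainU_all : S_MainU :=
  pMainU pNorm2 (pRedG Cel.pBox) (pCellU det_all pHC1 hc2_all Cel.pJJ)

end Pool.Agent.P.MP_746f10_nt.P2
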