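import Pool.Agent.P.MP_746f10_nt.P2.Fin
import Pool.Agent.P.MP_746f10_nt.Cel.Abs

/-! Primes in many cells and almost primes in every cell at the same point. -/

set_option linter.unusedSectionVars false

namespace Pool.Agent.P.MP_746f10_nt.P2

open Finset Filter Cel Cel.Fin'

namespace CelI

open Classical in
lemma absI {m M K : ℕ} {Ω : Finset ℕ} {W : ℕ → ℝ} {μ : Fin M × Fin K → ℕ → ℝ} {l α α' β γ : ℝ}
    (good : ℕ → Prop) (hW : ∀ n ∈ Ω, 0 ≤ W n) (hμ : ∀ x, ∀ n ∈ Ω, 0 ≤ μ x n ∧ μ x n ≤ l)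
    (hl : 0 < l) (hβ : 0 < β) (hγ : 0 ≤ γ) (hα : ∑ n ∈ Ω, W n ≤ α)
    (hα' : ∑ n ∈ Ω.filter (fun n => ¬ good n), W n ≤ α') (h1 : ∀ x, β ≤ ∑ n ∈ Ω, μ x n * W n)
    (h2 : ∀ x y, x ≠ y → ∑ n ∈ Ω, μ x n * (if μ y n ≠ 0 then 1 else 0) * W n ≤ γ)
    (h : (m * α + M * α') * l * (β + K * γ) < M * K * β ^ 2) :
    ∃ n ∈ Ω, good n ∧ ∃ I : Finset (Fin M), m < I.card ∧ ∀ i ∈ I, ∃ s, μ (i, s) n ≠ 0 := by
  by_contra! hc
  have hd : 0 ≤ l * (β + K * γ) := by positivity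
  have a1 : ∑ i : Fin M, ∑ n ∈ Ω, (if ∃ s, μ (i, s) n ≠ 0 then 1 else 0) * W n ≤
      m * α + M * α' := by
    rw [sum_comm]
    refine le_trans ?_ (add_le_add (mul_le_mul_of_nonneg_left hα m.cast_nonneg)
      (mul_le_mul_of_nonneg_left hα' M.cast_nonneg))
    rw [mul_sum, mul_sum, sum_filter, ← sum_add_distrib]
    refine sum_le_sum fun n hn => ?_
    rw [← sum_mul, sum_boole]
    have h0 := hW n hn
    by_cases hg : good n
    · rw [if_neg (not_not.2 hg), add_zero]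
      refine mul_le_mul_of_nonneg_right (Nat.cast_le.mpr (le_of_not_gt fun hm => ?_)) h0
      obtain ⟨i, hi, hs⟩ := hc n hn hg _ hm
      obtain ⟨s, hs'⟩ := (mem_filter.mp hi).2
      exact hs' (hs s)
    · rw [if_pos hg]
      refine le_add_of_nonneg_of_le (by positivity) (mul_le_mul_of_nonneg_right
        (Nat.cast_le.mpr ((card_filter_le _ _).trans_eq (by simp))) h0)
  have a2 := card_nsmul_le_sum univ _ _ fun (i : Fin M) _ =>
    Abs.cell (μ := fun s => μ (i, s)) hW (fun s => hμ _) hl hβ hγ (fun s => h1 _) fun s t e => by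
      convert h2 (i, s) (i, t) fun e' => e (Prod.ext_iff.mp e').2
  rw [← mul_sum, card_univ, Fintype.card_fin, nsmul_eq_mul] at a2
  have a3 := a2.trans (mul_le_mul_of_nonneg_left (by convert a1) hd)
  linarith

lemma num0 {m M t : ℝ} (t0 : 0 < t) (hm : 0 ≤ m) (hM : 4 * m + 1 ≤ M) (h : 120 * M ^ 2 * t ≤ 1) :
    (m * (1 + 2 * t) + M * ((12 * M + 5) * t)) * (t + (1 + 2 * t) * (4 + t)) <
      M * (1 - 3 * t) ^ 2 := by
  have h0 : M ≤ M ^ 2 := by nlinarith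
  have h5 : M * t ≤ M ^ 2 * t := by gcongr
  have h6 : t ≤ M * t := le_mul_of_one_le_left t0.le (by linarith)
  have h7 : m * t ≤ M * t := by gcongr; linarith
  have h2 : t + (1 + 2 * t) * (4 + t) ≤ 4 + 11 * t := by nlinarith
  have h3 : m * (1 + 2 * t) + M * ((12 * M + 5) * t) ≤ m + 19 * (M ^ 2 * t) := by nlinarith
  have h4 : M * (1 - 6 * t) ≤ M * (1 - 3 * t) ^ 2 :=
    mul_le_mul_of_nonneg_left (by nlinarith) (by linarith)
  have h8 : M ^ 2 * t * t ≤ M ^ 2 * t * (1 / 100) := by gcongr; linarith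
  calc _ ≤ (m + 19 * (M ^ 2 * t)) * (4 + 11 * t) := by gcongr
    _ < _ := by nlinarith

lemma num {m M K x κ a1 a2 D G l t : ℝ} (t0 : 0 < t) (hm : 0 ≤ m) (hM : 4 * m + 1 ≤ M)
    (h : 120 * M ^ 2 * t ≤ 1) (hK : 0 < K) (hx : 0 < x) (hκ : 0 < κ) (h1 : 0 < a1) (h2 : 0 < a2)
    (hD : 0 < D) (hG : 0 < G) (hl : 0 < l) (c1 : a2 * l ≤ t * K * κ * a1)
    (c2 : l ≤ (4 + t) * κ * G) :
    (m * (x * (a2 ^ 2 * D * (1 + 2 * t))) + M * ((12 * M + 5) * t * (x * (a2 ^ 2 * D)))) * l *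
      (x * κ * (a1 * a2 * D * (1 - 3 * t)) + K * (x * κ * (a1 ^ 2 * D * (1 + 2 * t)) / G)) <
      M * K * (x * κ * (a1 * a2 * D * (1 - 3 * t))) ^ 2 := by
  have hM0 : 0 < M := by linarith
  have b1 : l * (a1 * a2 * D * (1 - 3 * t)) ≤ K * κ * a1 ^ 2 * D * t := by
    calc _ ≤ l * (a1 * a2 * D * 1) := by gcongr; linarith
      _ = a2 * l * (a1 * D) := by ring
      _ ≤ t * K * κ * a1 * (a1 * D) := by gcongr
      _ = _ := by ring
  have b2 : l / G ≤ (4 + t) * κ := by rwa [div_le_iff₀ hG]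
  calc _ = (m * (1 + 2 * t) + M * ((12 * M + 5) * t)) * (x ^ 2 * κ * a2 ^ 2 * D) *
        (l * (a1 * a2 * D * (1 - 3 * t)) + K * (a1 ^ 2 * D * (1 + 2 * t)) * (l / G)) := by ring
    _ ≤ (m * (1 + 2 * t) + M * ((12 * M + 5) * t)) * (x ^ 2 * κ * a2 ^ 2 * D) *
        (K * κ * a1 ^ 2 * D * t + K * (a1 ^ 2 * D * (1 + 2 * t)) * ((4 + t) * κ)) := by gcongr
    _ = K * (x * κ * (a1 * a2 * D)) ^ 2 * ((m * (1 + 2 * t) + M * ((12 * M + 5) * t)) *
        (t + (1 + 2 * t) * (4 + t))) := by ring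
    _ < K * (x * κ * (a1 * a2 * D)) ^ 2 * (M * (1 - 3 * t) ^ 2) :=
        mul_lt_mul_of_pos_left (num0 t0 hm hM h) (by positivity)
    _ = _ := by ring

open Classical in
lemma core (hJ : S_JJ) (hP : S_Pair) (hM : S_Mst) {m M K : ℕ} (hm : 4 * m < M)
    {a b : Fin M × Fin K → ℕ} {K0 v k w s M1 e1 L u q J : ℕ} {ε Θ : ℝ}
    (h : Sc a b K0 v k w s M1 e1 L u ε Θ (1 / (q * 4 ^ k))) (hK : 0 < K)
    (sv : SieveW (GP a w) (w ^ s) (k + 3) ε) (hq : q = 120 * M ^ 2) (h1 : 4 * 2 ^ J ≤ M1)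
    (h2 : 4 * q * k * (J + 1) * CM ≤ M1) (h3 : q * (u + 1) ≤ (4 * q + 1) * e1)
    (h4 : (u + 1 : ℝ) ≤ 1 / q * K * ((J + 1) ^ 2 * s / (8 * CM)))
    (h6 : ∑ n ∈ (Ico (w ^ u) (2 * w ^ u)).filter (fun n => ¬ AllP2 a b n),
      WW a b w s J (w ^ (s * M1)) n ≤ (12 * M + 1) * (1 / q) *
        ((w : ℝ) ^ u * Vk a w * a2 w s J (w ^ (s * M1)) ^ k))
    (h7 : (w : ℝ) ^ u * Vk a w * (JJ w s J (w ^ (s * M1)) (univ : Finset (Fin M × Fin K)) -
      2 * (1 / q) * a2 w s J (w ^ (s * M1)) ^ k) ≤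
      ∑ n ∈ Ico (w ^ u) (2 * w ^ u), WW a b w s J (w ^ (s * M1)) n) :
    ∃ n, w ^ u ≤ n ∧ AllP2 a b n ∧ Many m a b n := by
  have hw := h.hw
  have hM0 : 1 ≤ M ^ 2 := Nat.one_le_pow _ _ (by omega)
  have hq0 : (120 : ℝ) ≤ q := by exact_mod_cast (by omega : 120 ≤ q)
  have hCM := one_le_CM
  obtain ⟨k', rfl⟩ : ∃ k', k = k' + 2 := ⟨k - 2, by have := h.hk3; omega⟩
  set R := w ^ (s * M1) with hR
  set t : ℝ := 1 / q with ht
  have t0 : 0 < t := by positivity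
  have t1 : 120 * (M : ℝ) ^ 2 * t ≤ 1 := by
    rw [ht, mul_one_div, div_le_one (by positivity), hq]; push_cast; rfl
  have t2 : t ≤ 1 / 120 := by rw [ht]; gcongr
  have hη : (1 : ℝ) / (q * 4 ^ (k' + 2)) = t * (1 / 4) ^ (k' + 2) := by
    rw [ht, one_div_pow]; field_simp
  have hR1 : 1 ≤ R := Nat.one_le_pow _ _ (by omega)
  have hRs : w ^ (s * 2 ^ J) ≤ R :=
    Nat.pow_le_pow_right (by omega) (Nat.mul_le_mul_left _ (by omega))
  have A2 := a2_pos (w := w) (by omega) h.hs J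
    (show w ^ s ≤ R from Nat.pow_le_pow_right (by omega) (Nat.le_mul_of_pos_right _ h.hM))
  have hg := gain (w := w) (J := J) (by omega) h.hs hRs
  have lw : 0 < Real.log w := Real.log_pos (by exact_mod_cast (by omega : 1 < w))
  have hV := VV_pos w
  have hs' : (0 : ℝ) < s := by exact_mod_cast h.hs
  have A1 : 0 < a1 w s J R ^ 2 := lt_of_lt_of_le (by positivity) hg
  set α1 := a1 w s J R ^ 2
  set α2 := a2 w s J R
  have four : ∀ I : Finset (Fin M × Fin K), (1 / 4 : ℝ) ^ (k' + 2) ≤ JJ w s J R I :=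
    fun I => h.hk ▸ JJ_ge_four (by omega) s J hR1 I
  have j0 : JJ w s J R (univ : Finset (Fin M × Fin K)) ≤ α2 ^ 2 * α2 ^ k' := by
    refine (JJ_le _ _ _ _ _).trans (le_of_eq ?_)
    rw [compl_univ, card_empty, card_univ, h.hk]; ring
  have c1 : ∀ x : Fin M × Fin K, ({x}ᶜ : Finset _).card = k' + 1 := fun x => by
    rw [card_compl, h.hk, card_singleton]; omega
  have j1 : ∀ x : Fin M × Fin K, JJ w s J R ({x}ᶜ : Finset _) ≤ α1 * α2 * α2 ^ k' :=
    fun x => by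
    refine (JJ_le _ _ _ _ _).trans (le_of_eq ?_)
    rw [compl_compl, card_singleton, c1]; ring
  have j1' : ∀ x : Fin M × Fin K,
      (1 - t) * (α1 * α2 * α2 ^ k') ≤ JJ w s J R ({x}ᶜ : Finset _) := fun x => by
    refine le_trans (le_of_eq ?_) (hJ _ w s J M1 q {x}ᶜ (by omega) h.hs (by omega) (by simp) h1
      (by rw [h.hk]; exact h2))
    rw [compl_compl, card_singleton, c1]; ring
  have j2 : ∀ x y : Fin M × Fin K, x ≠ y →
      JJ w s J R ({x, y}ᶜ : Finset _) ≤ α1 ^ 2 * α2 ^ k' := fun x y hxy => by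
    refine (JJ_le _ _ _ _ _).trans (le_of_eq ?_)
    rw [compl_compl, card_compl, card_pair hxy, h.hk]; rfl
  have hx : 0 < (w : ℝ) ^ u * Vk a w := by have := h.Vpos; positivity
  have hκ : 0 < (VV w)⁻¹ := inv_pos.2 hV
  have hG := one_le_hh w (w ^ e1) (show 1 ≤ w ^ e1 from Nat.one_le_pow _ _ (by omega))
  have e0 := h.est0 hM sv J
  have n0 := mul_le_mul_of_nonneg_left ((four univ).trans j0) t0.le
  rw [show α2 ^ (k' + 2) = α2 ^ 2 * α2 ^ k' by ring] at h6 h7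
  obtain ⟨n, hn, hn', I, hI, hI'⟩ := absI (m := m) (Ω := Ico (w ^ u) (2 * w ^ u))
    (W := fun n => sv.U (fun p => ev a b univ p n) * Fw a b w s J R univ n ^ 2)
    (μ := fun x n => th (a x * n + b x)) (l := (u + 1) * Real.log w)
    (α := w ^ u * Vk a w * (α2 ^ 2 * α2 ^ k' * (1 + 2 * t)))
    (α' := (12 * M + 5) * t * (w ^ u * Vk a w * (α2 ^ 2 * α2 ^ k')))
    (β := w ^ u * Vk a w * (VV w)⁻¹ * (α1 * α2 * α2 ^ k' * (1 - 3 * t)))
    (γ := w ^ u * Vk a w * (VV w)⁻¹ * (α1 ^ 2 * α2 ^ k' * (1 + 2 * t)) / hh w (w ^ e1) (w ^ e1))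
    (AllP2 a b)
    (fun n _ => mul_nonneg (sv.U_nonneg fun p _ => ⟨ev_nonneg _ _ _, ev_le_one _ _ _⟩) (sq_nonneg _))
    (fun x n hn => ⟨th_nonneg _, h.th_le hn x⟩) (by positivity)
    (by have : 0 < 1 - 3 * t := by linarith
        positivity) (by positivity)
    (e0.trans (mul_le_mul_of_nonneg_left (by rw [hη]; linarith) hx.le))
    (by
      have b1 : ∑ n ∈ (Ico (w ^ u) (2 * w ^ u)).filter (fun n => ¬ AllP2 a b n),
          (sv.U (fun p => ev a b univ p n) * Fw a b w s J R univ n ^ 2 - WW a b w s J R n) ≤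
          ∑ n ∈ Ico (w ^ u) (2 * w ^ u),
          (sv.U (fun p => ev a b univ p n) * Fw a b w s J R univ n ^ 2 - WW a b w s J R n) :=
        sum_le_sum_of_subset_of_nonneg (filter_subset _ _) fun n _ _ => sub_nonneg.2
          (mul_le_mul_of_nonneg_right (sv.le_up _ fun p _ => ⟨ev_nonneg _ _ _, ev_le_one _ _ _⟩)
            (sq_nonneg _))
      rw [sum_sub_distrib, sum_sub_distrib] at b1
      have b2 := mul_le_mul_of_nonneg_left n0 hx.le
      rw [hη] at e0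
      linarith)
    (fun x => le_trans (mul_le_mul_of_nonneg_left (by
      have := mul_le_mul_of_nonneg_left ((four {x}ᶜ).trans (j1 x)) t0.le
      have := j1' x
      rw [hη]; linarith) (by positivity)) (h.est1 hM sv J x))
    (fun x y hxy => (h.est2 hM hP sv J hxy).trans (div_le_div_of_nonneg_right
      (mul_le_mul_of_nonneg_left (by
        have := mul_le_mul_of_nonneg_left ((four {x, y}ᶜ).trans (j2 x y hxy)) t0.le
        have := j2 x y hxy
        rw [hη]; linarith) (by positivity)) (by linarith)))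
    (by
      refine num t0 (Nat.cast_nonneg m) (by exact_mod_cast hm) t1 (by exact_mod_cast hK) hx hκ A1 A2
        (by positivity) (by linarith) (by positivity) ?_ ?_
      · calc _ ≤ α2 * (t * K * ((J + 1) ^ 2 * s / (8 * CM)) * Real.log w) := by gcongr
          _ = t * K * (VV w)⁻¹ * ((J + 1) ^ 2 * (VV w * Real.log w * s) / (8 * CM) * α2) := by
              field_simp
          _ ≤ _ := by gcongr
      · have h5 : (u + 1 : ℝ) ≤ (4 + t) * e1 := by
          have : (q : ℝ) * (u + 1) ≤ (4 * q + 1) * e1 := by exact_mod_cast h3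
          refine le_of_mul_le_mul_left (this.trans_eq ?_) (show (0 : ℝ) < q by linarith)
          rw [ht]; field_simp
        calc _ ≤ (4 + t) * e1 * Real.log w := by gcongr
          _ = (4 + t) * (VV w)⁻¹ * (VV w * Real.log w * e1) := by field_simp
          _ ≤ _ := by gcongr; exact hh_pow_ge (by omega) le_rfl)
  exact ⟨n, (mem_Ico.1 hn).1, hn', I, hI, fun i hi => (hI' i hi).imp fun _ => prime_of_th⟩

end CelI

theorem cellI (hD : S_Det) (hH : S_HC1) (hH2 : S_HC2) (hE : S_Err) (hE0 : S_Err0) (hJ : S_JJ)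
    (hP : S_Pair) (hM : S_Mst) {m M : ℕ} (hm : 4 * m < M) : ∃ K K0 : ℕ, 0 < K ∧
    ∀ (a b : Fin M × Fin K → ℕ) (v : ℕ), Nrm a b K0 v →
      ∀ N, ∃ n, N ≤ n ∧ AllP2 a b n ∧ Many m a b n := by
  obtain ⟨q0, hq0⟩ : ∃ q0, q0 = 120 * M ^ 2 := ⟨_, rfl⟩
  have hM0 : 1 ≤ M ^ 2 := Nat.one_le_pow _ _ (by omega)
  obtain ⟨K, k, J, s', M1, q, m', c0, u, w0', hK4, hk, hs, hq, hc0, g1, g2, hu, g3, g4, hk0, g5⟩ :=
    params hD hH hH2 hJ M q0 (by omega) (by omega)
  have hCM := one_le_CM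
  have hKk : K ≤ k := hk ▸ Nat.le_mul_of_pos_left _ (by omega)
  refine ⟨K, 2 * (k + 3), by omega, fun a b v hN N => ?_⟩
  have hcard : Fintype.card (Fin M × Fin K) = k := by simp [hk]
  have : Nonempty (Fin M × Fin K) := Fintype.card_pos_iff.1 (by omega)
  have hM1 : 1 ≤ M1 := le_trans (Nat.one_le_iff_ne_zero.2 (by positivity)) g1
  have hsM : 2 * s' ≤ 2 * s' * M1 := Nat.le_mul_of_pos_right _ hM1
  have hqr : 2 * s' * M1 ≤ q * (2 * s' * M1) := Nat.le_mul_of_pos_left _ (by omega)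
  obtain ⟨e1, he1⟩ : ∃ e1, 500 * (q * (2 * s' * M1)) = 2 * s' * M1 + s' + 1 + e1 :=
    Nat.exists_eq_add_of_le (by omega)
  obtain ⟨s, hs2⟩ : ∃ s, s = 2 * s' := ⟨_, rfl⟩
  rw [← hs2] at hu g3 hk0 g5 he1 hsM hqr
  obtain ⟨L, hL⟩ : ∃ L, L = s + 2 * (s * M1 + e1) := ⟨_, rfl⟩
  have hu' : u = 2 * L + 4 := by omega
  obtain ⟨Θ, hΘ⟩ : ∃ Θ : ℝ, Θ = c0 * u := ⟨_, rfl⟩
  rw [← hΘ] at g4
  have hΘ0 : 0 ≤ Θ := by rw [hΘ]; positivity
  have hq' : (0 : ℝ) < q0 := by exact_mod_cast (by omega : 0 < q0)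
  obtain ⟨η, hη⟩ : ∃ η : ℝ, η = 1 / (q0 * 4 ^ k) := ⟨_, rfl⟩
  have hη0 : 0 < η := by rw [hη]; positivity
  rw [← hη] at g4
  obtain ⟨z, hz⟩ : ∃ z, z = k * 2 ^ (2 * k + 1) := ⟨_, rfl⟩
  choose C w0 hC using fun x => hE (a x) (b x) L u z (2 * k + 1) (hN.pos x) (hN.cop x) hu'.ge
  obtain ⟨w, ⟨⟨⟨w1, w2⟩, w3⟩, w4⟩, w5⟩ := (((((eventually_ge_atTop
    (2 * v + 3 + 3 * (2 * (s * M1 + e1)) + N + w0')).and
    (tendsto_natCast_atTop_atTop.eventually_ge_atTop
      (2 * Θ ^ (5 * k + 8) * (10 * (2 * (s * M1 + e1) : ℕ) + 20 * (k : ℝ) ^ 2) / η))).and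
    (ev_pow (Θ ^ (5 * k + 8) * (CM * L) ^ z * CM ^ (2 * k) / η) (z + 2 * k))).and
    (eventually_all.2 fun x => eventually_ge_atTop (w0 x))).and
    (eventually_all.2 fun x => ev_log (Θ ^ (5 * k + 8) * C x * CM ^ (2 * k) / η))).exists
  have hw' : (3 : ℝ) ≤ w := by exact_mod_cast (by omega : 3 ≤ w)
  have lw : 0 < Real.log w := Real.log_pos (by linarith)
  have hV := Vk_ge' hN (by omega) (show 2 ≤ w by omega)
  rw [hcard] at hV
  obtain ⟨sv⟩ := hk0 w (GP a w) (by omega) fun p hp => ⟨(mem_GP.1 hp).2.1, (mem_GP.1 hp).1⟩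
  have hSc : Sc a b (2 * (k + 3)) v k w s M1 e1 L u (1 / 2 ^ m') Θ η :=
    { hN := hN, hk := hcard, hk3 := by omega, hK := le_rfl, hvw := by omega, hw := by omega,
      hs := by omega, hM := by omega, he1 := by omega, hL := hL, hu := hu', hew := by omega,
      hε := by positivity, hη := hη0.le
      hΘ := by rw [hΘ]; exact (Th_le_pow (by omega) (by omega)).trans (by gcongr; omega)
      hδ := by
        have h2 : Θ ^ (5 * k + 8) * ((10 * (2 * (s * M1 + e1) : ℕ) + 20 * (k : ℝ) ^ 2) / w) ≤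
            η / 2 := by
          rw [div_le_iff₀ hη0] at w2
          rw [mul_div_assoc', div_le_div_iff₀ (by linarith) (by norm_num)]
          linarith
        rw [add_div] at h2
        linarith
      hE0 := by
        have h1 := (hE0 (GP a (w ^ e1)) (w ^ L) z (fun p hp => (mem_GP.1 hp).2.1)
          (le_trans (by omega) (Nat.le_self_pow (by omega) w))).2
        rw [Nat.cast_pow, Real.log_pow, hz] at h1
        rw [div_mul_eq_mul_div, div_le_iff₀ hη0] at w3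
        have h2 : (w : ℝ) ^ L * w ≤ w ^ u := by
          rw [← pow_succ]; exact pow_le_pow_right₀ (by linarith) (by omega)
        calc _ ≤ Θ ^ (5 * k + 8) * (w ^ L * (CM * (L * Real.log w)) ^ z) := by
              rw [hz]; exact mul_le_mul_of_nonneg_left h1 (by positivity)
          _ = w ^ L * (Θ ^ (5 * k + 8) * (CM * L) ^ z * CM ^ (2 * k) * Real.log w ^ (z + 2 * k)) *
              (1 / (CM * Real.log w) ^ (2 * k)) := by
              simp only [mul_pow, pow_add]; field_simp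
          _ ≤ w ^ L * (w * η) * Vk a w := by gcongr
          _ = η * (w ^ L * w * Vk a w) := by ring
          _ ≤ _ := by
              have : 0 ≤ Vk a w := le_trans (by positivity) hV
              gcongr
      hE1 := fun x => by
        obtain ⟨E, h1, h2, h3⟩ := hC x w (w4 x) (GP a (w ^ e1))
          fun p hp => ⟨(mem_GP.1 hp).2.1, (mem_GP.1 hp).2.2 x⟩
        refine ⟨E, h1, h2, ?_⟩
        have h4 := w5 x
        rw [div_le_iff₀ hη0] at h4
        rw [hz] at h3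
        calc _ ≤ Θ ^ (5 * k + 8) * (C x * w ^ u / Real.log w ^ (2 * k + 1)) :=
              mul_le_mul_of_nonneg_left h3 (by positivity)
          _ = Θ ^ (5 * k + 8) * C x * CM ^ (2 * k) * (w ^ u / Real.log w *
              (1 / (CM * Real.log w) ^ (2 * k))) := by
              simp only [mul_pow, pow_succ]; field_simp
          _ ≤ Real.log w * η * (w ^ u / Real.log w * (1 / (CM * Real.log w) ^ (2 * k))) := by
              gcongr
          _ = η * (w ^ u * (1 / (CM * Real.log w) ^ (2 * k))) := by field_simp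
          _ ≤ _ := by gcongr }
  rw [hη] at hSc
  obtain ⟨g6, g7⟩ := g5 a b v w hN (by omega) (by omega)
  obtain ⟨n, hn, hM'⟩ := CelI.core hJ hP hM hm hSc (by omega) sv hq0 g1 g2 (by
    have b1 : q0 * (11 * (s * M1)) ≤ q * (11 * (s * M1)) := Nat.mul_le_mul_right _ hq
    have b2 : q0 * (u + 1) ≤ q0 * (4 * e1 + 11 * (s * M1)) := Nat.mul_le_mul_left _ (by omega)
    nlinarith only [b1, b2, he1, hqr, hsM, hs2, hs]) g3 g6 g7
  exact ⟨n, le_trans (le_trans (by omega) (Nat.le_self_pow (by omega) w)) hn, hM'⟩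

end Pool.Agent.P.MP_746f10_nt.P2
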