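import Pool.Agent.P.MP_746f10_nt.P2.EV

/-! The sieve sums at a fixed scale. -/

set_option linter.unusedSectionVars false

namespace Pool.Agent.P.MP_746f10_nt.P2

open Finset

variable {ι : Type} [Fintype ι] [DecidableEq ι]

/-- the hypotheses at a fixed scale -/
structure Sd (a b : ι → ℕ) (K0 v k w s R X D2 e e' Lvl : ℕ) (ε Θ η Em : ℝ) : Prop where
  hN : Nrm a b K0 v
  hk : Fintype.card ι = k
  hk3 : 3 ≤ k
  hK : 2 * (k + 3) ≤ K0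
  hvw : 2 * v ≤ w
  hw : 3 ≤ w
  hwR : w ≤ R
  hRX : R ≤ X
  hX6 : 6 ≤ X
  hε : 0 ≤ ε
  hZ : R ^ 2 ≤ w ^ e
  hew : 3 * e ≤ w
  hL : w ^ s * (R ^ 2 * D2) ≤ Lvl
  hLX : w * Lvl ≤ X
  he' : X ^ 2001 ≤ w ^ e'
  hΘ : Th w R ≤ Θ
  hη : 0 ≤ η
  hEm : 1 ≤ Em
  hδ : Θ ^ (5 * k + 8) * (3 * ε + 10 * e / w + 20 * (k : ℝ) ^ 2 / w) ≤ η
  hE : Θ ^ (5 * k + 8) * ((Lvl : ℝ) ^ 3 * Em) ≤ η * ((X : ℝ) ^ 2000 * Vk a w)
  hSq : (Θ ^ k * 2 ^ (k * e')) ^ 2 * (k * (2 * (X : ℝ) ^ 1999)) ≤ η * ((X : ℝ) ^ 2000 * Vk a w)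

/-- the range of summation -/
def Om (X : ℕ) : Finset ℕ := Ico (X ^ 2000) (2 * X ^ 2000)

namespace Sd

variable {a b : ι → ℕ} {K0 v k w s R X D2 e e' Lvl : ℕ} {ε Θ η Em ε2 : ℝ}
  (h : Sd a b K0 v k w s R X D2 e e' Lvl ε Θ η Em)
include h

lemma Vpos : 0 < Vk a w := by
  have : Nonempty ι := Fintype.card_pos_iff.1 (by have := h.hk; have := h.hk3; omega)
  exact h.hN.Vk_pos (by have := h.hk; have := h.hK; omega) (by have := h.hw; omega)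

lemma xpos : 0 < (X : ℝ) ^ 2000 * Vk a w := by
  have := h.Vpos
  have : (0 : ℝ) < X := by exact_mod_cast (by have := h.hX6; omega : 0 < X)
  positivity

lemma val {n : ℕ} (hn : n ∈ Om X) (l : ι) : 1 ≤ a l * n + b l ∧ a l * n + b l ≤ X ^ 2001 := by
  have h1 := mem_Ico.1 hn
  have h2 : 0 < X ^ 2000 := pow_pos (by have := h.hX6; omega) _
  have h3 := h.hN.lt l
  refine ⟨le_trans (Nat.mul_pos (h.hN.pos l) (h2.trans_le h1.1)) (Nat.le_add_right _ _), ?_⟩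
  calc _ ≤ a l * (n + 1) := by rw [mul_add, mul_one]; omega
    _ ≤ v * (2 * X ^ 2000) := Nat.mul_le_mul (h.hN.le l) h1.2
    _ = 2 * v * X ^ 2000 := by ring
    _ ≤ X * X ^ 2000 := Nat.mul_le_mul_right _ (h.hvw.trans (h.hwR.trans h.hRX))
    _ = _ := by ring

lemma ndvd {p : ℕ} (hp : R < p) (l : ι) : ¬ p ∣ a l := fun hd => by
  have := Nat.le_of_dvd (h.hN.pos l) hd
  have := h.hN.le l
  have := h.hvw
  have := h.hwR
  omega

lemma sep {i j : ι} (hij : i ≠ j) : Sep R (a i) (b i) (a j) (b j) := fun p hp hR =>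
  ⟨h.ndvd hR i, h.ndvd hR j, fun n hn => hij (h.hN.sep p n i j hp hn.1 hn.2)⟩

lemma ev (sv : SieveW (GP a w) (w ^ s) (k + 3) ε) (s2 : SieveW (PP w R) D2 2 ε2) (J : ℕ)
    {μ : ℕ → ℝ} {κ : ℝ} (hκ : 0 ≤ κ) (hμ : ∀ n, 0 ≤ μ n)
    (hc : ∀ q c : ℕ, 0 < q → q ≤ Lvl → (∀ p : ℕ, p.Prime → p ∣ q → p ≤ R) →
      |∑ n ∈ Om X, μ n * (if n ≡ c [MOD q] then 1 else 0) - (X : ℝ) ^ 2000 * κ / q| ≤ Em)
    {I : Finset ι} (hI : I.card ≤ 2) :
    |∑ n ∈ Om X, μ n * (WW a b w s J R n * rho a b w R I n) -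
      κ * ((X : ℝ) ^ 2000 * Vk a w * (Vj w R I.card * JJ w s J R Iᶜ))| ≤
      ε2 * (κ * ((X : ℝ) ^ 2000 * Vk a w * (Vj w R I.card * JJ w s J R Iᶜ))) +
        η * ((X : ℝ) ^ 2000 * Vk a w) * (κ + 1) := by
  have h1 := ev_main h.hN h.hk h.hk3 h.hK (by have := h.hvw; omega) h.hw h.hwR sv h.hε s2
    (Ω := Om X) (μ := μ) (X := (X : ℝ) ^ 2000 * κ) (E := Em) (Lvl := Lvl) (fun T hT hL c _ => by
      have hT' : ∀ p ∈ T, p.Prime := fun p hp => (mem_GP.1 (hT hp)).2.1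
      have := hc (∏ p ∈ T, p) c (prod_pos fun p hp => (hT' p hp).pos) hL fun p hp hd => by
        obtain ⟨r, hr, hd'⟩ := (hp.prime.dvd_finsetProd_iff _).1 hd
        rw [(Nat.prime_dvd_prime_iff_eq hp (hT' r hr)).1 hd']
        exact (mem_GP.1 (hT hr)).1
      rw [prod_div_distrib, prod_const_one, mul_one_div, ← Nat.cast_prod]
      exact this) (by linarith [h.hEm]) (by positivity) (fun n _ => hμ n) s J hI h.hZ h.hew h.hL h.hΘ
  have h2 := mul_le_mul_of_nonneg_left h.hδ (mul_nonneg hκ h.xpos.le)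
  have h3 := h.hE
  have e1 : κ * ((X : ℝ) ^ 2000 * Vk a w * (Vj w R I.card * JJ w s J R Iᶜ)) =
    (X : ℝ) ^ 2000 * κ * Vk a w * (Vj w R I.card * JJ w s J R Iᶜ) := by ring
  rw [e1]
  refine h1.trans (add_le_add le_rfl ?_)
  linarith

lemma ev0 (sv : SieveW (GP a w) (w ^ s) (k + 3) ε) (s2 : SieveW (PP w R) D2 2 ε2) (J : ℕ)
    {I : Finset ι} (hI : I.card ≤ 2) :
    |∑ n ∈ Om X, WW a b w s J R n * rho a b w R I n -
      (X : ℝ) ^ 2000 * Vk a w * (Vj w R I.card * JJ w s J R Iᶜ)| ≤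
      ε2 * ((X : ℝ) ^ 2000 * Vk a w * (Vj w R I.card * JJ w s J R Iᶜ)) +
        η * ((X : ℝ) ^ 2000 * Vk a w) * 2 := by
  have := h.ev sv s2 J (μ := fun _ => 1) (κ := 1) zero_le_one (fun _ => zero_le_one)
    (fun q c hq _ _ => by
      have h2 := count_class hq c (show X ^ 2000 ≤ 2 * X ^ 2000 by omega)
      refine le_trans (le_of_eq ?_) (h2.trans h.hEm)
      simp only [one_mul, mul_one, Om]
      congr 2
      push_cast; ring) hI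
  simpa only [one_mul, one_add_one_eq_two] using this

lemma ev1 (hH : S_HC1) (sv : SieveW (GP a w) (w ^ s) (k + 3) ε) (s2 : SieveW (PP w R) D2 2 ε2)
    (J : ℕ) {G : ℕ → ℝ} {κ S : ℝ} (hG : Pos R X G κ S) (hS : S * (X : ℝ) ^ 1096 ≤ Em) (j : ι) :
    |∑ n ∈ Om X, G (a j * n + b j) * (WW a b w s J R n * rho a b w R {j} n) -
      κ * ((X : ℝ) ^ 2000 * Vk a w * (Vj w R 1 * JJ w s J R ({j}ᶜ : Finset ι)))| ≤
      ε2 * (κ * ((X : ℝ) ^ 2000 * Vk a w * (Vj w R 1 * JJ w s J R ({j}ᶜ : Finset ι)))) +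
        η * ((X : ℝ) ^ 2000 * Vk a w) * (κ + 1) :=
  h.ev sv s2 J hG.mean_nonneg (fun _ => hG.nonneg _) (fun q c hq _ hp => by
    have := hH.1 R X (a j) (b j) q c (X ^ 2000) (2 * X ^ 2000) G κ S hG (by omega) hq
      fun p hp' hR => ⟨h.ndvd hR j, fun hd => absurd (hp p hp' hd) (by omega)⟩
    refine le_trans (le_of_eq ?_) (this.trans hS)
    unfold Om
    congr 3
    push_cast; ring) (I := {j}) (by simp)

lemma ev2 (sv : SieveW (GP a w) (w ^ s) (k + 3) ε) (s2 : SieveW (PP w R) D2 2 ε2)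
    (J : ℕ) {G1 G2 : ℕ → ℝ} {κ : ℝ} (h1 : ∀ m, 0 ≤ G1 m) (h2 : ∀ m, 0 ≤ G2 m) (hκ : 0 ≤ κ)
    (hc : ∀ a1 b1 a2 b2 q c N : ℕ, Sep R a1 b1 a2 b2 → b1 < a1 → b2 < a2 → 0 < q → a1 * q ≤ X →
        a2 * q ≤ X → (∀ p : ℕ, p.Prime → p ∣ q → p ≤ R) → q ≤ N → N ≤ X ^ 2000 →
        |∑ n ∈ Ico N (2 * N), G1 (a1 * n + b1) * G2 (a2 * n + b2) *
          (if n ≡ c [MOD q] then 1 else 0) - (N : ℝ) * κ / q| ≤ Em) {i j : ι} (hij : i ≠ j) :
    |∑ n ∈ Om X, G1 (a i * n + b i) * G2 (a j * n + b j) *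
        (WW a b w s J R n * rho a b w R {i, j} n) -
      κ * ((X : ℝ) ^ 2000 * Vk a w * (Vj w R 2 * JJ w s J R ({i, j}ᶜ : Finset ι)))| ≤
      ε2 * (κ * ((X : ℝ) ^ 2000 * Vk a w * (Vj w R 2 * JJ w s J R ({i, j}ᶜ : Finset ι)))) +
        η * ((X : ℝ) ^ 2000 * Vk a w) * (κ + 1) := by
  have hl : ∀ l q, q ≤ Lvl → a l * q ≤ X := fun l q hq =>
    (Nat.mul_le_mul ((h.hN.le l).trans (by have := h.hvw; omega)) hq).trans h.hLX
  have := h.ev sv s2 J hκ (fun n => mul_nonneg (h1 _) (h2 _)) (fun q c hq hL hp => by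
    have := hc (a i) (b i) (a j) (b j) q c (X ^ 2000) (h.sep hij) (h.hN.lt i) (h.hN.lt j) hq
      (hl i q hL) (hl j q hL) hp (((Nat.le_mul_of_pos_left _ (h.hN.pos i)).trans (hl i q hL)).trans
        (Nat.le_self_pow (by norm_num) X)) le_rfl
    rw [Nat.cast_pow] at this
    exact this) (I := {i, j}) card_le_two
  rwa [card_pair hij] at this

open Classical in
lemma sq_le (hH : S_HC1) (J : ℕ) :
    ∑ n ∈ (Om X).filter (fun n => ∃ l, ∃ p : ℕ, p.Prime ∧ X ^ 274 < p ∧ p ≤ X ^ 986 ∧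
      p ^ 2 ∣ a l * n + b l), WW a b w s J R n ≤ η * ((X : ℝ) ^ 2000 * Vk a w) := by
  refine le_trans ?_ h.hSq
  have hX : (1 : ℝ) ≤ X := by exact_mod_cast (by have := h.hX6; omega : 1 ≤ X)
  have h1 : ∀ n ∈ Om X, WW a b w s J R n ≤ (Θ ^ k * 2 ^ (k * e')) ^ 2 := fun n hn => by
    have := abs_Fw_le a b (show 2 ≤ w by have := h.hw; omega) s J R univ
      (fun l => by have := (h.val hn l).1; omega) (fun l => (h.val hn l).2.trans h.he') h.hΘ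
    rw [h.hk] at this
    exact (mul_le_of_le_one_left (sq_nonneg _) (rg_le_one _ _ _ _)).trans
      (sq_le_sq' (abs_le.1 this).1 (abs_le.1 this).2)
  refine (sum_le_card_nsmul _ _ _ fun n hn => h1 n (mem_filter.1 hn).1).trans ?_
  rw [nsmul_eq_mul, mul_comm]
  refine mul_le_mul_of_nonneg_left ?_ (sq_nonneg _)
  have h2 : ∀ l, (((Om X).filter fun n => ∃ p : ℕ, p.Prime ∧ X ^ 274 < p ∧ p ≤ X ^ 986 ∧
      p ^ 2 ∣ a l * n + b l).card : ℝ) ≤ 2 * (X : ℝ) ^ 1999 := fun l => by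
    have := hH.2 (a l) (b l) (X ^ 2000) (X ^ 274) (X ^ 986)
      (Nat.one_le_pow _ _ (by have := h.hX6; omega)) fun p _ hp =>
        h.ndvd (lt_of_le_of_lt (h.hRX.trans (Nat.le_self_pow (by norm_num) X)) hp) l
    refine le_trans this ?_
    push_cast
    have e1 : (X : ℝ) ^ 2000 / X ^ 274 = X ^ 1726 := by field_simp
    have e2 : (X : ℝ) ^ 1726 ≤ X ^ 1999 := pow_le_pow_right₀ hX (by norm_num)
    have e3 : (X : ℝ) ^ 986 ≤ X ^ 1999 := pow_le_pow_right₀ hX (by norm_num)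
    linarith
  calc _ ≤ ((univ.biUnion fun l => (Om X).filter fun n => ∃ p : ℕ, p.Prime ∧ X ^ 274 < p ∧
        p ≤ X ^ 986 ∧ p ^ 2 ∣ a l * n + b l).card : ℝ) := by
        refine Nat.cast_le.2 (card_le_card fun n hn => ?_)
        obtain ⟨h3, l, h4⟩ := mem_filter.1 hn
        exact mem_biUnion.2 ⟨l, mem_univ _, mem_filter.2 ⟨h3, h4⟩⟩
    _ ≤ ∑ l : ι, 2 * (X : ℝ) ^ 1999 := by
        refine le_trans ?_ (sum_le_sum fun l _ => h2 l)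
        exact_mod_cast card_biUnion_le
    _ = _ := by rw [sum_const, card_univ, h.hk, nsmul_eq_mul]

end Sd

end Pool.Agent.P.MP_746f10_nt.P2
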