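import Pool.Agent.P.MP_746f10_nt.Cel.Defs
import Pool.Agent.P.MP_79de8b_nt.St
import Pool.Agent.P.MP_0ad054_nt.Sun.Defs

/-! Almost primes in every cell of a system of linear forms: definitions and the statements of the
parts of the proof. -/

namespace Pool.Agent.P.MP_746f10_nt.P2

open Finset Pool.Agent.P.MP_0ad054_nt.Sun

/-! ### divisor sums -/

/-- the mass of a set of moduli -/
noncomputable def ms (A : Finset ℕ) : ℝ := ∑ a ∈ A, 1 / (a : ℝ)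

/-- the number of members of `A` dividing `m` -/
noncomputable def cdv (A : Finset ℕ) (m : ℕ) : ℝ := ∑ a ∈ A, if a ∣ m then 1 else 0

/-- the number of pairs whose product divides `m` -/
noncomputable def bil (A B : Finset ℕ) (m : ℕ) : ℝ :=
  ∑ a ∈ A, ∑ b ∈ B, if a * b ∣ m then 1 else 0

/-- the mean value for a pair of forms -/
noncomputable def cm (A B C D : Finset ℕ) : ℝ :=
  ∑ a ∈ A, ∑ b ∈ B, ∑ c ∈ C, ∑ d ∈ D,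
    if (a * b).Coprime (c * d) then 1 / ((a : ℝ) * b * c * d) else 0

/-- a set of numbers in `[1, Z]` without prime factors up to `R` -/
def Lv (R Z : ℕ) (A : Finset ℕ) : Prop := ∀ a ∈ A, 1 ≤ a ∧ a ≤ Z ∧ rough R a

/-- two forms with simple and different roots modulo all primes above `R` -/
def Sep (R a1 b1 a2 b2 : ℕ) : Prop :=
  ∀ p : ℕ, p.Prime → R < p → ¬ p ∣ a1 ∧ ¬ p ∣ a2 ∧ ∀ n, ¬ (p ∣ a1 * n + b1 ∧ p ∣ a2 * n + b2)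

/-- nonnegative combinations of bilinear divisor sums, with mean `κ` and total weight at most `S` -/
def Pos (R X : ℕ) (G : ℕ → ℝ) (κ S : ℝ) : Prop :=
  ∃ (T : Type) (s : Finset T) (c : T → ℝ) (A B : T → Finset ℕ),
    (∀ t ∈ s, 0 ≤ c t ∧ Lv R (X ^ 994) (A t) ∧ Lv R (X ^ 102) (B t)) ∧ ∑ t ∈ s, c t ≤ S ∧
    (∀ m, G m = ∑ t ∈ s, c t * bil (A t) (B t) m) ∧ κ = ∑ t ∈ s, c t * (ms (A t) * ms (B t))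

/-- the least `x` with `m ≤ q * x` -/
def up (m q : ℕ) : ℕ := (m + q - 1) / q

/-- `a` rounded down to its leading `r + 1` binary digits -/
def phi (r a : ℕ) : ℕ := a / 2 ^ (Nat.log 2 a - r) * 2 ^ (Nat.log 2 a - r)

def S_Bx : Prop :=
  (∀ r a, phi r a ≤ a ∧ a ≤ phi r a + phi r a / 2 ^ r ∧ (1 ≤ a → 1 ≤ phi r a)) ∧
  ∀ r Y, ((Icc 1 Y).image (phi r)).card ≤ 2 ^ (r + 1) * (Nat.log 2 Y + 1)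

/-! ### the pair correlation beyond level one -/

/-- finite Fourier expansion of an interval in a residue class -/
def S_Fou : Prop :=
  ∀ q x1 x2 : ℕ, 0 < q → ∃ γ : ℤ → ℂ, (∀ h : ℤ, ‖γ h‖ ≤ 1 / |(h : ℝ)|) ∧
    (∀ h : ℤ, ‖γ h‖ ≤ ((x2 - x1 : ℕ) : ℝ) / q) ∧ ∀ (H : ℕ) (ξ : ℤ), q ≤ H →
      ((((Ico x1 x2).filter fun x : ℕ => (x : ℤ) ≡ ξ [ZMOD q]).card : ℂ) -
        ((x2 - x1 : ℕ) : ℂ) / q = ∑ h ∈ Icc (-(H : ℤ)) H, γ h * MR.ex (((h * ξ : ℤ) : ℝ) / q))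

/-- incomplete Kloosterman sums -/
def S_IK : Prop :=
  ∀ (Q x1 x2 : ℕ) (r : ℤ), 0 < Q →
    ‖∑ a ∈ (Ico x1 x2).filter (fun a => a.Coprime Q), MR.ex (((r * MR.iv a Q : ℤ) : ℝ) / Q)‖ ≤
      4 * MR.tau Q * (((x2 - x1 : ℕ) : ℝ) * Real.sqrt ((r.gcd Q : ℕ) / (Q : ℝ)) +
        2 * Real.sqrt Q * MR.tau Q * (1 + Real.log Q))

/-- the bound for one term of the dispersion -/
noncomputable def kb (Q c len : ℕ) (t : ℤ) : ℝ :=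
  if t = 0 then len else 4 * MR.tau Q * (len * Real.sqrt ((t.gcd c : ℕ) / (c : ℝ)) +
    2 * Real.sqrt Q * MR.tau Q * (1 + Real.log Q))

/-- opening the square -/
def S_KB1 : Prop :=
  ∀ (a1 c x1 x2 H : ℕ) (B D : Finset ℕ) (γ : ℕ → ℕ → ℤ → ℂ) (κ : ℕ → ℕ), 1 ≤ a1 → 1 ≤ c →
    (∀ b ∈ B, b.Coprime a1) → (∀ d ∈ D, 1 ≤ d ∧ (κ d).Coprime c ∧ ∀ d' ∈ D, κ d ≡ κ d' [MOD c]) →
    ∑ a ∈ (Ico x1 x2).filter (fun a => a.Coprime a1),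
      ‖∑ b ∈ B, ∑ d ∈ D, if (a * b).Coprime (c * d) then ∑ h ∈ Icc (-(H : ℤ)) H, γ b d h *
        MR.ex (((h * ((κ d : ℤ) * MR.iv (a * b) (a1 * c * d)) : ℤ) : ℝ) / (a1 * c * d : ℕ))
        else 0‖ ^ 2 ≤
    ∑ u ∈ B ×ˢ D ×ˢ Icc (-(H : ℤ)) H, ∑ v ∈ B ×ˢ D ×ˢ Icc (-(H : ℤ)) H,
      ‖γ u.1 u.2.1 u.2.2‖ * ‖γ v.1 v.2.1 v.2.2‖ *
        kb (a1 * c * u.2.1 * v.2.1) c (x2 - x1) (u.2.2 * v.1 * v.2.1 - v.2.2 * u.1 * u.2.1)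

/-- the sum of the bounds -/
def S_KB2 : Prop :=
  ∃ C : ℝ, ∀ (X a1 len Lx : ℕ) (B Cc D : Finset ℕ) (γ : ℕ → ℕ → ℕ → ℤ → ℂ), 1 ≤ X → 1 ≤ a1 →
    a1 ≤ X → len ≤ X ^ 994 → len * Lx ≤ X ^ 2002 → B ⊆ Icc 1 (X ^ 102) → Cc ⊆ Icc 1 (X ^ 994) →
    D ⊆ Icc 1 (X ^ 102) →
    (∀ c ∈ Cc, ∀ b ∈ B, ∀ d ∈ D, ∀ h : ℤ, ‖γ c b d h‖ ≤ 1 / |(h : ℝ)| ∧
      ‖γ c b d h‖ ≤ ((Lx : ℝ) / b + 1) / (c * d)) →
    ∑ c ∈ Cc, ∑ u ∈ B ×ˢ D ×ˢ Icc (-((X ^ 1097 : ℕ) : ℤ)) (X ^ 1097 : ℕ),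
      ∑ v ∈ B ×ˢ D ×ˢ Icc (-((X ^ 1097 : ℕ) : ℤ)) (X ^ 1097 : ℕ),
      ‖γ c u.1 u.2.1 u.2.2‖ * ‖γ c v.1 v.2.1 v.2.2‖ *
        kb (a1 * c * u.2.1 * v.2.1) c len (u.2.2 * v.1 * v.2.1 - v.2.2 * u.1 * u.2.1) ≤
      C * (X : ℝ) ^ 2004

/-- the dispersion estimate for one box -/
def S_KBox : Prop :=
  ∃ C : ℝ, ∀ (X a1 x1 x2 Lx : ℕ) (A B Cc D : Finset ℕ) (y1 y2 : ℕ → ℕ) (κ : ℕ → ℕ → ℕ), 1 ≤ X →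
    1 ≤ a1 → a1 ≤ X → x2 - x1 ≤ X ^ 994 → (x2 - x1) * Lx ≤ X ^ 2002 → A ⊆ Ico x1 x2 →
    B ⊆ Icc 1 (X ^ 102) → Cc ⊆ Icc 1 (X ^ 994) → D ⊆ Icc 1 (X ^ 102) →
    (∀ a ∈ A, a.Coprime a1) → (∀ b ∈ B, b.Coprime a1 ∧ b * (y2 b - y1 b) ≤ Lx + b) →
    (∀ c ∈ Cc, ∀ d ∈ D, (κ c d).Coprime c ∧ ∀ d' ∈ D, κ c d ≡ κ c d' [MOD c]) →
    ∑ c ∈ Cc, ∑ a ∈ A, |∑ b ∈ B, ∑ d ∈ D, if (a * b).Coprime (c * d) then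
      ((((Ico (y1 b) (y2 b)).filter fun x => a * b * x ≡ κ c d [MOD a1 * c * d]).card : ℝ) -
        ((y2 b - y1 b : ℕ) : ℝ) / (a1 * c * d : ℕ)) else 0| ≤ C * (X : ℝ) ^ 1996

/-- freezing the first variable -/
def S_KL1 : Prop :=
  ∀ R a1 b1 a2 b2 : ℕ, 1 ≤ a1 → Sep R a1 b1 a2 b2 → ∃ κ : ℕ → ℕ → ℕ,
    (∀ c d d', 1 ≤ c → 1 ≤ d → 1 ≤ d' → rough R c → rough R d → rough R d' →
      (κ c d).Coprime c ∧ κ c d ≡ κ c d' [MOD c]) ∧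
    ∀ a b c d a0 N1 N2 M1 M2 : ℕ, 1 ≤ b → 1 ≤ c → 1 ≤ d → rough R a → rough R b → rough R c →
      rough R d → 1 ≤ a0 → a0 ≤ a → N1 ≤ N2 → a * (a1 * N1 + b1) ≤ a0 * (a1 * M1 + b1) →
      a * (a1 * N2 + b1) ≤ a0 * (a1 * M2 + b1) →
      |∑ n ∈ Ico N1 N2, (if a * b ∣ a1 * n + b1 then (1 : ℝ) else 0) *
          (if c * d ∣ a2 * n + b2 then 1 else 0) -
        if (a * b).Coprime (c * d) then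
          (((Ico (up (a1 * N1 + b1) (a0 * b)) (up (a1 * N2 + b1) (a0 * b))).filter
            fun x => a * b * x ≡ κ c d [MOD a1 * c * d]).card : ℝ) else 0| ≤
      ∑ n ∈ Ico N1 M1, (if a * b ∣ a1 * n + b1 then (1 : ℝ) else 0) *
          (if c * d ∣ a2 * n + b2 then 1 else 0) +
        ∑ n ∈ Ico N2 M2, (if a * b ∣ a1 * n + b1 then (1 : ℝ) else 0) *
          (if c * d ∣ a2 * n + b2 then 1 else 0)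

/-- the pair correlation of two bilinear divisor sums -/
def S_KLm : Prop :=
  ∃ C : ℝ, ∀ (X R a1 b1 a2 b2 N1 N2 : ℕ) (A B Cc D : Finset ℕ), 6 ≤ X → 1 ≤ a1 → a1 ≤ X → b1 ≤ X →
    1 ≤ a2 → a2 ≤ X → b2 ≤ X → 1 ≤ N1 → N1 ≤ N2 → N2 ≤ 2 * X ^ 2000 → Sep R a1 b1 a2 b2 →
    Lv R (X ^ 994) A → Lv R (X ^ 102) B → Lv R (X ^ 994) Cc → Lv R (X ^ 102) D →
    |∑ n ∈ Ico N1 N2, bil A B (a1 * n + b1) * bil Cc D (a2 * n + b2) -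
      ((N2 : ℝ) - N1) * cm A B Cc D| ≤ C * (X : ℝ) ^ 1999

open Classical in
/-- one form in a residue class; squares of large primes -/
def S_HC1 : Prop :=
  (∀ (R X a b q c N1 N2 : ℕ) (G : ℕ → ℝ) (κ S : ℝ), Pos R X G κ S → N1 ≤ N2 → 0 < q →
    (∀ p : ℕ, p.Prime → R < p → ¬ p ∣ a ∧ ¬ p ∣ q) →
    |∑ n ∈ Ico N1 N2, G (a * n + b) * (if n ≡ c [MOD q] then 1 else 0) -
      ((N2 : ℝ) - N1) * κ / q| ≤ S * (X : ℝ) ^ 1096) ∧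
  ∀ a b N z y : ℕ, 1 ≤ z → (∀ p : ℕ, p.Prime → z < p → ¬ p ∣ a) →
    (((Ico N (2 * N)).filter fun n => ∃ p : ℕ, p.Prime ∧ z < p ∧ p ≤ y ∧ p ^ 2 ∣ a * n + b).card : ℝ)
      ≤ (N : ℝ) / z + y

/-- two forms in a residue class -/
def S_HC2 : Prop :=
  ∃ C : ℝ, 0 ≤ C ∧ ∀ (R X : ℕ) (G1 G2 : ℕ → ℝ) (κ1 κ2 S : ℝ), 6 ≤ X → 1 ≤ R → Pos R X G1 κ1 S →
    Pos R X G2 κ2 S → ∃ κ : ℝ, 0 ≤ κ ∧ κ ≤ κ1 * κ2 ∧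
      κ1 * κ2 - κ ≤ C * S ^ 2 * (1 + Real.log X) ^ 4 / R ∧
      ∀ a1 b1 a2 b2 q c N : ℕ, Sep R a1 b1 a2 b2 → b1 < a1 → b2 < a2 → 0 < q → a1 * q ≤ X →
        a2 * q ≤ X → (∀ p : ℕ, p.Prime → p ∣ q → p ≤ R) → q ≤ N → N ≤ X ^ 2000 →
        |∑ n ∈ Ico N (2 * N), G1 (a1 * n + b1) * G2 (a2 * n + b2) *
          (if n ≡ c [MOD q] then 1 else 0) - (N : ℝ) * κ / q| ≤ C * S ^ 2 * (X : ℝ) ^ 1999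

/-! ### the linear sieve with well factorable support -/

/-- well factorable sets of level `D` -/
def WF (T : Finset ℕ) (D : ℝ) : Prop :=
  ∀ p ∈ T, (∏ q ∈ T.filter (fun q => p < q), (q : ℝ)) * (p : ℝ) ^ 2 ≤ D

/-- sieve weights of level `D`; `σ = 1` upper, `σ = -1` lower -/
def IsW2 (σ : ℝ) (P : Finset ℕ) (lam : Finset ℕ → ℝ) (D : ℝ) : Prop :=
  (∀ T, |lam T| ≤ 1) ∧ (∀ T ⊆ P, lam T ≠ 0 → WF T D) ∧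
  ∀ w : ℕ → ℝ, (∀ l, w l = 0 ∨ w l = 1) → 0 ≤ σ * (Sf P lam w - ∏ l ∈ P, (1 - w l))

/-- dimension one; the members of `P` need not be primes -/
def Dim2 (η : ℝ) (P : Finset ℕ) (g : ℕ → ℝ) : Prop :=
  (∀ l ∈ P, 2 ≤ l ∧ 0 ≤ g l ∧ g l ≤ 1 / 2) ∧ ∀ w z : ℝ, 1 < w → w ≤ z →
    ∏ l ∈ P.filter (fun l : ℕ => w < l ∧ (l : ℝ) ≤ z), (1 - g l)⁻¹ ≤
      (1 + η) * Real.log z / Real.log w

def S_FL2 : Prop :=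
  ∃ C : ℝ, 0 < C ∧ ∀ (σ : ℝ) (k : ℕ) (P : Finset ℕ) (g : ℕ → ℝ) (z : ℝ), σ = 1 ∨ σ = -1 →
    1 ≤ z → Dim2 1 P g → (∀ l ∈ P, (l : ℝ) ≤ z) → ∃ lam, IsW2 σ P lam (z ^ (4 * k + 7)) ∧
      σ * (Sf P lam g - ∏ l ∈ P, (1 - g l)) ≤ C / 2 ^ k * ∏ l ∈ P, (1 - g l)

def S_Lin2 : Prop :=
  ∃ A : ℝ, 0 < A ∧ ∀ ε : ℝ, 0 < ε → ∃ η : ℝ, 0 < η ∧ ∃ z0 : ℝ, ∀ (P : Finset ℕ) (g : ℕ → ℝ)
    (z : ℝ), z0 ≤ z → Dim2 η P g → (∀ l ∈ P, (l : ℝ) ≤ z) →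
    (∃ lam, IsW2 1 P lam (z ^ 3) ∧ Sf P lam g ≤ (A / 3 + ε) * ∏ l ∈ P, (1 - g l)) ∧
    ∃ lam, IsW2 (-1) P lam (z ^ 4) ∧ (A * Real.log 3 / 4 - ε) * ∏ l ∈ P, (1 - g l) ≤ Sf P lam g

/-! ### boxes of primes -/

/-- the label of the box of the prime `p` -/
def lb (r z p : ℕ) : ℕ := min z (phi r p + phi r p / 2 ^ r)

/-- the labels -/
def PL (r R z : ℕ) : Finset ℕ := (PP R z).image (lb r z)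

/-- the box with label `l` -/
def bx (r R z l : ℕ) : Finset ℕ := (PP R z).filter fun p => lb r z p = l

/-- the density of a box -/
noncomputable def gb (r R z l : ℕ) : ℝ := ms (bx r R z l)

/-- the number of primes of a box that divide `m` -/
noncomputable def xb (r R z m l : ℕ) : ℝ := cdv (bx r R z l) m

def S_DimB : Prop :=
  ∀ (η δ : ℝ) (j : ℕ), 0 < η → 0 < δ → ∃ r R0 : ℕ, ∀ R z : ℕ, R0 ≤ R → R ≤ z → z ≤ R ^ j →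
    Dim2 η (PL r R z) (gb r R z) ∧ ∑ l ∈ PL r R z, gb r R z l ^ 2 ≤ δ ∧
    (PL r R z).card ≤ 2 ^ (r + 1) * (Nat.log 2 z + 1) ∧ ∀ l ∈ PL r R z, R < l ∧ l ≤ z

/-- a box sieve is a combination of bilinear divisor sums -/
def S_SvPos : Prop :=
  ∀ (r R X z top D1 j : ℕ) (P Q : Finset ℕ) (lam : Finset ℕ → ℝ), 2 ≤ R → R ≤ z → 1 ≤ X → 1 ≤ D1 →
    P ⊆ PL r R z → (∀ T, 0 ≤ lam T ∧ lam T ≤ 1) → Lv z top Q → top * D1 ≤ X ^ 994 →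
    (∀ T ⊆ P, lam T ≠ 0 → WF T ((D1 * X ^ 102 : ℕ) : ℝ)) → D1 * X ^ 102 ≤ R ^ j →
    Pos R X (fun m => cdv Q m * Sf P lam (xb r R z m)) (ms Q * Sf P lam (gb r R z))
      (((P.card : ℝ) + 1) ^ j)

/-- numbers with two primes in one box, and pointwise bounds -/
def S_Bad : Prop :=
  (∀ r R X z : ℕ, 2 ≤ R → 1 ≤ X → z ^ 2 ≤ X ^ 994 → ∃ (G : ℕ → ℝ) (κ : ℝ), Pos R X G κ 1 ∧
    κ ≤ ∑ l ∈ PL r R z, gb r R z l ^ 2 ∧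
    (∀ m, ¬ (∀ l, xb r R z m l = 0 ∨ xb r R z m l = 1) → 1 ≤ G m) ∧
    ∀ m j : ℕ, m ≠ 0 → m ≤ R ^ j → G m ≤ (j : ℝ) ^ 2) ∧
  (∀ (r R z m j : ℕ) (P : Finset ℕ) (lam : Finset ℕ → ℝ), 2 ≤ R → (∀ T, |lam T| ≤ 1) → m ≠ 0 →
    m ≤ R ^ j → |Sf P lam (xb r R z m)| ≤ 2 ^ j) ∧
  ∀ r R z m : ℕ, rough R m → (∏ l ∈ PL r R z, (1 - xb r R z m l) ≠ 0 →
    (∀ l, xb r R z m l = 0 ∨ xb r R z m l = 1) → rough z m) ∧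
    (rough z m → ∀ l, xb r R z m l = 0)

/-- the numerical inequality, Mertens' theorem in short ranges, and Richert's weights -/
def S_Num : Prop :=
  (986 / 957 * ∑ i ∈ Ico (274 : ℕ) 986, (1 - (i : ℝ) / 986) * (1 / i) * (274 / (1095 - i)) ≤
    Real.log 3 / 4 - 1 / 1000) ∧
  (∀ δ : ℝ, 0 < δ → ∃ X0 : ℕ, ∀ X i : ℕ, X0 ≤ X → 1 ≤ i →
    ms (PP (X ^ i) (X ^ (i + 1))) ≤ 1 / i + δ) ∧
  ∀ X m : ℕ, 2 ≤ X → 1 ≤ m → m ≤ X ^ 2001 → rough (X ^ 274) m →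
    (∀ p : ℕ, p.Prime → X ^ 274 < p → p ≤ X ^ 986 → ¬ p ^ 2 ∣ m) →
    986 / 957 * ∑ i ∈ Ico (274 : ℕ) 986, (1 - (i : ℝ) / 986) * cdv (PP (X ^ i) (X ^ (i + 1))) m < 1 →
    m.primeFactorsList.length ≤ 2

/-- the detector of numbers with at most two prime factors -/
def S_Det : Prop :=
  ∃ C0 : ℝ, 1 ≤ C0 ∧ ∀ q : ℕ, 1 ≤ q → ∃ (Λ : ℝ) (R0 : ℕ), ∀ R : ℕ, R0 ≤ R →
    ∃ (G1 G2 : ℕ → ℝ) (κ1 κ2 S : ℝ), Pos R (R ^ q) G1 κ1 S ∧ Pos R (R ^ q) G2 κ2 S ∧ S ^ 4 ≤ R ∧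
      κ1 + κ2 ≤ C0 * q ∧ 1 / (C0 * q) ≤ κ1 - κ2 ∧
      (∀ m, 1 ≤ m → m ≤ (R ^ q) ^ 2001 → |G1 m - G2 m| ≤ Λ) ∧
      ∀ m, 1 ≤ m → m ≤ (R ^ q) ^ 2001 → rough R m →
        (∀ p : ℕ, p.Prime → (R ^ q) ^ 274 < p → p ≤ (R ^ q) ^ 986 → ¬ p ^ 2 ∣ m) →
        G2 m < G1 m → m.primeFactorsList.length ≤ 2

/-! ### cells -/

/-- every cell contains a value with at most two prime factors -/
def AllP2 {M K : ℕ} (a b : Fin M × Fin K → ℕ) (n : ℕ) : Prop :=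
  ∀ i, ∃ s, (a (i, s) * n + b (i, s)).primeFactorsList.length ≤ 2

/-- normalisation with polynomial bounds -/
def S_Norm2 : Prop :=
  ∀ k K0 : ℕ, ∃ A : ℕ, ∀ (ι : Type) [Fintype ι] [DecidableEq ι] (a b : ι → ℕ) (H : ℕ),
    Fintype.card ι = k → 2 ≤ H → (∀ l, 0 < a l ∧ a l ≤ H ∧ b l ≤ H) → Cel.Adm a b →
    Function.Injective (fun l => (a l, b l)) → ∃ Δ n0 v : ℕ, 0 < Δ ∧ n0 < Δ ∧ Δ ≤ H ^ A ∧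
      v ≤ H ^ A ∧ Nrm (fun l => a l * Δ) (fun l => a l * n0 + b l) K0 v

/-- the reduction to boxes -/
def S_RedG : Prop :=
  ∀ k K0 : ℕ, 0 < K0 → ∃ C c : ℝ, 0 < C ∧ 0 < c ∧
    ∀ (good : (Fin k → ℕ × ℕ) → Prop) (K : ℕ) (F : Fin k → Finset (ℕ × ℕ)), 1 ≤ K →
    (∀ i, K ≤ (F i).card) →
    (∀ x : Fin k × Fin K0 → ℕ × ℕ, Function.Injective x → (∀ l, x l ∈ F l.1) →
      Cel.Adm (fun l => (x l).1) (fun l => (x l).2) →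
      ∃ σ : Fin k → Fin K0, good fun i => x (i, σ i)) →
    (Set.ncard {t : Fin k → ℕ × ℕ | (∀ i, t i ∈ F i) ∧
      (∀ p : ℕ, p.Prime → ∃ n : ℕ, ∀ i, ¬ p ∣ (t i).1 * n + (t i).2) ∧ ¬ good t} : ℝ) ≤
      C * (K : ℝ) ^ (-c) * ∏ i, ((F i).card : ℝ)

/-- the uniform cell theorem for normalised systems -/
def S_CellU : Prop :=
  ∀ M : ℕ, ∃ K K0 u w0 : ℕ, 0 < K ∧ 1 ≤ u ∧ ∀ (a b : Fin M × Fin K → ℕ) (v w : ℕ),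
    Nrm a b K0 v → 2 * v ≤ w → w0 ≤ w → ∃ n, w ^ u ≤ n ∧ n < 2 * w ^ u ∧ AllP2 a b n

/-- the uniform theorem -/
def S_MainU : Prop :=
  ∀ k : ℕ, ∃ (A : ℕ) (C c : ℝ), 0 < C ∧ 0 < c ∧ ∀ (H K : ℕ) (F : Fin k → Finset (ℕ × ℕ)),
    2 ≤ H → 1 ≤ K → (∀ i, K ≤ (F i).card) → (∀ i, ∀ x ∈ F i, 1 ≤ x.1 ∧ x.1 ≤ H ∧ x.2 ≤ H) →
    (Set.ncard {t : Fin k → ℕ × ℕ | (∀ i, t i ∈ F i) ∧
      (∀ p : ℕ, p.Prime → ∃ n : ℕ, ∀ i, ¬ p ∣ (t i).1 * n + (t i).2) ∧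
      ¬ ∃ n : ℕ, H ≤ n ∧ n ≤ H ^ A ∧
        ∀ i, ((t i).1 * n + (t i).2).primeFactorsList.length ≤ 2} : ℝ) ≤
      C * (K : ℝ) ^ (-c) * ∏ i, ((F i).card : ℝ)

end Pool.Agent.P.MP_746f10_nt.P2
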