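import Pool.Agent.P.MP_746f10_nt.P2.PosB

/-! Mean values of the weights with two coordinates sifted exactly; the variance argument. -/

set_option linter.unusedSectionVars false

namespace Pool.Agent.P.MP_746f10_nt.P2

open Finset

variable {ι : Type} [Fintype ι] [DecidableEq ι]

/-- the weight -/
noncomputable def WW (a b : ι → ℕ) (w s J R n : ℕ) : ℝ := rg a b w n * Fw a b w s J R univ n ^ 2

/-- indicator that the forms in `I` have no prime factor in `(w, R]` -/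
noncomputable def rho (a b : ι → ℕ) (w R : ℕ) (I : Finset ι) (n : ℕ) : ℝ :=
  ∏ p ∈ PP w R, (1 - ev a b I p n)

/-- its density -/
noncomputable def Vj (w R j : ℕ) : ℝ := ∏ p ∈ PP w R, (1 - (j : ℝ) / p)

lemma WW_nonneg (a b : ι → ℕ) (w s J R n : ℕ) : 0 ≤ WW a b w s J R n :=
  mul_nonneg (rg_nonneg _ _ _ _) (sq_nonneg _)

lemma rho_spec {a b : ι → ℕ} {w R : ℕ} {I : Finset ι} {n : ℕ} (h : rho a b w R I n ≠ 0) :
    ∀ p ∈ PP w R, ev a b I p n = 0 := fun p hp => by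
  have := prod_ne_zero_iff.1 h p hp
  rcases ev_01 (a := a) (b := b) I p n with h1 | h1
  · exact h1
  · rw [h1] at this; simp at this

lemma rho_01 (a b : ι → ℕ) (w R : ℕ) (I : Finset ι) (n : ℕ) :
    rho a b w R I n = 0 ∨ rho a b w R I n = 1 := by
  by_cases h : rho a b w R I n = 0
  · exact Or.inl h
  · exact Or.inr (prod_eq_one fun p hp => by rw [rho_spec h p hp, sub_zero])

lemma rho_empty (a b : ι → ℕ) (w R n : ℕ) : rho a b w R ∅ n = 1 :=
  prod_eq_one fun p _ => by rw [ev_eq_zero.2 (by simp), sub_zero]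

lemma rho_pair (a b : ι → ℕ) (w R n : ℕ) (i j : ι) :
    rho a b w R {i} n * rho a b w R {j} n = rho a b w R {i, j} n := by
  unfold rho
  rw [← prod_mul_distrib]
  refine prod_congr rfl fun p _ => ?_
  unfold ev
  by_cases h1 : p ∣ a i * n + b i <;> by_cases h2 : p ∣ a j * n + b j <;> simp [h1, h2]

lemma Vj_zero (w R : ℕ) : Vj w R 0 = 1 := by simp [Vj]

lemma Vj_nonneg (w R : ℕ) {j : ℕ} (hj : j ≤ 2) : 0 ≤ Vj w R j := prod_nonneg fun p hp => by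
  have h1 := PP_two hp
  have h2 : (j : ℝ) ≤ 2 := by exact_mod_cast hj
  rw [sub_nonneg, div_le_one (by linarith)]; linarith

lemma Vj_two_le (w R : ℕ) : Vj w R 2 ≤ Vj w R 1 ^ 2 := by
  unfold Vj
  rw [← prod_pow]
  refine prod_le_prod (fun p hp => ?_) fun p _ => ?_
  · have h1 := PP_two hp
    rw [sub_nonneg, div_le_one (by linarith)]; exact_mod_cast h1
  · push_cast
    have : (2 : ℝ) / p = 2 * (1 / p) := by ring
    rw [this]; nlinarith [sq_nonneg ((1 : ℝ) / p)]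

lemma Vj_one (w R : ℕ) : Vj w R 1 = (Th w R)⁻¹ := by
  unfold Vj Th
  rw [prod_inv_distrib, inv_inv]; simp

theorem ev_main {a b : ι → ℕ} {K0 v k w R D1 D2 e Lvl : ℕ} {ε ε2 Θ X E : ℝ} (hN : Nrm a b K0 v)
    (hk : Fintype.card ι = k) (hk3 : 3 ≤ k) (hK : 2 * (k + 3) ≤ K0) (hvw : v ≤ w) (hw : 3 ≤ w)
    (hwR : w ≤ R) (sv : SieveW (GP a w) D1 (k + 3) ε) (hε : 0 ≤ ε) (s2 : SieveW (PP w R) D2 2 ε2)
    {Ω : Finset ℕ} {μ : ℕ → ℝ} (h : HC a b Ω μ (GP a R) ∅ X (fun _ => 1) E Lvl) (hE : 0 ≤ E)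
    (hX : 0 ≤ X) (hμ : ∀ n ∈ Ω, 0 ≤ μ n) (s J : ℕ) {I : Finset ι} (hI : I.card ≤ 2)
    (hZ : R ^ 2 ≤ w ^ e) (hew : 3 * e ≤ w) (hL : D1 * (R ^ 2 * D2) ≤ Lvl) (hΘ : Th w R ≤ Θ) :
    |∑ n ∈ Ω, μ n * (WW a b w s J R n * rho a b w R I n) -
      X * Vk a w * (Vj w R I.card * JJ w s J R Iᶜ)| ≤
      ε2 * (X * Vk a w * (Vj w R I.card * JJ w s J R Iᶜ)) +
      Θ ^ (5 * k + 8) * (X * Vk a w * (3 * ε + 10 * e / w + 20 * (k : ℝ) ^ 2 / w) +
        (Lvl : ℝ) ^ 3 * E) := by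
  have : Nonempty ι := Fintype.card_pos_iff.1 (by omega)
  have hV : 0 < Vk a w := hN.Vk_pos (by omega) (by omega)
  have hI' : (I.card : ℝ) ≤ 2 := by exact_mod_cast hI
  have hee : ∀ p, ee (∅ : Finset ι) (fun _ => 1) I p = I.card / p := fun p => by
    simp [ee, div_eq_mul_inv]
  have hx : ∀ p ∈ PP w R, 0 ≤ ee (∅ : Finset ι) (fun _ => 1) I p ∧
      ee (∅ : Finset ι) (fun _ => 1) I p ≤ 2 / p ∧ ee (∅ : Finset ι) (fun _ => 1) I p ≤ 3 / 4 := by
    intro p hp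
    have h1 : (4 : ℝ) ≤ p := by exact_mod_cast (by have := (mem_PP.1 hp).1; omega : 4 ≤ p)
    rw [hee]
    refine ⟨by positivity, by gcongr, ?_⟩
    rw [div_le_iff₀ (by linarith)]; linarith
  have key : ∀ c : Finset ℕ → ℝ, (∀ T, |c T| ≤ 1) → (∀ T ⊆ PP w R, c T ≠ 0 → ∏ p ∈ T, p ≤ D2) →
      |∑ n ∈ Ω, μ n * rg a b w n * th2 (PP w R) c (fun p => ev a b I p n) *
        Fw a b w s J R Iᶜ n ^ 2 -
        X * Vk a w * th2 (PP w R) c (ee (∅ : Finset ι) (fun _ => 1) I) * JJ w s J R Iᶜ| ≤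
      Θ ^ (5 * k + 8) * (X * Vk a w * (3 * ε + 10 * e / w + 20 * (k : ℝ) ^ 2 / w) +
        (Lvl : ℝ) ^ 3 * E) := by
    intro c hc hcs
    have h1 := hN.master hk hk3 hK hvw hw hwR le_rfl h hE hX hμ sv hε
      (fun p _ => by rw [sub_self, abs_zero]; positivity) (fun _ _ => rfl) (θ := rg a b w)
      (fun n => ⟨le_rfl, sv.le_up _ fun p _ => ⟨ev_nonneg _ _ _, ev_le_one _ _ _⟩⟩) s J le_rfl
      (I := Iᶜ) (I2 := I) (disjoint_empty_left _) (by rwa [compl_compl])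
      (Or.inr (disjoint_empty_left _)) disjoint_compl_left
      (fun p hp => ⟨(hx p hp).1, (hx p hp).2.1.trans (by gcongr; norm_num)⟩) hc hcs hZ hew hL hΘ
    simp only [prod_const_one, mul_one] at h1
    refine h1.trans (mul_le_mul_of_nonneg_left (add_le_add le_rfl ?_)
      (pow_nonneg (zero_le_one.trans ((one_le_Th w R).trans hΘ)) _))
    have h2 : ((D1 * (R ^ 2 * D2) : ℕ) : ℝ) ≤ Lvl := by exact_mod_cast hL
    calc _ = ((D1 * (R ^ 2 * D2) : ℕ) : ℝ) * ((Lvl : ℝ) ^ 2 * E) := by push_cast; ring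
      _ ≤ Lvl * ((Lvl : ℝ) ^ 2 * E) := by gcongr
      _ = _ := by ring
  have hu := (abs_le.1 (key s2.up s2.abs_up s2.supp_up)).2
  have hl := (abs_le.1 (key s2.lo s2.abs_lo s2.supp_lo)).1
  have e1 : ∀ n, μ n * (WW a b w s J R n * rho a b w R I n) =
      μ n * rg a b w n * rho a b w R I n * Fw a b w s J R Iᶜ n ^ 2 := by
    intro n
    by_cases h0 : rho a b w R I n = 0
    · rw [h0]; simp
    · rw [WW, Fw_collapse a b w s J R (subset_univ Iᶜ) fun l _ hl p hp =>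
        ev_eq_zero.1 (rho_spec h0 p hp) l (by simpa using hl)]
      ring
  have h01 : ∀ n, ∀ p ∈ PP w R, 0 ≤ ev a b I p n ∧ ev a b I p n ≤ 1 :=
    fun n p _ => ⟨ev_nonneg _ _ _, ev_le_one _ _ _⟩
  have h3 : ∑ n ∈ Ω, μ n * (WW a b w s J R n * rho a b w R I n) ≤ ∑ n ∈ Ω, μ n * rg a b w n *
      th2 (PP w R) s2.up (fun p => ev a b I p n) * Fw a b w s J R Iᶜ n ^ 2 :=
    sum_le_sum fun n hn => by
      rw [e1]
      exact mul_le_mul_of_nonneg_right (mul_le_mul_of_nonneg_left (s2.le_up _ (h01 n))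
        (mul_nonneg (hμ n hn) (rg_nonneg _ _ _ _))) (sq_nonneg _)
  have h4 : ∑ n ∈ Ω, μ n * rg a b w n * th2 (PP w R) s2.lo (fun p => ev a b I p n) *
      Fw a b w s J R Iᶜ n ^ 2 ≤ ∑ n ∈ Ω, μ n * (WW a b w s J R n * rho a b w R I n) :=
    sum_le_sum fun n hn => by
      rw [e1]
      exact mul_le_mul_of_nonneg_right (mul_le_mul_of_nonneg_left (s2.lo_le _ (h01 n))
        (mul_nonneg (hμ n hn) (rg_nonneg _ _ _ _))) (sq_nonneg _)
  have e2 : ∏ p ∈ PP w R, (1 - ee (∅ : Finset ι) (fun _ => 1) I p) = Vj w R I.card :=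
    prod_congr rfl fun p _ => by rw [hee]
  have h5 := s2.up_le _ hx
  have h6 := s2.le_lo _ hx
  rw [e2] at h5 h6
  have h7 : 0 ≤ X * Vk a w * JJ w s J R Iᶜ :=
    mul_nonneg (mul_nonneg hX hV.le) (diag_nonneg AA_two _)
  have h8 := mul_le_mul_of_nonneg_left h5 h7
  have h9 := mul_le_mul_of_nonneg_left h6 h7
  unfold th2 at hu hl h3 h4
  rw [abs_le]
  constructor <;> nlinarith

open Classical in
/-- Chebyshev's inequality for the sum over a cell -/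
theorem var {K : ℕ} {Ω : Finset ℕ} {W : ℕ → ℝ} {Y : Fin K → ℕ → ℝ} {c dg pr ln tot : ℝ}
    (hW : ∀ n ∈ Ω, 0 ≤ W n) (hc : 0 < c) (hpr : 0 ≤ pr)
    (h1 : ∀ s, ∑ n ∈ Ω, Y s n ^ 2 * W n ≤ dg)
    (h2 : ∀ s t, s ≠ t → ∑ n ∈ Ω, Y s n * Y t n * W n ≤ pr)
    (h3 : ∀ s, ln ≤ ∑ n ∈ Ω, Y s n * W n) (h4 : ∑ n ∈ Ω, W n ≤ tot) :
    c ^ 2 * ∑ n ∈ Ω.filter (fun n => ∀ s, Y s n ≤ 0), W n ≤
      K * dg + K ^ 2 * pr - 2 * c * (K * ln) + c ^ 2 * tot := by
  have a1 : c ^ 2 * ∑ n ∈ Ω.filter (fun n => ∀ s, Y s n ≤ 0), W n ≤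
      ∑ n ∈ Ω, (∑ s, Y s n - c) ^ 2 * W n := by
    rw [mul_sum, sum_filter]
    refine sum_le_sum fun n hn => ?_
    split_ifs with h
    · have : ∑ s, Y s n ≤ 0 := sum_nonpos fun s _ => h s
      exact mul_le_mul_of_nonneg_right (by nlinarith) (hW n hn)
    · exact mul_nonneg (sq_nonneg _) (hW n hn)
  have a2 : ∑ n ∈ Ω, (∑ s, Y s n) ^ 2 * W n ≤ K * dg + K ^ 2 * pr := by
    calc ∑ n ∈ Ω, (∑ s, Y s n) ^ 2 * W n = ∑ s, ∑ t, ∑ n ∈ Ω, Y s n * Y t n * W n := by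
          simp only [sq, sum_mul_sum]
          simp only [sum_mul]
          rw [sum_comm]
          exact sum_congr rfl fun s _ => sum_comm
      _ ≤ ∑ s : Fin K, ∑ t : Fin K, ((if s = t then dg else 0) + pr) :=
          sum_le_sum fun s _ => sum_le_sum fun t _ => by
            split_ifs with e
            · subst e
              have := h1 s
              simp only [sq] at this
              linarith
            · rw [zero_add]; exact h2 s t e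
      _ = _ := by
          simp only [sum_add_distrib, sum_ite_eq, mem_univ, if_true, sum_const, card_univ,
            Fintype.card_fin, nsmul_eq_mul]
          ring
  have a3 : K * ln ≤ ∑ n ∈ Ω, (∑ s, Y s n) * W n := by
    simp only [sum_mul]
    rw [sum_comm]
    simpa using card_nsmul_le_sum univ _ ln fun s _ => h3 s
  have a4 : ∑ n ∈ Ω, (∑ s, Y s n - c) ^ 2 * W n = ∑ n ∈ Ω, (∑ s, Y s n) ^ 2 * W n -
      2 * c * ∑ n ∈ Ω, (∑ s, Y s n) * W n + c ^ 2 * ∑ n ∈ Ω, W n := by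
    rw [mul_sum, mul_sum, ← sum_sub_distrib, ← sum_add_distrib]
    exact sum_congr rfl fun n _ => by ring
  have a5 := mul_le_mul_of_nonneg_left a3 (show 0 ≤ 2 * c by linarith)
  have a6 := mul_le_mul_of_nonneg_left h4 (sq_nonneg c)
  linarith

end Pool.Agent.P.MP_746f10_nt.P2
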