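import Pool.Agent.P.MP_746f10_nt.P2.Scale
import Pool.Agent.P.MP_746f10_nt.Cel.Fin

/-! The choice of the parameters. -/

set_option linter.unusedSectionVars false

namespace Pool.Agent.P.MP_746f10_nt.P2

open Finset Filter Cel.Fin'

lemma le_of_pow4 {S R : ℝ} (h1 : 1 ≤ R) (h : S ^ 4 ≤ R) : S ≤ R ∧ S ^ 2 ≤ R := by
  constructor <;> nlinarith [sq_nonneg (S ^ 2 - 1), sq_nonneg (S - 1)]

open Classical in
theorem params (hD : S_Det) (hH : S_HC1) (hH2 : S_HC2) (hJ : Cel.S_JJ) (M q0 : ℕ) (hM : 1 ≤ M)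
    (hq0 : 10 ≤ q0) : ∃ K k J s' M1 q m' c0 u w0 : ℕ, 4 ≤ K ∧ k = M * K ∧ 1 ≤ s' ∧ q0 ≤ q ∧
      CM ≤ c0 ∧ 4 * 2 ^ J ≤ M1 ∧ 4 * q0 * k * (J + 1) * CM ≤ M1 ∧ u = q * (2 * s' * M1) * 2000 ∧
      (u + 1 : ℝ) ≤ 1 / q0 * K * ((J + 1) ^ 2 * (2 * s' : ℕ) / (8 * CM)) ∧
      ((c0 : ℝ) * u) ^ (5 * k + 8) * (3 * (1 / 2 ^ m')) ≤ 1 / (q0 * 4 ^ k) / 2 ∧
      (∀ (w : ℕ) (P : Finset ℕ), 2 ≤ w → (∀ p ∈ P, p.Prime ∧ p ≤ w) →
        Nonempty (SieveW P (w ^ (2 * s')) (k + 3) (1 / 2 ^ m'))) ∧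
      ∀ (a b : Fin M × Fin K → ℕ) (v w : ℕ), Nrm a b (2 * (k + 3)) v → 2 * v ≤ w → w0 ≤ w →
        ∑ n ∈ (Ico (w ^ u) (2 * w ^ u)).filter (fun n => ¬ AllP2 a b n),
          WW a b w (2 * s') J (w ^ (2 * s' * M1)) n ≤ (12 * M + 1) * (1 / q0) *
            ((w : ℝ) ^ u * Vk a w * a2 w (2 * s') J (w ^ (2 * s' * M1)) ^ k) ∧
        (w : ℝ) ^ u * Vk a w * (JJ w (2 * s') J (w ^ (2 * s' * M1))
          (univ : Finset (Fin M × Fin K)) - 2 * (1 / q0) * a2 w (2 * s') J (w ^ (2 * s' * M1)) ^ k) ≤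
          ∑ n ∈ Ico (w ^ u) (2 * w ^ u), WW a b w (2 * s') J (w ^ (2 * s' * M1)) n := by
  obtain ⟨C0, hC0, hD⟩ := hD
  obtain ⟨C, hC, hH2⟩ := hH2
  obtain ⟨c0, hc0⟩ : ∃ c0 : ℕ, CM ≤ c0 := ⟨_, Nat.le_ceil _⟩
  obtain ⟨c1, hc1⟩ : ∃ c1 : ℕ, C0 ≤ c1 := ⟨_, Nat.le_ceil _⟩
  have hCM := one_le_CM
  have hc01 : 1 ≤ c0 := by exact_mod_cast hCM.trans hc0
  have hc0' : (1 : ℝ) ≤ c0 := hCM.trans hc0
  obtain ⟨k2, hk2⟩ := exists_sieve 2 (by norm_num)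
  obtain ⟨m2, hm2⟩ := pow_le (q0 * c1 ^ 4) (29 + 12 * k2 + q0) 12 4
  obtain ⟨q, hq⟩ : ∃ q, q = 29 + 12 * k2 + q0 + 12 * m2 := ⟨_, rfl⟩
  obtain ⟨s2, hs2⟩ : ∃ s2, s2 = 4 * (k2 + m2) + 6 := ⟨_, rfl⟩
  rw [← hq] at hm2
  obtain ⟨Λ, R0, hD⟩ := hD q (by omega)
  obtain ⟨T, hT⟩ : ∃ T : ℝ, T = C0 * q := ⟨_, rfl⟩
  have hq' : (1 : ℝ) ≤ q := by exact_mod_cast (by omega : 1 ≤ q)
  have hq0' : (10 : ℝ) ≤ q0 := by exact_mod_cast hq0
  have hT1 : 1 ≤ T := hT ▸ one_le_mul_of_one_le_of_one_le hC0 hq'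
  have hTc : T ≤ c1 * q := by rw [hT]; gcongr
  obtain ⟨J, hJ1⟩ : ∃ J : ℕ, 96 * Λ ^ 2 * T ^ 2 * q0 ^ 2 * M * c0 ^ 3 +
    64032 * q * q0 ^ 2 * M * c0 ^ 2 + 2 ≤ J := ⟨_, Nat.le_ceil _⟩
  have z1 : (0 : ℝ) ≤ 96 * Λ ^ 2 * T ^ 2 * q0 ^ 2 * M * c0 ^ 3 := by positivity
  have z2 : (0 : ℝ) ≤ 64032 * q * q0 ^ 2 * M * c0 ^ 2 := by positivity
  have hJ2 : 2 ≤ J := by exact_mod_cast (by linarith : (2 : ℝ) ≤ J)
  obtain ⟨K, hK⟩ : ∃ K, K = 2 ^ J := ⟨_, rfl⟩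
  have hK4 : 4 ≤ K := hK ▸ (Nat.pow_le_pow_right two_pos hJ2 : 2 ^ 2 ≤ 2 ^ J)
  obtain ⟨k, hk⟩ : ∃ k, k = M * K := ⟨_, rfl⟩
  have hKk : K ≤ k := hk ▸ Nat.le_mul_of_pos_left _ (by omega)
  obtain ⟨k0, hk0⟩ := exists_sieve (k + 3) (by positivity)
  obtain ⟨M1, hM1⟩ : ∃ M1, M1 = 4 * q0 * k * (J + 1) * c0 := ⟨_, rfl⟩
  have hkM : 4 * k ≤ M1 := by
    have : 1 ≤ q0 * (J + 1) * c0 := Nat.mul_pos (by positivity) hc01
    rw [hM1]; nlinarith only [this]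
  obtain ⟨m', hm'⟩ := pow_le (30 * q0 * 4 ^ k * (c1 * q) ^ 4) (c0 * q * M1 * 2000 * (4 * k0 + 6))
    (c0 * q * M1 * 2000 * 4) (5 * k + 10)
  obtain ⟨s', hs⟩ : ∃ s', s' = 2 * (k0 + m') + 3 := ⟨_, rfl⟩
  obtain ⟨r, hr⟩ : ∃ r, r = 2 * s' * M1 := ⟨_, rfl⟩
  obtain ⟨u, hu⟩ : ∃ u, u = q * r * 2000 := ⟨_, rfl⟩
  obtain ⟨Θ, hΘ⟩ : ∃ Θ : ℝ, Θ = c0 * u := ⟨_, rfl⟩
  have hsM : 2 * s' ≤ r := hr ▸ Nat.le_mul_of_pos_right _ (by omega)
  have hru : r ≤ u := by rw [hu]; nlinarith only [(by omega : 1 ≤ q)]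
  have hr' : (1 : ℝ) ≤ r := by exact_mod_cast (by omega : 1 ≤ r)
  have hΘ1 : 1 ≤ Θ := hΘ ▸ one_le_mul_of_one_le_of_one_le hc0' (by exact_mod_cast (by omega : 1 ≤ u))
  have hm3 : 30 * q0 * 4 ^ k * T ^ 4 * Θ ^ (5 * k + 10) ≤ 2 ^ m' := by
    rw [show c0 * q * M1 * 2000 * (4 * k0 + 6) + c0 * q * M1 * 2000 * 4 * m' = c0 * u by
      rw [hu, hr, hs]; ring] at hm'
    calc _ ≤ 30 * q0 * 4 ^ k * ((c1 : ℝ) * q) ^ 4 * Θ ^ (5 * k + 10) := by gcongr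
      _ ≤ _ := by rw [hΘ]; exact_mod_cast hm'
  obtain ⟨η, hη⟩ : ∃ η : ℝ, η = 1 / (q0 * 4 ^ k * (5 * T ^ 4 * Θ ^ 2)) := ⟨_, rfl⟩
  have hη0 : 0 < η := by rw [hη]; positivity
  have h1 : Θ ^ (5 * k + 8) * (3 * (1 / 2 ^ m')) ≤ η / 2 := by
    rw [hη, mul_one_div, mul_div_assoc', div_div, div_le_div_iff₀ (by positivity) (by positivity)]
    refine le_trans (le_of_eq ?_) (hm3.trans_eq (one_mul _).symm)
    ring
  have hM2 : 4 * q0 * k * (J + 1) * CM ≤ M1 := by rw [hM1]; push_cast; gcongr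
  have hK' : (0 : ℝ) < K := by exact_mod_cast (by omega : 0 < K)
  obtain ⟨w0, hw0⟩ := eventually_atTop.1 (((((eventually_ge_atTop (6 + 6 * r + R0)).and
    (tendsto_natCast_atTop_atTop.eventually_ge_atTop
      (2 * Θ ^ (5 * k + 8) * (10 * (2 * r : ℕ) + 20 * (k : ℝ) ^ 2) / η))).and
    (ev_pow (Θ ^ (5 * k + 8) * (2 + C) * CM ^ (2 * k) / η) (2 * k))).and
    (ev_pow ((Θ ^ k * 2 ^ (k * (q * r * 2001))) ^ 2 * (k * 2) * CM ^ (2 * k) / η) (2 * k))).and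
    (ev_pow ((2 * C * T ^ 2 * q0) ^ 2 * (2 * q * r) ^ 8) 8))
  refine ⟨K, k, J, s', M1, q, m', c0, u, w0, hK4, hk, by omega, by omega, hc0, by omega, hM2,
    by rw [hu, hr], ?_, ?_, fun w P hw hP => ?_, fun a b v w hN hv hw => ?_⟩
  · have h2 : (u + 1 : ℝ) ≤ 2001 * q * (2 * s' * M1) := by
      have : u + 1 ≤ 2001 * q * r := by
        have : 1 ≤ q * r := Nat.mul_pos (by omega) (by omega)
        rw [hu]; nlinarith only [this]
      rw [hr] at this; exact_mod_cast this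
    calc _ ≤ _ := h2
      _ = 1 / q0 * K * ((J + 1) * (64032 * q * q0 ^ 2 * M * c0 ^ 2) * (2 * s' : ℕ) / (8 * c0)) := by
          rw [hM1, hk]; push_cast; field_simp; ring
      _ ≤ _ := by rw [sq ((J : ℝ) + 1)]; gcongr; linarith
  · rw [← hΘ]
    refine h1.trans ?_
    rw [hη]
    refine div_le_div_of_nonneg_right (one_div_le_one_div_of_le (by positivity)
      (le_mul_of_one_le_right (by positivity) ?_)) two_pos.le
    have := one_le_mul_of_one_le_of_one_le (one_le_pow₀ (n := 4) hT1) (one_le_pow₀ (n := 2) hΘ1)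
    linarith
  · rw [show 2 * s' = 4 * (k0 + m') + 6 by omega]; exact hk0 m' w P hw hP
  obtain ⟨⟨⟨⟨w1, w2⟩, w3⟩, w4⟩, w5⟩ := hw0 w hw
  have hcard : Fintype.card (Fin M × Fin K) = k := by simp [hk]
  have : Nonempty (Fin M × Fin K) := Fintype.card_pos_iff.1 (by omega)
  have hw' : (6 : ℝ) ≤ w := by exact_mod_cast (by omega : 6 ≤ w)
  have lw : 1 ≤ Real.log w := by
    rw [Real.le_log_iff_exp_le (by linarith)]; linarith [Real.exp_one_lt_d9]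
  have hV := Vk_ge' hN (by omega) (show 2 ≤ w by omega)
  rw [hcard] at hV
  obtain ⟨sv⟩ := hk0 m' w (GP a w) (by omega) fun p hp => ⟨(mem_GP.1 hp).2.1, (mem_GP.1 hp).1⟩
  rw [show 4 * (k0 + m') + 6 = 2 * s' by omega] at sv
  obtain ⟨R, hR⟩ : ∃ R, R = w ^ r := ⟨_, rfl⟩
  have hwR : w ≤ R := hR ▸ Nat.le_self_pow (by omega) w
  obtain ⟨sw⟩ := hk2 m2 R (PP w R) (by omega) fun p hp => ⟨PP_prime hp, (mem_PP.1 hp).2.1⟩
  rw [← hs2] at sw
  obtain ⟨G1, G2, κ1, κ2, S, g1, g2, g3, g4, g5, g6, g7⟩ := hD R (by omega)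
  obtain ⟨X, hX⟩ : ∃ X, X = R ^ q := ⟨_, rfl⟩
  rw [← hX] at g1 g2 g6 g7
  rw [← hT] at g4 g5
  have hRX : R ≤ X := hX ▸ Nat.le_self_pow (by omega) R
  have hR' : (w : ℝ) ≤ R := by exact_mod_cast hwR
  have hX' : (R : ℝ) ≤ X := by exact_mod_cast hRX
  have hXu : X ^ 2000 = w ^ u := by rw [hX, hR, hu, ← pow_mul, ← pow_mul, ← mul_assoc, mul_comm r]
  have hS := g1.wt_nonneg
  obtain ⟨g8, g9⟩ := le_of_pow4 (by linarith) g3
  have hL : w ^ (2 * s') * (R ^ 2 * R ^ s2) ≤ R ^ (3 + s2) := by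
    rw [show 3 + s2 = 1 + (2 + s2) by ring, pow_add R 1, pow_add R 2, pow_one]
    exact Nat.mul_le_mul_right _ (hR ▸ Nat.pow_le_pow_right (by omega) hsM)
  have hX9 : (1 : ℝ) ≤ (X : ℝ) ^ 1999 := one_le_pow₀ (by linarith)
  have hV0 : 0 ≤ Vk a w := le_trans (by positivity) hV
  have e9 : (X : ℝ) ^ 2000 = X * X ^ 1999 := by rw [← pow_succ']
  have hSd : Sd a b (2 * (k + 3)) v k w (2 * s') R X (R ^ s2) (2 * r) (q * r * 2001) (R ^ (3 + s2))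
      (1 / 2 ^ m') Θ η ((2 + C) * R * (X : ℝ) ^ 1999) :=
    { hN := hN, hk := hcard, hk3 := by omega, hK := le_rfl, hvw := hv, hw := by omega, hwR := hwR,
      hRX := hRX, hX6 := by omega, hε := by positivity, hew := by omega, hL := hL, hη := hη0.le
      hZ := by rw [hR, ← pow_mul, mul_comm]
      hLX := by
        calc _ ≤ R * R ^ (3 + s2) := Nat.mul_le_mul_right _ hwR
          _ ≤ _ := by rw [← pow_succ', hX]; exact Nat.pow_le_pow_right (by omega) (by omega)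
      he' := by rw [hX, hR, ← pow_mul, ← pow_mul, ← mul_assoc, mul_comm r]
      hΘ := by
        rw [hΘ, hR]; exact (Th_le_pow (by omega) (by omega)).trans (by gcongr)
      hEm := one_le_mul_of_one_le_of_one_le
        (one_le_mul_of_one_le_of_one_le (by linarith) (by linarith)) hX9
      hδ := by
        have h2 : Θ ^ (5 * k + 8) * ((10 * (2 * r : ℕ) + 20 * (k : ℝ) ^ 2) / w) ≤ η / 2 := by
          rw [div_le_iff₀ hη0] at w2
          rw [mul_div_assoc', div_le_div_iff₀ (by linarith) (by norm_num)]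
          linarith
        rw [add_div] at h2
        linarith
      hE := by
        have h2 : ((R ^ (3 + s2) : ℕ) : ℝ) ^ 3 * R * w ≤ X := by
          have : (R ^ (3 + s2)) ^ 3 * R * w ≤ X := by
            calc _ ≤ (R ^ (3 + s2)) ^ 3 * R * R := Nat.mul_le_mul_left _ hwR
              _ ≤ _ := by
                rw [← pow_mul, ← pow_succ, ← pow_succ, hX]
                exact Nat.pow_le_pow_right (by omega) (by omega)
          exact_mod_cast this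
        rw [div_mul_eq_mul_div, div_le_iff₀ hη0] at w3
        rw [e9]
        generalize (X : ℝ) ^ 1999 = y at hX9
        have h3 : (0 : ℝ) ≤ ((R ^ (3 + s2) : ℕ) : ℝ) ^ 3 := by positivity
        generalize ((R ^ (3 + s2) : ℕ) : ℝ) ^ 3 = z at h2 h3
        calc _ = Θ ^ (5 * k + 8) * (2 + C) * CM ^ (2 * k) * Real.log w ^ (2 * k) *
              (1 / (CM * Real.log w) ^ (2 * k)) * (z * R * y) := by
              simp only [mul_pow]; field_simp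
          _ ≤ w * η * Vk a w * (z * R * y) := by gcongr
          _ = η * (z * R * w * y * Vk a w) := by ring
          _ ≤ _ := by gcongr
      hSq := by
        rw [div_mul_eq_mul_div, div_le_iff₀ hη0] at w4
        rw [e9]
        generalize (X : ℝ) ^ 1999 = y at hX9
        generalize (Θ ^ k * 2 ^ (k * (q * r * 2001))) ^ 2 = z at w4
        calc _ = z * (k * 2) * CM ^ (2 * k) * Real.log w ^ (2 * k) *
              (1 / (CM * Real.log w) ^ (2 * k)) * y := by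
              simp only [mul_pow]; field_simp
          _ ≤ w * η * Vk a w * y := by gcongr
          _ ≤ X * η * Vk a w * y := by gcongr; linarith
          _ = _ := by ring }
  have b1 : S * (X : ℝ) ^ 1096 ≤ (2 + C) * R * (X : ℝ) ^ 1999 :=
    mul_le_mul (g8.trans (le_mul_of_one_le_left (by linarith) (by linarith)))
      (pow_le_pow_right₀ (by linarith) (by norm_num)) (pow_nonneg X.cast_nonneg _) (by positivity)
  have b2 : C * S ^ 2 * (X : ℝ) ^ 1999 ≤ (2 + C) * R * (X : ℝ) ^ 1999 :=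
    mul_le_mul_of_nonneg_right (mul_le_mul (by linarith) g9 (by positivity) (by positivity))
      (by positivity)
  have b3 : 2 * (C * S ^ 2 * (1 + Real.log X) ^ 4 / R) * T ^ 2 ≤ 1 / q0 := by
    have l1 : Real.log X = q * r * Real.log w := by
      rw [hX, hR]; push_cast; rw [Real.log_pow, Real.log_pow]; ring
    have l2 : 1 + Real.log X ≤ 2 * q * r * Real.log w := by
      have := one_le_mul_of_one_le_of_one_le (one_le_mul_of_one_le_of_one_le hq' hr') lw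
      rw [l1]; linarith
    have l0 := Real.log_natCast_nonneg X
    have l3 : 2 * C * T ^ 2 * q0 * (1 + Real.log X) ^ 4 * S ^ 2 ≤ R := by
      refine le_of_sq_le_sq ?_ (by positivity)
      calc _ = (2 * C * T ^ 2 * q0) ^ 2 * (1 + Real.log X) ^ 8 * S ^ 4 := by ring
        _ ≤ (2 * C * T ^ 2 * q0) ^ 2 * (2 * q * r * Real.log w) ^ 8 * R := by gcongr
        _ ≤ R * R := by
            rw [mul_pow _ (Real.log w), ← mul_assoc]
            exact mul_le_mul_of_nonneg_right (w5.trans hR') (by positivity)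
        _ = _ := by ring
    calc _ = 2 * C * T ^ 2 * q0 * (1 + Real.log X) ^ 4 * S ^ 2 / R * (1 / q0) := by field_simp
      _ ≤ 1 * (1 / q0) := by gcongr; exact div_le_one_of_le₀ l3 (by positivity)
      _ = _ := one_mul _
  subst hR hr
  have key := scale hH hJ (q0 := q0) (J := J) (T := T) (Λ := Λ) hSd sv sw g1 g2 b1
    (fun G G' κ κ' p1 p2 => by
      obtain ⟨κ'', p3, p4, p5, p6⟩ := hH2 _ X G G' κ κ' S (by omega) (by omega) p1 p2
      exact ⟨κ'', p3, p4, p5, fun a1 b1 a2 b2' q c N x1 x2 x3 x4 x5 x6 x7 x8 x9 =>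
        (p6 a1 b1 a2 b2' q c N x1 x2 x3 x4 x5 x6 x7 x8 x9).trans b2⟩)
    hT1 g4 g5 g6 g7 hq0 (by omega) (by omega) hM2 (by positivity) (by
      rw [one_div_mul_eq_div, div_le_div_iff₀ (by positivity) (by positivity), one_mul]
      calc _ ≤ ((c1 : ℝ) * q) ^ 4 * q0 := by gcongr
        _ = q0 * c1 ^ 4 * q ^ 4 := by ring
        _ ≤ _ := by exact_mod_cast hm2)
    (le_of_eq (by rw [hη, one_div_pow]; field_simp)) b3 (by
      calc _ ≤ 3 * Λ ^ 2 * T ^ 2 * (8 * c0 ^ 2 * M1) := by gcongr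
        _ = 1 / q0 * K * ((J + 1) * (96 * Λ ^ 2 * T ^ 2 * q0 ^ 2 * M * c0 ^ 3)) := by
            rw [hM1, hk]; push_cast; field_simp; ring
        _ ≤ _ := by rw [sq ((J : ℝ) + 1)]; gcongr; linarith) (by omega)
  have e8 : (X : ℝ) ^ 2000 = (w : ℝ) ^ u := by exact_mod_cast hXu
  rwa [Om, hXu, e8] at key

theorem pCellU (hD : S_Det) (hH : S_HC1) (hH2 : S_HC2) (hJ : Cel.S_JJ) : S_CellU := by
  classical
  intro M
  rcases Nat.eq_zero_or_pos M with rfl | hM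
  · exact ⟨1, 0, 1, 1, one_pos, le_rfl, fun a b v w _ _ hw =>
      ⟨w ^ 1, le_rfl, by rw [pow_one]; omega, fun i => i.elim0⟩⟩
  obtain ⟨K, k, J, s, M1, q, m', c0, u, w0, hK, hk, hs, hq, -, h1, h2, hu, -, -, -, h⟩ :=
    params hD hH hH2 hJ M (20 * M + 10) hM (by omega)
  have hM1 : 1 ≤ M1 := le_trans (Nat.one_le_iff_ne_zero.2 (by positivity)) h1
  refine ⟨K, 2 * (k + 3), u, w0 + 2, by omega, ?_, fun a b v w hN hv hw => ?_⟩
  · rw [hu]; exact Nat.mul_pos (Nat.mul_pos (by omega) (Nat.mul_pos (by omega) hM1)) (by norm_num)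
  obtain ⟨h3, h4⟩ := h a b v w hN hv (by omega)
  by_contra! hc
  rw [filter_true_of_mem fun n hn => hc n (mem_Ico.1 hn).1 (mem_Ico.1 hn).2] at h3
  have hcard : Fintype.card (Fin M × Fin K) = k := by simp [hk]
  have : Nonempty (Fin M × Fin K) := ⟨(⟨0, hM⟩, ⟨0, by omega⟩)⟩
  have h5 := hJ (Fin M × Fin K) w (2 * s) J M1 (20 * M + 10) univ (by omega) (by omega) (by omega)
    (by simp) h1 (by rw [hcard]; exact h2)
  rw [compl_univ, card_empty, pow_zero, one_mul, card_univ, hcard] at h5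
  have A2 := a2_pos (w := w) (show 2 ≤ w by omega) (show 1 ≤ 2 * s by omega) J
    (show w ^ (2 * s) ≤ w ^ (2 * s * M1) from
      Nat.pow_le_pow_right (by omega) (Nat.le_mul_of_pos_right _ hM1))
  have hV := hN.Vk_pos (w := w) (by omega) (by omega)
  have hw' : (0 : ℝ) < w := by exact_mod_cast (by omega : 0 < w)
  have hx : 0 < (w : ℝ) ^ u * Vk a w := by positivity
  have h6 := mul_le_mul_of_nonneg_left h5 hx.le
  have h7 := mul_pos hx (pow_pos A2 k)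
  have h8 : (12 * M + 4) * (1 / ((20 * M + 10 : ℕ) : ℝ)) < 1 := by
    rw [mul_one_div, div_lt_one (by positivity)]; push_cast
    linarith [(Nat.cast_nonneg M : (0 : ℝ) ≤ M)]
  have h9 := mul_lt_mul_of_pos_right h8 h7
  linarith

end Pool.Agent.P.MP_746f10_nt.P2
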