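import Pool.Agent.P.MP_746f10_nt.P2.Defs
import Pool.Agent.P.MP_79de8b_nt.Basic

/-! Opening the square in the dispersion estimate. -/

namespace Pool.Agent.P.MP_746f10_nt.P2

open Finset
open scoped ComplexConjugate

namespace KB1P

theorem sq_le {ι α : Type} (A : Finset α) (U : Finset ι) (g : ι → ℂ) (F : α → ι → ℂ)
    (K : ι → ι → ℝ) (hK : ∀ u ∈ U, ∀ v ∈ U, ‖∑ a ∈ A, F a u * conj (F a v)‖ ≤ K u v) :
    ∑ a ∈ A, ‖∑ u ∈ U, g u * F a u‖ ^ 2 ≤ ∑ u ∈ U, ∑ v ∈ U, ‖g u‖ * ‖g v‖ * K u v := by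
  have e : ((∑ a ∈ A, ‖∑ u ∈ U, g u * F a u‖ ^ 2 : ℝ) : ℂ) =
      ∑ u ∈ U, ∑ v ∈ U, g u * conj (g v) * ∑ a ∈ A, F a u * conj (F a v) := by
    have e0 : ∀ a, ((‖∑ u ∈ U, g u * F a u‖ : ℝ) : ℂ) ^ 2 =
        ∑ u ∈ U, ∑ v ∈ U, g u * conj (g v) * (F a u * conj (F a v)) := by
      intro a
      rw [← Complex.mul_conj', map_sum, sum_mul_sum]
      exact sum_congr rfl fun u _ => sum_congr rfl fun v _ => by rw [map_mul]; ring
    push_cast
    simp only [e0, mul_sum]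
    rw [sum_comm]
    exact sum_congr rfl fun u _ => sum_comm
  refine (le_abs_self _).trans ?_
  rw [← Real.norm_eq_abs, ← Complex.norm_real, e]
  refine norm_sum_le_of_le _ fun u hu => norm_sum_le_of_le _ fun v hv => ?_
  rw [norm_mul, norm_mul, Complex.norm_conj]
  exact mul_le_mul_of_nonneg_left (hK u hu v hv) (by positivity)

/-- one term of the sum -/
noncomputable def T (a1 c a b d k : ℕ) (h : ℤ) : ℂ :=
  if (a * b).Coprime (c * d) then
    MR.ex (((h * ((k : ℤ) * MR.iv (a * b) (a1 * c * d)) : ℤ) : ℝ) / (a1 * c * d : ℕ)) else 0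

theorem norm_T (a1 c a b d k : ℕ) (h : ℤ) : ‖T a1 c a b d k h‖ ≤ 1 := by
  unfold T; split_ifs <;> simp

theorem phase {q e Q a b : ℕ} (x : ℤ) (hQ : 0 < Q) (hq : Q = q * e) (ha : a.Coprime Q)
    (hb : b.Coprime q) : MR.ex (((x * MR.iv (a * b) q : ℤ) : ℝ) / q) =
      MR.ex (((x * MR.iv b q * e * MR.iv a Q : ℤ) : ℝ) / Q) := by
  have h0 : 0 < q := Nat.pos_of_mul_pos_right (hq ▸ hQ)
  have h1 : 0 < e := Nat.pos_of_mul_pos_left (hq ▸ hQ)
  have h2 : MR.iv (a * b) q ≡ MR.iv a Q * MR.iv b q [MOD q] := by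
    refine MR.iv_modEq_of_mul h0 ?_
    have := ((MR.mul_iv hQ ha).of_dvd (Dvd.intro e hq.symm)).mul (MR.mul_iv h0 hb)
    rwa [mul_mul_mul_comm] at this
  have h3 : (MR.iv (a * b) q : ℤ) ≡ MR.iv a Q * MR.iv b q [ZMOD q] := by
    exact_mod_cast Int.natCast_modEq_iff.2 h2
  rw [MR.ex_congr (h3.mul_left x)]
  congr 1
  have h4 : (e : ℝ) ≠ 0 := by positivity
  have h5 : (q : ℝ) ≠ 0 := by positivity
  generalize MR.iv a Q = i
  rw [hq]
  push_cast
  field_simp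

theorem gcd_le {c m k : ℕ} {r t s : ℤ} (hc : 0 < c) (hm : 0 < m) (hk : k.Coprime c)
    (h : r * s ≡ k * t [ZMOD c]) :
    ((r.gcd (c * m : ℕ) : ℕ) : ℝ) / (c * m : ℕ) ≤ ((t.gcd c : ℕ) : ℝ) / c := by
  have h1 : r.gcd (c * m : ℕ) ≤ r.gcd c * m := by
    have : r.gcd (c * m : ℕ) ∣ r.gcd c * m :=
      (gcd_mul_dvd_mul_gcd r.natAbs c m).trans (Nat.mul_dvd_mul_left _ (Nat.gcd_dvd_right _ _))
    exact Nat.le_of_dvd (Nat.mul_pos (Nat.gcd_pos_of_pos_right _ hc) hm) this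
  have h2 : ((r.gcd c : ℕ) : ℤ) ∣ k * t := by
    have := dvd_add ((Int.gcd_dvd_right r c).trans h.dvd) ((Int.gcd_dvd_left r c).mul_right s)
    simpa using this
  have h3 : ((r.gcd c : ℕ) : ℤ) ∣ t := by
    refine IsCoprime.dvd_of_dvd_mul_left ?_ h2
    exact (Nat.isCoprime_iff_coprime.2 hk.symm).of_isCoprime_of_dvd_left (Int.gcd_dvd_right r c)
  have h4 : r.gcd c ≤ t.gcd c :=
    Nat.le_of_dvd (Nat.gcd_pos_of_pos_right _ hc) (Int.dvd_gcd h3 (Int.gcd_dvd_right r c))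
  have h5 : ((r.gcd (c * m : ℕ) : ℕ) : ℝ) ≤ ((t.gcd c : ℕ) : ℝ) * m := by
    exact_mod_cast h1.trans (Nat.mul_le_mul_right m h4)
  rw [div_le_div_iff₀ (by positivity) (by positivity)]
  push_cast at h5 ⊢
  nlinarith [(by positivity : (0 : ℝ) < c)]

theorem pair (h : S_IK) {a1 c x1 x2 b1 d1 k1 b2 d2 k2 : ℕ} (h1 h2 : ℤ) (ha1 : 1 ≤ a1) (hc : 1 ≤ c)
    (hb1 : b1.Coprime a1) (hb2 : b2.Coprime a1) (hd1 : 1 ≤ d1) (hd2 : 1 ≤ d2) (hk : k1.Coprime c)
    (hkk : k1 ≡ k2 [MOD c]) :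
    ‖∑ a ∈ (Ico x1 x2).filter (fun a => a.Coprime a1),
      T a1 c a b1 d1 k1 h1 * conj (T a1 c a b2 d2 k2 h2)‖ ≤
      kb (a1 * c * d1 * d2) c (x2 - x1) (h1 * b2 * d2 - h2 * b1 * d1) := by
  unfold kb
  split_ifs with ht
  · refine (norm_sum_le_of_le _ (n := fun _ => 1) fun a _ => ?_).trans ?_
    · rw [norm_mul, Complex.norm_conj]
      exact mul_le_one₀ (norm_T ..) (norm_nonneg _) (norm_T ..)
    · rw [sum_const, nsmul_one]
      exact_mod_cast (card_filter_le _ _).trans (Nat.card_Ico _ _).le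
  have hQ : 0 < a1 * c * d1 * d2 := by positivity
  have hτ : 0 ≤ MR.tau (a1 * c * d1 * d2) := Nat.cast_nonneg _
  by_cases hb : b1.Coprime (c * d1) ∧ b2.Coprime (c * d2)
  swap
  · rw [sum_eq_zero, norm_zero]
    · have := Real.log_natCast_nonneg (a1 * c * d1 * d2)
      positivity
    intro a _
    unfold T
    split_ifs with e1 e2
    · exact absurd ⟨Nat.Coprime.coprime_mul_left e1, Nat.Coprime.coprime_mul_left e2⟩ hb
    all_goals simp
  have e1 : b1.Coprime (a1 * c * d1) := by rw [mul_assoc]; exact hb1.mul_right hb.1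
  have e2 : b2.Coprime (a1 * c * d2) := by rw [mul_assoc]; exact hb2.mul_right hb.2
  set r : ℤ := h1 * k1 * MR.iv b1 (a1 * c * d1) * d2 - h2 * k2 * MR.iv b2 (a1 * c * d2) * d1 with hr
  have e3 : ∑ a ∈ (Ico x1 x2).filter (fun a => a.Coprime a1),
      T a1 c a b1 d1 k1 h1 * conj (T a1 c a b2 d2 k2 h2) =
      ∑ a ∈ (Ico x1 x2).filter (fun a => a.Coprime (a1 * c * d1 * d2)),
        MR.ex (((r * MR.iv a (a1 * c * d1 * d2) : ℤ) : ℝ) / (a1 * c * d1 * d2 : ℕ)) := by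
    rw [sum_filter, sum_filter]
    refine sum_congr rfl fun a _ => ?_
    by_cases ha : a.Coprime (a1 * c * d1 * d2)
    · have f := ha
      simp only [Nat.coprime_mul_iff_right] at f
      rw [if_pos ha, if_pos f.1.1.1, T, T, if_pos ((f.1.1.2.mul_right f.1.2).mul_left hb.1),
        if_pos ((f.1.1.2.mul_right f.2).mul_left hb.2), ← mul_assoc h1, ← mul_assoc h2,
        phase _ hQ rfl ha e1, phase (e := d1) _ hQ (by ring) ha e2, ← MR.ex_sub, hr]
      congr 1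
      push_cast
      ring
    · rw [if_neg ha]
      split_ifs with f
      · unfold T
        split_ifs with f1 f2
        · have g1 := Nat.coprime_mul_iff_right.1 (Nat.Coprime.coprime_mul_right f1)
          have g2 := Nat.coprime_mul_iff_right.1 (Nat.Coprime.coprime_mul_right f2)
          exact absurd (((f.mul_right g1.1).mul_right g1.2).mul_right g2.2) ha
        all_goals simp
      · rfl
  rw [e3]
  refine (h _ x1 x2 r hQ).trans ?_
  have c1 : (b1 : ℤ) * MR.iv b1 (a1 * c * d1) ≡ 1 [ZMOD c] :=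
    (MR.mul_iv_int (by positivity) e1).of_dvd ⟨a1 * d1, by push_cast; ring⟩
  have c2 : (b2 : ℤ) * MR.iv b2 (a1 * c * d2) ≡ 1 [ZMOD c] :=
    (MR.mul_iv_int (by positivity) e2).of_dvd ⟨a1 * d2, by push_cast; ring⟩
  have c3 : (k2 : ℤ) ≡ k1 [ZMOD c] := Int.natCast_modEq_iff.2 hkk.symm
  have c4 : r * (b1 * b2) ≡ k1 * (h1 * b2 * d2 - h2 * b1 * d1) [ZMOD c] := by
    have := (c1.mul_left (h1 * k1 * d2 * b2)).sub ((c3.mul c2).mul_left (h2 * d1 * b1))
    convert this using 1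
    · rw [hr]; ring
    · ring
  have c5 := gcd_le (m := a1 * d1 * d2) hc (by positivity) hk c4
  rw [show c * (a1 * d1 * d2) = a1 * c * d1 * d2 by ring] at c5
  gcongr

end KB1P

open KB1P in
theorem pKB1 (h : S_IK) : S_KB1 := by
  intro a1 c x1 x2 H B D γ κ ha1 hc hB hD
  refine le_trans (le_of_eq ?_) (sq_le ((Ico x1 x2).filter fun a => a.Coprime a1)
    (B ×ˢ D ×ˢ Icc (-(H : ℤ)) H) (fun u => γ u.1 u.2.1 u.2.2)
    (fun a u => T a1 c a u.1 u.2.1 (κ u.2.1) u.2.2) _ fun u hu v hv => ?_)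
  · refine sum_congr rfl fun a _ => ?_
    simp only [sum_product]
    congr 2
    refine sum_congr rfl fun b _ => sum_congr rfl fun d _ => ?_
    unfold T
    split_ifs <;> simp
  · simp only [mem_product] at hu hv
    exact pair h _ _ ha1 hc (hB _ hu.1) (hB _ hv.1) (hD _ hu.2.1).1 (hD _ hv.2.1).1
      (hD _ hu.2.1).2.1 ((hD _ hu.2.1).2.2 _ hv.2.1)

end Pool.Agent.P.MP_746f10_nt.P2
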