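import Pool.Agent.P.MP_746f10_nt.P2.All
import Pool.Agent.P.MP_746f10_nt.P2.CelI
import Pool.Agent.P.MP_746f10_nt.Cel.All

/-! Almost all tuples: primes and almost primes at the same point, infinitely often. -/

namespace Pool.Agent.P.MP_746f10_nt.P2

open Finset Cel

theorem pickI {m M K : ℕ} (a b : Fin M × Fin K → ℕ)
    (h : ∀ N, ∃ n, N ≤ n ∧ AllP2 a b n ∧ Many m a b n) :
    ∃ (I : Finset (Fin M)) (σ : Fin M → Fin K), I.card = m + 1 ∧
      Set.Infinite {n : ℕ | (∀ i ∈ I, (a (i, σ i) * n + b (i, σ i)).Prime) ∧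
        ∀ i, (a (i, σ i) * n + b (i, σ i)).primeFactorsList.length ≤ 2} := by
  classical
  by_contra hc
  have hf : ∀ q : Finset (Fin M) × (Fin M → Fin K), Set.Finite
      {n : ℕ | q.1.card = m + 1 ∧ (∀ i ∈ q.1, (a (i, q.2 i) * n + b (i, q.2 i)).Prime) ∧
        ∀ i, (a (i, q.2 i) * n + b (i, q.2 i)).primeFactorsList.length ≤ 2} := by
    intro q
    by_cases hq : q.1.card = m + 1
    · by_contra hi
      refine hc ⟨q.1, q.2, hq, fun hfin => hi (hfin.subset fun n hn => hn.2)⟩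
    · exact Set.finite_empty.subset fun n hn => (hq hn.1).elim
  obtain ⟨B, hB⟩ := (Set.finite_iUnion hf).bddAbove
  obtain ⟨n, hn, h2, I, hI, hp⟩ := h (B + 1)
  obtain ⟨I', hI', hcard⟩ := exists_subset_card_eq (show m + 1 ≤ I.card from hI)
  have hs : ∀ i : Fin M, ∃ s : Fin K, (i ∈ I → (a (i, s) * n + b (i, s)).Prime) ∧
      (a (i, s) * n + b (i, s)).primeFactorsList.length ≤ 2 := by
    intro i
    by_cases hi : i ∈ I
    · obtain ⟨s, hs⟩ := hp i hi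
      exact ⟨s, fun _ => hs, by rw [Nat.primeFactorsList_prime hs]; simp⟩
    · obtain ⟨s, hs⟩ := h2 i
      exact ⟨s, fun h => (hi h).elim, hs⟩
  choose σ hσ using hs
  have : n ≤ B := hB (Set.mem_iUnion.2
    ⟨(I', σ), hcard, fun i hi => (hσ i).1 (hI' hi), fun i => (hσ i).2⟩)
  omega

theorem mainI (m k : ℕ) (hk : 4 * m < k) : ∃ C c : ℝ, 0 < C ∧ 0 < c ∧
    ∀ (K : ℕ) (F : Fin k → Finset (ℕ × ℕ)),
    1 ≤ K → (∀ i, K ≤ (F i).card) → (∀ i, ∀ x ∈ F i, 0 < x.1) →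
    (Set.ncard {t : Fin k → ℕ × ℕ | (∀ i, t i ∈ F i) ∧
      (∀ p : ℕ, p.Prime → ∃ n : ℕ, ∀ i, ¬ p ∣ (t i).1 * n + (t i).2) ∧
      ¬ ∃ I : Finset (Fin k), I.card = m + 1 ∧ Set.InjOn t I ∧
        Set.Infinite {n : ℕ | (∀ i ∈ I, ((t i).1 * n + (t i).2).Prime) ∧
          ∀ i, ((t i).1 * n + (t i).2).primeFactorsList.length ≤ 2}} : ℝ) ≤
      C * (K : ℝ) ^ (-c) * ∏ i, ((F i).card : ℝ) := by
  obtain ⟨K1, K0, hK1, hcell⟩ := cellI det_all pHC1 hc2_all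
    (pErr pErr0 Pool.Agent.P.MP_0ad054_nt.An.bv_all) pErr0 pJJ pPair pMst hk
  obtain ⟨C, c, hC, hc, hred⟩ := pRedG pBox k K1 hK1
  refine ⟨C, c, hC, hc, fun K F hK hF hpos => hred (fun t => ∃ I : Finset (Fin k),
    I.card = m + 1 ∧ Set.InjOn t I ∧ Set.Infinite {n : ℕ |
      (∀ i ∈ I, ((t i).1 * n + (t i).2).Prime) ∧
        ∀ i, ((t i).1 * n + (t i).2).primeFactorsList.length ≤ 2}) K F hK hF
    fun x hx hxF hadm => ?_⟩
  obtain ⟨Δ, n0, hΔ, hN⟩ := Norm.exists_Nrm (fun l => (x l).1) (fun l => (x l).2) K0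
    (fun l => hpos l.1 _ (hxF l)) hadm hx
  have e : ∀ l n, (x l).1 * (Δ * n + n0) + (x l).2 = (x l).1 * Δ * n + ((x l).1 * n0 + (x l).2) :=
    fun l n => by ring
  obtain ⟨I, σ, hI, hinf⟩ := pickI (m := m) (fun l => (x l).1) (fun l => (x l).2) fun N => by
    obtain ⟨n, hn, h2, I, hI, hp⟩ := hcell _ _ _ hN N
    exact ⟨Δ * n + n0, hn.trans ((Nat.le_mul_of_pos_left _ hΔ).trans (Nat.le_add_right _ _)),
      fun i => (h2 i).imp fun s hs => by beta_reduce; rw [e]; exact hs,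
      I, hI, fun i hi => (hp i hi).imp fun s hs => by beta_reduce; rw [e]; exact hs⟩
  exact ⟨σ, I, hI, fun i _ j _ h => congrArg Prod.fst (hx h), hinf⟩

end Pool.Agent.P.MP_746f10_nt.P2
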