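import Pool.Agent.P.MP_746f10_nt.P2.Defs

/-! Closure properties of the class of nonnegative bilinear divisor sums. -/

namespace Pool.Agent.P.MP_746f10_nt.P2

open Finset

lemma ms_nonneg (A : Finset ℕ) : 0 ≤ ms A := sum_nonneg fun _ _ => by positivity

lemma cdv_nonneg (A : Finset ℕ) (m : ℕ) : 0 ≤ cdv A m :=
  sum_nonneg fun _ _ => by split_ifs <;> norm_num

lemma bil_nonneg (A B : Finset ℕ) (m : ℕ) : 0 ≤ bil A B m :=
  sum_nonneg fun _ _ => sum_nonneg fun _ _ => by split_ifs <;> norm_num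

lemma cdv_one (m : ℕ) : cdv {1} m = 1 := by rw [cdv, sum_singleton, if_pos (one_dvd m)]

lemma ms_one : ms {1} = 1 := by simp [ms]

lemma Lv_one (R : ℕ) {Z : ℕ} (h : 1 ≤ Z) : Lv R Z {1} := fun a ha => by
  rw [mem_singleton.1 ha]
  exact ⟨le_rfl, h, fun p hp hd => absurd (Nat.dvd_one.1 hd) hp.one_lt.ne'⟩

lemma Lv.card_le {R Z : ℕ} {A : Finset ℕ} (h : Lv R Z A) : A.card ≤ Z := by
  simpa using card_le_card (t := Icc 1 Z) fun a ha => mem_Icc.2 ⟨(h a ha).1, (h a ha).2.1⟩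

lemma Lv.ms_le {R Z : ℕ} {A : Finset ℕ} (h : Lv R Z A) : ms A ≤ 1 + Real.log Z := by
  refine le_trans ?_ (sum_inv_le_log Z)
  simp only [ms, one_div]
  exact sum_le_sum_of_subset_of_nonneg (fun a ha => mem_Ioc.2 ⟨(h a ha).1, (h a ha).2.1⟩)
    fun _ _ _ => by positivity

namespace Pos

variable {R X : ℕ} {G G' : ℕ → ℝ} {κ κ' S S' : ℝ}

lemma nonneg (h : Pos R X G κ S) (m : ℕ) : 0 ≤ G m := by
  obtain ⟨T, s, c, A, B, h1, -, h3, -⟩ := h
  rw [h3]
  exact sum_nonneg fun t ht => mul_nonneg (h1 t ht).1 (bil_nonneg _ _ _)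

lemma mean_nonneg (h : Pos R X G κ S) : 0 ≤ κ := by
  obtain ⟨T, s, c, A, B, h1, -, -, h4⟩ := h
  rw [h4]
  exact sum_nonneg fun t ht => mul_nonneg (h1 t ht).1 (mul_nonneg (ms_nonneg _) (ms_nonneg _))

lemma wt_nonneg (h : Pos R X G κ S) : 0 ≤ S := by
  obtain ⟨T, s, c, A, B, h1, h2, -, -⟩ := h
  exact (sum_nonneg fun t ht => (h1 t ht).1).trans h2

lemma mono (h : Pos R X G κ S) (hS : S ≤ S') : Pos R X G κ S' := by
  obtain ⟨T, s, c, A, B, h1, h2, h3, h4⟩ := h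
  exact ⟨T, s, c, A, B, h1, h2.trans hS, h3, h4⟩

lemma congr (h : Pos R X G κ S) (hG : ∀ m, G' m = G m) (hκ : κ' = κ) : Pos R X G' κ' S := by
  rw [show G' = G from funext hG, hκ]; exact h

lemma basic {A B : Finset ℕ} (hA : Lv R (X ^ 994) A) (hB : Lv R (X ^ 102) B) :
    Pos R X (bil A B) (ms A * ms B) 1 :=
  ⟨Unit, {()}, fun _ => 1, fun _ => A, fun _ => B, fun _ _ => ⟨zero_le_one, hA, hB⟩, by simp,
    by simp, by simp⟩

lemma zero : Pos R X (fun _ => 0) 0 0 :=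
  ⟨Unit, ∅, fun _ => 1, fun _ => ∅, fun _ => ∅, by simp, by simp, by simp, by simp⟩

lemma smul (h : Pos R X G κ S) {x : ℝ} (hx : 0 ≤ x) :
    Pos R X (fun m => x * G m) (x * κ) (x * S) := by
  obtain ⟨T, s, c, A, B, h1, h2, h3, h4⟩ := h
  refine ⟨T, s, fun t => x * c t, A, B, fun t ht => ⟨mul_nonneg hx (h1 t ht).1, (h1 t ht).2⟩, ?_,
    fun m => ?_, ?_⟩
  · rw [← mul_sum]; exact mul_le_mul_of_nonneg_left h2 hx
  · simp only [h3, mul_sum, mul_assoc]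
  · simp only [h4, mul_sum, mul_assoc]

lemma add (h : Pos R X G κ S) (h' : Pos R X G' κ' S') :
    Pos R X (fun m => G m + G' m) (κ + κ') (S + S') := by
  obtain ⟨T, s, c, A, B, h1, h2, h3, h4⟩ := h
  obtain ⟨T', s', c', A', B', h1', h2', h3', h4'⟩ := h'
  refine ⟨T ⊕ T', s.disjSum s', Sum.elim c c', Sum.elim A A', Sum.elim B B', fun t ht => ?_, ?_,
    fun m => ?_, ?_⟩
  · rcases t with t | t
    · exact h1 t (inl_mem_disjSum.1 ht)
    · exact h1' t (inr_mem_disjSum.1 ht)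
  · rw [sum_disjSum]; exact add_le_add h2 h2'
  · rw [sum_disjSum]; exact congrArg₂ (· + ·) (h3 m) (h3' m)
  · rw [sum_disjSum, h4, h4']; rfl

lemma sum {α : Type*} (s : Finset α) {G : α → ℕ → ℝ} {κ S : α → ℝ}
    (h : ∀ i ∈ s, Pos R X (G i) (κ i) (S i)) :
    Pos R X (fun m => ∑ i ∈ s, G i m) (∑ i ∈ s, κ i) (∑ i ∈ s, S i) := by
  classical
  induction s using Finset.induction_on with
  | empty => simpa using zero
  | insert i s hi ih =>
    simp only [sum_insert hi]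
    exact (h i (mem_insert_self _ _)).add (ih fun j hj => h j (mem_insert_of_mem hj))

end Pos

end Pool.Agent.P.MP_746f10_nt.P2
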