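import Pool.Agent.P.MP_746f10_nt.P2.Core

/-! Almost primes in every cell at a fixed scale. -/

set_option linter.unusedSectionVars false

namespace Pool.Agent.P.MP_746f10_nt.P2

open Finset

namespace ScaleP

lemma pr_num {S11 S12 S21 S22 k11 k12 k21 k22 κ1 κ2 P Pm ε y T u δ : ℝ}
    (h11 : |S11 - k11 * P| ≤ ε * (k11 * P) + y * (k11 + 1))
    (h12 : |S12 - k12 * P| ≤ ε * (k12 * P) + y * (k12 + 1))
    (h21 : |S21 - k21 * P| ≤ ε * (k21 * P) + y * (k21 + 1))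
    (h22 : |S22 - k22 * P| ≤ ε * (k22 * P) + y * (k22 + 1))
    (a11 : k11 ≤ κ1 * κ1) (a12 : k12 ≤ κ1 * κ2) (a21 : k21 ≤ κ2 * κ1) (a22 : k22 ≤ κ2 * κ2)
    (b12 : κ1 * κ2 - k12 ≤ δ) (b21 : κ2 * κ1 - k21 ≤ δ) (hP : 0 ≤ P) (hPm : P ≤ Pm)
    (h1 : 0 ≤ κ1) (h2 : 0 ≤ κ2) (hT : κ1 + κ2 ≤ T) (hT1 : 1 ≤ T) (hε : 0 ≤ ε) (hy : 0 ≤ y)
    (c1 : 2 * δ ≤ u) (c2 : ε * T ^ 2 ≤ u) (c3 : 5 * y * T ^ 2 ≤ u * Pm) :
    S11 - S12 - S21 + S22 ≤ ((κ1 - κ2) ^ 2 + 3 * u) * Pm := by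
  have e1 : k11 + k12 + k21 + k22 ≤ T ^ 2 := by
    have : (κ1 + κ2) ^ 2 ≤ T ^ 2 := pow_le_pow_left₀ (by linarith) hT 2
    nlinarith
  have e2 : k11 - k12 - k21 + k22 ≤ (κ1 - κ2) ^ 2 + u := by nlinarith
  have hu : 0 ≤ u := le_trans (by positivity) c2
  have e3 := mul_le_mul_of_nonneg_right e2 hP
  have e4 : ε * (k11 + k12 + k21 + k22) * P ≤ u * P :=
    mul_le_mul_of_nonneg_right ((mul_le_mul_of_nonneg_left e1 hε).trans c2) hP
  have e5 : y * (k11 + k12 + k21 + k22 + 4) ≤ y * (5 * T ^ 2) :=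
    mul_le_mul_of_nonneg_left (by nlinarith) hy
  have e6 := mul_le_mul_of_nonneg_left hPm (show 0 ≤ (κ1 - κ2) ^ 2 + 2 * u by positivity)
  have := (abs_le.1 h11).2
  have := (abs_le.1 h12).1
  have := (abs_le.1 h21).1
  have := (abs_le.1 h22).2
  nlinarith

lemma ln_num {S1 S2 κ1 κ2 P Pm ε y T t : ℝ}
    (h1 : |S1 - κ1 * P| ≤ ε * (κ1 * P) + y * (κ1 + 1))
    (h2 : |S2 - κ2 * P| ≤ ε * (κ2 * P) + y * (κ2 + 1))
    (hP : 0 ≤ P) (hPm : (1 - t) * Pm ≤ P) (hPm0 : 0 ≤ Pm) (hκ : 0 ≤ κ1 - κ2) (hT : κ1 + κ2 ≤ T)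
    (hT1 : 1 ≤ T) (hε : 0 ≤ ε) (hy : 0 ≤ y) (ht : t ≤ 1)
    (c2 : ε * T ≤ t * (κ1 - κ2)) (c3 : 3 * y * T ≤ t * (κ1 - κ2) * Pm) :
    (κ1 - κ2) * Pm * (1 - 3 * t) ≤ S1 - S2 := by
  have e4 : ε * (κ1 + κ2) * P ≤ t * (κ1 - κ2) * P :=
    mul_le_mul_of_nonneg_right ((mul_le_mul_of_nonneg_left hT hε).trans c2) hP
  have e5 : y * (κ1 + κ2 + 2) ≤ y * (3 * T) := mul_le_mul_of_nonneg_left (by linarith) hy
  have e6 := mul_le_mul_of_nonneg_left hPm (mul_nonneg hκ (show 0 ≤ 1 - t by linarith))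
  have e7 := mul_nonneg (mul_nonneg hκ hPm0) (sq_nonneg t)
  have := (abs_le.1 h1).1
  have := (abs_le.1 h2).2
  nlinarith

end ScaleP

open ScaleP Classical in
theorem scale (hH : S_HC1) (hJ : Cel.S_JJ) {M K : ℕ} {a b : Fin M × Fin K → ℕ}
    {K0 v k w s M1 X D2 e e' Lvl q0 J : ℕ} {ε ε2 Θ η Em κ1 κ2 S T Λ δ : ℝ} {G1 G2 : ℕ → ℝ}
    (h : Sd a b K0 v k w s (w ^ (s * M1)) X D2 e e' Lvl ε Θ η Em)
    (sv : SieveW (GP a w) (w ^ s) (k + 3) ε) (s2 : SieveW (PP w (w ^ (s * M1))) D2 2 ε2)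
    (hG1 : Pos (w ^ (s * M1)) X G1 κ1 S) (hG2 : Pos (w ^ (s * M1)) X G2 κ2 S)
    (hS : S * (X : ℝ) ^ 1096 ≤ Em)
    (hP : ∀ (G G' : ℕ → ℝ) (κ κ' : ℝ), Pos (w ^ (s * M1)) X G κ S → Pos (w ^ (s * M1)) X G' κ' S →
      ∃ κ'' : ℝ, 0 ≤ κ'' ∧ κ'' ≤ κ * κ' ∧ κ * κ' - κ'' ≤ δ ∧
      ∀ a1 b1 a2 b2 q c N : ℕ, Sep (w ^ (s * M1)) a1 b1 a2 b2 → b1 < a1 → b2 < a2 → 0 < q →
        a1 * q ≤ X → a2 * q ≤ X → (∀ p : ℕ, p.Prime → p ∣ q → p ≤ w ^ (s * M1)) → q ≤ N →
        N ≤ X ^ 2000 → |∑ n ∈ Ico N (2 * N), G (a1 * n + b1) * G' (a2 * n + b2) *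
          (if n ≡ c [MOD q] then 1 else 0) - (N : ℝ) * κ'' / q| ≤ Em)
    (hT1 : 1 ≤ T) (hT2 : κ1 + κ2 ≤ T) (hT3 : 1 / T ≤ κ1 - κ2)
    (hΛ : ∀ m, 1 ≤ m → m ≤ X ^ 2001 → |G1 m - G2 m| ≤ Λ)
    (hsign : ∀ m, 1 ≤ m → m ≤ X ^ 2001 → rough (w ^ (s * M1)) m →
      (∀ p : ℕ, p.Prime → X ^ 274 < p → p ≤ X ^ 986 → ¬ p ^ 2 ∣ m) →
      G2 m < G1 m → m.primeFactorsList.length ≤ 2)
    (hq : 10 ≤ q0) (hs : 1 ≤ s) (hM1 : 4 * 2 ^ J ≤ M1) (hM2 : 4 * q0 * k * (J + 1) * CM ≤ M1)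
    (hε2 : 0 ≤ ε2) (c1 : ε2 * T ^ 4 ≤ 1 / q0) (c2 : 5 * η * T ^ 4 * Θ ^ 2 ≤ 1 / q0 * (1 / 4) ^ k)
    (c3 : 2 * δ * T ^ 2 ≤ 1 / q0) (c4 : 3 * Λ ^ 2 * T ^ 2 * (8 * CM ^ 2 * M1) ≤ 1 / q0 * K * (J + 1) ^ 2)
    (hK : 0 < K) :
    ∑ n ∈ (Om X).filter (fun n => ¬ AllP2 a b n), WW a b w s J (w ^ (s * M1)) n ≤
      (12 * M + 1) * (1 / q0) * ((X : ℝ) ^ 2000 * Vk a w * a2 w s J (w ^ (s * M1)) ^ k) ∧
    (X : ℝ) ^ 2000 * Vk a w * (JJ w s J (w ^ (s * M1)) (univ : Finset (Fin M × Fin K)) -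
      2 * (1 / q0) * a2 w s J (w ^ (s * M1)) ^ k) ≤ ∑ n ∈ Om X, WW a b w s J (w ^ (s * M1)) n := by
  have hw := h.hw
  have hq0 : (10 : ℝ) ≤ q0 := by exact_mod_cast hq
  have hCM := one_le_CM
  obtain ⟨k', rfl⟩ : ∃ k', k = k' + 2 := ⟨k - 2, by have := h.hk3; omega⟩
  have hM0 : 1 ≤ M1 := le_trans (Nat.one_le_iff_ne_zero.2 (by positivity)) hM1
  set R := w ^ (s * M1) with hR
  set t : ℝ := 1 / q0 with ht
  have t0 : 0 < t := by positivity
  have t2 : t ≤ 1 / 10 := by rw [ht]; gcongr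
  have hR1 : 1 ≤ R := Nat.one_le_pow _ _ (by omega)
  have hRs : w ^ (s * 2 ^ J) ≤ R :=
    Nat.pow_le_pow_right (by omega) (Nat.mul_le_mul_left _ (by omega))
  have A2 := a2_pos (w := w) (by omega) hs J
    (show w ^ s ≤ R from Nat.pow_le_pow_right (by omega) (Nat.le_mul_of_pos_right _ hM0))
  have hg := gain (w := w) (J := J) (by omega) hs hRs
  have lw : 0 < Real.log w := Real.log_pos (by exact_mod_cast (by omega : 1 < w))
  have hVV := VV_pos w
  have hs' : (0 : ℝ) < s := by exact_mod_cast hs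
  have hM' : (0 : ℝ) < M1 := by exact_mod_cast hM0
  have A1 : 0 < a1 w s J R ^ 2 := lt_of_lt_of_le (by positivity) hg
  have hTh := one_le_Th w R
  have hΘ1 : 1 ≤ Θ := hTh.trans h.hΘ
  have hV0 : 0 < Vj w R 1 := by rw [Vj_one]; positivity
  have hV1 : Vj w R 1 ≤ 1 := by rw [Vj_one]; exact inv_le_one_of_one_le₀ hTh
  have hVΘ : 1 ≤ Vj w R 1 * Θ := by
    rw [Vj_one, ← div_eq_inv_mul, one_le_div (by linarith)]; exact h.hΘ
  have hgain : (J + 1) ^ 2 * a2 w s J R ≤ Vj w R 1 * a1 w s J R ^ 2 * (8 * CM ^ 2 * M1) := by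
    have h1 := Th_le h.hwR (show 2 ≤ R from le_trans (by omega) h.hwR)
    have h2 : Real.log R = s * M1 * Real.log w := by
      rw [hR]; push_cast; rw [Real.log_pow]; push_cast; ring
    rw [h2] at h1
    rw [Vj_one, mul_assoc, ← div_eq_inv_mul, le_div_iff₀ (by linarith)]
    calc _ ≤ (J + 1) ^ 2 * a2 w s J R * (CM * VV w * (s * M1 * Real.log w)) := by gcongr
      _ = (J + 1) ^ 2 * (VV w * Real.log w * s) / (8 * CM) * a2 w s J R * (8 * CM ^ 2 * M1) := by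
          field_simp
      _ ≤ _ := by gcongr
  set α1 := a1 w s J R ^ 2
  set α2 := a2 w s J R
  set V := Vj w R 1
  set ν : ℝ := (1 / 4) ^ (k' + 2)
  set D := α2 ^ k' with hD
  have D0 : 0 < D := by positivity
  have four : ∀ I : Finset (Fin M × Fin K), ν ≤ JJ w s J R I :=
    fun I => by
      have := JJ_ge_four (w := w) (by omega) s J hR1 I
      rwa [h.hk] at this
  have ν0 : 0 < ν := by positivity
  have j0 : JJ w s J R (univ : Finset (Fin M × Fin K)) ≤ α2 ^ 2 * D := by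
    refine (JJ_le _ _ _ _ _).trans (le_of_eq ?_)
    rw [compl_univ, card_empty, card_univ, h.hk]; ring
  have d1 : ∀ x : Fin M × Fin K, ({x}ᶜ : Finset _).card = k' + 1 := fun x => by
    rw [card_compl, h.hk, card_singleton]; omega
  have j1 : ∀ x : Fin M × Fin K, JJ w s J R ({x}ᶜ : Finset _) ≤ α1 * α2 * D := fun x => by
    refine (JJ_le _ _ _ _ _).trans (le_of_eq ?_)
    rw [compl_compl, card_singleton, d1]; ring
  have j1' : ∀ x : Fin M × Fin K, (1 - t) * (α1 * α2 * D) ≤ JJ w s J R ({x}ᶜ : Finset _) :=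
    fun x => by
    refine le_trans (le_of_eq ?_) (hJ _ w s J M1 q0 {x}ᶜ (by omega) hs (by omega) (by simp) hM1
      (by rw [h.hk]; exact hM2))
    rw [compl_compl, card_singleton, d1]; ring
  have j2 : ∀ x y : Fin M × Fin K, x ≠ y → JJ w s J R ({x, y}ᶜ : Finset _) ≤ α1 ^ 2 * D :=
    fun x y hxy => by
    refine (JJ_le _ _ _ _ _).trans (le_of_eq ?_)
    rw [compl_compl, card_compl, card_pair hxy, h.hk]; rfl
  have hx := h.xpos
  have E0 := fun (I : Finset (Fin M × Fin K)) (hI : I.card ≤ 2) => h.ev0 sv s2 J hI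
  have E1 := fun G κ (hG : Pos R X G κ S) j => h.ev1 hH sv s2 J hG hS j
  have E2 := fun (G G' : ℕ → ℝ) κ h1 h2 hκ hc (i j : Fin M × Fin K) hij =>
    h.ev2 sv s2 J (G1 := G) (G2 := G') (κ := κ) h1 h2 hκ hc (i := i) (j := j) hij
  have sq := h.sq_le hH J
  generalize (X : ℝ) ^ 2000 * Vk a w = x at hx E0 E1 E2 sq ⊢
  set κ := κ1 - κ2 with hκ
  have hκT : 1 ≤ κ * T := by rwa [div_le_iff₀ (by linarith)] at hT3
  have κ0 : 0 < κ := lt_of_lt_of_le (by positivity) hT3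
  have hη := h.hη
  -- consequences of the size conditions
  have f1 : ε2 * T ^ 2 ≤ t * κ ^ 2 := by
    calc _ ≤ ε2 * T ^ 2 * (κ * T) ^ 2 :=
          le_mul_of_one_le_right (by positivity) (one_le_pow₀ hκT)
      _ = ε2 * T ^ 4 * κ ^ 2 := by ring
      _ ≤ _ := by gcongr
  have f2 : ε2 * T ≤ t * κ := by
    calc _ ≤ ε2 * T * (κ * T * T ^ 2) := le_mul_of_one_le_right (by positivity)
          (one_le_mul_of_one_le_of_one_le hκT (one_le_pow₀ hT1))
      _ = ε2 * T ^ 4 * κ := by ring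
      _ ≤ _ := by gcongr
  have f3 : ε2 ≤ t := (le_mul_of_one_le_right hε2 (one_le_pow₀ hT1)).trans c1
  have f4 : 5 * η * T ^ 2 ≤ t * ν * (κ ^ 2 * V ^ 2) := by
    calc _ ≤ 5 * η * T ^ 2 * ((κ * T) ^ 2 * (V * Θ) ^ 2) := le_mul_of_one_le_right (by positivity)
          (one_le_mul_of_one_le_of_one_le (one_le_pow₀ hκT) (one_le_pow₀ hVΘ))
      _ = 5 * η * T ^ 4 * Θ ^ 2 * (κ ^ 2 * V ^ 2) := by ring
      _ ≤ _ := by gcongr
  have f5 : 5 * η * T ≤ t * ν * (κ * V) := by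
    calc _ ≤ 5 * η * T * (κ * T * T ^ 2 * (V * Θ * Θ)) := le_mul_of_one_le_right (by positivity)
          (one_le_mul_of_one_le_of_one_le (one_le_mul_of_one_le_of_one_le hκT (one_le_pow₀ hT1))
            (one_le_mul_of_one_le_of_one_le hVΘ hΘ1))
      _ = 5 * η * T ^ 4 * Θ ^ 2 * (κ * V) := by ring
      _ ≤ _ := by gcongr
  have f6 : 5 * η ≤ t * ν * V := by
    calc _ ≤ 5 * η * (T ^ 4 * (V * Θ * Θ)) := le_mul_of_one_le_right (by positivity)
          (one_le_mul_of_one_le_of_one_le (one_le_pow₀ hT1)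
            (one_le_mul_of_one_le_of_one_le hVΘ hΘ1))
      _ = 5 * η * T ^ 4 * Θ ^ 2 * V := by ring
      _ ≤ _ := by gcongr
  have f7 : 5 * η ≤ t * ν := f6.trans (mul_le_of_le_one_right (by positivity) hV1)
  have f8 : 2 * δ ≤ t * κ ^ 2 := by
    rcases le_total δ 0 with h0 | h0
    · have : 0 ≤ t * κ ^ 2 := by positivity
      linarith
    calc _ ≤ 2 * δ * (κ * T) ^ 2 := le_mul_of_one_le_right (by positivity) (one_le_pow₀ hκT)
      _ = 2 * δ * T ^ 2 * κ ^ 2 := by ring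
      _ ≤ _ := by gcongr
  have f9 : 3 * Λ ^ 2 * α2 ≤ t * K * κ ^ 2 * (V * α1) := by
    refine le_of_mul_le_mul_right ?_ (show 0 < T ^ 2 * (8 * CM ^ 2 * M1) by positivity)
    calc _ = 3 * Λ ^ 2 * T ^ 2 * (8 * CM ^ 2 * M1) * α2 := by ring
      _ ≤ t * K * (J + 1) ^ 2 * α2 := by gcongr
      _ = t * K * ((J + 1) ^ 2 * α2) * 1 := by ring
      _ ≤ t * K * (V * α1 * (8 * CM ^ 2 * M1)) * (κ * T) ^ 2 := by
          gcongr; exact one_le_pow₀ hκT
      _ = _ := by ring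
  have n0 : ν ≤ α2 ^ 2 * D := (four univ).trans j0
  have tot := E0 ∅ (by simp)
  simp only [rho_empty, mul_one, card_empty, Vj_zero, one_mul, compl_empty] at tot
  have J0 : 0 ≤ JJ w s J R (univ : Finset (Fin M × Fin K)) := ν0.le.trans (four univ)
  have g1 : ε2 * (x * JJ w s J R (univ : Finset (Fin M × Fin K))) + η * x * 2 ≤
      2 * t * (x * (α2 ^ 2 * D)) := by
    have b1 : ε2 * (x * JJ w s J R (univ : Finset (Fin M × Fin K))) ≤ t * (x * (α2 ^ 2 * D)) := by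
      gcongr
    have b2 : η * x * 2 ≤ t * (x * (α2 ^ 2 * D)) := by
      calc _ ≤ 5 * η * x := by linarith [mul_nonneg hη hx.le]
        _ ≤ t * ν * x := by gcongr
        _ ≤ t * (α2 ^ 2 * D) * x := by gcongr
        _ = _ := by ring
    linarith
  have ek : α2 ^ (k' + 2) = α2 ^ 2 * D := by rw [hD]; ring
  rw [ek]
  refine ⟨?_, by have := (abs_le.1 tot).1; linarith⟩
  obtain ⟨k11, p1, p2, -, p4⟩ := hP _ _ _ _ hG1 hG1
  obtain ⟨k12, q1, q2, q3, q4⟩ := hP _ _ _ _ hG1 hG2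
  obtain ⟨k21, r1, r2, r3, r4⟩ := hP _ _ _ _ hG2 hG1
  obtain ⟨k22, u1, u2, -, u4⟩ := hP _ _ _ _ hG2 hG2
  have hK' : (0 : ℝ) < K := by exact_mod_cast hK
  set Y : Fin M × Fin K → ℕ → ℝ := fun l n =>
    rho a b w R {l} n * (G1 (a l * n + b l) - G2 (a l * n + b l)) with hY
  have cell : ∀ i : Fin M, ∑ n ∈ (Om X).filter (fun n => ∀ s', Y (i, s') n ≤ 0),
      WW a b w s J R n ≤ 12 * t * (x * (α2 ^ 2 * D)) := by
    intro i
    have hv := var (Ω := Om X) (W := WW a b w s J R) (Y := fun s' => Y (i, s'))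
      (c := K * (κ * V * α1) / α2) (dg := t * K * (κ * V * α1) ^ 2 * (x * D))
      (pr := (κ ^ 2 + 3 * (t * κ ^ 2)) * (x * (V ^ 2 * (α1 ^ 2 * D))))
      (ln := κ * (x * (V * (α1 * α2 * D))) * (1 - 3 * t)) (tot := (1 + 2 * t) * (x * (α2 ^ 2 * D)))
      (fun n _ => WW_nonneg _ _ _ _ _ _ _) (by positivity) (by positivity)
      (fun s' => by
        have b1 := (abs_le.1 (E0 {(i, s')} (by simp))).2
        rw [card_singleton] at b1
        have b2 : ∑ n ∈ Om X, Y (i, s') n ^ 2 * WW a b w s J R n ≤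
            Λ ^ 2 * ∑ n ∈ Om X, WW a b w s J R n * rho a b w R {(i, s')} n := by
          rw [mul_sum]
          refine sum_le_sum fun n hn => ?_
          have b3 := hΛ _ (h.val hn (i, s')).1 (h.val hn (i, s')).2
          have b4 := sq_le_sq' (abs_le.1 b3).1 (abs_le.1 b3).2
          have b5 := WW_nonneg a b w s J R n
          simp only [hY]
          rcases rho_01 a b w R {(i, s')} n with h0 | h0 <;> rw [h0]
          · simp
          · rw [one_mul, mul_one]; gcongr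
        have b6 : x * (V * JJ w s J R ({(i, s')}ᶜ : Finset _)) ≤ x * (V * (α1 * α2 * D)) := by
          gcongr; exact j1 _
        have b7 : ε2 * (x * (V * JJ w s J R ({(i, s')}ᶜ : Finset _))) ≤
            1 * (x * (V * (α1 * α2 * D))) := by
          have := ν0.le.trans (four {(i, s')}ᶜ)
          gcongr
          linarith
        have b8 : η * x * 2 ≤ x * (V * (α1 * α2 * D)) := by
          calc _ ≤ 5 * η * x := by linarith [mul_nonneg hη hx.le]
            _ ≤ t * ν * V * x := by gcongr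
            _ ≤ 1 * (α1 * α2 * D) * V * x := by
                gcongr
                · linarith
                · exact (four _).trans (j1 (i, s'))
            _ = _ := by ring
        calc _ ≤ _ := b2
          _ ≤ Λ ^ 2 * (3 * (x * (V * (α1 * α2 * D)))) := by gcongr; linarith
          _ = 3 * Λ ^ 2 * α2 * (V * α1 * (x * D)) := by ring
          _ ≤ t * K * κ ^ 2 * (V * α1) * (V * α1 * (x * D)) := by gcongr
          _ = _ := by ring)
      (fun s' t' hst => by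
        have hne : (i, s') ≠ (i, t') := fun e => hst (Prod.ext_iff.1 e).2
        have b0 := ν0.le.trans (four {(i, s'), (i, t')}ᶜ)
        have b1 := pr_num (E2 _ _ _ hG1.nonneg hG1.nonneg p1 p4 _ _ hne)
          (E2 _ _ _ hG1.nonneg hG2.nonneg q1 q4 _ _ hne)
          (E2 _ _ _ hG2.nonneg hG1.nonneg r1 r4 _ _ hne)
          (E2 _ _ _ hG2.nonneg hG2.nonneg u1 u4 _ _ hne) p2 q2 r2 u2 q3 r3
          (mul_nonneg hx.le (mul_nonneg (Vj_nonneg w R le_rfl) b0))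
          (Pm := x * (V ^ 2 * (α1 ^ 2 * D)))
          (mul_le_mul_of_nonneg_left (mul_le_mul (Vj_two_le w R) (j2 _ _ hne) b0 (sq_nonneg _)) hx.le)
          hG1.mean_nonneg hG2.mean_nonneg hT2 hT1 hε2 (mul_nonneg hη hx.le) f8 f1 (by
            calc _ = 5 * η * T ^ 2 * x := by ring
              _ ≤ t * ν * (κ ^ 2 * V ^ 2) * x := by gcongr
              _ ≤ t * (α1 ^ 2 * D) * (κ ^ 2 * V ^ 2) * x := by
                  gcongr; exact (four _).trans (j2 _ _ hne)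
              _ = _ := by ring)
        refine le_trans (le_of_eq ?_) b1
        rw [← sum_sub_distrib, ← sum_sub_distrib, ← sum_add_distrib]
        refine sum_congr rfl fun n _ => ?_
        simp only [hY]
        rw [← rho_pair]; ring)
      (fun s' => by
        have b1 := ln_num (E1 _ _ hG1 (i, s')) (E1 _ _ hG2 (i, s'))
          (mul_nonneg hx.le (mul_nonneg hV0.le (ν0.le.trans (four _))))
          (Pm := x * (V * (α1 * α2 * D))) (t := t)
          (by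
            calc _ = x * (V * ((1 - t) * (α1 * α2 * D))) := by ring
              _ ≤ _ := by gcongr; exact j1' _) (by positivity) κ0.le hT2 hT1 hε2
          (mul_nonneg hη hx.le) (by linarith) f2 (by
            calc _ ≤ 5 * η * T * x := by
                  linarith [mul_nonneg (mul_nonneg hη hx.le) (zero_le_one.trans hT1)]
              _ ≤ t * ν * (κ * V) * x := by gcongr
              _ ≤ t * (α1 * α2 * D) * (κ * V) * x := by
                  gcongr; exact (four _).trans (j1 (i, s'))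
              _ = _ := by ring)
        refine b1.trans (le_of_eq ?_)
        rw [← sum_sub_distrib]
        refine sum_congr rfl fun n _ => ?_
        simp only [hY]
        ring)
      (by
        have := (abs_le.1 tot).2
        have := mul_le_mul_of_nonneg_left j0 hx.le
        linarith)
    refine le_of_mul_le_mul_left (hv.trans (le_of_eq ?_))
      (show 0 < (K * (κ * V * α1) / α2) ^ 2 by positivity)
    field_simp
    ring
  have b2 : η * x ≤ t * (x * (α2 ^ 2 * D)) := by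
    calc _ ≤ 5 * η * x := by linarith [mul_nonneg hη hx.le]
      _ ≤ t * ν * x := by gcongr
      _ ≤ t * (α2 ^ 2 * D) * x := by gcongr
      _ = _ := by ring
  calc _ ≤ ∑ n ∈ Om X, ((∑ i : Fin M, if ∀ s', Y (i, s') n ≤ 0 then WW a b w s J R n else 0) +
        if ∃ l, ∃ p : ℕ, p.Prime ∧ X ^ 274 < p ∧ p ≤ X ^ 986 ∧ p ^ 2 ∣ a l * n + b l then
          WW a b w s J R n else 0) := by
        rw [sum_filter]
        refine sum_le_sum fun n hn => ?_
        have b5 := WW_nonneg a b w s J R n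
        have b6 : ∀ i : Fin M, 0 ≤ if ∀ s', Y (i, s') n ≤ 0 then WW a b w s J R n else 0 :=
          fun i => by split_ifs; exacts [b5, le_rfl]
        have b7 := sum_nonneg fun i (_ : i ∈ univ) => b6 i
        by_cases h1 : AllP2 a b n
        · rw [if_neg (not_not.2 h1)]; split_ifs <;> linarith
        rw [if_pos h1]
        by_cases h2 : ∃ l, ∃ p : ℕ, p.Prime ∧ X ^ 274 < p ∧ p ≤ X ^ 986 ∧ p ^ 2 ∣ a l * n + b l
        · rw [if_pos h2]; linarith
        rw [if_neg h2, add_zero]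
        by_cases h3 : rg a b w n = 0
        · rw [WW, h3, zero_mul] ; rwa [WW, h3, zero_mul] at b7
        obtain ⟨i, hi⟩ := not_forall.1 h1
        refine le_trans (le_of_eq (if_pos fun s' => ?_).symm)
          (single_le_sum (fun i _ => b6 i) (mem_univ i))
        simp only [hY]
        rcases rho_01 a b w R {(i, s')} n with h0 | h0
        · rw [h0, zero_mul]
        rw [h0, one_mul, sub_nonpos]
        by_contra h4
        refine hi ⟨s', hsign _ (h.val hn _).1 (h.val hn _).2 (fun p hp hd => ?_)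
          (fun p hp h5 h6 h7 => h2 ⟨_, p, hp, h5, h6, h7⟩) (not_le.1 h4)⟩
        by_contra h5
        exact ev_eq_zero.1 (rho_spec (by rw [h0]; norm_num) p (mem_PP.2
          ⟨h.hN.rough_of_rg h3 _ p hp hd, not_lt.1 h5, hp⟩)) _ (mem_singleton_self _) hd
    _ ≤ ∑ _i : Fin M, 12 * t * (x * (α2 ^ 2 * D)) + t * (x * (α2 ^ 2 * D)) := by
        rw [sum_add_distrib, sum_comm]
        refine add_le_add (sum_le_sum fun i _ => ?_) ?_
        · rw [← sum_filter]; exact cell i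
        · rw [← sum_filter]; exact sq.trans b2
    _ = _ := by rw [sum_const, card_univ, Fintype.card_fin, nsmul_eq_mul]; ring

end Pool.Agent.P.MP_746f10_nt.P2
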